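import Pool.Agent.Lib.MP_06b9d2_bm.Defs

/-!
Module BM-AbsA. The abstract theorem, first part.

`evF_add`, `evF_C_mul`, `evF_mul`: `Polynomial.aeval` is a ring homomorphism. `evF_smul`: the same with a constant `z ∈ O`.
`sp_ex`: induction on `P` (`Polynomial.induction_on` or `Polynomial.induction_on'`): `S_{P + Q} = S_P + S_Q`, `S_{C z} = z`, `S_{X P} = ψ ∘ S_P` with `ψ = W⁻¹ (A₀ - c₀)`, which commutes with `A` (`h.comm`) and satisfies
`ψ (evF F) = evF (X F) + p evF G` (`h.base`). `p ∈ O`, so that all errors are `p evF (..)`.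
`stp`: `evF P = S_P (evF 1) - p evF G`, hence `A (evF P) = S_P (A (evF 1)) - p A (evF G)`, `A (evF 1) = h₀ evF 1 + η (evF a + ϖ evF r)`, `S_P (evF a) = evF (P a) + p evF G'`, `S_P (evF r) = evF (P r) + p evF G''`,
`p = ϖ z` with `z ∈ O`; and `S_P (evF 1) = evF P + p evF G` again.
`itr`: induction on `B`: apply `stp` to `Q`; the new term `(-p) ^ B η (evF (a Q) + ϖ evF G₁)`, `B ≥ 1`, is `η ϖ evF (..)`.
-/

namespace Pool.Agent.Lib.MP_06b9d2_bm

variable {O : ValuationSubring ℂ} {N : ℕ} {p δ c₀ W : ℂ} {A₀ A : (Fin (N + 1) → ℂ) →ₗ[ℂ] (Fin (N + 1) → ℂ)}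

theorem evF_add (P Q : Polynomial O) : evF O N (P + Q) = evF O N P + evF O N Q := by
  funext s
  simp only [evF, map_add, Pi.add_apply]

theorem evF_mul (P Q : Polynomial O) (s : Fin (N + 1)) : evF O N (P * Q) s = evF O N P s * evF O N Q s := by
  simp only [evF, map_mul]

private theorem AbsA_C (z : O) (P : Polynomial O) : evF O N (Polynomial.C z * P) = (z : ℂ) • evF O N P := by
  funext s
  simp only [evF, map_mul, Polynomial.aeval_C, Pi.smul_apply, smul_eq_mul]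
  rfl

theorem evF_smul (z : ℂ) (hz : O.valuation z ≤ 1) (P : Polynomial O) : ∃ Q : Polynomial O,
    z • evF O N P = evF O N Q :=
  ⟨Polynomial.C ⟨z, (O.valuation_le_one_iff z).1 hz⟩ * P,
    (AbsA_C (⟨z, (O.valuation_le_one_iff z).1 hz⟩ : O) P).symm⟩

theorem evF_int (P : Polynomial O) (s : Fin (N + 1)) : O.valuation (evF O N P s) ≤ 1 := by
  have h1 : qv N (s : ℕ) ∈ O := by
    unfold qv
    exact sub_mem (pow_mem (natCast_mem O _) 2) (mul_mem (natCast_mem O _) (natCast_mem O _))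
  have h2 : evF O N P s = algebraMap O ℂ (Polynomial.aeval (⟨qv N (s : ℕ), h1⟩ : O) P) := by
    unfold evF
    rw [← Polynomial.aeval_algebraMap_apply]
    rfl
  rw [h2]
  exact O.valuation_le_one _

private theorem AbsA_p (h : Bas O N p δ c₀ W A₀ A) (P : Polynomial O) : ∃ Q : Polynomial O,
    p • evF O N P = evF O N Q := evF_smul p h.hp.le P

/-- the basic operator -/
private noncomputable def AbsA_psi (c₀ W : ℂ) (A₀ : (Fin (N + 1) → ℂ) →ₗ[ℂ] (Fin (N + 1) → ℂ)) :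
    (Fin (N + 1) → ℂ) →ₗ[ℂ] (Fin (N + 1) → ℂ) := W⁻¹ • (A₀ - c₀ • LinearMap.id)

private theorem AbsA_psi_apply (v : Fin (N + 1) → ℂ) : AbsA_psi c₀ W A₀ v = W⁻¹ • (A₀ v - c₀ • v) := by
  unfold AbsA_psi
  simp only [LinearMap.smul_apply, LinearMap.sub_apply, LinearMap.id_apply]

private theorem AbsA_psi_comm (h : Bas O N p δ c₀ W A₀ A) (v : Fin (N + 1) → ℂ) :
    AbsA_psi c₀ W A₀ (A v) = A (AbsA_psi c₀ W A₀ v) := by
  rw [AbsA_psi_apply, AbsA_psi_apply, map_smul, map_sub, map_smul, h.comm]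

private theorem AbsA_psi_evF (h : Bas O N p δ c₀ W A₀ A) (F : Polynomial O) : ∃ G : Polynomial O,
    AbsA_psi c₀ W A₀ (evF O N F) = evF O N (Polynomial.X * F) + p • evF O N G := by
  obtain ⟨G, hG⟩ := h.base F
  refine ⟨G, ?_⟩
  rw [AbsA_psi_apply, hG, add_sub_cancel_left, smul_smul, inv_mul_cancel₀ h.hW, one_smul]

theorem sp_ex (h : Bas O N p δ c₀ W A₀ A) (P : Polynomial O) :
    ∃ S : (Fin (N + 1) → ℂ) →ₗ[ℂ] (Fin (N + 1) → ℂ), (∀ v, S (A v) = A (S v)) ∧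
      ∀ F : Polynomial O, ∃ G : Polynomial O, S (evF O N F) = evF O N (P * F) + p • evF O N G := by
  induction P using Polynomial.induction_on with
  | C a =>
    refine ⟨(a : ℂ) • LinearMap.id, fun v => ?_, fun F => ⟨0, ?_⟩⟩
    · simp only [LinearMap.smul_apply, LinearMap.id_apply, map_smul]
    · rw [AbsA_C]
      have h0 : evF O N (0 : Polynomial O) = 0 := by
        funext s
        simp only [evF, map_zero, Pi.zero_apply]
      rw [h0, smul_zero, add_zero]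
      simp only [LinearMap.smul_apply, LinearMap.id_apply]
  | add P Q hP hQ =>
    obtain ⟨S, hS, hS'⟩ := hP
    obtain ⟨T, hT, hT'⟩ := hQ
    refine ⟨S + T, fun v => ?_, fun F => ?_⟩
    · rw [LinearMap.add_apply, LinearMap.add_apply, hS, hT, map_add]
    · obtain ⟨G, hG⟩ := hS' F
      obtain ⟨G', hG'⟩ := hT' F
      refine ⟨G + G', ?_⟩
      rw [LinearMap.add_apply, hG, hG', add_mul, evF_add, evF_add, smul_add]
      abel
  | monomial n a hP =>
    obtain ⟨S, hS, hS'⟩ := hP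
    refine ⟨(AbsA_psi c₀ W A₀).comp S, fun v => ?_, fun F => ?_⟩
    · rw [LinearMap.comp_apply, LinearMap.comp_apply, hS, AbsA_psi_comm h]
    · obtain ⟨G, hG⟩ := hS' F
      obtain ⟨G₁, hG₁⟩ := AbsA_psi_evF h (Polynomial.C a * Polynomial.X ^ n * F)
      obtain ⟨G₂, hG₂⟩ := AbsA_psi_evF h G
      obtain ⟨G₃, hG₃⟩ := AbsA_p h G₂
      refine ⟨G₁ + (Polynomial.X * G + G₃), ?_⟩
      rw [LinearMap.comp_apply, hG, map_add, map_smul, hG₁, hG₂, hG₃, evF_add, evF_add]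
      have h1 : Polynomial.X * (Polynomial.C a * Polynomial.X ^ n * F) =
          Polynomial.C a * Polynomial.X ^ (n + 1) * F := by ring
      rw [h1]
      module

private theorem AbsA_div {z ϖ : ℂ} (hz : O.valuation z ≤ O.valuation ϖ) (hϖ : ϖ ≠ 0) :
    O.valuation (z / ϖ) ≤ 1 := by
  have hv : O.valuation ϖ ≠ 0 := (map_ne_zero _).mpr hϖ
  rw [map_div₀, div_le_iff₀ (zero_lt_iff.2 hv), one_mul]
  exact hz

private theorem AbsA_ne (h : Bas O N p δ c₀ W A₀ A) {ϖ : ℂ} (hϖ : O.valuation p ≤ O.valuation ϖ) : ϖ ≠ 0 := by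
  rintro rfl
  rw [map_zero, le_zero_iff, _root_.map_eq_zero] at hϖ
  exact h.p0 hϖ

theorem stp (h : Bas O N p δ c₀ W A₀ A) (h₀ η ϖ : ℂ) (hϖ : O.valuation p ≤ O.valuation ϖ) (a r : Polynomial O)
    (h1 : A (evF O N 1) = h₀ • evF O N 1 + η • (evF O N a + ϖ • evF O N r)) (P : Polynomial O) :
    ∃ G Q : Polynomial O, A (evF O N P) - h₀ • evF O N P =
      η • (evF O N (a * P) + ϖ • evF O N G) + (-p) • (A (evF O N Q) - h₀ • evF O N Q) := by
  have hne := AbsA_ne h hϖ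
  obtain ⟨S, hS, hS'⟩ := sp_ex h P
  obtain ⟨G₀, hG₀⟩ := hS' 1
  obtain ⟨G₁, hG₁⟩ := hS' a
  obtain ⟨G₂, hG₂⟩ := hS' r
  obtain ⟨G₃, hG₃⟩ := evF_smul (N := N) (p / ϖ) (AbsA_div hϖ hne) G₁
  obtain ⟨G₄, hG₄⟩ := AbsA_p h G₂
  rw [mul_one] at hG₀
  refine ⟨G₃ + (P * r + G₄), G₀, ?_⟩
  have e1 : evF O N P = S (evF O N 1) - p • evF O N G₀ := by
    rw [hG₀]
    abel
  have e2 : A (evF O N P) = h₀ • (evF O N P + p • evF O N G₀) +
      η • ((evF O N (P * a) + p • evF O N G₁) + ϖ • (evF O N (P * r) + p • evF O N G₂)) -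
        p • A (evF O N G₀) := by
    conv_lhs => rw [e1]
    rw [map_sub, map_smul, ← hS, h1, map_add, map_smul, map_smul, map_add, map_smul, hG₀, hG₁, hG₂]
  have e3 : p • evF O N G₁ = ϖ • evF O N G₃ := by
    rw [← hG₃, smul_smul, mul_div_cancel₀ _ hne]
  rw [e2, e3, hG₄, evF_add, evF_add, mul_comm P a]
  module

theorem itr (h : Bas O N p δ c₀ W A₀ A) (h₀ η ϖ : ℂ) (hϖ : O.valuation p ≤ O.valuation ϖ) (a r : Polynomial O)
    (h1 : A (evF O N 1) = h₀ • evF O N 1 + η • (evF O N a + ϖ • evF O N r)) (B : ℕ) (hB : 1 ≤ B)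
    (P : Polynomial O) :
    ∃ G Q : Polynomial O, A (evF O N P) - h₀ • evF O N P =
      η • (evF O N (a * P) + ϖ • evF O N G) + (-p) ^ B • (A (evF O N Q) - h₀ • evF O N Q) := by
  have hne := AbsA_ne h hϖ
  induction B, hB using Nat.le_induction with
  | base =>
    obtain ⟨G, Q, hGQ⟩ := stp h h₀ η ϖ hϖ a r h1 P
    exact ⟨G, Q, by rw [pow_one]; exact hGQ⟩
  | succ B hB ih =>
    obtain ⟨G, Q, hGQ⟩ := ih
    obtain ⟨G₁, Q₁, hQ₁⟩ := stp h h₀ η ϖ hϖ a r h1 Q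
    have hv : O.valuation ((-p) ^ B) ≤ O.valuation p := by
      rw [map_pow, Valuation.map_neg]
      calc O.valuation p ^ B ≤ O.valuation p ^ 1 := pow_le_pow_right_of_le_one' h.hp.le hB
        _ = O.valuation p := pow_one _
    obtain ⟨G₂, hG₂⟩ := evF_smul (N := N) ((-p) ^ B / ϖ) (AbsA_div (hv.trans hϖ) hne) (a * Q)
    obtain ⟨G₃, hG₃⟩ := evF_smul (N := N) ((-p) ^ B) (hv.trans h.hp.le) G₁
    refine ⟨G + (G₂ + G₃), Q₁, ?_⟩
    have e1 : (-p) ^ B • evF O N (a * Q) = ϖ • evF O N G₂ := by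
      rw [← hG₂, smul_smul, mul_div_cancel₀ _ hne]
    rw [hGQ, hQ₁, evF_add, evF_add, ← hG₃]
    have e2 : (-p) ^ B • (η • (evF O N (a * Q) + ϖ • evF O N G₁) +
        (-p) • (A (evF O N Q₁) - h₀ • evF O N Q₁)) =
        η • ((-p) ^ B • evF O N (a * Q) + ϖ • (-p) ^ B • evF O N G₁) +
          (-p) ^ (B + 1) • (A (evF O N Q₁) - h₀ • evF O N Q₁) := by
      rw [pow_succ]
      module
    rw [e2, e1]
    module

end Pool.Agent.Lib.MP_06b9d2_bm
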