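import Pool.Agent.Lib.MP_06b9d2_bm.AbsA

/-!
Module BM-AbsB. The abstract theorem, second part: `A` is `h₀ + η (a(q) + ϖ (..))`.

`lb`: `itr` with `B = w + 1` at `s` (`hl`): `A (evF P) s = η (..) + (-p) ^ (w + 1) (..)`, both brackets in `O` (`evF_int`, `h.pres`, `h₀ ∈ O`, `ϖ ∈ O`), so `v(p ^ w) ≤ max (v η, v(p ^ (w + 1)))`, and `v(p ^ (w + 1)) < v(p ^ w)`.
`mul_of`: `H` from `h.one`; `hᵢ = δ ^ i H.coeff i` (in `O`), `A (evF 1) = ∑ hᵢ q ^ i` (`evF 1 = 1`), `h₀` is the term `i = 0`.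
If `hᵢ = 0` for all `i ≥ 1`: `lb` with `η = p ^ (w + 1)`, `ϖ = p`, `a = r = 0`: contradiction. Otherwise let `m` be the maximum of the `v(hᵢ)`, `i ≥ 1`, and `d ≥ 1` the largest index with `v(h_d) = m`, `η = h_d ≠ 0`,
`a = ∑_{1 ≤ i ≤ d} (hᵢ / η) X ^ i` (monic of degree `d`, coefficients in `O`), `ϖ` an element of maximal valuation among `p` and the `hᵢ / η`, `i > d` (so `v ϖ < 1`, `v p ≤ v ϖ`, `ϖ ≠ 0`), `r = ∑_{i > d} (hᵢ / (η ϖ)) X ^ i`.
`lb` gives `v(p ^ w) ≤ v η ≤ v(δ ^ d)`, so `d ≤ D` by `hD`. Finally `itr` with `B = w + 1`: `(-p) ^ (w + 1) = η ϖ z` with `z ∈ O` (`v(p ^ w) ≤ v η`, `v p ≤ v ϖ`) and `A (evF Q) - h₀ evF Q = evF (..)`.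
-/

namespace Pool.Agent.Lib.MP_06b9d2_bm

variable {O : ValuationSubring ℂ} {N : ℕ} {p δ c₀ W : ℂ} {A₀ A : (Fin (N + 1) → ℂ) →ₗ[ℂ] (Fin (N + 1) → ℂ)}

/-- `A (evF Q) - h₀ evF Q` is `evF` of a polynomial -/
private theorem AbsB_diff (h : Bas O N p δ c₀ W A₀ A) (h₀ : ℂ) (hh : O.valuation h₀ ≤ 1) (Q : Polynomial O) :
    ∃ G : Polynomial O, A (evF O N Q) - h₀ • evF O N Q = evF O N G := by
  obtain ⟨G₁, hG₁⟩ := h.pres Q
  obtain ⟨G₂, hG₂⟩ := evF_smul (N := N) (-h₀) (by rw [Valuation.map_neg]; exact hh) Q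
  refine ⟨G₁ + G₂, ?_⟩
  rw [evF_add, ← hG₂, hG₁, neg_smul, sub_eq_add_neg]

private theorem AbsB_vp (h : Bas O N p δ c₀ W A₀ A) (w : ℕ) :
    O.valuation (p ^ (w + 1)) < O.valuation (p ^ w) := by
  have hv : O.valuation (p ^ w) ≠ 0 := (map_ne_zero _).mpr (pow_ne_zero _ h.p0)
  rw [pow_succ, map_mul]
  exact mul_lt_of_lt_one_right (zero_lt_iff.2 hv) h.hp

theorem lb (h : Bas O N p δ c₀ W A₀ A) (h₀ η ϖ : ℂ) (hh : O.valuation h₀ ≤ 1) (hϖ : O.valuation p ≤ O.valuation ϖ)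
    (hϖ1 : O.valuation ϖ ≤ 1) (a r : Polynomial O)
    (h1 : A (evF O N 1) = h₀ • evF O N 1 + η • (evF O N a + ϖ • evF O N r)) (w : ℕ) (hl : Lowb O N p w A) :
    O.valuation (p ^ w) ≤ O.valuation η := by
  obtain ⟨P, s, hPs, hA⟩ := hl
  obtain ⟨G, Q, hGQ⟩ := itr h h₀ η ϖ hϖ a r h1 (w + 1) (Nat.le_add_left 1 w) P
  obtain ⟨G', hG'⟩ := AbsB_diff h h₀ hh Q
  rw [hG'] at hGQ
  have hs := congrFun hGQ s
  simp only [Pi.sub_apply, Pi.smul_apply, Pi.add_apply, smul_eq_mul, hPs, mul_zero, sub_zero] at hs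
  by_contra hlt
  push Not at hlt
  have h2 : O.valuation (η * (evF O N (a * P) s + ϖ * evF O N G s)) < O.valuation (p ^ w) := by
    rw [map_mul]
    have h3 : O.valuation (evF O N (a * P) s + ϖ * evF O N G s) ≤ 1 := by
      refine (Valuation.map_add _ _ _).trans (max_le (evF_int _ _) ?_)
      rw [map_mul]
      exact mul_le_one' hϖ1 (evF_int _ _)
    calc O.valuation η * O.valuation (evF O N (a * P) s + ϖ * evF O N G s) ≤ O.valuation η * 1 :=
          mul_le_mul_right h3 _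
      _ = O.valuation η := mul_one _
      _ < _ := hlt
  have h4 : O.valuation ((-p) ^ (w + 1) * evF O N G' s) < O.valuation (p ^ w) := by
    rw [map_mul, map_pow, Valuation.map_neg, ← map_pow]
    calc O.valuation (p ^ (w + 1)) * O.valuation (evF O N G' s) ≤ O.valuation (p ^ (w + 1)) * 1 :=
          mul_le_mul_right (evF_int _ _) _
      _ = O.valuation (p ^ (w + 1)) := mul_one _
      _ < _ := AbsB_vp h w
  rw [hs] at hA
  exact absurd ((Valuation.map_add _ _ _).trans_lt (max_lt h2 h4)) (not_lt.2 hA)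

/-- the largest index with the maximal value -/
private theorem AbsB_max {Γ : Type*} [LinearOrder Γ] (S : Finset ℕ) (hS : S.Nonempty) (f : ℕ → Γ) :
    ∃ d ∈ S, (∀ i ∈ S, f i ≤ f d) ∧ ∀ i ∈ S, d < i → f i < f d := by
  classical
  obtain ⟨j, hj, hj'⟩ := S.exists_max_image f hS
  have hT : (S.filter fun i => f i = f j).Nonempty := ⟨j, Finset.mem_filter.2 ⟨hj, rfl⟩⟩
  have hd := Finset.max'_mem _ hT
  set d := (S.filter fun i => f i = f j).max' hT with hdd
  rw [Finset.mem_filter] at hd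
  refine ⟨d, hd.1, fun i hi => (hj' i hi).trans hd.2.ge, fun i hi hlt => ?_⟩
  refine lt_of_le_of_ne ((hj' i hi).trans hd.2.ge) fun he => ?_
  have h1 : i ∈ S.filter fun i => f i = f j := Finset.mem_filter.2 ⟨hi, he.trans hd.2⟩
  exact absurd (Finset.le_max' _ i h1) (not_le.2 hlt)

private theorem AbsB_one : evF O N 1 = 1 := by
  funext s
  simp only [evF, map_one, Pi.one_apply]

private theorem AbsB_sum (H : Polynomial O) (s : Fin (N + 1)) :
    evF O N H s = ∑ i ∈ Finset.range (H.natDegree + 1), (H.coeff i : ℂ) * qv N s ^ i := by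
  unfold evF
  rw [Polynomial.aeval_eq_sum_range]
  exact Finset.sum_congr rfl fun i _ => rfl

private theorem AbsB_psum (c : ℕ → O) (u v : ℕ) (s : Fin (N + 1)) :
    evF O N (∑ i ∈ Finset.Ico u v, Polynomial.C (c i) * Polynomial.X ^ i) s =
      ∑ i ∈ Finset.Ico u v, (c i : ℂ) * qv N s ^ i := by
  unfold evF
  rw [map_sum]
  refine Finset.sum_congr rfl fun i _ => ?_
  rw [map_mul, map_pow, Polynomial.aeval_C, Polynomial.aeval_X]
  rfl

private theorem AbsB_coeff (c : ℕ → O) (u v m : ℕ) :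
    (∑ i ∈ Finset.Ico u v, Polynomial.C (c i) * Polynomial.X ^ i).coeff m =
      if m ∈ Finset.Ico u v then c m else 0 := by
  rw [Polynomial.finsetSum_coeff]
  simp only [Polynomial.coeff_C_mul_X_pow]
  exact Finset.sum_ite_eq _ _ _

theorem mul_of (h : Bas O N p δ c₀ W A₀ A) (w D : ℕ) (hl : Lowb O N p w A)
    (hD : ∀ i, D < i → O.valuation (δ ^ i) < O.valuation (p ^ w)) : Mul O N D A := by
  obtain ⟨H₁, hH₁⟩ := h.one
  -- the polynomial in `q`
  obtain ⟨H, hH, hHc⟩ : ∃ H : Polynomial O, A (evF O N 1) = evF O N H ∧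
      ∀ i, O.valuation (H.coeff i : ℂ) ≤ O.valuation (δ ^ i) := by
    refine ⟨H₁.comp (Polynomial.C ⟨δ, (O.valuation_le_one_iff δ).1 h.hδ⟩ * Polynomial.X), ?_, fun i => ?_⟩
    · rw [hH₁]
      funext s
      unfold evF
      rw [Polynomial.aeval_comp, map_mul, Polynomial.aeval_C, Polynomial.aeval_X]
      rfl
    · rw [Polynomial.comp_C_mul_X_coeff]
      have e : ((H₁.coeff i * (⟨δ, (O.valuation_le_one_iff δ).1 h.hδ⟩ : O) ^ i : O) : ℂ) =
          (H₁.coeff i : ℂ) * δ ^ i := rfl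
      rw [e, map_mul]
      calc O.valuation (H₁.coeff i : ℂ) * O.valuation (δ ^ i) ≤ 1 * O.valuation (δ ^ i) :=
            mul_le_mul_left (O.valuation_le_one _) _
        _ = _ := one_mul _
  have hh : O.valuation (H.coeff 0 : ℂ) ≤ 1 := O.valuation_le_one _
  by_cases hS : (Finset.Ico 1 (H.natDegree + 1)).filter (fun i => H.coeff i ≠ 0) = ∅
  · exfalso
    have h1 : A (evF O N 1) = (H.coeff 0 : ℂ) • evF O N 1 + p ^ (w + 1) • (evF O N 0 + p • evF O N 0) := by
      have e0 : evF O N (0 : Polynomial O) = 0 := by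
        funext s
        simp only [evF, map_zero, Pi.zero_apply]
      rw [hH, e0, smul_zero, add_zero, smul_zero, add_zero, AbsB_one]
      funext s
      rw [AbsB_sum, Finset.range_eq_Ico, ← Finset.sum_Ico_consecutive _ (Nat.zero_le 1) (Nat.le_add_left 1 _),
        Finset.sum_eq_zero (s := Finset.Ico 1 (H.natDegree + 1))]
      · simp
      · intro i hi
        have h3 : H.coeff i = 0 := by
          by_contra hne
          have : i ∈ (Finset.Ico 1 (H.natDegree + 1)).filter (fun i => H.coeff i ≠ 0) :=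
            Finset.mem_filter.2 ⟨hi, hne⟩
          rw [hS] at this
          exact Finset.notMem_empty _ this
        rw [h3]
        simp
    exact absurd (lb h _ _ p hh le_rfl h.hp.le 0 0 h1 w hl) (not_le.2 (AbsB_vp h w))
  · obtain ⟨d, hd, hd1, hd2⟩ := AbsB_max _ (Finset.nonempty_iff_ne_empty.2 hS)
      (fun i => O.valuation (H.coeff i : ℂ))
    rw [Finset.mem_filter, Finset.mem_Ico] at hd
    obtain ⟨⟨hd3, hd4⟩, hd5⟩ := hd
    have hη : (H.coeff d : ℂ) ≠ 0 := fun he => hd5 (Subtype.ext he)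
    have hvη : O.valuation (H.coeff d : ℂ) ≠ 0 := (map_ne_zero _).mpr hη
    -- all coefficients, not only the nonzero ones
    have hd6 : ∀ i, 1 ≤ i → O.valuation (H.coeff i : ℂ) ≤ O.valuation (H.coeff d : ℂ) := by
      intro i hi
      by_cases hi' : H.coeff i = 0
      · rw [hi']
        simp
      · exact hd1 i (Finset.mem_filter.2 ⟨Finset.mem_Ico.2 ⟨hi, Nat.lt_succ_of_le
          (Polynomial.le_natDegree_of_ne_zero hi')⟩, hi'⟩)
    have hd7 : ∀ i, d < i → O.valuation (H.coeff i : ℂ) < O.valuation (H.coeff d : ℂ) := by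
      intro i hi
      by_cases hi' : H.coeff i = 0
      · rw [hi']
        simpa using zero_lt_iff.2 hvη
      · exact hd2 i (Finset.mem_filter.2 ⟨Finset.mem_Ico.2 ⟨by omega, Nat.lt_succ_of_le
          (Polynomial.le_natDegree_of_ne_zero hi')⟩, hi'⟩) hi
    -- `ϖ`
    obtain ⟨ϖ, hϖ, hϖ'⟩ := Finset.exists_max_image
      (insert p ((Finset.Ico (d + 1) (H.natDegree + 1)).image fun i => (H.coeff i : ℂ) / (H.coeff d : ℂ)))
      (fun z => O.valuation z) ⟨p, Finset.mem_insert_self _ _⟩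
    have hϖp : O.valuation p ≤ O.valuation ϖ := hϖ' p (Finset.mem_insert_self _ _)
    have hϖ0 : ϖ ≠ 0 := by
      rintro rfl
      rw [map_zero, le_zero_iff, _root_.map_eq_zero] at hϖp
      exact h.p0 hϖp
    have hvϖ : O.valuation ϖ ≠ 0 := (map_ne_zero _).mpr hϖ0
    have hϖ1 : O.valuation ϖ < 1 := by
      rw [Finset.mem_insert, Finset.mem_image] at hϖ
      rcases hϖ with rfl | ⟨i, hi, rfl⟩
      · exact h.hp
      · rw [map_div₀, div_lt_one₀ (zero_lt_iff.2 hvη)]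
        exact hd7 i (by rw [Finset.mem_Ico] at hi; omega)
    -- the coefficients of `a` and `r`
    have hc : ∀ i, ∃ c : O, 1 ≤ i → (c : ℂ) = (H.coeff i : ℂ) / (H.coeff d : ℂ) := by
      intro i
      by_cases hi : 1 ≤ i
      · refine ⟨⟨(H.coeff i : ℂ) / (H.coeff d : ℂ), (O.valuation_le_one_iff _).1 ?_⟩, fun _ => rfl⟩
        rw [map_div₀, div_le_one₀ (zero_lt_iff.2 hvη)]
        exact hd6 i hi
      · exact ⟨0, fun hi' => absurd hi' hi⟩
    choose c hc using hc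
    have he : ∀ i, ∃ e : O, i ∈ Finset.Ico (d + 1) (H.natDegree + 1) →
        (e : ℂ) = (H.coeff i : ℂ) / (H.coeff d : ℂ) / ϖ := by
      intro i
      by_cases hi : i ∈ Finset.Ico (d + 1) (H.natDegree + 1)
      · refine ⟨⟨(H.coeff i : ℂ) / (H.coeff d : ℂ) / ϖ, (O.valuation_le_one_iff _).1 ?_⟩, fun _ => rfl⟩
        rw [map_div₀, div_le_one₀ (zero_lt_iff.2 hvϖ)]
        exact hϖ' _ (Finset.mem_insert_of_mem (Finset.mem_image.2 ⟨i, hi, rfl⟩))
      · exact ⟨0, fun hi' => absurd hi' hi⟩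
    choose e he using he
    set a : Polynomial O := ∑ i ∈ Finset.Ico 1 (d + 1), Polynomial.C (c i) * Polynomial.X ^ i with ha
    set r : Polynomial O := ∑ i ∈ Finset.Ico (d + 1) (H.natDegree + 1),
      Polynomial.C (e i) * Polynomial.X ^ i with hr
    have hcd : c d = 1 := Subtype.ext (by rw [hc d hd3, div_self hη]; rfl)
    have hac : a.coeff d = 1 := by
      rw [ha, AbsB_coeff, if_pos (Finset.mem_Ico.2 ⟨hd3, Nat.lt_succ_self d⟩), hcd]
    have hadeg : a.natDegree ≤ d := by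
      rw [Polynomial.natDegree_le_iff_coeff_eq_zero]
      intro m hm
      rw [ha, AbsB_coeff, if_neg]
      rw [Finset.mem_Ico]
      omega
    have h1 : A (evF O N 1) = (H.coeff 0 : ℂ) • evF O N 1 + (H.coeff d : ℂ) • (evF O N a + ϖ • evF O N r) := by
      rw [hH, AbsB_one]
      funext s
      have e1 : evF O N H s = (H.coeff 0 : ℂ) * 1 + ((∑ i ∈ Finset.Ico 1 (d + 1), (H.coeff i : ℂ) * qv N s ^ i) +
          ∑ i ∈ Finset.Ico (d + 1) (H.natDegree + 1), (H.coeff i : ℂ) * qv N s ^ i) := by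
        rw [AbsB_sum, Finset.range_eq_Ico, ← Finset.sum_Ico_consecutive _ (Nat.zero_le 1)
          (Nat.le_add_left 1 _), ← Finset.sum_Ico_consecutive _ (Nat.le_add_left 1 d) hd4]
        simp
      rw [e1]
      simp only [Pi.add_apply, Pi.smul_apply, smul_eq_mul, Pi.one_apply]
      rw [ha, hr, AbsB_psum, AbsB_psum, mul_add, Finset.mul_sum, Finset.mul_sum, Finset.mul_sum]
      congr 2
      · refine Finset.sum_congr rfl fun i hi => ?_
        rw [hc i (Finset.mem_Ico.1 hi).1, ← mul_assoc, mul_div_cancel₀ _ hη]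
      · refine Finset.sum_congr rfl fun i hi => ?_
        rw [he i hi, ← mul_assoc, ← mul_assoc]
        field_simp
    have hlb := lb h _ _ ϖ hh hϖp hϖ1.le a r h1 w hl
    refine ⟨(H.coeff 0 : ℂ), (H.coeff d : ℂ), ϖ, a, d, hd3, ?_, ?_, ?_, hη, hϖ1, fun P => ?_⟩
    · by_contra hlt
      push Not at hlt
      exact absurd (hlb.trans (hHc d)) (not_le.2 (hD d hlt))
    · exact Polynomial.natDegree_eq_of_le_of_coeff_ne_zero hadeg (by rw [hac]; exact one_ne_zero)
    · exact Polynomial.monic_of_natDegree_le_of_coeff_eq_one d hadeg hac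
    · obtain ⟨G, Q, hGQ⟩ := itr h _ _ ϖ hϖp a r h1 (w + 1) (Nat.le_add_left 1 w) P
      obtain ⟨G', hG'⟩ := AbsB_diff h _ hh Q
      have hz : O.valuation ((-p) ^ (w + 1) / ((H.coeff d : ℂ) * ϖ)) ≤ 1 := by
        rw [map_div₀, map_mul, div_le_one₀ (mul_pos (zero_lt_iff.2 hvη) (zero_lt_iff.2 hvϖ)), map_pow,
          Valuation.map_neg, pow_succ, ← map_pow]
        exact mul_le_mul' hlb hϖp
      obtain ⟨G₂, hG₂⟩ := evF_smul (N := N) _ hz G'
      refine ⟨G + G₂, ?_⟩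
      rw [sub_eq_iff_eq_add'] at hGQ
      rw [hGQ, hG', evF_add, ← hG₂]
      have e2 : (-p) ^ (w + 1) • evF O N G' = (H.coeff d : ℂ) • ϖ •
          (((-p) ^ (w + 1) / ((H.coeff d : ℂ) * ϖ)) • evF O N G') := by
        rw [smul_smul, smul_smul]
        congr 1
        field_simp
      rw [e2]
      module

end Pool.Agent.Lib.MP_06b9d2_bm
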