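import Pool.Agent.Lib.MP_06b9d2_bm.Defs

/-!
Module BM-AbsC. The abstract theorem, third part: symmetric eigenvectors.

`inj_of`: let `x ≠ 0` be symmetric, `M.mulVec x = lam x`, and `μ(v) = ∑ x s v s`; `μ(A v) = lam μ(v)` for `A = M.vecMulLinear` (exchange the sums). Put `mᵢ = μ(q ^ i)`.
(1) Some `mᵢ ≠ 0`, `i ≤ N`: if all `mᵢ = 0` (see (2)) then `μ(F(q)) = 0` for all `F ∈ ℂ[X]`; for `s₀` with `x s₀ ≠ 0` take `F = ∏ (X - q(s))` over the `s` with `q(s) ≠ q(s₀)`; `q(s) = q(s₀)` only for `s = s₀, N - s₀`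
(`q(s) - q(t) = (s - t)(s + t - N)`), so `μ(F(q)) = F(q(s₀)) (x s₀ + x (N - s₀))` or `F(q(s₀)) x s₀` is not `0`.
(2) `∏_{s ≤ N} (X - q(s))` is monic with coefficients in `O` and vanishes at all `q(s)`, so `m_{i + N + 1}` is a combination of `m_i, …, m_{i + N}` over `O`: `v(m_i) ≤ κ = max_{j ≤ N} v(m_j)` for all `i`; `κ ≠ 0`. (For `G ∈ O[X]`: `v(μ(evF G)) ≤ κ`.)
(3) Let `i₀` be the least index with `v(m_{i₀}) = κ`; `i₀ ≥ D ≥ d` as the moments of order `< D` are `0`. `Mul` with `P = X ^ (i₀ - d)`: `(lam - h₀) / η m_{i₀ - d} = μ(a X ^ (i₀ - d)) + ϖ (..)`, `a` monic of degree `d`, so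
`μ(a X ^ (i₀ - d)) = m_{i₀} + ∑_{i < d} a_i m_{i₀ - d + i}` has valuation exactly `κ` (the other terms have valuation `< κ`), `v(ϖ ..) < κ`: `v((lam - h₀) / η) v(m_{i₀ - d}) = κ`, and `v(m_{i₀ - d}) < κ`, so `v((lam - h₀) / η) > 1`.
`Mul` with `P = X ^ i₀`: `v((lam - h₀) / η) κ ≤ κ`. Contradiction.
-/

namespace Pool.Agent.Lib.MP_06b9d2_bm

open Pool.Agent.Lib.MP_06b9d2_tln (Mt)

private noncomputable def AbsC_m (N : ℕ) (x : Fin (N + 1) → ℂ) (i : ℕ) : ℂ := ∑ s : Fin (N + 1), x s * qv N s ^ i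

private theorem AbsC_sum (O : ValuationSubring ℂ) (N : ℕ) (x : Fin (N + 1) → ℂ) (P : Polynomial O) (k n : ℕ)
    (hn : P.natDegree < n) :
    evF O N (P * Polynomial.X ^ k) ⬝ᵥ x = ∑ i ∈ Finset.range n, ((P.coeff i : O) : ℂ) * AbsC_m N x (i + k) := by
  have h1 : ∀ s : Fin (N + 1), evF O N (P * Polynomial.X ^ k) s * x s =
      ∑ i ∈ Finset.range n, ((P.coeff i : O) : ℂ) * (x s * qv N s ^ (i + k)) := by
    intro s
    rw [evF, map_mul, map_pow, Polynomial.aeval_X, Polynomial.aeval_eq_sum_range' hn, Finset.sum_mul, Finset.sum_mul]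
    refine Finset.sum_congr rfl fun i _ => ?_
    rw [Algebra.smul_def, pow_add]
    have : algebraMap O ℂ (P.coeff i) = ((P.coeff i : O) : ℂ) := rfl
    rw [this]
    ring
  rw [dotProduct, Finset.sum_congr rfl fun s _ => h1 s, Finset.sum_comm]
  refine Finset.sum_congr rfl fun i _ => ?_
  rw [AbsC_m, Finset.mul_sum]

/-- the integer `s ^ 2 - N s` -/
private def AbsC_z (N s : ℕ) : ℤ := (s : ℤ) ^ 2 - N * s

private theorem AbsC_zc (O : ValuationSubring ℂ) (N s : ℕ) : algebraMap O ℂ ((AbsC_z N s : ℤ) : O) = qv N s := by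
  rw [map_intCast, AbsC_z, qv]
  push_cast
  ring

private noncomputable def AbsC_Q (O : ValuationSubring ℂ) (N : ℕ) (S : Finset (Fin (N + 1))) : Polynomial O :=
  ∏ s ∈ S, (Polynomial.X - Polynomial.C ((AbsC_z N s : ℤ) : O))

private theorem AbsC_Q_ev (O : ValuationSubring ℂ) (N : ℕ) (S : Finset (Fin (N + 1))) (y : ℂ) :
    Polynomial.aeval y (AbsC_Q O N S) = ∏ s ∈ S, (y - qv N s) := by
  rw [AbsC_Q, map_prod]
  refine Finset.prod_congr rfl fun s _ => ?_
  rw [map_sub, Polynomial.aeval_X, Polynomial.aeval_C, AbsC_zc]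

private theorem AbsC_le (O : ValuationSubring ℂ) (N : ℕ) (x : Fin (N + 1) → ℂ) (κ : O.ValueGroup)
    (hκ : ∀ i < N + 1, O.valuation (AbsC_m N x i) ≤ κ) (G : Polynomial O) : O.valuation (evF O N G ⬝ᵥ x) ≤ κ := by
  have hmon : (AbsC_Q O N Finset.univ).Monic := Polynomial.monic_prod_X_sub_C _ _
  have hdeg : (AbsC_Q O N Finset.univ).natDegree = N + 1 := by
    rw [AbsC_Q, Polynomial.natDegree_finsetProd_X_sub_C_eq_card]
    simp
  have h1 : evF O N G = evF O N (G %ₘ AbsC_Q O N Finset.univ) := by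
    funext s
    rw [evF, evF]
    refine (Polynomial.aeval_modByMonic_eq_self_of_root ?_).symm
    rw [AbsC_Q_ev]
    exact Finset.prod_eq_zero (Finset.mem_univ s) (sub_self _)
  have h2 : (G %ₘ AbsC_Q O N Finset.univ).natDegree < N + 1 := by
    have := Polynomial.natDegree_modByMonic_lt G hmon (by
      intro h
      rw [h, Polynomial.natDegree_one] at hdeg
      omega)
    rwa [hdeg] at this
  have h3 := AbsC_sum O N x (G %ₘ AbsC_Q O N Finset.univ) 0 (N + 1) h2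
  rw [pow_zero, mul_one] at h3
  rw [h1, h3]
  refine Valuation.map_sum_le _ fun i hi => ?_
  rw [map_mul]
  have h4 : O.valuation (((G %ₘ AbsC_Q O N Finset.univ).coeff i : O) : ℂ) ≤ 1 := O.valuation_le_one _
  calc _ ≤ 1 * κ := mul_le_mul' h4 (hκ i (Finset.mem_range.1 hi))
    _ = κ := one_mul _

private theorem AbsC_q (N : ℕ) (s t : Fin (N + 1)) (h : qv N s = qv N t) : s = t ∨ s = Fin.rev t := by
  have h1 : ((s : ℕ) : ℂ) ^ 2 - N * (s : ℕ) = ((t : ℕ) : ℂ) ^ 2 - N * (t : ℕ) := h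
  have h2 : (((s : ℕ) : ℂ) - (t : ℕ)) * (((s : ℕ) : ℂ) + (t : ℕ) - N) = 0 := by linear_combination h1
  rcases mul_eq_zero.1 h2 with h3 | h3
  · left
    have : ((s : ℕ) : ℂ) = (t : ℕ) := sub_eq_zero.1 h3
    exact Fin.ext (by exact_mod_cast this)
  · right
    have h4 : ((s : ℕ) : ℂ) + (t : ℕ) = N := sub_eq_zero.1 h3
    have h5 : (s : ℕ) + (t : ℕ) = N := by exact_mod_cast h4
    apply Fin.ext
    rw [Fin.val_rev]
    omega

private theorem AbsC_ne (O : ValuationSubring ℂ) (N : ℕ) (x : Fin (N + 1) → ℂ) (hs : ∀ s, x (Fin.rev s) = x s)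
    (hx : x ≠ 0) : ∃ i < N + 1, AbsC_m N x i ≠ 0 := by
  classical
  by_contra hcon
  push Not at hcon
  obtain ⟨s₀, hs₀⟩ := Function.ne_iff.1 hx
  have hs₀' : x s₀ ≠ 0 := hs₀
  set S : Finset (Fin (N + 1)) := Finset.univ.filter fun s : Fin (N + 1) => qv N s ≠ qv N s₀ with hS
  have h1 : O.valuation (evF O N (AbsC_Q O N S) ⬝ᵥ x) ≤ 0 :=
    AbsC_le O N x 0 (fun i hi => by rw [hcon i hi, map_zero]) _
  have h2 : evF O N (AbsC_Q O N S) ⬝ᵥ x = 0 := by
    have := le_antisymm h1 zero_le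
    exact (Valuation.zero_iff _).1 this
  have h3 : evF O N (AbsC_Q O N S) ⬝ᵥ x =
      ∑ s ∈ Finset.univ.filter (fun s : Fin (N + 1) => qv N s = qv N s₀), (∏ t ∈ S, (qv N s₀ - qv N t)) * x s₀ := by
    rw [dotProduct, Finset.sum_filter]
    refine Finset.sum_congr rfl fun s _ => ?_
    rw [evF, AbsC_Q_ev]
    split_ifs with hq
    · rw [hq]
      rcases AbsC_q N s s₀ hq with h | h
      · rw [h]
      · rw [h, hs]
    · rw [Finset.prod_eq_zero (i := s) (by rw [hS, Finset.mem_filter]; exact ⟨Finset.mem_univ _, hq⟩) (sub_self _), zero_mul]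
  rw [h3, Finset.sum_const, nsmul_eq_mul] at h2
  rcases mul_eq_zero.1 h2 with h4 | h4
  · have h5 : (Finset.univ.filter (fun s : Fin (N + 1) => qv N s = qv N s₀)).card = 0 := by exact_mod_cast h4
    rw [Finset.card_eq_zero] at h5
    have h6 : s₀ ∈ Finset.univ.filter (fun s : Fin (N + 1) => qv N s = qv N s₀) :=
      Finset.mem_filter.2 ⟨Finset.mem_univ _, rfl⟩
    rw [h5] at h6
    exact absurd h6 (Finset.notMem_empty _)
  · rcases mul_eq_zero.1 h4 with h5 | h5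
    · rw [Finset.prod_eq_zero_iff] at h5
      obtain ⟨t, ht, h6⟩ := h5
      rw [hS, Finset.mem_filter] at ht
      exact ht.2 (sub_eq_zero.1 h6).symm
    · exact hs₀' h5

theorem inj_of (O : ValuationSubring ℂ) (N D : ℕ) (M : Mt N) (h : Mul O N D M.vecMulLinear) : InjD N D M := by
  classical
  intro lam x hsym heig hmom
  by_contra hx
  obtain ⟨h₀, η, ϖ, a, d, hd1, hdD, hda, ham, hη, hϖ, hA⟩ := h
  have hmom' : ∀ i < D, AbsC_m N x i = 0 := hmom
  -- the greatest valuation of a moment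
  obtain ⟨j₀, hj₀, hj₀'⟩ := AbsC_ne O N x hsym hx
  obtain ⟨j₁, hj₁, hmax⟩ := Finset.exists_max_image (Finset.range (N + 1)) (fun i => O.valuation (AbsC_m N x i))
    ⟨j₀, Finset.mem_range.2 hj₀⟩
  set κ := O.valuation (AbsC_m N x j₁) with hκ
  have hκ0 : κ ≠ 0 := by
    intro h0
    have h1 : O.valuation (AbsC_m N x j₀) ≤ κ := hmax j₀ (Finset.mem_range.2 hj₀)
    rw [h0] at h1
    exact hj₀' ((Valuation.zero_iff _).1 (le_antisymm h1 zero_le))
  have hκpos : 0 < κ := zero_lt_iff.2 hκ0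
  have hle : ∀ G : Polynomial O, O.valuation (evF O N G ⬝ᵥ x) ≤ κ :=
    AbsC_le O N x κ fun i hi => hmax i (Finset.mem_range.2 hi)
  have hm : ∀ i, O.valuation (AbsC_m N x i) ≤ κ := by
    intro i
    have h1 := AbsC_sum O N x (1 : Polynomial O) i 1 (by rw [Polynomial.natDegree_one]; exact one_pos)
    rw [Finset.sum_range_one, Polynomial.coeff_one_zero, one_mul, zero_add] at h1
    have h2 : AbsC_m N x i = evF O N (Polynomial.X ^ i) ⬝ᵥ x := by
      rw [h1]
      simp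
    rw [h2]
    exact hle _
  have hex : ∃ i, O.valuation (AbsC_m N x i) = κ := ⟨j₁, rfl⟩
  set i₀ := Nat.find hex with hi₀
  have hi₀κ : O.valuation (AbsC_m N x i₀) = κ := Nat.find_spec hex
  have hlt : ∀ i < i₀, O.valuation (AbsC_m N x i) < κ := fun i hi =>
    lt_of_le_of_ne (hm i) (Nat.find_min hex hi)
  have hD : D ≤ i₀ := by
    by_contra hcon
    push Not at hcon
    rw [hmom' i₀ hcon, map_zero] at hi₀κ
    exact hκ0 hi₀κ.symm
  -- the eigenvalue equation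
  have heq : ∀ P : Polynomial O, ∃ G : Polynomial O,
      (lam - h₀) / η * (evF O N P ⬝ᵥ x) = evF O N (a * P) ⬝ᵥ x + ϖ * (evF O N G ⬝ᵥ x) := by
    intro P
    obtain ⟨G, hG⟩ := hA P
    refine ⟨G, ?_⟩
    have h1 : (M.vecMulLinear (evF O N P)) ⬝ᵥ x = lam * (evF O N P ⬝ᵥ x) := by
      rw [Matrix.vecMulLinear_apply, ← Matrix.dotProduct_mulVec, heig, dotProduct_smul, smul_eq_mul]
    rw [hG, add_dotProduct, smul_dotProduct, smul_dotProduct, add_dotProduct, smul_dotProduct, smul_eq_mul,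
      smul_eq_mul, smul_eq_mul] at h1
    rw [div_mul_eq_mul_div, div_eq_iff hη]
    linear_combination -h1
  have hsm : ∀ G : Polynomial O, O.valuation (ϖ * (evF O N G ⬝ᵥ x)) < κ := by
    intro G
    rw [map_mul]
    calc _ ≤ O.valuation ϖ * κ := mul_le_mul' le_rfl (hle G)
      _ < 1 * κ := by
        exact (mul_lt_mul_iff_left₀ hκpos).2 hϖ
      _ = κ := one_mul _
  -- `P = X ^ (i₀ - d)`
  obtain ⟨G, hG⟩ := heq (Polynomial.X ^ (i₀ - d))
  have h1 : O.valuation (evF O N (a * Polynomial.X ^ (i₀ - d)) ⬝ᵥ x) = κ := by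
    rw [AbsC_sum O N x a (i₀ - d) (d + 1) (by omega), Finset.sum_range_succ]
    have h2 : ((a.coeff d : O) : ℂ) = 1 := by
      have : a.coeff d = 1 := by
        rw [← hda]
        exact ham
      rw [this]
      rfl
    rw [h2, one_mul, show d + (i₀ - d) = i₀ by omega]
    have h3 : O.valuation (∑ i ∈ Finset.range d, ((a.coeff i : O) : ℂ) * AbsC_m N x (i + (i₀ - d))) < κ := by
      refine Valuation.map_sum_lt _ hκ0 fun i hi => ?_
      rw [map_mul]
      have h4 : O.valuation ((a.coeff i : O) : ℂ) ≤ 1 := O.valuation_le_one _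
      calc _ ≤ 1 * O.valuation (AbsC_m N x (i + (i₀ - d))) := mul_le_mul' h4 le_rfl
        _ = O.valuation (AbsC_m N x (i + (i₀ - d))) := one_mul _
        _ < κ := hlt _ (by have := Finset.mem_range.1 hi; omega)
    rw [← hi₀κ] at h3 ⊢
    exact Valuation.map_add_eq_of_lt_right _ h3
  have h2 : O.valuation (evF O N (a * Polynomial.X ^ (i₀ - d)) ⬝ᵥ x + ϖ * (evF O N G ⬝ᵥ x)) = κ := by
    have h3 := hsm G
    rw [← h1] at h3 ⊢
    exact Valuation.map_add_eq_of_lt_left _ h3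
  rw [← hG, map_mul] at h2
  have h3 : evF O N (Polynomial.X ^ (i₀ - d)) ⬝ᵥ x = AbsC_m N x (i₀ - d) := by
    have h4 := AbsC_sum O N x (1 : Polynomial O) (i₀ - d) 1 (by rw [Polynomial.natDegree_one]; exact one_pos)
    rw [Finset.sum_range_one, Polynomial.coeff_one_zero, one_mul, zero_add] at h4
    rw [h4]
    simp
  rw [h3] at h2
  have h4 : 1 < O.valuation ((lam - h₀) / η) := by
    by_contra hcon
    push Not at hcon
    have h5 : κ ≤ 1 * O.valuation (AbsC_m N x (i₀ - d)) := by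
      rw [← h2]
      exact mul_le_mul' hcon le_rfl
    rw [one_mul] at h5
    exact absurd (hlt (i₀ - d) (by omega)) (not_lt.2 h5)
  -- `P = X ^ i₀`
  obtain ⟨G', hG'⟩ := heq (Polynomial.X ^ i₀)
  have h5 : evF O N (Polynomial.X ^ i₀) ⬝ᵥ x = AbsC_m N x i₀ := by
    have h6 := AbsC_sum O N x (1 : Polynomial O) i₀ 1 (by rw [Polynomial.natDegree_one]; exact one_pos)
    rw [Finset.sum_range_one, Polynomial.coeff_one_zero, one_mul, zero_add] at h6
    rw [h6]
    simp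
  have h6 : O.valuation ((lam - h₀) / η) * κ ≤ κ := by
    rw [← hi₀κ, ← h5, ← map_mul, hG', h5, hi₀κ]
    exact (Valuation.map_add _ _ _).trans (max_le (hle _) (hsm _).le)
  have h7 : κ < O.valuation ((lam - h₀) / η) * κ := by
    calc κ = 1 * κ := (one_mul _).symm
      _ < _ := (mul_lt_mul_iff_left₀ hκpos).2 h4
  exact absurd h7 (not_lt.2 h6)

end Pool.Agent.Lib.MP_06b9d2_bm
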