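import Pool.Agent.Lib.MP_06b9d2_bm.Ent
import Pool.Agent.Lib.MP_06b9d2_tln.PrM

/-!
Module BM-AsA. The basis `mo2 (A + 3 Y) (8 Y (A + Y)) e N s` is triangular with `Λ = 2 ^ 6`.

From `h.int`: `A = 1 + 24 α`, `Y = 8 κ`, `κ = X κ'`, `κ'` with constant coefficient `1` (`coeff 0 κ = 0`, `coeff 1 κ = 1`). `8 Y (A + Y) = 64 κ (A + 8 κ)` (complex series, images of integral ones), so `mo s = 64 ^ s b s`,
`b s = (A + 3 Y) ^ e ((A + 3 Y) ^ 2 - 8 Y (A + Y)) ^ (N - s) (κ (A + 8 κ)) ^ s`, the image of an integral series `β s` (coefficients in `O`: `Pool.Agent.Lib.MP_06b9d2_ssp.int_mem`), and `β s = X ^ s u`, `u` with constant coefficient `1`.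
`v_dvd`: a divisor of an odd number is odd; `v(d) = 1`: `1 = d - 2 m`.
-/

namespace Pool.Agent.Lib.MP_06b9d2_bm

open PowerSeries
open Pool.Agent.Lib.MP_06b9d2_tls (mo2)
open Pool.Agent.Lib.MP_06b9d2_tl2 (Core)

theorem tri_mo {A Y : ℂ⟦X⟧} (h : Core A Y) (O : ValuationSubring ℂ) (e N : ℕ) :
    ∃ b : ℕ → ℂ⟦X⟧, Tri O (((2 : ℕ) : ℂ) ^ 6) N (mo2 (A + 3 * Y) (8 * (Y * (A + Y))) e N) b := by
  obtain ⟨α, κ, hA, hY, hα, hκ, hκ1⟩ := h.int
  obtain ⟨κ', hκ'⟩ := X_dvd_iff.2 hκ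
  have hκ'1 : constantCoeff κ' = 1 := by
    have h1 : coeff (0 + 1) (X * κ') = coeff 0 κ' := coeff_succ_X_mul 0 κ'
    rw [← hκ', zero_add, hκ1] at h1
    rw [← coeff_zero_eq_constantCoeff_apply]
    exact h1.symm
  have c24 : constantCoeff (24 : ℤ⟦X⟧) = 24 := map_ofNat constantCoeff 24
  have c8 : constantCoeff (8 : ℤ⟦X⟧) = 8 := map_ofNat constantCoeff 8
  have c64 : constantCoeff (64 : ℤ⟦X⟧) = 64 := map_ofNat constantCoeff 64
  have m24 : PowerSeries.map (Int.castRingHom ℂ) (24 : ℤ⟦X⟧) = 24 := map_ofNat _ 24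
  have m8 : PowerSeries.map (Int.castRingHom ℂ) (8 : ℤ⟦X⟧) = 8 := map_ofNat _ 8
  have m64 : PowerSeries.map (Int.castRingHom ℂ) (64 : ℤ⟦X⟧) = 64 := map_ofNat _ 64
  obtain ⟨a, ha⟩ : ∃ a : ℤ⟦X⟧, a = 1 + 24 * α := ⟨_, rfl⟩
  have ha0 : constantCoeff a = 1 := by rw [ha, map_add, map_mul, map_one, c24, hα]; norm_num
  obtain ⟨b3, hb3⟩ : ∃ b3 : ℤ⟦X⟧, b3 = a + 24 * κ := ⟨_, rfl⟩
  have hb30 : constantCoeff b3 = 1 := by rw [hb3, map_add, map_mul, c24, ha0, hκ]; norm_num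
  obtain ⟨g', hg'⟩ : ∃ g' : ℤ⟦X⟧, g' = κ' * (a + 8 * κ) := ⟨_, rfl⟩
  have hg'0 : constantCoeff g' = 1 := by
    rw [hg', map_mul, map_add, map_mul, c8, hκ'1, ha0, hκ]; norm_num
  have eA : A + 3 * Y = PowerSeries.map (Int.castRingHom ℂ) b3 := by
    rw [hb3, ha, hA, hY, map_add, map_add, map_mul, map_mul, map_one, m24]
    ring
  have eG : 8 * (Y * (A + Y)) = 64 * PowerSeries.map (Int.castRingHom ℂ) (X * g') := by
    have e0 : X * g' = κ * (a + 8 * κ) := by rw [hg', ← mul_assoc, ← hκ']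
    rw [e0, ha, hA, hY, map_mul, map_add, map_add, map_mul, map_mul, map_one, m24, m8]
    ring
  obtain ⟨β, hβ⟩ : ∃ β : ℕ → ℤ⟦X⟧, ∀ s, β s = X ^ s * (b3 ^ e * (b3 ^ 2 - 64 * (X * g')) ^ (N - s) * g' ^ s) :=
    ⟨_, fun _ => rfl⟩
  refine ⟨fun s => PowerSeries.map (Int.castRingHom ℂ) (β s), fun s _ => ?_, fun s _ i => ?_,
    fun s _ i hi => ?_, fun s _ => ?_⟩
  · have e1 : (((2 : ℕ) : ℂ) ^ 6) ^ s • PowerSeries.map (Int.castRingHom ℂ) (β s) =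
        (64 : ℂ⟦X⟧) ^ s * PowerSeries.map (Int.castRingHom ℂ) (β s) := by
      rw [smul_eq_C_mul, map_pow, map_pow]
      congr 2
      have e2 : (PowerSeries.C ((2 : ℕ) : ℂ) : ℂ⟦X⟧) = 2 := by
        rw [map_natCast]
        norm_num
      rw [e2]
      norm_num
    rw [e1, hβ s]
    unfold mo2
    rw [eA, eG]
    simp only [map_mul, map_pow, map_sub, m64, PowerSeries.map_X]
    ring
  · show O.valuation (coeff i (PowerSeries.map (Int.castRingHom ℂ) (β s))) ≤ 1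
    rw [coeff_map]
    exact Pool.Agent.Lib.MP_06b9d2_ssp.int_mem O _
  · show coeff i (PowerSeries.map (Int.castRingHom ℂ) (β s)) = 0
    rw [coeff_map, hβ s, coeff_X_pow_mul', if_neg (by omega), map_zero]
  · show coeff s (PowerSeries.map (Int.castRingHom ℂ) (β s)) = 1
    rw [coeff_map, hβ s, coeff_X_pow_mul', if_pos le_rfl, Nat.sub_self,
      coeff_zero_eq_constantCoeff_apply]
    simp only [map_mul, map_pow, map_sub, c64, hb30, hg'0, constantCoeff_X]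
    norm_num

theorem v_odd {O : ValuationSubring ℂ} (h2 : O.valuation 2 < 1) (n : ℕ) (hn : n % 2 = 1) :
    O.valuation (n : ℂ) = 1 := by
  obtain ⟨m, rfl⟩ : ∃ m, n = 2 * m + 1 := ⟨n / 2, by omega⟩
  have h1 : O.valuation (2 * (m : ℂ)) < 1 := by
    rw [map_mul]
    refine lt_of_le_of_lt (mul_le_of_le_one_right' ?_) h2
    exact Pool.Agent.Lib.MP_06b9d2_ssp.int_mem O (m : ℤ)
  have h3 : O.valuation (2 * (m : ℂ) + 1) = O.valuation 1 :=
    Valuation.map_add_eq_of_lt_right O.valuation (by rw [Valuation.map_one]; exact h1)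
  rw [Valuation.map_one] at h3
  push_cast
  exact h3

theorem v_dvd {O : ValuationSubring ℂ} (h2 : O.valuation 2 < 1) (n : ℕ) (hn : n % 2 = 1) (d : ℕ) (hd : d ∣ n) :
    O.valuation (d : ℂ) = 1 := by
  obtain ⟨c, rfl⟩ := hd
  apply v_odd h2
  have h1 : d % 2 ≠ 0 := by
    intro h0
    rw [Nat.mul_mod, h0] at hn
    simp at hn
  omega

end Pool.Agent.Lib.MP_06b9d2_bm
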