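import Pool.Agent.Lib.MP_06b9d2_bm.Defs
import Pool.Agent.Lib.MP_06b9d2_tln.Rpa
import Pool.Agent.Lib.MP_06b9d2_tln.TNa
import Pool.Agent.Lib.MP_06b9d2_tln.TNb
import Pool.Agent.Lib.MP_06b9d2_tln.Luc

/-!
Module BM-Prd. The matrices of the `T_n`.

`prD_mul` etc.: `act_mul`, `act_add`, `act_smul`, `act_one` (`MP_06b9d2_tln/Rpa.lean`); sums and multiples of functions `P(ρ s)` are of this form (`P + Q`, `C z * P`).
`prD_lu`: two-step induction (`Nat.twoStepInduction`), `lu_step`: `aeval M (lu L (e + 2)) = M * aeval M (lu L (e + 1)) - L • aeval M (lu L e)`.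
`gc_one`: `TN_one`, `rp_one`. `gc_pp`: `M ↦ aeval M (lu L e)`, `L = l ^ k / l`, `TN_lu`, `rp_aeval`, `sy_aeval`, `Polynomial.aeval` of a commuting matrix commutes. `gc_mul`: `TN_mul`, `rp_mul`, `sy_mul`, `Commute.mul_left`.
`gc_n`: `Nat.recOnPosPrimePosCoprime` (or `pg_n` in `MP_06b9d2_tln/Asm.lean`).
-/

namespace Pool.Agent.Lib.MP_06b9d2_bm

open PowerSeries
open Pool.Agent.Lib.MP_06b9d2_tln (TN Mt Rp Sy act lu)

variable {O : ValuationSubring ℂ} {ρ : ℂ} {N : ℕ} {M M₁ M₂ : Mt N}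

private theorem prd_dp_add {f g : ℤ → ℂ} (hf : DP O ρ f) (hg : DP O ρ g) : DP O ρ fun s => f s + g s := by
  obtain ⟨P, hP⟩ := hf
  obtain ⟨Q, hQ⟩ := hg
  refine ⟨P + Q, fun s => ?_⟩
  rw [map_add, ← hP s, ← hQ s]

private theorem prd_dp_smul (z : ℂ) (hz : O.valuation z ≤ 1) {f : ℤ → ℂ} (hf : DP O ρ f) :
    DP O ρ fun s => z * f s := by
  obtain ⟨P, hP⟩ := hf
  refine ⟨Polynomial.C ⟨z, (O.valuation_le_one_iff z).1 hz⟩ * P, fun s => ?_⟩
  rw [map_mul, ← hP s, Polynomial.aeval_C]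
  rfl

theorem prD_one : PrD O ρ (1 : Mt N) := by
  intro f hf
  exact ⟨f, hf, fun s => Pool.Agent.Lib.MP_06b9d2_tln.act_one f s⟩

theorem prD_mul (h₁ : PrD O ρ M₁) (h₂ : PrD O ρ M₂) : PrD O ρ (M₁ * M₂) := by
  intro f hf
  obtain ⟨g, hg, e1⟩ := h₁ f hf
  obtain ⟨g2, hg2, e2⟩ := h₂ g hg
  exact ⟨g2, hg2, fun s => (Pool.Agent.Lib.MP_06b9d2_tln.act_mul M₁ M₂ f g e1 s).trans (e2 s)⟩

theorem prD_add (h₁ : PrD O ρ M₁) (h₂ : PrD O ρ M₂) : PrD O ρ (M₁ + M₂) := by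
  intro f hf
  obtain ⟨g, hg, e1⟩ := h₁ f hf
  obtain ⟨g2, hg2, e2⟩ := h₂ f hf
  refine ⟨fun s => g s + g2 s, prd_dp_add hg hg2, fun s => ?_⟩
  rw [Pool.Agent.Lib.MP_06b9d2_tln.act_add, e1 s, e2 s]

theorem prD_smul (z : ℂ) (hz : O.valuation z ≤ 1) (h : PrD O ρ M) : PrD O ρ (z • M) := by
  intro f hf
  obtain ⟨g, hg, e1⟩ := h f hf
  refine ⟨fun s => z * g s, prd_dp_smul z hz hg, fun s => ?_⟩
  rw [Pool.Agent.Lib.MP_06b9d2_tln.act_smul, e1 s]

theorem prD_lu (L : ℂ) (hL : O.valuation L ≤ 1) (h : PrD O ρ M) (e : ℕ) :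
    PrD O ρ (Polynomial.aeval M (lu L e)) := by
  induction e using Nat.twoStepInduction with
  | zero =>
    rw [lu, map_one]
    exact prD_one
  | one =>
    rw [lu, Polynomial.aeval_X]
    exact h
  | more e ih1 ih2 =>
    have e1 : Polynomial.aeval M (lu L (e + 2)) =
        M * Polynomial.aeval M (lu L (e + 1)) + (-L) • Polynomial.aeval M (lu L e) := by
      rw [lu, map_sub, map_mul, map_mul, Polynomial.aeval_X, Polynomial.aeval_C, ← Algebra.smul_def, neg_smul,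
        sub_eq_add_neg]
    rw [e1]
    refine prD_add (prD_mul h ih2) (prD_smul _ ?_ ih1)
    rw [Valuation.map_neg]
    exact hL

variable {k : ℕ} {mo : ℕ → ℂ⟦X⟧} {M₀ : Mt N}

theorem gc_one : GC O ρ N k mo M₀ 1 := by
  refine ⟨1, ?_, Pool.Agent.Lib.MP_06b9d2_tln.sy_one, Commute.one_left _, prD_one, prD_one⟩
  rw [Pool.Agent.Lib.MP_06b9d2_tln.TN_one]
  exact Pool.Agent.Lib.MP_06b9d2_tln.rp_one mo

private theorem prd_comm (h : Commute M M₀) (q : Polynomial ℂ) : Commute (Polynomial.aeval M q) M₀ := by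
  induction q using Polynomial.induction_on' with
  | add a b ha hb =>
    rw [map_add]
    exact ha.add_left hb
  | monomial n a =>
    rw [Polynomial.aeval_monomial, ← Algebra.smul_def]
    exact (h.pow_left n).smul_left a

theorem gc_pp (l e : ℕ) (hl : l.Prime) (hL : O.valuation ((l : ℂ) ^ k / l) ≤ 1) (h : GC O ρ N k mo M₀ l) :
    GC O ρ N k mo M₀ (l ^ e) := by
  obtain ⟨M, hR, hS, hC, h1, h2⟩ := h
  refine ⟨Polynomial.aeval M (lu ((l : ℂ) ^ k / l) e), ?_, Pool.Agent.Lib.MP_06b9d2_tln.sy_aeval hS _,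
    prd_comm hC _, prD_lu _ hL h1 e, prD_lu _ hL h2 e⟩
  rw [Pool.Agent.Lib.MP_06b9d2_tln.TN_lu l k e hl]
  exact Pool.Agent.Lib.MP_06b9d2_tln.rp_aeval hR _

theorem gc_mul (m n : ℕ) (hm : m ≠ 0) (hn : n ≠ 0) (hc : m.Coprime n) (h₁ : GC O ρ N k mo M₀ m)
    (h₂ : GC O ρ N k mo M₀ n) : GC O ρ N k mo M₀ (m * n) := by
  obtain ⟨M₁, hR, hS, hC, a1, a2⟩ := h₁
  obtain ⟨M₂, hR', hS', hC', b1, b2⟩ := h₂
  refine ⟨M₁ * M₂, ?_, Pool.Agent.Lib.MP_06b9d2_tln.sy_mul hS hS', hC.mul_left hC', prD_mul a1 b1,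
    prD_mul a2 b2⟩
  rw [Pool.Agent.Lib.MP_06b9d2_tln.TN_mul m n k hm hn hc]
  exact Pool.Agent.Lib.MP_06b9d2_tln.rp_mul hR hR'

theorem gc_n (n : ℕ) (hn : n ≠ 0) (hL : ∀ l ∈ n.primeFactors, O.valuation ((l : ℂ) ^ k / l) ≤ 1)
    (h : ∀ l ∈ n.primeFactors, GC O ρ N k mo M₀ l) : GC O ρ N k mo M₀ n := by
  have key : ∀ S : Finset ℕ, S ⊆ n.primeFactors →
      GC O ρ N k mo M₀ (∏ p ∈ S, p ^ n.factorization p) := by
    intro S
    induction S using Finset.induction_on with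
    | empty =>
      intro _
      rw [Finset.prod_empty]
      exact gc_one
    | insert p S hp ih =>
      intro hS
      have hpS : p ∈ n.primeFactors := hS (Finset.mem_insert_self p S)
      have hSS : S ⊆ n.primeFactors := fun q hq => hS (Finset.mem_insert_of_mem hq)
      have hpp : p.Prime := Nat.prime_of_mem_primeFactors hpS
      have h0 : ∀ q ∈ S, q.Prime := fun q hq => Nat.prime_of_mem_primeFactors (hSS hq)
      have hne : (∏ q ∈ S, q ^ n.factorization q) ≠ 0 :=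
        Finset.prod_ne_zero_iff.mpr fun q hq => pow_ne_zero _ (h0 q hq).ne_zero
      have hco : (p ^ n.factorization p).Coprime (∏ q ∈ S, q ^ n.factorization q) := by
        apply Nat.Coprime.prod_right
        intro q hq
        apply Nat.Coprime.pow
        rw [Nat.coprime_primes hpp (h0 q hq)]
        rintro rfl
        exact hp hq
      rw [Finset.prod_insert hp]
      exact gc_mul _ _ (pow_ne_zero _ hpp.ne_zero) hne hco (gc_pp p _ hpp (hL p hpS) (h p hpS)) (ih hSS)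
  have h1 := key n.primeFactors (Finset.Subset.refl _)
  have h2 : (∏ p ∈ n.primeFactors, p ^ n.factorization p) = n := by
    rw [← Nat.prod_factorization_eq_prod_primeFactors]
    exact Nat.prod_factorization_pow_eq_self hn
  rwa [h2] at h1

end Pool.Agent.Lib.MP_06b9d2_bm
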