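import Pool.Agent.Lib.MP_06b9d2_bm.Dp
import Pool.Agent.Lib.MP_06b9d2_bm.Prd
import Pool.Agent.Lib.MP_06b9d2_bm.AsA
import Pool.Agent.Lib.MP_06b9d2_tl2.PcI
import Pool.Agent.Lib.MP_06b9d2_tl2.Val
import Pool.Agent.Lib.MP_06b9d2_tls.Lv2
import Pool.Agent.Lib.MP_06b9d2_tl2.Mat2

/-!
Module BM-AsB. The matrices of the `T_l`, `l` an odd prime, have the properties `GC`, with `ρ = pr ^ 3` (`pr ^ 2 = 2`) and `M₀` the matrix of `T_3`.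

`kb`: `pcP`: `v(pc M m n r) ≤ v(2) ^ ((5 (m + n) + 1) / 2)`; `v(m!) ≥ v(2) ^ m` (`Nat`: `2 ^ (m + 1) ∤ m!`, or `v_fac` of module Nt), and `v(pr ^ 3) ^ 2 = v(2) ^ 3` (`v_pr`): compare the squares: `2 ((5 t + 1) / 2) ≥ 5 t = 3 t + 2 t`. (`ρ = 1`: `kb1`, weaker.)
`prD_l`: `mtx l M N = (1 / l) • M'`, `M' j s = M N j s`; `act_op` (`MP_06b9d2_tln/OpA.lean`) with `κ = pc M`, `pc_deg`, `pc_mat` as in the proof of `act_l` (`MP_06b9d2_tln/PrM.lean`); `dp_op`; `v(1 / l) = 1`.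
`rp_uni`: two matrices which represent the same map in the independent family `mo2 …` are equal (`ind2`, `lv2'`).
`cm_l`: `l = 3`: the two matrices represent `T_3`: equal by `rp_uni`. `l ≠ 3`: `M M₀` and `M₀ M` represent `T_l ∘ T_3 = T_{3 l} = T_3 ∘ T_l` (`TN_mul`, coprime): `rp_uni`. `gc_l`: `rp_l`, `sy_l`, `cm_l`, `prD_l`.
-/

namespace Pool.Agent.Lib.MP_06b9d2_bm

open PowerSeries
open Pool.Agent.Lib.MP_06b9d2_tln (TN Mt Rp Sy act mtx)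
open Pool.Agent.Lib.MP_06b9d2_tls (mo2)
open Pool.Agent.Lib.MP_06b9d2_tl2 (Core MatD pc pr)

variable {A Y : ℂ⟦X⟧} {O : ValuationSubring ℂ} {l e : ℕ} {M M3 : ℕ → ℕ → ℕ → ℂ}

private theorem AsB_fact {O : ValuationSubring ℂ} (h2 : O.valuation 2 < 1) (n : ℕ) :
    O.valuation 2 ^ n ≤ O.valuation (n.factorial : ℂ) :=
  (pow_le_pow_of_le_one zero_le h2.le (Nat.sub_le n 1)).trans
    (Pool.Agent.Lib.MP_06b9d2_tl2.v_fact h2 n)

private theorem AsB_fact2 {O : ValuationSubring ℂ} (h2 : O.valuation 2 < 1) (m n : ℕ) :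
    O.valuation 2 ^ (m + n) ≤ O.valuation ((m.factorial * n.factorial : ℕ) : ℂ) := by
  rw [Nat.cast_mul, map_mul, pow_add]
  exact mul_le_mul' (AsB_fact h2 m) (AsB_fact h2 n)

theorem kb (h : Core A Y) (h2 : O.valuation 2 < 1) (hl : l.Prime) (hl2 : l ≠ 2) (hM : MatD l A Y e M)
    (m n r : ℕ) :
    O.valuation (pc M m n r) ≤ O.valuation ((pr ^ 3) ^ (m + n) * ((m.factorial * n.factorial : ℕ) : ℂ)) := by
  obtain ⟨h12, hlt, hne⟩ := Pool.Agent.Lib.MP_06b9d2_tl2.v_pr h2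
  refine (Pool.Agent.Lib.MP_06b9d2_tl2.pcP h h2 hl hl2 hM m n r).trans ?_
  have h1 : O.valuation pr ^ (5 * (m + n)) ≤
      O.valuation ((pr ^ 3) ^ (m + n) * ((m.factorial * n.factorial : ℕ) : ℂ)) := by
    have e1 : O.valuation pr ^ (5 * (m + n)) =
        (O.valuation pr ^ 3) ^ (m + n) * O.valuation 2 ^ (m + n) := by
      rw [← h12, ← pow_mul, ← pow_mul, ← pow_add]
      congr 1
      ring
    rw [e1, map_mul, map_pow, map_pow]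
    exact mul_le_mul' le_rfl (AsB_fact2 h2 m n)
  refine le_trans ?_ h1
  rw [← h12, ← pow_mul]
  exact pow_le_pow_of_le_one zero_le hlt.le (by omega)

theorem kb1 (h : Core A Y) (h2 : O.valuation 2 < 1) (hl : l.Prime) (hl2 : l ≠ 2) (hM : MatD l A Y e M)
    (m n r : ℕ) :
    O.valuation (pc M m n r) ≤ O.valuation ((1 : ℂ) ^ (m + n) * ((m.factorial * n.factorial : ℕ) : ℂ)) := by
  refine (Pool.Agent.Lib.MP_06b9d2_tl2.pcP h h2 hl hl2 hM m n r).trans ?_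
  rw [one_pow, one_mul]
  refine le_trans ?_ (AsB_fact2 h2 m n)
  exact pow_le_pow_of_le_one zero_le h2.le (by omega)

private theorem AsB_prD (h : Core A Y) (h2 : O.valuation 2 < 1) (hl : l.Prime) (hl2 : l ≠ 2)
    (hM : MatD l A Y e M) (N : ℕ) (ρ : ℂ) (hρ0 : ρ ≠ 0) (hρ : O.valuation ρ ≤ 1)
    (hk : ∀ m n r, O.valuation (pc M m n r) ≤
      O.valuation (ρ ^ (m + n) * ((m.factorial * n.factorial : ℕ) : ℂ))) :
    PrD O ρ (mtx l M N) := by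
  have hodd : l % 2 = 1 := by
    rcases hl.eq_two_or_odd with h3 | h3
    · exact absurd h3 hl2
    · exact h3
  have hv : O.valuation (1 / (l : ℂ)) ≤ 1 := by
    rw [map_div₀, map_one, v_odd h2 l hodd, div_one]
  intro f hf
  refine ⟨fun s => (1 / (l : ℂ)) * Pool.Agent.Lib.MP_06b9d2_tln.op (pc M) N f s,
    dp_smul _ hv (dp_op hρ0 hρ (pc M) hk N hf), fun s => ?_⟩
  obtain ⟨M', hM'⟩ : ∃ M' : Mt N, M' = Matrix.of fun (j s : Fin (N + 1)) => M N j s := ⟨_, rfl⟩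
  have h1 : mtx l M N = (1 / (l : ℂ)) • M' := by
    ext j s
    rw [hM', Matrix.smul_apply]
    unfold mtx
    rw [Matrix.of_apply, Matrix.of_apply, smul_eq_mul]
    ring
  have h3 := Pool.Agent.Lib.MP_06b9d2_tln.act_op (N := N) (pc M)
    (fun m n r hr => Pool.Agent.Lib.MP_06b9d2_tl2.pc_deg hM m n r hr) M' (fun j s => by
      rw [hM', Matrix.of_apply]
      exact Pool.Agent.Lib.MP_06b9d2_tl2.pc_mat h hl hl2 hM N j s (Nat.lt_succ_iff.1 j.2)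
        (Nat.lt_succ_iff.1 s.2)) f s
  rw [h1, Pool.Agent.Lib.MP_06b9d2_tln.act_smul, h3]

theorem prD_l (h : Core A Y) (h2 : O.valuation 2 < 1) (hl : l.Prime) (hl2 : l ≠ 2) (hM : MatD l A Y e M)
    (N : ℕ) : PrD O 1 (mtx l M N) ∧ PrD O (pr ^ 3) (mtx l M N) := by
  obtain ⟨h12, hlt, hne⟩ := Pool.Agent.Lib.MP_06b9d2_tl2.v_pr h2
  have hpr : (pr : ℂ) ≠ 0 := by
    intro h0
    rw [h0, map_zero] at hne
    exact hne rfl
  refine ⟨AsB_prD h h2 hl hl2 hM N 1 one_ne_zero (by rw [map_one]) (kb1 h h2 hl hl2 hM),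
    AsB_prD h h2 hl hl2 hM N (pr ^ 3) (pow_ne_zero _ hpr) ?_ (kb h h2 hl hl2 hM)⟩
  rw [map_pow]
  exact pow_le_one₀ zero_le hlt.le

theorem rp_uni (h : Core A Y) (e N : ℕ) {T : ℂ⟦X⟧ →ₗ[ℂ] ℂ⟦X⟧} {M₁ M₂ : Mt N}
    (h₁ : Rp (mo2 (A + 3 * Y) (8 * (Y * (A + Y))) e N) T M₁)
    (h₂ : Rp (mo2 (A + 3 * Y) (8 * (Y * (A + Y))) e N) T M₂) : M₁ = M₂ := by
  ext i s
  obtain ⟨y, hy⟩ : ∃ y : ℕ → ℂ, y = fun j => if hj : j < N + 1 then M₁ ⟨j, hj⟩ s - M₂ ⟨j, hj⟩ s else 0 :=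
    ⟨_, rfl⟩
  have h3 : ∑ j ∈ Finset.range (N + 1), y j • mo2 (A + 3 * Y) (8 * (Y * (A + Y))) e N j = 0 := by
    rw [← Fin.sum_univ_eq_sum_range (fun j => y j • mo2 (A + 3 * Y) (8 * (Y * (A + Y))) e N j)]
    have h4 : ∀ j : Fin (N + 1), y (j : ℕ) • mo2 (A + 3 * Y) (8 * (Y * (A + Y))) e N (j : ℕ) =
        M₁ j s • mo2 (A + 3 * Y) (8 * (Y * (A + Y))) e N (j : ℕ) -
          M₂ j s • mo2 (A + 3 * Y) (8 * (Y * (A + Y))) e N (j : ℕ) := by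
      intro j
      rw [hy]
      simp only [j.2, dif_pos, Fin.eta, sub_smul]
    rw [Finset.sum_congr rfl fun j _ => h4 j, Finset.sum_sub_distrib, ← h₁ s, ← h₂ s, sub_self]
  have h5 := Pool.Agent.Lib.MP_06b9d2_tls.ind2 (Pool.Agent.Lib.MP_06b9d2_tln.lv2' h) e N y h3
    (i : ℕ) (Nat.lt_succ_iff.1 i.2)
  rw [hy] at h5
  simp only [i.2, dif_pos, Fin.eta] at h5
  exact sub_eq_zero.1 h5

theorem cm_l (h : Core A Y) (hl : l.Prime) (hl2 : l ≠ 2) (hM : MatD l A Y e M)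
    (hM3 : MatD 3 A Y e M3) (N : ℕ) : Commute (mtx l M N) (mtx 3 M3 N) := by
  have h3p : Nat.Prime 3 := Nat.prime_three
  have r1 := Pool.Agent.Lib.MP_06b9d2_tln.rp_l h hl hl2 hM N
  have r2 := Pool.Agent.Lib.MP_06b9d2_tln.rp_l h h3p (by norm_num) hM3 N
  by_cases h3 : l = 3
  · subst h3
    rw [rp_uni h e N r1 r2]
  · have hc : l.Coprime 3 := (Nat.coprime_primes hl h3p).2 h3
    have t1 := Pool.Agent.Lib.MP_06b9d2_tln.rp_mul r1 r2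
    have t2 := Pool.Agent.Lib.MP_06b9d2_tln.rp_mul r2 r1
    rw [← Pool.Agent.Lib.MP_06b9d2_tln.TN_mul l 3 _ hl.ne_zero h3p.ne_zero hc] at t1
    rw [← Pool.Agent.Lib.MP_06b9d2_tln.TN_mul 3 l _ h3p.ne_zero hl.ne_zero hc.symm, mul_comm 3 l] at t2
    exact rp_uni h e N t1 t2

theorem gc_l (h : Core A Y) (h2 : O.valuation 2 < 1) (hl : l.Prime) (hl2 : l ≠ 2) (he : e ≤ 1)
    (hM3 : MatD 3 A Y e M3) (N : ℕ) :
    GC O (pr ^ 3) N (4 * N + 2 * e) (mo2 (A + 3 * Y) (8 * (Y * (A + Y))) e N) (mtx 3 M3 N) l := by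
  obtain ⟨M, hM⟩ := Pool.Agent.Lib.MP_06b9d2_tl2.matD_ex h hl hl2 e he
  have hP := prD_l h h2 hl hl2 hM N
  exact ⟨mtx l M N, Pool.Agent.Lib.MP_06b9d2_tln.rp_l h hl hl2 hM N,
    Pool.Agent.Lib.MP_06b9d2_tln.sy_l hM N, cm_l h hl hl2 hM hM3 N, hP.1, hP.2⟩

end Pool.Agent.Lib.MP_06b9d2_bm
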