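import Pool.Agent.Lib.MP_06b9d2_bm.Defs

/-!
Module BM-Sym. Symmetric functions on `0, …, N` of the form `P(ρ s)` are polynomials in `ρ ^ 2 q`, `q = s ^ 2 - N s`.

`sym_dec`: with `t = ρ s`, `N' = ρ N ∈ O`: `t ^ 2 = t ^ 2 - N' t + N' t`; the set of the `P` with a decomposition is closed under addition, contains the constants and is closed under the multiplication
by `X`: `t (A(u) + t B(u)) = u B(u) + t (A(u) + N' B(u))`, `u = t ^ 2 - N' t`, i.e. `A' = X * B`, `B' = A + C N' * B` (`Polynomial.induction_on`).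
`dp_sym`: `f(s) = A(u) + t B(u)`, `u = ρ ^ 2 (s ^ 2 - N s)` has the same value at `s` and `N - s`, so `(N - 2 s) ρ B(u(s)) = 0` for `s ≤ N`: either `ρ = 0` (then `f` is constant) or `B(u(s)) = 0` for `2 s ≠ N`. `N` odd: `H = A`.
`N = 2 N₁`: `ρ s B(u(s)) = ρ N₁ B(u(s))` for all `s ≤ N` (both sides are `0` if `s ≠ N₁`), `H = A + C (ρ N₁) * B`.
-/

namespace Pool.Agent.Lib.MP_06b9d2_bm

variable {O : ValuationSubring ℂ} {ρ : ℂ}

theorem sym_dec (c : ℂ) (hc : O.valuation c ≤ 1) (P : Polynomial O) : ∃ A B : Polynomial O, ∀ t : ℂ,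
    Polynomial.aeval t P = Polynomial.aeval (t ^ 2 - c * t) A + t * Polynomial.aeval (t ^ 2 - c * t) B := by
  have hcO : c ∈ O := (O.valuation_le_one_iff c).1 hc
  induction P using Polynomial.induction_on with
  | C a =>
    refine ⟨Polynomial.C a, 0, fun t => ?_⟩
    simp
  | add p q hp hq =>
    obtain ⟨A, B, h⟩ := hp
    obtain ⟨A', B', h'⟩ := hq
    refine ⟨A + A', B + B', fun t => ?_⟩
    rw [map_add, map_add, map_add, h t, h' t]
    ring
  | monomial n a hn =>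
    obtain ⟨A, B, h⟩ := hn
    refine ⟨Polynomial.X * B, A + Polynomial.C (⟨c, hcO⟩ : O) * B, fun t => ?_⟩
    have h1 : Polynomial.aeval t (Polynomial.C a * Polynomial.X ^ (n + 1)) =
        Polynomial.aeval t (Polynomial.C a * Polynomial.X ^ n) * t := by
      rw [pow_succ, ← mul_assoc, map_mul, Polynomial.aeval_X]
    have h2 : ∀ x : ℂ, Polynomial.aeval x (Polynomial.C (⟨c, hcO⟩ : O)) = c := by
      intro x
      rw [Polynomial.aeval_C]
      rfl
    rw [h1, h t, map_add, map_mul, map_mul, Polynomial.aeval_X, h2]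
    ring

theorem dp_sym (hρ : O.valuation ρ ≤ 1) (N : ℕ) (f : ℤ → ℂ) (hf : DP O ρ f)
    (hs : ∀ s : ℕ, s ≤ N → f (((N - s : ℕ) : ℕ) : ℤ) = f ((s : ℕ) : ℤ)) :
    ∃ H : Polynomial O, ∀ s : ℕ, s ≤ N → f (s : ℤ) = Polynomial.aeval (ρ ^ 2 * qv N s) H := by
  obtain ⟨P, hP⟩ := hf
  have hρO : ρ ∈ O := (O.valuation_le_one_iff ρ).1 hρ
  have hcO : ρ * (N : ℂ) ∈ O := mul_mem hρO (natCast_mem O N)
  obtain ⟨A, B, h⟩ := sym_dec (ρ * (N : ℂ)) ((O.valuation_le_one_iff _).2 hcO) P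
  have hu : ∀ s : ℕ, (ρ * (s : ℂ)) ^ 2 - ρ * (N : ℂ) * (ρ * (s : ℂ)) = ρ ^ 2 * qv N s := by
    intro s
    unfold qv
    ring
  have hf : ∀ s : ℕ, f (s : ℤ) = Polynomial.aeval (ρ ^ 2 * qv N s) A +
      ρ * (s : ℂ) * Polynomial.aeval (ρ ^ 2 * qv N s) B := by
    intro s
    rw [hP, Int.cast_natCast, h, hu]
  have hB : ∀ s : ℕ, s ≤ N → 2 * s ≠ N → ρ * Polynomial.aeval (ρ ^ 2 * qv N s) B = 0 := by
    intro s hs0 hs1
    have h1 := hs s hs0
    have h2 : qv N (N - s) = qv N s := by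
      unfold qv
      rw [Nat.cast_sub hs0]
      ring
    rw [hf (N - s), hf s, h2, Nat.cast_sub hs0] at h1
    have h3 : ((N : ℂ) - 2 * (s : ℂ)) * (ρ * Polynomial.aeval (ρ ^ 2 * qv N s) B) = 0 := by
      linear_combination h1
    rcases mul_eq_zero.1 h3 with h4 | h4
    · exfalso
      apply hs1
      have h5 : ((2 * s : ℕ) : ℂ) = (N : ℂ) := by
        push_cast
        linear_combination -h4
      exact_mod_cast h5
    · exact h4
  rcases Nat.even_or_odd' N with ⟨m, hm | hm⟩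
  · have hmO : ρ * (m : ℂ) ∈ O := mul_mem hρO (natCast_mem O m)
    refine ⟨A + Polynomial.C (⟨ρ * (m : ℂ), hmO⟩ : O) * B, fun s hsN => ?_⟩
    have h2 : ∀ x : ℂ, Polynomial.aeval x (Polynomial.C (⟨ρ * (m : ℂ), hmO⟩ : O)) = ρ * (m : ℂ) := by
      intro x
      rw [Polynomial.aeval_C]
      rfl
    rw [hf s, map_add, map_mul, h2]
    by_cases hsm : s = m
    · rw [hsm]
    · have h3 := hB s hsN (by omega)
      linear_combination ((s : ℂ) - (m : ℂ)) * h3
  · refine ⟨A, fun s hsN => ?_⟩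
    have h3 := hB s hsN (by omega)
    rw [hf s]
    linear_combination (s : ℂ) * h3

end Pool.Agent.Lib.MP_06b9d2_bm
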