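import Pool.Agent.Lib.MP_06b9d2_bm.Dp
import Pool.Agent.Lib.MP_06b9d2_bm.Sym
import Pool.Agent.Lib.MP_06b9d2_tln.PrA
import Pool.Agent.Lib.MP_06b9d2_tl2.Val

/-!
Module BM-AsC. The data `Bas` for `A₀ = T_3` and `A = T_n`.

`act_sym`: for `M` with `Sy M` and `f` symmetric on `0, …, N` (`f(N - s) = f(s)`) the function `act M f` is symmetric (`Fin.revPerm`).
`bas_ex`: `(M.vecMulLinear v) s = ∑ j, v j * M j s`, so for `v = f` on `0, …, N` it is `act M f s`. For `P` let `f s = P(s ^ 2 - N s)` (`s : ℤ`): `PO O f` (`DP O 1 f`, `po_iff`: `X ^ 2 - C N * X` composed with `P`), symmetric.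
`base`: `cls3` (`MP_06b9d2_tln/PrA.lean`) for `l = 3`: `act M₀ f s = c (f s + 2 ^ 5 (1 * Rq N f s + 2 ^ 1 * g s))`, `c = 1 + 3 ^ k / 3 ≠ 0`, `PO O g`; `Rq N f = q f`; `g` is symmetric on `0, …, N` (`act_sym`, `c ≠ 0`), so `g = evF G` (`dp_sym` with `ρ = 1`): `c₀ = c`, `W = 32 c`, `p = 2`.
`comm`: `hC`. `one`: `f = 1` is `DP O (pr ^ 3)`; `act M 1 = g`, `DP O (pr ^ 3) g`, symmetric: `dp_sym`, `δ = (pr ^ 3) ^ 2`. `pres`: `h1` and `dp_sym` with `ρ = 1`.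
-/

namespace Pool.Agent.Lib.MP_06b9d2_bm

open PowerSeries
open Pool.Agent.Lib.MP_06b9d2_tln (Mt Sy act mtx Rq Cls)
open Pool.Agent.Lib.MP_06b9d2_tl2 (Core MatD Qd pr)

variable {A Y : ℂ⟦X⟧} {a k : ℤ⟦X⟧} {O : ValuationSubring ℂ}

theorem act_sym {N : ℕ} {M : Mt N} (hS : Sy M) (f : ℤ → ℂ)
    (hf : ∀ s : ℕ, s ≤ N → f ((N - s : ℕ) : ℤ) = f (s : ℤ)) (s : Fin (N + 1)) :
    act M f (Fin.rev s) = act M f s := by
  unfold act
  rw [← Equiv.sum_comp (Fin.revPerm (n := N + 1)) (fun j : Fin (N + 1) => M j (Fin.rev s) * f ((j : ℕ) : ℤ))]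
  refine Finset.sum_congr rfl fun j _ => ?_
  have h1 : ((Fin.rev j : Fin (N + 1)) : ℕ) = N - j := by
    rw [Fin.val_rev]
    omega
  rw [Fin.revPerm_apply, hS j s, h1, hf j (Nat.lt_succ_iff.1 j.2)]

/-- `M.vecMulLinear` on the restriction of a function -/
private theorem AsC_vm {N : ℕ} (M : Mt N) (f : ℤ → ℂ) (v : Fin (N + 1) → ℂ)
    (hv : ∀ j : Fin (N + 1), v j = f ((j : ℕ) : ℤ)) (s : Fin (N + 1)) :
    M.vecMulLinear v s = act M f s := by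
  have h1 : M.vecMulLinear v s = ∑ j, v j * M j s := rfl
  rw [h1]
  unfold act
  refine Finset.sum_congr rfl fun j _ => ?_
  rw [hv j, mul_comm]

/-- the function `s ↦ P(s ^ 2 - N s)` on the integers -/
private noncomputable def AsC_f (O : ValuationSubring ℂ) (N : ℕ) (P : Polynomial O) (s : ℤ) : ℂ :=
  Polynomial.aeval ((s : ℂ) ^ 2 - N * s) P

private theorem AsC_ev (O : ValuationSubring ℂ) (N : ℕ) (P : Polynomial O) (j : Fin (N + 1)) :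
    evF O N P j = AsC_f O N P ((j : ℕ) : ℤ) := by
  unfold evF AsC_f qv
  rw [Int.cast_natCast]

private theorem AsC_dp (O : ValuationSubring ℂ) (N : ℕ) (P : Polynomial O) : DP O 1 (AsC_f O N P) := by
  refine ⟨P.comp (Polynomial.X ^ 2 - (N : Polynomial O) * Polynomial.X), fun s => ?_⟩
  unfold AsC_f
  rw [Polynomial.aeval_comp]
  simp

private theorem AsC_sym (O : ValuationSubring ℂ) (N : ℕ) (P : Polynomial O) (s : ℕ) (hs : s ≤ N) :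
    AsC_f O N P ((N - s : ℕ) : ℤ) = AsC_f O N P (s : ℤ) := by
  unfold AsC_f
  rw [Int.cast_natCast, Int.cast_natCast, Nat.cast_sub hs]
  have h1 : ((N : ℂ) - (s : ℂ)) ^ 2 - (N : ℂ) * ((N : ℂ) - (s : ℂ)) = (s : ℂ) ^ 2 - (N : ℂ) * (s : ℂ) := by ring
  rw [h1]

private theorem AsC_c (N e : ℕ) : (1 + ((3 : ℕ) : ℂ) ^ (4 * N + 2 * e) / ((3 : ℕ) : ℂ)) ≠ 0 := by
  have h1 : (1 + ((3 : ℕ) : ℂ) ^ (4 * N + 2 * e) / ((3 : ℕ) : ℂ)) =
      ((1 + (3 : ℝ) ^ (4 * N + 2 * e) / 3 : ℝ) : ℂ) := by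
    push_cast
    ring
  rw [h1]
  have h2 : (0 : ℝ) < 1 + (3 : ℝ) ^ (4 * N + 2 * e) / 3 := by positivity
  exact_mod_cast h2.ne'

private theorem AsC_rev {N : ℕ} (g : ℤ → ℂ) (M : Mt N) (hS : Sy M) (f : ℤ → ℂ)
    (hf : ∀ s : ℕ, s ≤ N → f ((N - s : ℕ) : ℤ) = f (s : ℤ))
    (hg : ∀ s : Fin (N + 1), act M f s = g ((s : ℕ) : ℤ)) (s : ℕ) (hs : s ≤ N) :
    g ((N - s : ℕ) : ℤ) = g (s : ℤ) := by
  have h1 := act_sym hS f hf ⟨s, Nat.lt_succ_of_le hs⟩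
  rw [hg, hg, Fin.val_rev] at h1
  simpa using h1

theorem bas_ex (h : Core A Y) (h2 : O.valuation 2 < 1) (q : Qd A Y a k) {e : ℕ} (he : e ≤ 1)
    {M3 : ℕ → ℕ → ℕ → ℂ} (hM3 : MatD 3 A Y e M3) (hk : coeff 3 k = 1 + ((3 : ℕ) : ℤ)) (N : ℕ) (M : Mt N) (hS : Sy M)
    (hC : Commute M (mtx 3 M3 N)) (h1 : PrD O 1 M) (hρ : PrD O (pr ^ 3) M) :
    ∃ c₀ W : ℂ, Bas O N 2 ((pr ^ 3) ^ 2) c₀ W (mtx 3 M3 N).vecMulLinear M.vecMulLinear := by
  obtain ⟨hpr1, hpr2, hpr3⟩ := Pool.Agent.Lib.MP_06b9d2_tl2.v_pr h2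
  have hprle : O.valuation (pr ^ 3) ≤ 1 := by
    rw [map_pow]
    exact pow_le_one' hpr2.le 3
  obtain ⟨c, hc⟩ : ∃ c : ℂ, c = 1 + ((3 : ℕ) : ℂ) ^ (4 * N + 2 * e) / ((3 : ℕ) : ℂ) := ⟨_, rfl⟩
  have hc0 : c ≠ 0 := by
    rw [hc]
    exact AsC_c N e
  have hS0 : Sy (mtx 3 M3 N) := Pool.Agent.Lib.MP_06b9d2_tln.sy_l hM3 N
  refine ⟨c, 32 * c, ?_⟩
  refine { hp := h2, p0 := two_ne_zero, hδ := ?_, hW := mul_ne_zero (by norm_num) hc0, base := ?_, comm := ?_,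
           one := ?_, pres := ?_ }
  · rw [map_pow]
    exact pow_le_one' hprle 2
  · intro P
    have hcl := Pool.Agent.Lib.MP_06b9d2_tln.cls3 h h2 q Nat.prime_three he hM3 hk (Or.inl (by norm_num)) N
    rw [← hc] at hcl
    have hfD := AsC_dp O N P
    obtain ⟨g, hg, hgs⟩ := hcl (AsC_f O N P) ((po_iff _).2 hfD)
    have hfs : ∀ s : ℕ, s ≤ N → AsC_f O N P ((N - s : ℕ) : ℤ) = AsC_f O N P (s : ℤ) := AsC_sym O N P
    have hRs : ∀ s : ℕ, s ≤ N → Rq N (AsC_f O N P) ((N - s : ℕ) : ℤ) = Rq N (AsC_f O N P) (s : ℤ) := by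
      intro s hs
      unfold Rq
      rw [hfs s hs, Int.cast_natCast, Int.cast_natCast, Nat.cast_sub hs]
      ring
    have hgsym : ∀ s : ℕ, s ≤ N → g ((N - s : ℕ) : ℤ) = g (s : ℤ) := by
      intro s hs
      have h3 := AsC_rev (fun s => c * (AsC_f O N P s + 2 ^ 5 * (1 * Rq N (AsC_f O N P) s + 2 ^ 1 * g s))) 
        (mtx 3 M3 N) hS0 (AsC_f O N P) hfs hgs s hs
      rw [hfs s hs, hRs s hs] at h3
      have h4 := mul_left_cancel₀ hc0 h3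
      have h5 := mul_left_cancel₀ (by norm_num : (2 : ℂ) ^ 5 ≠ 0) (add_left_cancel h4)
      exact mul_left_cancel₀ (by norm_num : (2 : ℂ) ^ 1 ≠ 0) (add_left_cancel h5)
    obtain ⟨G, hG⟩ := dp_sym (ρ := 1) (by rw [map_one]) N g ((po_iff _).1 hg) hgsym
    refine ⟨G, ?_⟩
    funext s
    rw [AsC_vm (mtx 3 M3 N) (AsC_f O N P) (evF O N P) (AsC_ev O N P) s, hgs s]
    have hGs := hG s (Nat.lt_succ_iff.1 s.2)
    rw [one_pow, one_mul] at hGs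
    have hX : evF O N (Polynomial.X * P) s = qv N s * evF O N P s := by
      unfold evF
      rw [map_mul, Polynomial.aeval_X]
    have hR : Rq N (AsC_f O N P) ((s : ℕ) : ℤ) = qv N s * evF O N P s := by
      rw [AsC_ev]
      unfold Rq qv
      rw [Int.cast_natCast]
    simp only [Pi.add_apply, Pi.smul_apply, smul_eq_mul]
    rw [hX, hR, ← AsC_ev, hGs]
    unfold evF
    ring
  · intro v
    have e1 : M.vecMulLinear ((mtx 3 M3 N).vecMulLinear v) = Matrix.vecMul (Matrix.vecMul v (mtx 3 M3 N)) M := rfl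
    have e2 : (mtx 3 M3 N).vecMulLinear (M.vecMulLinear v) = Matrix.vecMul (Matrix.vecMul v M) (mtx 3 M3 N) := rfl
    rw [e1, e2, Matrix.vecMul_vecMul, Matrix.vecMul_vecMul, hC.eq]
  · obtain ⟨g, hg, hgs⟩ := hρ (fun _ => 1) (dp_const 1 (by rw [map_one]))
    have hgsym := AsC_rev g M hS (fun _ => 1) (fun s _ => rfl) hgs
    obtain ⟨H, hH⟩ := dp_sym hprle N g hg hgsym
    refine ⟨H, ?_⟩
    funext s
    rw [AsC_vm M (fun _ => 1) (evF O N 1) (fun j => by unfold evF; rw [map_one]) s, hgs s,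
      hH s (Nat.lt_succ_iff.1 s.2)]
  · intro P
    obtain ⟨g, hg, hgs⟩ := h1 (AsC_f O N P) (AsC_dp O N P)
    have hgsym := AsC_rev g M hS (AsC_f O N P) (AsC_sym O N P) hgs
    obtain ⟨G, hG⟩ := dp_sym (ρ := 1) (by rw [map_one]) N g hg hgsym
    refine ⟨G, ?_⟩
    funext s
    rw [AsC_vm M (AsC_f O N P) (evF O N P) (AsC_ev O N P) s, hgs s, hG s (Nat.lt_succ_iff.1 s.2), one_pow, one_mul]
    rfl

end Pool.Agent.Lib.MP_06b9d2_bm
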