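import Pool.Agent.Lib.MP_06b9d2_tln.Defs

/-!
MP_06b9d2_nt, board BM: the multiplicities of the eigenvalues of `T_n` are bounded independently of the weight.
Definitions.

`O` is a valuation ring of `ℂ`, a matrix `M` with the indices `0, …, N` acts on functions by
`(act M f) s = ∑ j, M j s f j`, that is by `Matrix.vecMulLinear`. `q = s ^ 2 - N s`.
-/

namespace Pool.Agent.Lib.MP_06b9d2_bm

open PowerSeries
open Pool.Agent.Lib.MP_06b9d2_tln (TN Mt Rp Sy act lu)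

/-- `f(s) = P(ρ s)` for a polynomial `P` over `O` -/
def DP (O : ValuationSubring ℂ) (ρ : ℂ) (f : ℤ → ℂ) : Prop :=
  ∃ P : Polynomial O, ∀ s : ℤ, f s = Polynomial.aeval (ρ * (s : ℂ)) P

/-- `s ^ 2 - N s` -/
noncomputable def qv (N s : ℕ) : ℂ := (s : ℂ) ^ 2 - N * s

/-- the function `s ↦ P(s ^ 2 - N s)` on `0, …, N` -/
noncomputable def evF (O : ValuationSubring ℂ) (N : ℕ) (P : Polynomial O) (s : Fin (N + 1)) : ℂ :=
  Polynomial.aeval (qv N s) P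

/-- `M` preserves the functions `P(ρ s)` -/
def PrD (O : ValuationSubring ℂ) (ρ : ℂ) {N : ℕ} (M : Mt N) : Prop :=
  ∀ f : ℤ → ℂ, DP O ρ f → ∃ g : ℤ → ℂ, DP O ρ g ∧ ∀ s : Fin (N + 1), act M f s = g ((s : ℕ) : ℤ)

/-- the data of the abstract theorem: `A₀ = c₀ + W (q + p (..))`, `A` commutes with `A₀` and preserves the
polynomials in `q`, and `A 1` is a polynomial in `δ q` -/
structure Bas (O : ValuationSubring ℂ) (N : ℕ) (p δ c₀ W : ℂ)
    (A₀ A : (Fin (N + 1) → ℂ) →ₗ[ℂ] (Fin (N + 1) → ℂ)) : Prop where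
  hp : O.valuation p < 1
  p0 : p ≠ 0
  hδ : O.valuation δ ≤ 1
  hW : W ≠ 0
  base : ∀ P : Polynomial O, ∃ G : Polynomial O, A₀ (evF O N P) =
    c₀ • evF O N P + W • (evF O N (Polynomial.X * P) + p • evF O N G)
  comm : ∀ v, A (A₀ v) = A₀ (A v)
  one : ∃ H : Polynomial O, A (evF O N 1) =
    fun s : Fin (N + 1) => Polynomial.aeval (δ * qv N (s : ℕ)) H
  pres : ∀ P : Polynomial O, ∃ G : Polynomial O, A (evF O N P) = evF O N G

/-- some value of `A` on a polynomial in `q` is not small -/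
def Lowb (O : ValuationSubring ℂ) (N : ℕ) (p : ℂ) (w : ℕ)
    (A : (Fin (N + 1) → ℂ) →ₗ[ℂ] (Fin (N + 1) → ℂ)) : Prop :=
  ∃ (P : Polynomial O) (s : Fin (N + 1)), evF O N P s = 0 ∧
    O.valuation (p ^ w) ≤ O.valuation (A (evF O N P) s)

/-- `A` is `h₀ + η (a(q) + ϖ (..))` with a monic polynomial `a` of degree `d`, `1 ≤ d ≤ D` -/
def Mul (O : ValuationSubring ℂ) (N D : ℕ) (A : (Fin (N + 1) → ℂ) →ₗ[ℂ] (Fin (N + 1) → ℂ)) : Prop :=
  ∃ (h₀ η ϖ : ℂ) (a : Polynomial O) (d : ℕ), 1 ≤ d ∧ d ≤ D ∧ a.natDegree = d ∧ a.Monic ∧ η ≠ 0 ∧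
    O.valuation ϖ < 1 ∧ ∀ P : Polynomial O, ∃ G : Polynomial O,
      A (evF O N P) = h₀ • evF O N P + η • (evF O N (a * P) + ϖ • evF O N G)

/-- a symmetric eigenvector of `M` is determined by its moments of order `< D` with respect to `q` -/
def InjD (N D : ℕ) (M : Mt N) : Prop :=
  ∀ (lam : ℂ) (x : Fin (N + 1) → ℂ), (∀ s, x (Fin.rev s) = x s) → M.mulVec x = lam • x →
    (∀ i < D, ∑ s : Fin (N + 1), x s * qv N s ^ i = 0) → x = 0

/-- `T` maps series with coefficients in `O` to such series and lowers the order at most by the factor `n`;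
the leading coefficients are as for `T_n` -/
structure Lw (O : ValuationSubring ℂ) (n : ℕ) (T : ℂ⟦X⟧ →ₗ[ℂ] ℂ⟦X⟧) : Prop where
  int : ∀ f : ℂ⟦X⟧, (∀ i, O.valuation (coeff i f) ≤ 1) → ∀ i, O.valuation (coeff i (T f)) ≤ 1
  zero : ∀ (f : ℂ⟦X⟧) (j : ℕ), (∀ i < n * j, coeff i f = 0) → ∀ i < j, coeff i (T f) = 0
  lead : ∀ (f : ℂ⟦X⟧) (j : ℕ), 1 ≤ j → (∀ i < n * j, coeff i f = 0) → coeff j (T f) = coeff (n * j) f

/-- `mo s = Λ ^ s b s`, where `b s` has coefficients in `O` and starts with `X ^ s` -/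
structure Tri (O : ValuationSubring ℂ) (Λ : ℂ) (N : ℕ) (mo b : ℕ → ℂ⟦X⟧) : Prop where
  eq : ∀ s ≤ N, mo s = Λ ^ s • b s
  int : ∀ s ≤ N, ∀ i, O.valuation (coeff i (b s)) ≤ 1
  zero : ∀ s ≤ N, ∀ i < s, coeff i (b s) = 0
  one : ∀ s ≤ N, coeff s (b s) = 1

/-- the matrix of `T_n` with the properties used -/
def GC (O : ValuationSubring ℂ) (ρ : ℂ) (N k : ℕ) (mo : ℕ → ℂ⟦X⟧) (M₀ : Mt N) (n : ℕ) : Prop :=
  ∃ M : Mt N, Rp mo (TN n k) M ∧ Sy M ∧ Commute M M₀ ∧ PrD O 1 M ∧ PrD O ρ M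

end Pool.Agent.Lib.MP_06b9d2_bm
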