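import Pool.Agent.Lib.MP_06b9d2_bm.DefsT
import Pool.Agent.Lib.MP_06b9d2_tls.MainL

/-!
MP_06b9d2_nt, board BM, part G: finite sums of products of Hecke operators. Definitions.
-/

namespace Pool.Agent.Lib.MP_06b9d2_bm

open PowerSeries UpperHalfPlane Pool.Agent.L1 Pool.Agent.Lib.MP_06b9d2_nt
open Pool.Agent.Lib.MP_06b9d2_tln (TN Mt Rp Sy act lu)
open scoped MatrixGroups ModularForm

/-- `T` maps series with coefficients in `O` to such series and lowers the order at most by the factor `n`;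
the leading coefficient is multiplied by `c` (`c = 0` is allowed) -/
structure LwC (O : ValuationSubring ℂ) (n : ℕ) (c : ℂ) (T : ℂ⟦X⟧ →ₗ[ℂ] ℂ⟦X⟧) : Prop where
  int : ∀ f : ℂ⟦X⟧, (∀ i, O.valuation (coeff i f) ≤ 1) → ∀ i, O.valuation (coeff i (T f)) ≤ 1
  zero : ∀ (f : ℂ⟦X⟧) (j : ℕ), (∀ i < n * j, coeff i f = 0) → ∀ i < j, coeff i (T f) = 0
  lead : ∀ (f : ℂ⟦X⟧) (j : ℕ), 1 ≤ j → (∀ i < n * j, coeff i f = 0) → coeff j (T f) = c * coeff (n * j) f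

/-- the product of the operators `T_n`, `n` in the list `w` -/
noncomputable def WT (k : ℕ) (w : List ℕ) : ℂ⟦X⟧ →ₗ[ℂ] ℂ⟦X⟧ :=
  (w.map fun n => (TN n k : Module.End ℂ ℂ⟦X⟧)).prod

/-- the sum `∑ z w T_w` -/
noncomputable def ST (k : ℕ) (s : Finset (List ℕ)) (z : List ℕ → ℂ) : ℂ⟦X⟧ →ₗ[ℂ] ℂ⟦X⟧ :=
  ∑ w ∈ s, z w • WT k w

/-- the matrix of `T` with the properties used (prime `2`) -/
def GG (O : ValuationSubring ℂ) (ρ : ℂ) (N : ℕ) (mo : ℕ → ℂ⟦X⟧) (M₀ : Mt N) (T : ℂ⟦X⟧ →ₗ[ℂ] ℂ⟦X⟧) : Prop :=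
  ∃ M : Mt N, Rp mo T M ∧ Sy M ∧ Commute M M₀ ∧ PrD O 1 M ∧ PrD O ρ M

/-- the matrix of `T` with the properties used (prime `3`) -/
def GGT (O : ValuationSubring ℂ) (ρ : ℂ) (N : ℕ) (mo : ℕ → ℂ⟦X⟧) (M₀ : Mt N) (ε : ℕ)
    (T : ℂ⟦X⟧ →ₗ[ℂ] ℂ⟦X⟧) : Prop :=
  ∃ M : Mt N, Rp mo T M ∧ Sy M ∧ Commute M M₀ ∧ PrT O 1 ε M ∧ PrT O ρ ε M

/-- symmetric eigenvectors of `M` for the eigenvalue `lam` are determined by `D` moments -/
def InjAt (N D : ℕ) (M : Mt N) (lam : ℂ) : Prop :=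
  ∀ x : Fin (N + 1) → ℂ, (∀ s, x (Fin.rev s) = x s) → M.mulVec x = lam • x →
    (∀ i < D, ∑ s : Fin (N + 1), x s * qv N s ^ i = 0) → x = 0

/-- the eigenspaces of `∑ z w T_w` on cusp forms of all even weights `k ≥ 0` have dimension at most `B`
(`T n` is the Hecke operator `T_n`) -/
def KerW (s : Finset (List ℕ)) (z : List ℕ → ℂ) (B : ℕ) : Prop :=
  ∀ (k : ℕ) (_ : Even k) (T : ℕ → CuspForm 𝒮ℒ (k : ℤ) →ₗ[ℂ] CuspForm 𝒮ℒ (k : ℤ))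
    (_ : ∀ w ∈ s, ∀ n ∈ w, IsHecke (k : ℤ) n (T n)) (lam : ℂ),
    Module.finrank ℂ (LinearMap.ker ((∑ w ∈ s, z w • (w.map fun n =>
      (T n : Module.End ℂ (CuspForm 𝒮ℒ (k : ℤ)))).prod) - lam • LinearMap.id)) ≤ B

/-- a finite sum of words: the letters satisfy `Q`, and one word `w₀` with a coefficient `z w₀ ≠ 0` has a
product `≥ 2` which is larger than that of all other words -/
structure Wds (Q : ℕ → Prop) (s : Finset (List ℕ)) (z : List ℕ → ℂ) (w₀ : List ℕ) : Prop where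
  letter : ∀ w ∈ s, ∀ n ∈ w, Q n
  mem : w₀ ∈ s
  ne : z w₀ ≠ 0
  two : 2 ≤ w₀.prod
  max : ∀ w ∈ s, w ≠ w₀ → w.prod < w₀.prod

end Pool.Agent.Lib.MP_06b9d2_bm
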