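import Pool.Agent.Lib.MP_06b9d2_bm.Defs
import Pool.Agent.Lib.MP_06b9d2_tls.DefsC

/-!
MP_06b9d2_nt, board BM, definitions for the prime `3`.
-/

namespace Pool.Agent.Lib.MP_06b9d2_bm

open PowerSeries
open Pool.Agent.Lib.MP_06b9d2_tln (TN Mt Rp Sy act lu)

/-- `M` maps the functions `(-1) ^ (σ s) P(ρ s)` to functions `(-1) ^ ((σ + ε) s) Q(ρ s)` -/
def PrT (O : ValuationSubring ℂ) (ρ : ℂ) (ε : ℕ) {N : ℕ} (M : Mt N) : Prop :=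
  ∀ (σ : ℕ) (f : ℤ → ℂ), DP O ρ f → ∃ g : ℤ → ℂ, DP O ρ g ∧ ∀ s : Fin (N + 1),
    act M (fun t => (-1 : ℂ) ^ (σ * t.natAbs) * f t) s = (-1 : ℂ) ^ ((σ + ε) * (s : ℕ)) * g ((s : ℕ) : ℤ)

/-- the matrix of `T_n` with the properties used -/
def GT (O : ValuationSubring ℂ) (ρ : ℂ) (N k : ℕ) (mo : ℕ → ℂ⟦X⟧) (M₀ : Mt N) (n ε : ℕ) : Prop :=
  ∃ M : Mt N, Rp mo (TN n k) M ∧ Sy M ∧ Commute M M₀ ∧ PrT O 1 ε M ∧ PrT O ρ ε M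

/-- the matrix of `T_l` (level three) -/
noncomputable def mt3 (l : ℕ) (M : ℕ → ℕ → ℕ → ℕ → ℂ) (ε N : ℕ) : Mt N := Matrix.of fun j s => M ε N j s / l

/-- the coefficients of the operator -/
noncomputable def k3 (e c : ℂ) (M : ℕ → ℕ → ℕ → ℕ → ℂ) (ε m n r : ℕ) : ℂ :=
  (3 * e / c) ^ m * (3 / c) ^ n * Pool.Agent.Lib.MP_06b9d2_tls.pc e c M ε m n r

/-- the square root of `3` -/
noncomputable def r3 : ℂ := ((Real.sqrt 3 : ℝ) : ℂ)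

end Pool.Agent.Lib.MP_06b9d2_bm
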