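import Pool.Agent.Lib.MP_06b9d2_bm.Defs

/-!
Module BM-Dp. The functions `P(ρ s)`, `P` a polynomial over `O`.

`dp_const`: `P = C z`. `dp_add`, `dp_mul`: `P + Q`, `P * Q`. `dp_lin`: `P = X`. `dp_shift`: `P.comp (X + C (ρ c))`, `ρ c ∈ O`.
`dp_sum`, `dp_prod`: induction on the finite set. `po_iff`: `ρ = 1`.
`dp_op`: `op κ N f = ∑ κ m n r (dm N m n s f(s - n + r))` and `κ m n r dm N m n s = (κ m n r / (m! n! ρ ^ (m + n))) ∏_{i < m} (ρ N - ρ s - ρ i) ∏_{i < n} (ρ s - ρ i)`; the first factor is in `O` by `h`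
(`m! n! ρ ^ (m + n) ≠ 0`), the products are of the form `P(ρ s)`, `f(s - n + r)` by `dp_shift`. (Compare `op_err` in `MP_06b9d2_tln/OpB.lean`.)
-/

namespace Pool.Agent.Lib.MP_06b9d2_bm

open Pool.Agent.Lib.MP_06b9d2_ssp (PO)
open Pool.Agent.Lib.MP_06b9d2_tln (op dm)

variable {O : ValuationSubring ℂ} {ρ : ℂ}

private theorem Dp_int (O : ValuationSubring ℂ) (n : ℤ) : O.valuation (n : ℂ) ≤ 1 :=
  (ValuationSubring.valuation_le_one_iff O _).2 (intCast_mem O n)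

theorem dp_const (z : ℂ) (hz : O.valuation z ≤ 1) : DP O ρ (fun _ => z) := by
  refine ⟨Polynomial.C ⟨z, (ValuationSubring.valuation_le_one_iff O _).1 hz⟩, fun s => ?_⟩
  rw [Polynomial.aeval_C]
  rfl

theorem dp_add {f g : ℤ → ℂ} (hf : DP O ρ f) (hg : DP O ρ g) : DP O ρ (fun s => f s + g s) := by
  obtain ⟨p, hp⟩ := hf
  obtain ⟨q, hq⟩ := hg
  refine ⟨p + q, fun s => ?_⟩
  show f s + g s = _
  rw [map_add, hp, hq]

theorem dp_mul {f g : ℤ → ℂ} (hf : DP O ρ f) (hg : DP O ρ g) : DP O ρ (fun s => f s * g s) := by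
  obtain ⟨p, hp⟩ := hf
  obtain ⟨q, hq⟩ := hg
  refine ⟨p * q, fun s => ?_⟩
  show f s * g s = _
  rw [map_mul, hp, hq]

theorem dp_smul {f : ℤ → ℂ} (z : ℂ) (hz : O.valuation z ≤ 1) (hf : DP O ρ f) : DP O ρ (fun s => z * f s) := by
  exact dp_mul (dp_const z hz) hf

theorem dp_lin : DP O ρ (fun s => ρ * (s : ℂ)) := by
  exact ⟨Polynomial.X, fun s => (Polynomial.aeval_X _).symm⟩

theorem dp_shift (hρ : O.valuation ρ ≤ 1) {f : ℤ → ℂ} (c : ℤ) (hf : DP O ρ f) : DP O ρ (fun s => f (s + c)) := by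
  obtain ⟨p, hp⟩ := hf
  have hc : O.valuation (ρ * (c : ℂ)) ≤ 1 := by
    rw [map_mul]
    exact mul_le_one' hρ (Dp_int O c)
  refine ⟨p.comp (Polynomial.X +
    Polynomial.C ⟨ρ * (c : ℂ), (ValuationSubring.valuation_le_one_iff O _).1 hc⟩), fun s => ?_⟩
  show f (s + c) = _
  rw [hp, Polynomial.aeval_comp, map_add, Polynomial.aeval_X, Polynomial.aeval_C, Int.cast_add,
    mul_add]
  rfl

theorem dp_sum {ι : Type} (S : Finset ι) (f : ι → ℤ → ℂ) (hf : ∀ i ∈ S, DP O ρ (f i)) :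
    DP O ρ (fun s => ∑ i ∈ S, f i s) := by
  classical
  induction S using Finset.induction_on with
  | empty =>
    have h0 := dp_const (O := O) (ρ := ρ) 0 (by rw [map_zero]; exact zero_le_one)
    simpa using h0
  | insert a S ha ih =>
    have h1 := dp_add (hf a (Finset.mem_insert_self a S))
      (ih fun i hi => hf i (Finset.mem_insert_of_mem hi))
    simpa only [Finset.sum_insert ha] using h1

theorem dp_prod {ι : Type} (S : Finset ι) (f : ι → ℤ → ℂ) (hf : ∀ i ∈ S, DP O ρ (f i)) :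
    DP O ρ (fun s => ∏ i ∈ S, f i s) := by
  classical
  induction S using Finset.induction_on with
  | empty =>
    have h0 := dp_const (O := O) (ρ := ρ) 1 (by rw [map_one])
    simpa using h0
  | insert a S ha ih =>
    have h1 := dp_mul (hf a (Finset.mem_insert_self a S))
      (ih fun i hi => hf i (Finset.mem_insert_of_mem hi))
    simpa only [Finset.prod_insert ha] using h1

theorem po_iff (f : ℤ → ℂ) : PO O f ↔ DP O 1 f := by
  unfold PO DP
  simp only [one_mul]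

theorem dp_op (hρ0 : ρ ≠ 0) (hρ : O.valuation ρ ≤ 1) (κ : ℕ → ℕ → ℕ → ℂ)
    (h : ∀ m n r, O.valuation (κ m n r) ≤ O.valuation (ρ ^ (m + n) * ((m.factorial * n.factorial : ℕ) : ℂ)))
    (N : ℕ) {f : ℤ → ℂ} (hf : DP O ρ f) : DP O ρ (fun s => op κ N f s) := by
  have hint : ∀ c : ℤ, O.valuation (ρ * (c : ℂ)) ≤ 1 := by
    intro c
    rw [map_mul]
    exact mul_le_one' hρ (Dp_int O c)
  have e : (fun s => op κ N f s) = fun s : ℤ => ∑ m ∈ Finset.range (N + 1),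
      ∑ n ∈ Finset.range (N + 1), ∑ r ∈ Finset.range (m + n + 1),
      (κ m n r / (ρ ^ (m + n) * ((m.factorial * n.factorial : ℕ) : ℂ))) *
        (((∏ i ∈ Finset.range m, (ρ * ((N : ℤ) - (i : ℤ) : ℤ) + (-1) * (ρ * (s : ℂ)))) *
          ∏ i ∈ Finset.range n, (ρ * (-(i : ℤ) : ℤ) + ρ * (s : ℂ))) *
          f (s + (-(n : ℤ) + (r : ℤ)))) := by
    funext s
    unfold op
    refine Finset.sum_congr rfl fun m _ => Finset.sum_congr rfl fun n _ =>
      Finset.sum_congr rfl fun r _ => ?_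
    have hne : ((m.factorial * n.factorial : ℕ) : ℂ) ≠ 0 := by
      exact_mod_cast mul_ne_zero (Nat.factorial_ne_zero m) (Nat.factorial_ne_zero n)
    have e1 : s - (n : ℤ) + (r : ℤ) = s + (-(n : ℤ) + (r : ℤ)) := by ring
    have e2 : ∏ i ∈ Finset.range m, (ρ * ((N : ℤ) - (i : ℤ) : ℤ) + (-1) * (ρ * (s : ℂ))) =
        ρ ^ m * ∏ i ∈ Finset.range m, ((N : ℂ) - (s : ℂ) - (i : ℂ)) := by
      have h1 : (ρ : ℂ) ^ m = ∏ _i ∈ Finset.range m, ρ := by
        rw [Finset.prod_const, Finset.card_range]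
      rw [h1, ← Finset.prod_mul_distrib]
      refine Finset.prod_congr rfl fun i _ => ?_
      push_cast
      ring
    have e3 : ∏ i ∈ Finset.range n, (ρ * (-(i : ℤ) : ℤ) + ρ * (s : ℂ)) =
        ρ ^ n * ∏ i ∈ Finset.range n, ((s : ℂ) - (i : ℂ)) := by
      have h1 : (ρ : ℂ) ^ n = ∏ _i ∈ Finset.range n, ρ := by
        rw [Finset.prod_const, Finset.card_range]
      rw [h1, ← Finset.prod_mul_distrib]
      refine Finset.prod_congr rfl fun i _ => ?_
      push_cast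
      ring
    have hρm : ρ ^ m ≠ 0 := pow_ne_zero m hρ0
    have hρn : ρ ^ n ≠ 0 := pow_ne_zero n hρ0
    rw [e2, e3, e1, pow_add]
    unfold dm
    field_simp
  rw [e]
  refine dp_sum _ _ fun m _ => dp_sum _ _ fun n _ => dp_sum _ _ fun r _ => ?_
  have hne : ((m.factorial * n.factorial : ℕ) : ℂ) ≠ 0 := by
    exact_mod_cast mul_ne_zero (Nat.factorial_ne_zero m) (Nat.factorial_ne_zero n)
  have hv : O.valuation (κ m n r / (ρ ^ (m + n) * ((m.factorial * n.factorial : ℕ) : ℂ))) ≤ 1 := by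
    rw [map_div₀]
    exact div_le_one_of_le₀ (h m n r) zero_le
  refine dp_mul (dp_const _ hv) (dp_mul (dp_mul ?_ ?_) (dp_shift hρ _ hf))
  · refine dp_prod _ (fun (i : ℕ) (s : ℤ) => ρ * ((N : ℤ) - (i : ℤ) : ℤ) + (-1) * (ρ * (s : ℂ))) fun i _ => ?_
    refine dp_add (dp_const _ (hint _)) (dp_mul (dp_const _ ?_) dp_lin)
    rw [Valuation.map_neg, map_one]
  · refine dp_prod _ (fun (i : ℕ) (s : ℤ) => ρ * (-(i : ℤ) : ℤ) + ρ * (s : ℂ)) fun i _ => ?_
    exact dp_add (dp_const _ (hint _)) dp_lin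

end Pool.Agent.Lib.MP_06b9d2_bm
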