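import Pool.Agent.Lib.MP_06b9d2_bm.Defs
import Pool.Agent.Lib.MP_06b9d2_tln.TNa

/-!
Module BM-Ent. The entries of the matrix of `T` in a triangular basis `mo s = Λ ^ s b s`, `b s = X ^ s + …`.

From `hM`: `T (b s) = ∑ j, (M j s Λ ^ j / Λ ^ s) b j` (`Λ ≠ 0`). Put `M' j s = M j s Λ ^ j / Λ ^ s`.
`ent_le`: `v(M' j s) ≤ 1` by strong induction on `j` (all `s`): the coefficient of `X ^ j` in `T (b s)` is in `O` (`hT.int`) and equals `M' j s + ∑_{i < j} M' i s coeff j (b i)` (`coeff j (b i) = 0` for `i > j`). For `j ≤ s`: `M j s = Λ ^ (s - j) M' j s`.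
`ent_ge`: `M j s = M (rev j) (rev s)` (`Sy`) and `ent_le`.
`ent_eq`: `s = n j`: `coeff i (b s) = 0` for `i < n j`, so `coeff i (T (b s)) = 0` for `i < j` (`hT.zero`) and `coeff j (T (b s)) = coeff (n j) (b (n j)) = 1` (`hT.lead`); induction on `i < j`: `M' i s = 0`; then `M' j s = 1`.
`lw_TN`: `TN_coeff` (`MP_06b9d2_tln/TNa.lean`): `coeff m (T_n f) = ∑_{d ∣ gcd(m, n)} (d ^ k / d) coeff (m n / d ^ 2) f`; `v(d) = 1`; `m n / d ^ 2 ≤ m n`, with equality only for `d = 1` or `m = 0`;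
for `m = j > 0` and `d > 1`: `j n / d ^ 2 < n j`; for `j = 0` use `gcd(0, n) = n`: all terms are `coeff 0 f`; here `lead` needs `coeff 0 (T f) = coeff 0 f`, which is false: therefore `1 ≤ j` is a hypothesis in the field `lead` (see `Defs`).
`lw_comp`: composition.
-/

namespace Pool.Agent.Lib.MP_06b9d2_bm

open PowerSeries
open Pool.Agent.Lib.MP_06b9d2_tln (TN Mt Rp Sy act)

variable {O : ValuationSubring ℂ} {N n : ℕ} {Λ : ℂ} {mo b : ℕ → ℂ⟦X⟧} {T : ℂ⟦X⟧ →ₗ[ℂ] ℂ⟦X⟧} {M : Mt N}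

private theorem Ent_ne (h : Lw O n T) : n ≠ 0 := by
  rintro rfl
  have h1 := h.zero 1 2 (fun i hi => by omega) 1 (by norm_num)
  have h2 := h.lead 1 1 le_rfl (fun i hi => by omega)
  rw [h1, Nat.zero_mul, coeff_zero_one] at h2
  exact zero_ne_one h2

/-- the entries of the matrix in the basis `b` -/
private noncomputable def Ent_M (Λ : ℂ) (M : Mt N) (j s : Fin (N + 1)) : ℂ := M j s * Λ ^ (j : ℕ) / Λ ^ (s : ℕ)

private theorem Ent_T (hb : Tri O Λ N mo b) (hΛ : Λ ≠ 0) (hM : Rp mo T M) (s : Fin (N + 1)) (i : ℕ) :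
    coeff i (T (b (s : ℕ))) = ∑ j : Fin (N + 1), Ent_M Λ M j s * coeff i (b (j : ℕ)) := by
  have h1 := hM s
  rw [hb.eq s (by omega), map_smul] at h1
  have h2 := congrArg (coeff i) h1
  rw [coeff_smul, map_sum, smul_eq_mul] at h2
  have h3 : Λ ^ (s : ℕ) ≠ 0 := pow_ne_zero _ hΛ
  have h4 : coeff i (T (b (s : ℕ))) =
      (∑ j : Fin (N + 1), coeff i (M j s • mo (j : ℕ))) / Λ ^ (s : ℕ) := by
    rw [← h2, mul_div_cancel_left₀ _ h3]
  rw [h4, Finset.sum_div]
  refine Finset.sum_congr rfl fun j _ => ?_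
  rw [hb.eq j (by omega), coeff_smul, coeff_smul, smul_eq_mul, smul_eq_mul]
  unfold Ent_M
  ring

private theorem Ent_split (hb : Tri O Λ N mo b) (hΛ : Λ ≠ 0) (hM : Rp mo T M) (j s : Fin (N + 1)) :
    coeff (j : ℕ) (T (b (s : ℕ))) = Ent_M Λ M j s +
      ∑ i ∈ Finset.univ.filter (fun i : Fin (N + 1) => i < j), Ent_M Λ M i s * coeff (j : ℕ) (b (i : ℕ)) := by
  rw [Ent_T hb hΛ hM, ← Finset.add_sum_erase _ _ (Finset.mem_univ j), hb.one j (by omega), mul_one]
  congr 1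
  symm
  refine Finset.sum_subset ?_ ?_
  · intro i hi
    rw [Finset.mem_filter] at hi
    exact Finset.mem_erase.2 ⟨ne_of_lt hi.2, Finset.mem_univ _⟩
  · intro i hi hi'
    rw [Finset.mem_erase] at hi
    rw [Finset.mem_filter, not_and] at hi'
    have h1 : j < i := lt_of_le_of_ne (not_lt.1 (hi' (Finset.mem_univ _))) (Ne.symm hi.1)
    rw [hb.zero i (by omega) j h1, mul_zero]

private theorem Ent_int (hb : Tri O Λ N mo b) (hΛ : Λ ≠ 0) (hT : Lw O n T) (hM : Rp mo T M) (s : Fin (N + 1)) :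
    ∀ (m : ℕ) (j : Fin (N + 1)), (j : ℕ) = m → Ent_M Λ M j s ∈ O := by
  intro m
  induction m using Nat.strong_induction_on with
  | _ m ih =>
    intro j hj
    have h1 := Ent_split hb hΛ hM j s
    have h2 : Ent_M Λ M j s = coeff (j : ℕ) (T (b (s : ℕ))) -
        ∑ i ∈ Finset.univ.filter (fun i : Fin (N + 1) => i < j), Ent_M Λ M i s * coeff (j : ℕ) (b (i : ℕ)) := by
      rw [h1, add_sub_cancel_right]
    rw [h2]
    refine sub_mem ?_ (sum_mem fun i hi => mul_mem ?_ ?_)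
    · rw [← ValuationSubring.valuation_le_one_iff]
      exact hT.int _ (hb.int s (by omega)) _
    · rw [Finset.mem_filter] at hi
      exact ih (i : ℕ) (by rw [← hj]; exact hi.2) i rfl
    · rw [← ValuationSubring.valuation_le_one_iff]
      exact hb.int i (by omega) _

private theorem Ent_back (hΛ : Λ ≠ 0) (j s : Fin (N + 1)) (hjs : (j : ℕ) ≤ s) :
    M j s = Λ ^ ((s : ℕ) - j) * Ent_M Λ M j s := by
  unfold Ent_M
  have h3 : Λ ^ (s : ℕ) ≠ 0 := pow_ne_zero _ hΛ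
  rw [mul_div_assoc', eq_div_iff h3]
  have h4 : Λ ^ (s : ℕ) = Λ ^ ((s : ℕ) - j) * Λ ^ (j : ℕ) := by
    rw [← pow_add]
    congr 1
    omega
  rw [h4]
  ring

theorem ent_le (hb : Tri O Λ N mo b) (hΛ : Λ ≠ 0) (hT : Lw O n T) (hM : Rp mo T M) (j s : Fin (N + 1))
    (hjs : (j : ℕ) ≤ s) : O.valuation (M j s) ≤ O.valuation (Λ ^ ((s : ℕ) - j)) := by
  rw [Ent_back (M := M) hΛ j s hjs, map_mul]
  refine mul_le_of_le_one_right' ?_
  rw [ValuationSubring.valuation_le_one_iff]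
  exact Ent_int hb hΛ hT hM s _ j rfl

theorem ent_ge (hb : Tri O Λ N mo b) (hΛ : Λ ≠ 0) (hT : Lw O n T) (hM : Rp mo T M) (hS : Sy M)
    (j s : Fin (N + 1)) (hjs : (s : ℕ) ≤ j) : O.valuation (M j s) ≤ O.valuation (Λ ^ ((j : ℕ) - s)) := by
  rw [← hS j s]
  have h1 : ((Fin.rev j : Fin (N + 1)) : ℕ) = N - j := by
    rw [Fin.val_rev]
    omega
  have h2 : ((Fin.rev s : Fin (N + 1)) : ℕ) = N - s := by
    rw [Fin.val_rev]
    omega
  have h3 := ent_le hb hΛ hT hM (Fin.rev j) (Fin.rev s) (by omega)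
  have h4 : ((Fin.rev s : Fin (N + 1)) : ℕ) - ((Fin.rev j : Fin (N + 1)) : ℕ) = (j : ℕ) - s := by omega
  rwa [h4] at h3

theorem ent_eq (hb : Tri O Λ N mo b) (hΛ : Λ ≠ 0) (hT : Lw O n T) (hM : Rp mo T M) (j s : Fin (N + 1))
    (hj : 1 ≤ (j : ℕ)) (hs : (s : ℕ) = n * j) : M j s = Λ ^ ((s : ℕ) - j) := by
  have hn := Ent_ne hT
  have hjs : (j : ℕ) ≤ s := by
    rw [hs]
    exact Nat.le_mul_of_pos_left _ (Nat.pos_of_ne_zero hn)
  have hz : ∀ i < n * (j : ℕ), coeff i (b (s : ℕ)) = 0 := by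
    intro i hi
    rw [← hs] at hi
    exact hb.zero s (by omega) i hi
  have h1 := hT.zero _ _ hz
  have h2 := hT.lead _ _ hj hz
  rw [← hs, hb.one s (by omega)] at h2
  have h3 : ∀ (m : ℕ) (i : Fin (N + 1)), (i : ℕ) = m → i < j → Ent_M Λ M i s = 0 := by
    intro m
    induction m using Nat.strong_induction_on with
    | _ m ih =>
      intro i hi hij
      have h4 := Ent_split hb hΛ hM i s
      rw [h1 i hij, Finset.sum_eq_zero, add_zero] at h4
      · exact h4.symm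
      · intro r hr
        rw [Finset.mem_filter] at hr
        rw [ih (r : ℕ) (by rw [← hi]; exact hr.2) r rfl (hr.2.trans hij), zero_mul]
  have h5 := Ent_split hb hΛ hM j s
  rw [h2, Finset.sum_eq_zero, add_zero] at h5
  · rw [Ent_back (M := M) hΛ j s hjs, ← h5, mul_one]
  · intro r hr
    rw [Finset.mem_filter] at hr
    rw [h3 _ r rfl hr.2, zero_mul]

theorem lw_TN (k : ℕ) (hn : n ≠ 0) (hd : ∀ d : ℕ, d ∣ n → O.valuation (d : ℂ) = 1) : Lw O n (TN n k) where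
  int f hf i := by
    rw [Pool.Agent.Lib.MP_06b9d2_tln.TN_coeff, ValuationSubring.valuation_le_one_iff]
    refine sum_mem fun d hdm => mul_mem ?_ ?_
    · rw [← ValuationSubring.valuation_le_one_iff, map_div₀, map_pow,
        hd d ((Nat.dvd_of_mem_divisors hdm).trans (Nat.gcd_dvd_right _ _)), one_pow, div_one]
    · rw [← ValuationSubring.valuation_le_one_iff]
      exact hf _
  zero f j hf i hi := by
    rw [Pool.Agent.Lib.MP_06b9d2_tln.TN_coeff]
    refine Finset.sum_eq_zero fun d _ => ?_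
    rw [hf, mul_zero]
    have h1 : i * n / d ^ 2 ≤ i * n := Nat.div_le_self _ _
    have h2 : i * n < j * n := Nat.mul_lt_mul_of_pos_right hi (Nat.pos_of_ne_zero hn)
    rw [mul_comm n j]
    omega
  lead f j hj hf := by
    rw [Pool.Agent.Lib.MP_06b9d2_tln.TN_coeff, Finset.sum_eq_single 1]
    · rw [Nat.cast_one, one_pow, div_one, one_mul, one_pow, Nat.div_one, mul_comm j n]
    · intro d hdm hd1
      have h0 : d ∣ n := (Nat.dvd_of_mem_divisors hdm).trans (Nat.gcd_dvd_right _ _)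
      have hd0 : d ≠ 0 := fun h => hn (by rw [h] at h0; exact Nat.eq_zero_of_zero_dvd h0)
      have hd2 : 1 < d ^ 2 := Nat.one_lt_pow (by norm_num) (by omega)
      have h3 : 0 < j * n := Nat.mul_pos (by omega) (Nat.pos_of_ne_zero hn)
      have h1 : j * n / d ^ 2 < j * n := Nat.div_lt_self h3 hd2
      rw [hf, mul_zero]
      rw [mul_comm n j]
      exact h1
    · intro h
      exfalso
      refine h (Nat.mem_divisors.2 ⟨one_dvd _, ?_⟩)
      exact Nat.gcd_ne_zero_right hn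

theorem lw_comp {m : ℕ} {T' : ℂ⟦X⟧ →ₗ[ℂ] ℂ⟦X⟧} (h : Lw O n T) (h' : Lw O m T') (hm : m ≠ 0) :
    Lw O (n * m) (T ∘ₗ T') where
  int f hf i := by
    rw [LinearMap.comp_apply]
    exact h.int _ (h'.int f hf) i
  zero f j hf i hi := by
    rw [LinearMap.comp_apply]
    refine h.zero _ j (h'.zero f (n * j) fun r hr => hf r ?_) i hi
    calc r < m * (n * j) := hr
      _ = n * m * j := by ring
  lead f j hj hf := by
    have hn := Ent_ne h
    have hf' : ∀ r < m * (n * j), coeff r f = 0 := by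
      intro r hr
      refine hf r ?_
      calc r < m * (n * j) := hr
        _ = n * m * j := by ring
    have h1 : 1 ≤ n * j := Nat.mul_pos (Nat.pos_of_ne_zero hn) hj
    rw [LinearMap.comp_apply, h.lead _ j hj (h'.zero f (n * j) hf'), h'.lead f (n * j) h1 hf']
    congr 2
    ring

end Pool.Agent.Lib.MP_06b9d2_bm
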