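import Pool.Agent.Lib.MP_06b9d2_bm.Defs
import Pool.Agent.Lib.MP_06b9d2_tln.KerN
import Pool.Agent.Lib.MP_06b9d2_tln.KerN

/-!
Module BM-KerD. From the matrix to the space of cusp forms.

`ker_D`: copy of the proof of `ker_genN` (`MP_06b9d2_tln/KerN.lean`) up to `hEg` (with `Mx = ex M`), then: for `f` in the kernel put `y s = X f s + X f (N - s)` (`s : Fin (N + 1)`): `y` is symmetric and (by `hS`) an eigenvector of `M`.
The linear map `f ↦ (∑ s, y s q(s) ^ i)_{i < D}` from the kernel to `Fin D → ℂ` is injective: if it is `0` at `f` then `y = 0` by `hI`, but for `f ≠ 0` `lead` gives `p ≥ 1` with `X f p ≠ 0` and `X f (N - p) = 0` (`N - 2 p < N - p` as `2 p ≤ N`, `p ≥ 1`), so `y p ≠ 0`. (`LinearMap.finrank_le_finrank_of_injective`.)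
`ker_le_N` : the trivial bound: the dimension of the space of cusp forms of weight `k = 4 N + 2 e` is at most `dd k - 1 ≤ N` (`Phi_ex`, `rep` / `rep2` gives `2 j ≤ N` for `1 ≤ j < dd k`, or the dimension formula).
`mult_D`: as `kerOne_of_hypN`.
-/

namespace Pool.Agent.Lib.MP_06b9d2_bm

open PowerSeries Pool.Agent.L1 UpperHalfPlane Pool.Agent.Lib.MP_06b9d2_nt
open Pool.Agent.Lib.MP_06b9d2_tln (TN Mt Rp Sy act)
open Pool.Agent.Lib.MP_06b9d2_tls (Lv2 mo2)
open scoped MatrixGroups ModularForm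

theorem ker_D (n : ℕ) (hn : n ≠ 0) (k N D : ℕ) (mo : ℕ → ℂ⟦X⟧) (M : Mt N) (hR : Rp mo (TN n k) M) (hS : Sy M)
    (hI : InjD N D M)
    (ind : ∀ x : ℕ → ℂ, ∑ s ∈ Finset.range (N + 1), x s • mo s = 0 → ∀ s ≤ N, x s = 0)
    (rep : ∀ j, 1 ≤ j → j < dd k → ∃ y : ℕ → ℂ,
      (∀ s, s < j → y s = 0) ∧ y j ≠ 0 ∧ (∀ s, N - 2 * j < s → y s = 0) ∧ 2 * j ≤ N ∧
        bas ℂ k j = ∑ s ∈ Finset.range (N + 1), y s • mo s)
    (T : CuspForm 𝒮ℒ (k : ℤ) →ₗ[ℂ] CuspForm 𝒮ℒ (k : ℤ)) (hT : IsHecke (k : ℤ) n T) (lam : ℂ) :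
    Module.finrank ℂ (LinearMap.ker (T - lam • LinearMap.id)) ≤ D := by
  obtain ⟨Φ, hΦb, hΦ⟩ := Pool.Agent.Lib.MP_06b9d2_nt.MU.Phi_ex k
  have hrep : ∀ j : Fin (dd k - 1), ∃ y : ℕ → ℂ,
      (∀ s, s < (j : ℕ) + 1 → y s = 0) ∧ y ((j : ℕ) + 1) ≠ 0 ∧
      (∀ s, N - 2 * ((j : ℕ) + 1) < s → y s = 0) ∧ 2 * ((j : ℕ) + 1) ≤ N ∧
      bas ℂ k ((j : ℕ) + 1) = ∑ s ∈ Finset.range (N + 1), y s • mo s := by
    intro j
    exact rep ((j : ℕ) + 1) (by omega) (by have := j.2; omega)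
  choose y hy1 hy2 hy3 hy4 hy5 using hrep
  -- the coordinate map
  let X : CuspForm 𝒮ℒ (k : ℤ) →ₗ[ℂ] (ℕ → ℂ) :=
    ∑ j : Fin (dd k - 1), ((LinearMap.proj j : (Fin (dd k - 1) → ℂ) →ₗ[ℂ] ℂ) ∘ₗ Φ).smulRight (y j)
  have hXs : ∀ f s, X f s = ∑ j, Φ f j * y j s := by
    intro f s
    simp only [X, LinearMap.sum_apply, LinearMap.smulRight_apply, LinearMap.comp_apply,
      LinearMap.proj_apply, Finset.sum_apply, Pi.smul_apply, smul_eq_mul]
  have hXq : ∀ f : CuspForm 𝒮ℒ (k : ℤ),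
      qExpansion 1 f = ∑ s ∈ Finset.range (N + 1), X f s • mo s := by
    intro f
    rw [hΦ f]
    calc ∑ j, Φ f j • bas ℂ k ((j : ℕ) + 1)
        = ∑ j, ∑ s ∈ Finset.range (N + 1), (Φ f j * y j s) • mo s := by
          refine Finset.sum_congr rfl fun j _ => ?_
          rw [hy5 j, Finset.smul_sum]
          refine Finset.sum_congr rfl fun s _ => ?_
          rw [smul_smul]
      _ = ∑ s ∈ Finset.range (N + 1), X f s • mo s := by
          rw [Finset.sum_comm]
          refine Finset.sum_congr rfl fun s _ => ?_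
          rw [hXs, Finset.sum_smul]
  have lead : ∀ f, f ≠ 0 → ∃ p, 1 ≤ p ∧ 2 * p ≤ N ∧ (∀ s, s < p → X f s = 0) ∧ X f p ≠ 0 ∧
      ∀ s, N - 2 * p < s → X f s = 0 := by
    intro f hf
    have hne : Φ f ≠ 0 := by
      intro h0
      apply hf
      apply hΦb.1
      rw [h0, map_zero]
    have hS : (Finset.univ.filter fun j : Fin (dd k - 1) => Φ f j ≠ 0).Nonempty := by
      by_contra hS
      rw [Finset.not_nonempty_iff_eq_empty] at hS
      apply hne
      funext j
      by_contra hj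
      have : j ∈ (Finset.univ.filter fun j : Fin (dd k - 1) => Φ f j ≠ 0) := by
        simp only [Finset.mem_filter, Finset.mem_univ, true_and]
        exact hj
      rw [hS] at this
      simp at this
    obtain ⟨j0, hj0, hmin⟩ := Finset.exists_min_image _ (fun j : Fin (dd k - 1) => (j : ℕ)) hS
    have hj0' : Φ f j0 ≠ 0 := by simpa using hj0
    have hlt : ∀ j : Fin (dd k - 1), (j : ℕ) < j0 → Φ f j = 0 := by
      intro j hj
      by_contra hj'
      have := hmin j (by simpa using hj')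
      omega
    have h4 := hy4 j0
    refine ⟨(j0 : ℕ) + 1, by omega, by omega, ?_, ?_, ?_⟩
    · intro s hs
      rw [hXs]
      refine Finset.sum_eq_zero fun j _ => ?_
      rcases lt_or_ge (j : ℕ) (j0 : ℕ) with hj | hj
      · rw [hlt j hj, zero_mul]
      · rw [hy1 j s (by omega), mul_zero]
    · rw [hXs, Finset.sum_eq_single j0]
      · exact mul_ne_zero hj0' (hy2 j0)
      · intro j _ hj
        rcases lt_or_ge (j : ℕ) (j0 : ℕ) with hj1 | hj1
        · rw [hlt j hj1, zero_mul]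
        · have : (j : ℕ) ≠ j0 := fun hh => hj (Fin.ext hh)
          rw [hy1 j _ (by omega), mul_zero]
      · intro hj
        exact absurd (Finset.mem_univ _) hj
    · intro s hs
      rw [hXs]
      refine Finset.sum_eq_zero fun j _ => ?_
      rcases lt_or_ge (j : ℕ) (j0 : ℕ) with hj | hj
      · rw [hlt j hj, zero_mul]
      · rw [hy3 j s (by omega), mul_zero]
  -- eigenvectors
  have hEg : ∀ f, T f = lam • f → ∀ j : Fin (N + 1),
      ∑ s : Fin (N + 1), M j s * X f (s : ℕ) = lam * X f (j : ℕ) := by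
    intro f hf
    have h1 : TN n k (qExpansion 1 f) = lam • qExpansion 1 f := by
      rw [← Pool.Agent.Lib.MP_06b9d2_tln.q_TN k n hn T hT f, hf, hΦ (lam • f), hΦ f, map_smul,
        Finset.smul_sum]
      refine Finset.sum_congr rfl fun j _ => ?_
      rw [Pi.smul_apply, smul_eq_mul, mul_smul]
    rw [hXq f, map_sum, Finset.sum_range (fun s => TN n k (X f s • mo s))] at h1
    simp only [map_smul] at h1
    have h2 : ∑ s : Fin (N + 1), X f (s : ℕ) • TN n k (mo (s : ℕ)) =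
        ∑ j : Fin (N + 1), (∑ s : Fin (N + 1), M j s * X f (s : ℕ)) • mo (j : ℕ) := by
      calc ∑ s : Fin (N + 1), X f (s : ℕ) • TN n k (mo (s : ℕ))
          = ∑ s : Fin (N + 1), ∑ j : Fin (N + 1), (M j s * X f (s : ℕ)) • mo (j : ℕ) := by
            refine Finset.sum_congr rfl fun s _ => ?_
            rw [hR s, Finset.smul_sum]
            refine Finset.sum_congr rfl fun j _ => ?_
            rw [smul_smul, mul_comm]
        _ = _ := by
            rw [Finset.sum_comm]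
            refine Finset.sum_congr rfl fun j _ => ?_
            rw [← Finset.sum_smul]
    rw [h2] at h1
    have h3 : ∑ j ∈ Finset.range (N + 1), ((∑ s : Fin (N + 1),
        (if h : j < N + 1 then M ⟨j, h⟩ s else 0) * X f (s : ℕ)) - lam * X f j) • mo j = 0 := by
      simp only [sub_smul]
      rw [Finset.sum_sub_distrib, sub_eq_zero]
      rw [Finset.sum_range (fun j => (∑ s : Fin (N + 1),
        (if h : j < N + 1 then M ⟨j, h⟩ s else 0) * X f (s : ℕ)) • mo j)]
      have h4 : ∑ j : Fin (N + 1), (∑ s : Fin (N + 1),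
          (if h : (j : ℕ) < N + 1 then M ⟨j, h⟩ s else 0) * X f (s : ℕ)) • mo (j : ℕ) =
          ∑ j : Fin (N + 1), (∑ s : Fin (N + 1), M j s * X f (s : ℕ)) • mo (j : ℕ) := by
        refine Finset.sum_congr rfl fun j _ => ?_
        congr 1
        refine Finset.sum_congr rfl fun s _ => ?_
        rw [dif_pos j.2]
      rw [h4, h1, Finset.smul_sum]
      refine Finset.sum_congr rfl fun j _ => ?_
      rw [smul_smul]
    have h4 := ind _ h3
    intro j
    have h5 := sub_eq_zero.mp (h4 (j : ℕ) (Nat.lt_succ_iff.1 j.2))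
    rw [← h5]
    refine Finset.sum_congr rfl fun s _ => ?_
    rw [dif_pos j.2]
  have hrev : ∀ s : Fin (N + 1), ((Fin.rev s : Fin (N + 1)) : ℕ) = N - (s : ℕ) := by
    intro s
    rw [Fin.val_rev]
    omega
  -- the moments
  let L : LinearMap.ker (T - lam • LinearMap.id) →ₗ[ℂ] (Fin D → ℂ) :=
    { toFun := fun f i => ∑ s : Fin (N + 1), (X f.1 (s : ℕ) + X f.1 (N - (s : ℕ))) * qv N s ^ (i : ℕ)
      map_add' := by
        intro f g
        funext i
        show ∑ s : Fin (N + 1), (X (f.1 + g.1) (s : ℕ) + X (f.1 + g.1) (N - (s : ℕ))) * qv N s ^ (i : ℕ) =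
          ∑ s : Fin (N + 1), (X f.1 (s : ℕ) + X f.1 (N - (s : ℕ))) * qv N s ^ (i : ℕ) +
          ∑ s : Fin (N + 1), (X g.1 (s : ℕ) + X g.1 (N - (s : ℕ))) * qv N s ^ (i : ℕ)
        rw [← Finset.sum_add_distrib]
        refine Finset.sum_congr rfl fun s _ => ?_
        rw [map_add, Pi.add_apply, Pi.add_apply]
        ring
      map_smul' := by
        intro c f
        funext i
        show ∑ s : Fin (N + 1), (X (c • f.1) (s : ℕ) + X (c • f.1) (N - (s : ℕ))) * qv N s ^ (i : ℕ) =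
          c * ∑ s : Fin (N + 1), (X f.1 (s : ℕ) + X f.1 (N - (s : ℕ))) * qv N s ^ (i : ℕ)
        rw [Finset.mul_sum]
        refine Finset.sum_congr rfl fun s _ => ?_
        rw [map_smul, Pi.smul_apply, Pi.smul_apply, smul_eq_mul, smul_eq_mul]
        ring }
  have hL : ∀ f i, L f i =
      ∑ s : Fin (N + 1), (X f.1 (s : ℕ) + X f.1 (N - (s : ℕ))) * qv N s ^ (i : ℕ) := fun f i => rfl
  have hLinj : Function.Injective L := by
    rw [← LinearMap.ker_eq_bot, LinearMap.ker_eq_bot']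
    intro f hf
    by_contra hne
    have hf0 : f.1 ≠ 0 := fun h => hne (Subtype.ext h)
    have hTf : T f.1 = lam • f.1 := by
      have h1 := LinearMap.mem_ker.1 f.2
      rw [LinearMap.sub_apply, LinearMap.smul_apply, LinearMap.id_apply, sub_eq_zero] at h1
      exact h1
    obtain ⟨p, hp1, hp2, _, hp3, hp4⟩ := lead f.1 hf0
    have hE := hEg f.1 hTf
    have hz := hI lam (fun s => X f.1 (s : ℕ) + X f.1 (N - (s : ℕ))) (by
      intro s
      have hs : (s : ℕ) ≤ N := Nat.lt_succ_iff.1 s.2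
      simp only [hrev]
      rw [Nat.sub_sub_self hs, add_comm]) (by
      funext j
      rw [Matrix.mulVec, dotProduct, Pi.smul_apply, smul_eq_mul]
      simp only [mul_add]
      rw [Finset.sum_add_distrib, hE j]
      congr 1
      have h1 := hE (Fin.rev j)
      rw [hrev] at h1
      rw [← h1, ← Equiv.sum_comp Fin.revPerm]
      refine Finset.sum_congr rfl fun s _ => ?_
      have hs : (s : ℕ) ≤ N := Nat.lt_succ_iff.1 s.2
      rw [Fin.revPerm_apply, hrev, Nat.sub_sub_self hs]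
      have h2 := hS (Fin.rev j) s
      rw [Fin.rev_rev] at h2
      rw [h2]) (by
      intro i hi
      have h1 := congrFun hf ⟨i, hi⟩
      rw [hL] at h1
      exact h1)
    have h1 := congrFun hz ⟨p, by omega⟩
    have h2 : X f.1 p + X f.1 (N - p) = 0 := h1
    rw [hp4 (N - p) (by omega), add_zero] at h2
    exact hp3 h2
  have := fin_cusp (k : ℤ)
  have h1 := LinearMap.finrank_le_finrank_of_injective hLinj
  rwa [Module.finrank_fin_fun] at h1

/-- the bound `D` for all even weights, if `InjD` holds for large `N` and `D` is large enough -/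
theorem mult_D (n : ℕ) (hn : n ≠ 0) (D N₀ : ℕ) (hD : N₀ ≤ D) {a g : ℂ⟦X⟧} (h : Lv2 a g)
    (hM : ∀ e N : ℕ, e ≤ 1 → N₀ ≤ N → ∃ M : Mt N, Rp (mo2 a g e N) (TN n (4 * N + 2 * e)) M ∧ Sy M ∧ InjD N D M)
    (k : ℕ) (hk : Even k) (T : CuspForm 𝒮ℒ (k : ℤ) →ₗ[ℂ] CuspForm 𝒮ℒ (k : ℤ)) (hT : IsHecke (k : ℤ) n T)
    (lam : ℂ) : Module.finrank ℂ (LinearMap.ker (T - lam • LinearMap.id)) ≤ D := by
  obtain ⟨Φ, hΦb, hΦ⟩ := Pool.Agent.Lib.MP_06b9d2_nt.MU.Phi_ex k
  by_cases hd : dd k = 0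
  · have : Subsingleton (CuspForm 𝒮ℒ (k : ℤ)) := by
      have : IsEmpty (Fin (dd k - 1)) := by
        rw [hd]
        exact Fin.isEmpty'
      exact hΦb.1.subsingleton
    rw [Module.finrank_zero_of_subsingleton]
    exact Nat.zero_le _
  have hj := ba_eq (Nat.pos_of_ne_zero hd)
  obtain ⟨N, hN⟩ : ∃ N, N = ba k 0 + bb k := ⟨_, rfl⟩
  have hk4 : 4 * N + 2 * bb k = k := by omega
  by_cases hN0 : N₀ ≤ N
  · obtain ⟨M, hR, hS, h2⟩ := hM (bb k) N (bb_le_one k) hN0
    rw [hk4] at hR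
    refine ker_D n hn k N D (mo2 a g (bb k) N) M hR hS h2
      (fun x hx => Pool.Agent.Lib.MP_06b9d2_tls.ind2 h _ N x hx) ?_ T hT lam
    intro j _ hj
    obtain ⟨y, y1, y2, y3, y4, y5⟩ := Pool.Agent.Lib.MP_06b9d2_tls.rep2 h k N j hk4 hj
    exact ⟨y, y1, y2, fun s hs => y3 s (by omega), by omega, y5⟩
  · -- few cusp forms
    have hdk : dd k - 1 ≤ N := by
      rcases Nat.lt_or_ge (dd k) 2 with h2 | h2
      · omega
      · obtain ⟨_, _, _, _, y4, _⟩ := Pool.Agent.Lib.MP_06b9d2_tls.rep2 h k N (dd k - 1) hk4 (by omega)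
        omega
    have := fin_cusp (k : ℤ)
    have h1 : Module.finrank ℂ (CuspForm 𝒮ℒ (k : ℤ)) ≤ dd k - 1 := by
      have h2 := LinearMap.finrank_le_finrank_of_injective hΦb.1
      rwa [Module.finrank_fin_fun] at h2
    have h3 := Submodule.finrank_le (LinearMap.ker (T - lam • LinearMap.id))
    omega

end Pool.Agent.Lib.MP_06b9d2_bm
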