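import Pool.Agent.Lib.MP_06b9d2_bm.Defs
import Pool.Agent.Lib.MP_06b9d2_tls.MainL

/-!
Module BM-Mlt. From the eigenspaces to the characteristic polynomial.

`mult_Z`: negative weights as in `ker_leZ` (`MP_06b9d2_tls/MainL.lean`).
`root_le`, `dist_ge`: `T` is semisimple (`semi_n`, `MP_06b9d2_tls/KerG.lean`), so the multiplicity of a root `lam` of the characteristic polynomial is the dimension of the eigenspace (see `sep_charpoly` in `MP_06b9d2_ssp`;
`LinearMap.finrank_maxGenEigenspace_eq`, `Module.End.IsFinitelySemisimple.maxGenEigenspace_eq_eigenspace`), and the degree of the characteristic polynomial, which splits, is the sum of the multiplicities over the distinct roots.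
-/

namespace Pool.Agent.Lib.MP_06b9d2_bm

open PowerSeries UpperHalfPlane Pool.Agent.L1 Pool.Agent.Lib.MP_06b9d2_nt
open scoped MatrixGroups ModularForm

/-- the eigenspaces of `T_n` on cusp forms of even weights `k ≥ 0` have dimension at most `B` -/
def KerB (n B : ℕ) : Prop := ∀ (k : ℕ) (_ : Even k)
  (T : CuspForm 𝒮ℒ (k : ℤ) →ₗ[ℂ] CuspForm 𝒮ℒ (k : ℤ)) (_ : IsHecke (k : ℤ) n T) (lam : ℂ),
    Module.finrank ℂ (LinearMap.ker (T - lam • LinearMap.id)) ≤ B

theorem mult_Z {n B : ℕ} (H : KerB n B) (k : ℤ) (hk : Even k) [Module.Finite ℂ (CuspForm 𝒮ℒ k)]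
    (T : CuspForm 𝒮ℒ k →ₗ[ℂ] CuspForm 𝒮ℒ k) (hT : IsHecke k n T) (lam : ℂ) :
    Module.finrank ℂ (LinearMap.ker (T - lam • LinearMap.id)) ≤ B := by
  rcases lt_or_ge k 0 with hneg | hpos
  · have h1 : Module.finrank ℂ (CuspForm 𝒮ℒ k) = 0 := by
      rw [Module.finrank, CuspForm.rank_eq_zero_of_weight_lt_twelve (by omega)]
      exact Cardinal.zero_toNat
    have h2 := Submodule.finrank_le (LinearMap.ker (T - lam • LinearMap.id))
    rw [h1, Nat.le_zero] at h2
    rw [h2]
    exact Nat.zero_le B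
  · obtain ⟨m, rfl⟩ := Int.eq_ofNat_of_zero_le hpos
    have hm : Even m := by exact_mod_cast hk
    exact H m hm T hT lam

theorem root_le {n B : ℕ} [NeZero n] (H : KerB n B) (k : ℤ) (hk : Even k) [Module.Finite ℂ (CuspForm 𝒮ℒ k)]
    (T : CuspForm 𝒮ℒ k →ₗ[ℂ] CuspForm 𝒮ℒ k) (hT : IsHecke k n T) (lam : ℂ) :
    (LinearMap.charpoly T).rootMultiplicity lam ≤ B := by
  have hs : Module.End.IsSemisimple T := Pool.Agent.Lib.MP_06b9d2_tls.semi_n hT
  have h := LinearMap.finrank_maxGenEigenspace_eq T lam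
  rw [hs.isFinitelySemisimple.maxGenEigenspace_eq_eigenspace] at h
  rw [← h, Module.End.eigenspace_def]
  exact mult_Z H k hk T hT lam

theorem dist_ge {n B : ℕ} [NeZero n] (H : KerB n B) (k : ℤ) (hk : Even k) [Module.Finite ℂ (CuspForm 𝒮ℒ k)]
    (T : CuspForm 𝒮ℒ k →ₗ[ℂ] CuspForm 𝒮ℒ k) (hT : IsHecke k n T) :
    Module.finrank ℂ (CuspForm 𝒮ℒ k) ≤ B * (LinearMap.charpoly T).roots.toFinset.card := by
  classical
  have h1 : (LinearMap.charpoly T).roots.card = Module.finrank ℂ (CuspForm 𝒮ℒ k) := by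
    rw [← LinearMap.charpoly_natDegree T]
    exact IsAlgClosed.card_roots_eq_natDegree
  rw [← h1, ← Multiset.toFinset_sum_count_eq, mul_comm]
  refine (Finset.sum_le_card_nsmul _ _ B fun x _ => ?_).trans (le_of_eq (smul_eq_mul _ _))
  rw [Polynomial.count_roots]
  exact root_le H k hk T hT x

end Pool.Agent.Lib.MP_06b9d2_bm
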