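import Pool.Agent.Lib.MP_06b9d2_bm.Inj
import Pool.Agent.Lib.MP_06b9d2_bm.KerD
import Pool.Agent.Lib.MP_06b9d2_bm.Mlt

/-!
Module BM-Fin. The theorem for odd `n ≥ 3`: the eigenvalues of `T_n` have multiplicity at most `64 n ^ 2`.

`mult_D` with `D = 64 n ^ 2`, `N₀ = 33 n ^ 2 + 62 n + 16` (`n ≥ 3`), `inj_odd`, `inj_mono`.
-/

namespace Pool.Agent.Lib.MP_06b9d2_bm

open Pool.Agent.Lib.MP_06b9d2_nt
open scoped MatrixGroups ModularForm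

theorem kerB_odd (n : ℕ) (hn : n % 2 = 1) (h3 : 3 ≤ n) : KerB n (64 * n ^ 2) := by
  obtain ⟨a, g, h, hM⟩ := inj_odd n hn h3
  intro k hk T hT lam
  refine mult_D n (by omega) (64 * n ^ 2) (33 * n ^ 2 + 62 * n + 16) (by nlinarith) h ?_ k hk T hT lam
  intro e N he hN
  obtain ⟨M, h1, h2, h3'⟩ := hM e N he hN
  exact ⟨M, h1, h2, inj_mono h3' (by nlinarith)⟩

end Pool.Agent.Lib.MP_06b9d2_bm
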