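import Pool.Agent.Lib.MP_06b9d2_bm.DefsG
import Pool.Agent.Lib.MP_06b9d2_tln.TNb
import Pool.Agent.Lib.MP_06b9d2_tln.Rpa
import Pool.Agent.Lib.MP_06b9d2_tl2.TrfC

/-!
Module BM-GCo. The formal Hecke operators commute.

`TN_comm`: compare the coefficients (`TN_coeff`): `coeff r (T_m (T_n f)) = ∑_{d ∣ gcd(r, m)} ∑_{e ∣ gcd(r m / d ^ 2, n)} w(d) w(e) coeff (r m n / (d e) ^ 2) f`, `w(d) = d ^ k / d` (multiplicative for `d ≠ 0`; put `w 0 = 0` if needed): this is `hecke_sum_comm` (`MP_06b9d2_tl2/TrfC.lean`) for `r ≥ 1`;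
see how it is used for `hecke_comm` in `MP_06b9d2_tl2/TrfG.lean`. For `r = 0` both sides are `∑_{d ∣ m} ∑_{e ∣ n} w(d) w(e) coeff 0 f` (`Nat.gcd_zero_left`). (Alternative: `TN_mul` for coprime indices and `TN_lu`: for a prime `l` all `T_{l ^ e}` are polynomials in `T_l`; then `Nat.recOnPosPrimePosCoprime`.)
`WT_comm`, `ST_comm`: inductions (`Commute.list_prod_right`, `Commute.sum_left`, …; in `Module.End ℂ ℂ⟦X⟧` the product is the composition).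
`rp_comm`: `M M'` and `M' M` both represent `T T' = T' T` (`rp_mul`); by `ind` the coefficients agree.
-/

namespace Pool.Agent.Lib.MP_06b9d2_bm

open PowerSeries
open Pool.Agent.Lib.MP_06b9d2_tln (TN Mt Rp Sy act TN_coeff)

private theorem w_mul (k a b : ℕ) : (((a * b : ℕ) : ℂ)) ^ k / ((a * b : ℕ) : ℂ) =
    ((a : ℂ) ^ k / a) * ((b : ℂ) ^ k / b) := by
  rw [Nat.cast_mul, mul_pow, mul_div_mul_comm]

private theorem coeff_comp (k m n : ℕ) (f : ℂ⟦X⟧) (r : ℕ) : coeff r (TN m k (TN n k f)) =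
    ∑ e ∈ (Nat.gcd r m).divisors, ((e : ℂ) ^ k / e) * ∑ d ∈ (Nat.gcd (r * m / e ^ 2) n).divisors,
      ((d : ℂ) ^ k / d) * coeff (r * m / e ^ 2 * n / d ^ 2) f := by
  rw [TN_coeff]
  refine Finset.sum_congr rfl fun e _ => ?_
  rw [TN_coeff]

theorem TN_comm (k m n : ℕ) (hm : m ≠ 0) (hn : n ≠ 0) : TN m k ∘ₗ TN n k = TN n k ∘ₗ TN m k := by
  ext f r
  rw [LinearMap.comp_apply, LinearMap.comp_apply, coeff_comp, coeff_comp]
  rcases Nat.eq_zero_or_pos r with hr | hr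
  · subst hr
    simp only [Nat.gcd_zero_left, zero_mul, Nat.zero_div]
    simp only [← Finset.sum_mul, ← mul_assoc]
    rw [mul_comm (∑ e ∈ m.divisors, ((e : ℂ) ^ k / e))]
  · exact Pool.Agent.Lib.MP_06b9d2_tl2.hecke_sum_comm (fun d => (d : ℂ) ^ k / d) (fun N => coeff N f)
      (fun a b => w_mul k a b) hr (Nat.pos_of_ne_zero hm) (Nat.pos_of_ne_zero hn)

theorem WT_comm (k : ℕ) (w w' : List ℕ) (hw : ∀ n ∈ w, n ≠ 0) (hw' : ∀ n ∈ w', n ≠ 0) :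
    WT k w ∘ₗ WT k w' = WT k w' ∘ₗ WT k w := by
  have h : Commute (S := Module.End ℂ ℂ⟦X⟧) (WT k w) (WT k w') := by
    unfold WT
    refine Commute.list_prod_left _ _ fun a ha => Commute.list_prod_right _ _ fun b hb => ?_
    rw [List.mem_map] at ha hb
    obtain ⟨m, hm, rfl⟩ := ha
    obtain ⟨n, hn, rfl⟩ := hb
    exact TN_comm k m n (hw m hm) (hw' n hn)
  exact h

theorem ST_comm (k : ℕ) (s s' : Finset (List ℕ)) (z z' : List ℕ → ℂ) (hs : ∀ w ∈ s, ∀ n ∈ w, n ≠ 0)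
    (hs' : ∀ w ∈ s', ∀ n ∈ w, n ≠ 0) : ST k s z ∘ₗ ST k s' z' = ST k s' z' ∘ₗ ST k s z := by
  have h : Commute (S := Module.End ℂ ℂ⟦X⟧) (ST k s z) (ST k s' z') := by
    unfold ST
    refine Commute.sum_left _ _ _ fun w hw => Commute.sum_right _ _ _ fun w' hw' => ?_
    have h1 : Commute (S := Module.End ℂ ℂ⟦X⟧) (WT k w) (WT k w') := WT_comm k w w' (hs w hw) (hs' w' hw')
    exact (h1.smul_left (z w)).smul_right (z' w')
  exact h

theorem rp_comm {N : ℕ} {mo : ℕ → ℂ⟦X⟧} {T T' : ℂ⟦X⟧ →ₗ[ℂ] ℂ⟦X⟧} {M M' : Mt N}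
    (ind : ∀ x : ℕ → ℂ, ∑ s ∈ Finset.range (N + 1), x s • mo s = 0 → ∀ s ≤ N, x s = 0)
    (h : Rp mo T M) (h' : Rp mo T' M') (hc : T ∘ₗ T' = T' ∘ₗ T) : Commute M M' := by
  have h1 := Pool.Agent.Lib.MP_06b9d2_tln.rp_mul h h'
  have h2 := Pool.Agent.Lib.MP_06b9d2_tln.rp_mul h' h
  rw [← hc] at h2
  have h3 : M * M' = M' * M := by
    ext j s
    have e1 := (h1 s).symm.trans (h2 s)
    have e2 : ∑ j : Fin (N + 1), ((M * M') j s - (M' * M) j s) • mo (j : ℕ) = 0 := by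
      simp only [sub_smul, Finset.sum_sub_distrib]
      rw [e1, sub_self]
    have e3 := ind (fun i => if hi : i < N + 1 then (M * M') ⟨i, hi⟩ s - (M' * M) ⟨i, hi⟩ s else 0) (by
      rw [Finset.sum_range, ← e2]
      refine Finset.sum_congr rfl fun i _ => ?_
      rw [dif_pos i.2]) (j : ℕ) (Nat.lt_succ_iff.1 j.2)
    simp only [dif_pos j.2, Fin.eta] at e3
    exact sub_eq_zero.1 e3
  exact h3

end Pool.Agent.Lib.MP_06b9d2_bm
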