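import Pool.Agent.Lib.MP_06b9d2_bm.DefsG
import Pool.Agent.Lib.MP_06b9d2_bm.Ent

/-!
Module BM-GEn. The entries of the matrix of `T` with `LwC O n c T` in a triangular basis.

Copy of the module Ent (`MP_06b9d2_bm/Ent.lean`) with `LwC` for `Lw` (`ent_le`, `ent_ge`, `ent_eq`; the private lemmas must be copied); in `entC_eq` the leading coefficient is `c`. (In Ent `n ≠ 0` is derived from `lead`; here it is a hypothesis.)
`entC_int`: `entC_le`, `entC_ge` and `v(Λ) ≤ 1`. `eig_int`: take `s` with `v(x s)` maximal (`≠ 0`): `lam x s = ∑ M s j x j` has valuation `≤ v(x s)`.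
-/

namespace Pool.Agent.Lib.MP_06b9d2_bm

open PowerSeries
open Pool.Agent.Lib.MP_06b9d2_tln (TN Mt Rp Sy act)

variable {O : ValuationSubring ℂ} {N n : ℕ} {Λ c : ℂ} {mo b : ℕ → ℂ⟦X⟧} {T : ℂ⟦X⟧ →ₗ[ℂ] ℂ⟦X⟧} {M : Mt N}

/-- the entries of the matrix in the basis `b` -/
private noncomputable def GEn_M (Λ : ℂ) (M : Mt N) (j s : Fin (N + 1)) : ℂ := M j s * Λ ^ (j : ℕ) / Λ ^ (s : ℕ)

private theorem GEn_T (hb : Tri O Λ N mo b) (hΛ : Λ ≠ 0) (hM : Rp mo T M) (s : Fin (N + 1)) (i : ℕ) :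
    coeff i (T (b (s : ℕ))) = ∑ j : Fin (N + 1), GEn_M Λ M j s * coeff i (b (j : ℕ)) := by
  have h1 := hM s
  rw [hb.eq s (by omega), map_smul] at h1
  have h2 := congrArg (coeff i) h1
  rw [coeff_smul, map_sum, smul_eq_mul] at h2
  have h3 : Λ ^ (s : ℕ) ≠ 0 := pow_ne_zero _ hΛ
  have h4 : coeff i (T (b (s : ℕ))) =
      (∑ j : Fin (N + 1), coeff i (M j s • mo (j : ℕ))) / Λ ^ (s : ℕ) := by
    rw [← h2, mul_div_cancel_left₀ _ h3]
  rw [h4, Finset.sum_div]
  refine Finset.sum_congr rfl fun j _ => ?_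
  rw [hb.eq j (by omega), coeff_smul, coeff_smul, smul_eq_mul, smul_eq_mul]
  unfold GEn_M
  ring

private theorem GEn_split (hb : Tri O Λ N mo b) (hΛ : Λ ≠ 0) (hM : Rp mo T M) (j s : Fin (N + 1)) :
    coeff (j : ℕ) (T (b (s : ℕ))) = GEn_M Λ M j s +
      ∑ i ∈ Finset.univ.filter (fun i : Fin (N + 1) => i < j), GEn_M Λ M i s * coeff (j : ℕ) (b (i : ℕ)) := by
  rw [GEn_T hb hΛ hM, ← Finset.add_sum_erase _ _ (Finset.mem_univ j), hb.one j (by omega), mul_one]
  congr 1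
  symm
  refine Finset.sum_subset ?_ ?_
  · intro i hi
    rw [Finset.mem_filter] at hi
    exact Finset.mem_erase.2 ⟨ne_of_lt hi.2, Finset.mem_univ _⟩
  · intro i hi hi'
    rw [Finset.mem_erase] at hi
    rw [Finset.mem_filter, not_and] at hi'
    have h1 : j < i := lt_of_le_of_ne (not_lt.1 (hi' (Finset.mem_univ _))) (Ne.symm hi.1)
    rw [hb.zero i (by omega) j h1, mul_zero]

private theorem GEn_int (hb : Tri O Λ N mo b) (hΛ : Λ ≠ 0) (hT : LwC O n c T) (hM : Rp mo T M) (s : Fin (N + 1)) :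
    ∀ (m : ℕ) (j : Fin (N + 1)), (j : ℕ) = m → GEn_M Λ M j s ∈ O := by
  intro m
  induction m using Nat.strong_induction_on with
  | _ m ih =>
    intro j hj
    have h1 := GEn_split hb hΛ hM j s
    have h2 : GEn_M Λ M j s = coeff (j : ℕ) (T (b (s : ℕ))) -
        ∑ i ∈ Finset.univ.filter (fun i : Fin (N + 1) => i < j), GEn_M Λ M i s * coeff (j : ℕ) (b (i : ℕ)) := by
      rw [h1, add_sub_cancel_right]
    rw [h2]
    refine sub_mem ?_ (sum_mem fun i hi => mul_mem ?_ ?_)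
    · rw [← ValuationSubring.valuation_le_one_iff]
      exact hT.int _ (hb.int s (by omega)) _
    · rw [Finset.mem_filter] at hi
      exact ih (i : ℕ) (by rw [← hj]; exact hi.2) i rfl
    · rw [← ValuationSubring.valuation_le_one_iff]
      exact hb.int i (by omega) _

private theorem GEn_back (hΛ : Λ ≠ 0) (j s : Fin (N + 1)) (hjs : (j : ℕ) ≤ s) :
    M j s = Λ ^ ((s : ℕ) - j) * GEn_M Λ M j s := by
  unfold GEn_M
  have h3 : Λ ^ (s : ℕ) ≠ 0 := pow_ne_zero _ hΛ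
  rw [mul_div_assoc', eq_div_iff h3]
  have h4 : Λ ^ (s : ℕ) = Λ ^ ((s : ℕ) - j) * Λ ^ (j : ℕ) := by
    rw [← pow_add]
    congr 1
    omega
  rw [h4]
  ring

theorem entC_le (hb : Tri O Λ N mo b) (hΛ : Λ ≠ 0) (hT : LwC O n c T) (hM : Rp mo T M) (j s : Fin (N + 1))
    (hjs : (j : ℕ) ≤ s) : O.valuation (M j s) ≤ O.valuation (Λ ^ ((s : ℕ) - j)) := by
  rw [GEn_back (M := M) hΛ j s hjs, map_mul]
  refine mul_le_of_le_one_right' ?_
  rw [ValuationSubring.valuation_le_one_iff]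
  exact GEn_int hb hΛ hT hM s _ j rfl

theorem entC_ge (hb : Tri O Λ N mo b) (hΛ : Λ ≠ 0) (hT : LwC O n c T) (hM : Rp mo T M) (hS : Sy M)
    (j s : Fin (N + 1)) (hjs : (s : ℕ) ≤ j) : O.valuation (M j s) ≤ O.valuation (Λ ^ ((j : ℕ) - s)) := by
  rw [← hS j s]
  have h1 : ((Fin.rev j : Fin (N + 1)) : ℕ) = N - j := by
    rw [Fin.val_rev]
    omega
  have h2 : ((Fin.rev s : Fin (N + 1)) : ℕ) = N - s := by
    rw [Fin.val_rev]
    omega
  have h3 := entC_le hb hΛ hT hM (Fin.rev j) (Fin.rev s) (by omega)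
  have h4 : ((Fin.rev s : Fin (N + 1)) : ℕ) - ((Fin.rev j : Fin (N + 1)) : ℕ) = (j : ℕ) - s := by omega
  rwa [h4] at h3

theorem entC_eq (hb : Tri O Λ N mo b) (hΛ : Λ ≠ 0) (hn : n ≠ 0) (hT : LwC O n c T) (hM : Rp mo T M)
    (j s : Fin (N + 1)) (hj : 1 ≤ (j : ℕ)) (hs : (s : ℕ) = n * j) : M j s = c * Λ ^ ((s : ℕ) - j) := by
  have hjs : (j : ℕ) ≤ s := by
    rw [hs]
    exact Nat.le_mul_of_pos_left _ (Nat.pos_of_ne_zero hn)
  have hz : ∀ i < n * (j : ℕ), coeff i (b (s : ℕ)) = 0 := by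
    intro i hi
    rw [← hs] at hi
    exact hb.zero s (by omega) i hi
  have h1 := hT.zero _ _ hz
  have h2 := hT.lead _ _ hj hz
  rw [← hs, hb.one s (by omega), mul_one] at h2
  have h3 : ∀ (m : ℕ) (i : Fin (N + 1)), (i : ℕ) = m → i < j → GEn_M Λ M i s = 0 := by
    intro m
    induction m using Nat.strong_induction_on with
    | _ m ih =>
      intro i hi hij
      have h4 := GEn_split hb hΛ hM i s
      rw [h1 i hij, Finset.sum_eq_zero, add_zero] at h4
      · exact h4.symm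
      · intro r hr
        rw [Finset.mem_filter] at hr
        rw [ih (r : ℕ) (by rw [← hi]; exact hr.2) r rfl (hr.2.trans hij), zero_mul]
  have h5 := GEn_split hb hΛ hM j s
  rw [h2, Finset.sum_eq_zero, add_zero] at h5
  · rw [GEn_back (M := M) hΛ j s hjs, ← h5, mul_comm]
  · intro r hr
    rw [Finset.mem_filter] at hr
    rw [h3 _ r rfl hr.2, zero_mul]

theorem entC_int (hb : Tri O Λ N mo b) (hΛ : Λ ≠ 0) (hΛ1 : O.valuation Λ ≤ 1) (hT : LwC O n c T)
    (hM : Rp mo T M) (hS : Sy M) (j s : Fin (N + 1)) : O.valuation (M j s) ≤ 1 := by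
  rcases le_total (j : ℕ) (s : ℕ) with h | h
  · refine (entC_le hb hΛ hT hM j s h).trans ?_
    rw [map_pow]
    exact pow_le_one' hΛ1 _
  · refine (entC_ge hb hΛ hT hM hS j s h).trans ?_
    rw [map_pow]
    exact pow_le_one' hΛ1 _

theorem eig_int (hM : ∀ j s, O.valuation (M j s) ≤ 1) (x : Fin (N + 1) → ℂ) (hx : x ≠ 0) (lam : ℂ)
    (h : M.mulVec x = lam • x) : O.valuation lam ≤ 1 := by
  obtain ⟨s, -, hs⟩ := Finset.exists_max_image (Finset.univ : Finset (Fin (N + 1)))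
    (fun i => O.valuation (x i)) ⟨0, Finset.mem_univ _⟩
  have hxs : x s ≠ 0 := by
    intro h0
    apply hx
    funext i
    have h1 := hs i (Finset.mem_univ _)
    rw [h0, map_zero] at h1
    have h2 : O.valuation (x i) = 0 := le_antisymm h1 zero_le
    exact (map_eq_zero O.valuation).1 h2
  have h1 := congrFun h s
  have h2 : O.valuation (lam * x s) ≤ O.valuation (x s) := by
    have h3 : lam * x s = ∑ j : Fin (N + 1), M s j * x j := by
      rw [← smul_eq_mul, ← Pi.smul_apply, ← h]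
      rfl
    rw [h3]
    refine Valuation.map_sum_le _ fun j _ => ?_
    rw [map_mul]
    calc O.valuation (M s j) * O.valuation (x j) ≤ 1 * O.valuation (x s) :=
          mul_le_mul' (hM s j) (hs j (Finset.mem_univ _))
      _ = O.valuation (x s) := one_mul _
  rw [map_mul] at h2
  have h3 : 0 < O.valuation (x s) := by
    rw [Valuation.pos_iff]
    exact hxs
  exact (mul_le_iff_le_one_left h3).1 h2

end Pool.Agent.Lib.MP_06b9d2_bm
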