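import Mathlib

/-!
Module BM-GFa. The field generated by the eigenvalues of a commuting family of rational matrices.

`fld_alg`. Let `R = Algebra.adjoin ℚ (Set.range M)`, a commutative finite-dimensional subalgebra of the matrices. By `Algebra.adjoin_induction` every `r ∈ R` satisfies `(r.map) v = χ v` for some `χ ∈ ℂ`, so with `S = Algebra.adjoin ℚ (Set.range a) ⊆ ℂ`: every element of `S` is such a `χ` (again `adjoin_induction`), and `S` is
finite dimensional over `ℚ` (`dim S ≤ d ^ 2`: choose `χ : S ↪ …`; e.g. the map `R → ℂ`, `r ↦ χ(r)` = the eigenvalue, is a linear map with range `S`), a domain, hence a field (`Algebra.IsIntegral…`, `isField_of_isIntegral_of_isField'`, or all `a i` are integral over `ℚ`: `IntermediateField.adjoin_algebraic_toSubalgebra`), so `K = IntermediateField.adjoin ℚ (Set.range a)` has the same carrier as `S`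
and is finite over `ℚ`. Let `L = ℚ⟮a n⟯ ≤ K`. `[K : ℚ] = [K : L] [L : ℚ]`, `K / L` finite separable (characteristic `0`): `K = L(θ)` (`Field.exists_primitive_element`), `θ = χ(r)`, `r ∈ R`. `[K : L]` = degree of the minimal polynomial `P` of `θ` over `L`.
`dim`: let `V` be the kernel of `M n - a n` on `L ^ d` (matrices over `L`). `r` commutes with `M n` and acts on `V`; let `G ∈ L[X]` be its characteristic polynomial on `V`, of degree `dim_L V = dim_ℂ ker(M n - a n) ≤ B` (the rank of a matrix does not change under a field extension: `Matrix.rank_map` or similar; `LinearMap.baseChange`). `G(r) = 0` on `V` (Cayley-Hamilton) and so on its complex span,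
which is the complex kernel (a basis of `V` over `L` is linearly independent over `ℂ` in the complex kernel, of the same dimension), and `v` is in the complex kernel: `G(θ) v = 0`, `G(θ) = 0`, so `P ∣ G` and `deg P ≤ B`. (Alternative without `G`: the vectors `v, …`: if `[K : L] = m`, the powers `1, θ, …, θ ^ (m - 1)` are independent over `L`;
choose `v ∈ K ^ d` (the solutions over `K` span those over `ℂ`), and apply the `m` embeddings `σ : K →ₐ[L] ℂ` to `v`: the vectors `σ v` are in the complex kernel and are eigenvectors of `r` for the distinct eigenvalues `σ θ`, hence linearly independent: `m ≤ B`.)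
-/

namespace Pool.Agent.Lib.MP_06b9d2_bm

open IntermediateField

private theorem GFa_ev {d : ℕ} {ι : Type} (M : ι → Matrix (Fin d) (Fin d) ℚ)
    (v : Fin d → ℂ) (a : ι → ℂ) (ha : ∀ i, ((M i).map (algebraMap ℚ ℂ)).mulVec v = a i • v)
    (x : ℂ) (hx : x ∈ Algebra.adjoin ℚ (Set.range a)) :
    ∃ r : Matrix (Fin d) (Fin d) ℚ, (r.map (algebraMap ℚ ℂ)).mulVec v = x • v := by
  induction hx using Algebra.adjoin_induction with
  | mem x hx =>
    obtain ⟨i, rfl⟩ := hx
    exact ⟨M i, ha i⟩
  | algebraMap q =>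
    refine ⟨Matrix.scalar (Fin d) q, ?_⟩
    have h : (Matrix.scalar (Fin d) q).map (algebraMap ℚ ℂ) = Matrix.scalar (Fin d) (algebraMap ℚ ℂ q) := by
      ext i j
      by_cases hij : i = j
      · subst hij
        simp
      · simp [hij]
    rw [h]
    ext j
    simp [Matrix.scalar_apply, Matrix.mulVec_diagonal]
  | add x y _ _ hx hy =>
    obtain ⟨r, hr⟩ := hx
    obtain ⟨r', hr'⟩ := hy
    refine ⟨r + r', ?_⟩
    rw [Matrix.map_add _ (map_add (algebraMap ℚ ℂ)), Matrix.add_mulVec, hr, hr', add_smul]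
  | mul x y _ _ hx hy =>
    obtain ⟨r, hr⟩ := hx
    obtain ⟨r', hr'⟩ := hy
    refine ⟨r * r', ?_⟩
    rw [Matrix.map_mul, ← Matrix.mulVec_mulVec, hr', Matrix.mulVec_smul, hr, smul_smul, mul_comm]

theorem fld_alg {d : ℕ} {ι : Type} (M : ι → Matrix (Fin d) (Fin d) ℚ) (hc : ∀ i j, M i * M j = M j * M i)
    (v : Fin d → ℂ) (hv : v ≠ 0) (a : ι → ℂ) (ha : ∀ i, ((M i).map (algebraMap ℚ ℂ)).mulVec v = a i • v)
    (n : ι) (B : ℕ)
    (hB : Module.finrank ℂ (LinearMap.ker (((M n).map (algebraMap ℚ ℂ)).mulVecLin - a n • LinearMap.id)) ≤ B) :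
    FiniteDimensional ℚ (IntermediateField.adjoin ℚ (Set.range a)) ∧
      Module.finrank ℚ (IntermediateField.adjoin ℚ (Set.range a)) ≤ B * Module.finrank ℚ ℚ⟮a n⟯ := by
  classical
  obtain ⟨j0, hj0⟩ := Function.ne_iff.mp hv
  have hj0' : v j0 ≠ 0 := hj0
  -- the subalgebra generated by the eigenvalues is finite-dimensional
  let ψ : Matrix (Fin d) (Fin d) ℚ →ₗ[ℚ] ℂ :=
    { toFun := fun r => (r.map (algebraMap ℚ ℂ)).mulVec v j0 / v j0
      map_add' := by
        intro r r'
        rw [Matrix.map_add _ (map_add (algebraMap ℚ ℂ)), Matrix.add_mulVec, Pi.add_apply, add_div]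
      map_smul' := by
        intro q r
        have h : (q • r).map (algebraMap ℚ ℂ) = (algebraMap ℚ ℂ q) • r.map (algebraMap ℚ ℂ) := by
          ext i j
          simp
        rw [h, Matrix.smul_mulVec, Pi.smul_apply, RingHom.id_apply, smul_eq_mul, mul_div_assoc]
        exact (Algebra.smul_def q _).symm }
  have hSψ : Subalgebra.toSubmodule (Algebra.adjoin ℚ (Set.range a)) ≤ LinearMap.range ψ := by
    intro x hx
    obtain ⟨r, hr⟩ := GFa_ev M v a ha x hx
    refine ⟨r, ?_⟩
    show (r.map (algebraMap ℚ ℂ)).mulVec v j0 / v j0 = x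
    rw [hr, Pi.smul_apply, smul_eq_mul, mul_div_assoc, div_self hj0', mul_one]
  have hSfin : (Subalgebra.toSubmodule (Algebra.adjoin ℚ (Set.range a))).FG := by
    have h1 : FiniteDimensional ℚ (LinearMap.range ψ) := inferInstance
    have h2 := Submodule.finiteDimensional_of_le hSψ
    exact (Submodule.fg_iff_finiteDimensional _).mpr h2
  have halg : ∀ x ∈ Set.range a, IsAlgebraic ℚ x := fun x hx =>
    (IsIntegral.of_mem_of_fg _ hSfin x (Algebra.subset_adjoin hx)).isAlgebraic
  have hKS := IntermediateField.adjoin_toSubalgebra_of_isAlgebraic halg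
  have hKfin : FiniteDimensional ℚ (IntermediateField.adjoin ℚ (Set.range a)) := by
    have h1 : FiniteDimensional ℚ (Subalgebra.toSubmodule (IntermediateField.adjoin ℚ (Set.range a)).toSubalgebra) := by
      rw [hKS]
      exact (Submodule.fg_iff_finiteDimensional _).mp hSfin
    exact h1
  refine ⟨hKfin, ?_⟩
  have hLK : ℚ⟮a n⟯ ≤ IntermediateField.adjoin ℚ (Set.range a) := by
    rw [IntermediateField.adjoin_simple_le_iff]
    exact IntermediateField.subset_adjoin _ _ ⟨n, rfl⟩
  rw [← IntermediateField.finrank_bot_mul_relfinrank hLK, mul_comm B,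
    IntermediateField.relfinrank_eq_finrank_of_le hLK]
  apply Nat.mul_le_mul_left
  -- the number of embeddings over `ℚ(a n)`
  let K' : IntermediateField ℚ⟮a n⟯ ℂ := IntermediateField.extendScalars hLK
  have hmemK : ∀ x : K', (x : ℂ) ∈ Algebra.adjoin ℚ (Set.range a) := by
    intro x
    rw [← hKS]
    exact x.2
  have hK'fin' : FiniteDimensional ℚ K' := hKfin
  have hK'fin : FiniteDimensional ℚ⟮a n⟯ K' := Module.Finite.of_restrictScalars_finite ℚ ℚ⟮a n⟯ K'
  have hcard : Fintype.card (K' →ₐ[ℚ⟮a n⟯] ℂ) = Module.finrank ℚ⟮a n⟯ K' := AlgHom.card ℚ⟮a n⟯ K' ℂ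
  show Module.finrank ℚ⟮a n⟯ K' ≤ B
  rw [← hcard]
  -- an eigenvector with entries in `K'`
  obtain ⟨f, hf⟩ : ∃ f : Module.Dual K' ℂ, f (v j0) ≠ 0 := by
    by_contra hcon
    push Not at hcon
    exact hj0' ((Module.forall_dual_apply_eq_zero_iff K' (v j0)).mp hcon)
  have hrf : ∀ x : K', ∃ r : Matrix (Fin d) (Fin d) ℚ, ∀ j,
      ∑ k, algebraMap ℚ K' (r j k) * f (v k) = x * f (v j) := by
    intro x
    obtain ⟨r, hr⟩ := GFa_ev M v a ha x (hmemK x)
    refine ⟨r, fun j => ?_⟩
    have h1 := congrFun hr j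
    have h2 : ∑ k, (algebraMap ℚ K' (r j k)) • v k = x • v j := by
      have h3 : ∀ k, (algebraMap ℚ K' (r j k)) • v k = (r.map (algebraMap ℚ ℂ)) j k * v k := by
        intro k
        rw [Algebra.smul_def, ← IsScalarTower.algebraMap_apply]
        rfl
      simp_rw [h3]
      exact h1
    have h4 := congrArg f h2
    rw [map_sum, map_smul] at h4
    simp_rw [map_smul] at h4
    exact h4
  let w : (K' →ₐ[ℚ⟮a n⟯] ℂ) → Fin d → ℂ := fun σ j => σ (f (v j))
  have hw : ∀ x : K', ∃ r : Matrix (Fin d) (Fin d) ℚ, ∀ σ : K' →ₐ[ℚ⟮a n⟯] ℂ,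
      (r.map (algebraMap ℚ ℂ)).mulVec (w σ) = σ x • w σ := by
    intro x
    obtain ⟨r, hr⟩ := hrf x
    refine ⟨r, fun σ => ?_⟩
    ext j
    have h1 := congrArg σ (hr j)
    rw [map_sum, map_mul] at h1
    have h2 : ∀ k, σ (algebraMap ℚ K' (r j k) * f (v k)) = (r.map (algebraMap ℚ ℂ)) j k * w σ k := by
      intro k
      rw [map_mul]
      have h3 : σ (algebraMap ℚ K' (r j k)) = algebraMap ℚ ℂ (r j k) := by
        exact map_ratCast σ (r j k)
      rw [h3]
      rfl
    simp_rw [h2] at h1
    exact h1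
  -- they are linearly independent
  have hli : LinearIndependent ℂ w := by
    rw [Fintype.linearIndependent_iff]
    intro c hcw
    -- apply the matrices
    have h1 : ∀ x : K', ∑ σ : K' →ₐ[ℚ⟮a n⟯] ℂ, (c σ * σ (f (v j0))) * σ x = 0 := by
      intro x
      obtain ⟨r, hr⟩ := hw x
      have h2 : (r.map (algebraMap ℚ ℂ)).mulVecLin (∑ σ, c σ • w σ) = 0 := by rw [hcw, map_zero]
      rw [map_sum] at h2
      have h3 := congrFun h2 j0
      rw [Finset.sum_apply, Pi.zero_apply] at h3
      rw [← h3]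
      refine Finset.sum_congr rfl fun σ _ => ?_
      rw [map_smul, Matrix.mulVecLin_apply, hr σ]
      simp only [Pi.smul_apply, smul_eq_mul]
      show c σ * σ (f (v j0)) * σ x = c σ * (σ x * σ (f (v j0)))
      ring
    have h2 : LinearIndependent ℂ (fun σ : K' →ₐ[ℚ⟮a n⟯] ℂ => (σ : K' → ℂ)) := by
      have h3 := (linearIndependent_monoidHom K' ℂ).comp
        (fun σ : K' →ₐ[ℚ⟮a n⟯] ℂ => ((σ : K' →+* ℂ) : K' →* ℂ)) ?_
      · exact h3
      · intro σ τ h
        ext x
        exact DFunLike.congr_fun h x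
    rw [Fintype.linearIndependent_iff] at h2
    intro σ
    have h3 := h2 (fun σ => c σ * σ (f (v j0))) (by
      ext x
      rw [Finset.sum_apply, Pi.zero_apply, ← h1 x]
      rfl) σ
    have h4 : σ (f (v j0)) ≠ 0 := by
      rw [Ne, map_eq_zero]
      exact hf
    exact (mul_eq_zero.mp h3).resolve_right h4
  -- and lie in the kernel
  have hker : ∀ σ, w σ ∈ LinearMap.ker (((M n).map (algebraMap ℚ ℂ)).mulVecLin - a n • LinearMap.id) := by
    intro σ
    rw [LinearMap.mem_ker, LinearMap.sub_apply, LinearMap.smul_apply, LinearMap.id_apply, sub_eq_zero,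
      Matrix.mulVecLin_apply]
    ext j
    have han : a n ∈ ℚ⟮a n⟯ := IntermediateField.mem_adjoin_simple_self ℚ (a n)
    have h1 : ∑ k, algebraMap ℚ K' (M n j k) * f (v k) = algebraMap ℚ⟮a n⟯ K' ⟨a n, han⟩ * f (v j) := by
      have h2 : ∑ k, (algebraMap ℚ K' (M n j k)) • v k = (algebraMap ℚ⟮a n⟯ K' ⟨a n, han⟩) • v j := by
        have h3 : ∀ k, (algebraMap ℚ K' (M n j k)) • v k = ((M n).map (algebraMap ℚ ℂ)) j k * v k := by
          intro k
          rw [Algebra.smul_def, ← IsScalarTower.algebraMap_apply]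
          rfl
        simp_rw [h3]
        exact congrFun (ha n) j
      have h4 := congrArg f h2
      rw [map_sum, map_smul] at h4
      simp_rw [map_smul] at h4
      exact h4
    have h5 := congrArg σ h1
    rw [map_sum, map_mul, AlgHom.commutes] at h5
    have h6 : ∀ k, σ (algebraMap ℚ K' (M n j k) * f (v k)) = ((M n).map (algebraMap ℚ ℂ)) j k * w σ k := by
      intro k
      rw [map_mul]
      have h7 : σ (algebraMap ℚ K' (M n j k)) = algebraMap ℚ ℂ (M n j k) := map_ratCast σ (M n j k)
      rw [h7]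
      rfl
    simp_rw [h6] at h5
    exact h5
  let w' : (K' →ₐ[ℚ⟮a n⟯] ℂ) →
      LinearMap.ker (((M n).map (algebraMap ℚ ℂ)).mulVecLin - a n • LinearMap.id) := fun σ => ⟨w σ, hker σ⟩
  have hli' : LinearIndependent ℂ w' :=
    LinearIndependent.of_comp (Submodule.subtype _) hli
  exact hli'.fintype_card_le_finrank.trans hB

end Pool.Agent.Lib.MP_06b9d2_bm
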