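import Pool.Agent.Lib.MP_06b9d2_bm.GFa
import Pool.Agent.Lib.MP_06b9d2_bm.Mlt
import Pool.Agent.Lib.MP_06b9d2_tl2.TrfG

/-!
Module BM-GFb. The field generated by the eigenvalues of an eigenform over the field generated by one of them.

If `k < 0` there is no `f ≠ 0` (as in `mult_Z`, module Mlt). Otherwise `k` is a natural number; `MtxJ k` (`MP_06b9d2_tl2/TrfG.lean`): a bijective linear map `Φ` and integral matrices `M m`, `m ≥ 1`, with `Φ (T m g) = M m (Φ g)`; see the proof of `hecke_rat` (`MP_06b9d2_tls/HPoly.lean`). The `M m` commute (`hecke_comm`).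
`fld_alg` with the index type `{m : ℕ // 1 ≤ m}`, `v = Φ f ≠ 0`, the rational matrices `(M m).map (Int.cast : ℤ → ℚ)`; `hB`: `Φ` maps `ker (T n - a n)` isomorphically onto the kernel of the matrix, `mult_Z H`. The set `{x | ∃ m, 1 ≤ m ∧ a m = x}` is the range of `a` on the subtype.
-/

namespace Pool.Agent.Lib.MP_06b9d2_bm

open UpperHalfPlane Pool.Agent.L1 Pool.Agent.Lib.MP_06b9d2_nt
open IntermediateField
open scoped MatrixGroups ModularForm

theorem fld_hecke {n B : ℕ} (hn : 1 ≤ n) (H : KerB n B) (k : ℤ) (hk : Even k)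
    (T : ℕ → CuspForm 𝒮ℒ k →ₗ[ℂ] CuspForm 𝒮ℒ k) (hT : ∀ m, 1 ≤ m → IsHecke k m (T m))
    (f : CuspForm 𝒮ℒ k) (hf : f ≠ 0) (a : ℕ → ℂ) (ha : ∀ m, 1 ≤ m → T m f = a m • f) :
    FiniteDimensional ℚ (IntermediateField.adjoin ℚ {x : ℂ | ∃ m, 1 ≤ m ∧ a m = x}) ∧
      Module.finrank ℚ (IntermediateField.adjoin ℚ {x : ℂ | ∃ m, 1 ≤ m ∧ a m = x}) ≤
        B * Module.finrank ℚ ℚ⟮a n⟯ := by
  have hset : {x : ℂ | ∃ m, 1 ≤ m ∧ a m = x} = Set.range fun m : {m : ℕ // 1 ≤ m} => a m.1 := by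
    ext x
    constructor
    · rintro ⟨m, hm, rfl⟩
      exact ⟨⟨m, hm⟩, rfl⟩
    · rintro ⟨⟨m, hm⟩, rfl⟩
      exact ⟨m, hm, rfl⟩
  rw [hset]
  rcases lt_or_ge k 0 with hneg | hpos
  · exfalso
    have h1 : Module.rank ℂ (CuspForm 𝒮ℒ k) = 0 :=
      CuspForm.rank_eq_zero_of_weight_lt_twelve (by omega)
    have h2 : Subsingleton (CuspForm 𝒮ℒ k) := rank_zero_iff.1 h1
    exact hf (Subsingleton.elim _ _)
  · obtain ⟨w, rfl⟩ := Int.eq_ofNat_of_zero_le hpos
    obtain ⟨Φ, hΦ, hM⟩ := Pool.Agent.Lib.MP_06b9d2_tl2.MtxJ w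
    have hfin : Module.Finite ℂ (CuspForm 𝒮ℒ (w : ℤ)) :=
      Module.Finite.equiv (LinearEquiv.ofBijective Φ hΦ).symm
    choose M hTM using fun m : {m : ℕ // 1 ≤ m} => hM m.1 m.2 (T m.1) (hT m.1 m.2)
    have hcast : ∀ N : Matrix (Fin (dd w - 1)) (Fin (dd w - 1)) ℤ,
        (N.map (Int.cast : ℤ → ℚ)).map (algebraMap ℚ ℂ) = N.map (Int.cast : ℤ → ℂ) := by
      intro N
      ext i j
      simp
    have hcC : ∀ i j, (M i).map (Int.cast : ℤ → ℂ) * (M j).map (Int.cast : ℤ → ℂ) =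
        (M j).map (Int.cast : ℤ → ℂ) * (M i).map (Int.cast : ℤ → ℂ) := by
      intro i j
      apply Matrix.ext_of_mulVec_single
      intro l
      obtain ⟨g, hg⟩ := hΦ.2 (Pi.single l 1)
      rw [← Matrix.mulVec_mulVec, ← Matrix.mulVec_mulVec, ← hg, ← hTM, ← hTM, ← hTM, ← hTM]
      have : NeZero i.1 := ⟨by have := i.2; omega⟩
      have : NeZero j.1 := ⟨by have := j.2; omega⟩
      have h1 : T i.1 (T j.1 g) = T j.1 (T i.1 g) :=
        LinearMap.congr_fun (Pool.Agent.Lib.MP_06b9d2_tl2.hecke_comm (hT i.1 i.2) (hT j.1 j.2)) g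
      rw [h1]
    have hcZ : ∀ i j, M i * M j = M j * M i := by
      intro i j
      have h1 : Function.Injective (fun N : Matrix (Fin (dd w - 1)) (Fin (dd w - 1)) ℤ =>
          N.map (Int.cast : ℤ → ℂ)) := by
        intro N N' h
        ext i j
        have h2 := congrFun (congrFun h i) j
        simp only [Matrix.map_apply] at h2
        exact_mod_cast h2
      apply h1
      simp only
      have h2 : ∀ N N' : Matrix (Fin (dd w - 1)) (Fin (dd w - 1)) ℤ,
          (N * N').map (Int.cast : ℤ → ℂ) = N.map (Int.cast : ℤ → ℂ) * N'.map (Int.cast : ℤ → ℂ) := by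
        intro N N'
        exact Matrix.map_mul (f := Int.castRingHom ℂ)
      rw [h2, h2, hcC]
    have hcQ : ∀ i j, (M i).map (Int.cast : ℤ → ℚ) * (M j).map (Int.cast : ℤ → ℚ) =
        (M j).map (Int.cast : ℤ → ℚ) * (M i).map (Int.cast : ℤ → ℚ) := by
      intro i j
      have h2 : ∀ N N' : Matrix (Fin (dd w - 1)) (Fin (dd w - 1)) ℤ,
          (N * N').map (Int.cast : ℤ → ℚ) = N.map (Int.cast : ℤ → ℚ) * N'.map (Int.cast : ℤ → ℚ) := by
        intro N N'
        exact Matrix.map_mul (f := Int.castRingHom ℚ)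
      rw [← h2, ← h2, hcZ]
    let e : CuspForm 𝒮ℒ (w : ℤ) ≃ₗ[ℂ] (Fin (dd w - 1) → ℂ) := LinearEquiv.ofBijective Φ hΦ
    have he : ∀ v, Φ (e.symm v) = v := fun v => e.apply_symm_apply v
    refine fld_alg (ι := {m : ℕ // 1 ≤ m}) (fun i => (M i).map (Int.cast : ℤ → ℚ)) hcQ (Φ f) ?_
      (fun m => a m.1) ?_ ⟨n, hn⟩ B ?_
    · intro h0
      exact hf (hΦ.1 (h0.trans (map_zero Φ).symm))
    · intro i
      rw [hcast, ← hTM, ha i.1 i.2, map_smul]
    · refine le_trans ?_ (mult_Z H (w : ℤ) hk (T n) (hT n hn) (a n))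
      rw [← LinearEquiv.finrank_map_eq e.symm]
      apply Submodule.finrank_mono
      rintro _ ⟨v, hv, rfl⟩
      rw [SetLike.mem_coe, LinearMap.mem_ker, LinearMap.sub_apply, Matrix.mulVecLin_apply,
        LinearMap.smul_apply, LinearMap.id_apply, hcast] at hv
      rw [LinearMap.mem_ker, LinearMap.sub_apply, LinearMap.smul_apply, LinearMap.id_apply]
      apply hΦ.1
      rw [map_zero, map_sub, map_smul]
      have h1 := hTM ⟨n, hn⟩ (e.symm v)
      change Φ (T n (e.symm v)) - a n • Φ (e.symm v) = 0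
      change Φ (T n (e.symm v)) = _ at h1
      rw [h1, he]
      exact hv

end Pool.Agent.Lib.MP_06b9d2_bm
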