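import Pool.Agent.Lib.MP_06b9d2_bm.GMn
import Pool.Agent.Lib.MP_06b9d2_lf.Trans
import Pool.Agent.Lib.MP_06b9d2_tls.PrW

/-!
MP_06b9d2_nt: large irreducible factors of `F_{k,n}` for all `n` not divisible by `6`, from those of
`F_{k,2}`: the field generated by all eigenvalues of an eigenform has degree at most `bd n` over the
field generated by `a_n`.
-/

namespace Pool.Agent.Lib.MP_06b9d2_bm

open UpperHalfPlane Pool.Agent.L1 Pool.Agent.Lib.MP_06b9d2_nt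
open IntermediateField
open Pool.Agent.Lib.MP_06b9d2_lf (Fc)
open scoped MatrixGroups ModularForm

/-- a common eigenform of all Hecke operators with a given eigenvalue of `T_2` -/
theorem eig_ex (k : ℤ) (hk : Even k) (T : ℕ → CuspForm 𝒮ℒ k →ₗ[ℂ] CuspForm 𝒮ℒ k)
    (hT : ∀ m, 1 ≤ m → IsHecke k m (T m)) (β : ℂ) (f : CuspForm 𝒮ℒ k) (hf : f ≠ 0) (h2 : T 2 f = β • f) :
    ∃ a : ℕ → ℂ, a 2 = β ∧ ∀ m, 1 ≤ m → T m f = a m • f := by
  have := fin_cusp k
  have hK : Pool.Agent.Lib.MP_06b9d2_tls.KerOne 2 := by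
    have := Pool.Agent.Lib.MP_06b9d2_tls.kerOne_ppow 2 Nat.prime_two (Or.inl rfl) 1 le_rfl
    rwa [pow_one] at this
  have h1 := Pool.Agent.Lib.MP_06b9d2_tls.ker_leZ hK k hk (T 2) (hT 2 (by norm_num)) β
  have hmem : ∀ g : CuspForm 𝒮ℒ k, T 2 g = β • g → g ∈ LinearMap.ker (T 2 - β • LinearMap.id) := by
    intro g hg
    rw [LinearMap.mem_ker, LinearMap.sub_apply, hg, LinearMap.smul_apply, LinearMap.id_apply, sub_self]
  have hspan : ∀ g : CuspForm 𝒮ℒ k, T 2 g = β • g → ∃ c : ℂ, g = c • f := by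
    intro g hg
    have h3 := finrank_le_one_iff.1 h1
    obtain ⟨v, hv⟩ := h3
    obtain ⟨c1, hc1⟩ := hv ⟨f, hmem f h2⟩
    obtain ⟨c2, hc2⟩ := hv ⟨g, hmem g hg⟩
    have e1 : c1 • (v : CuspForm 𝒮ℒ k) = f := by
      have := congrArg Subtype.val hc1
      simpa using this
    have e2 : c2 • (v : CuspForm 𝒮ℒ k) = g := by
      have := congrArg Subtype.val hc2
      simpa using this
    have hc0 : c1 ≠ 0 := by
      rintro rfl
      rw [zero_smul] at e1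
      exact hf e1.symm
    refine ⟨c2 * c1⁻¹, ?_⟩
    rw [← e1, smul_smul, mul_assoc, inv_mul_cancel₀ hc0, mul_one, e2]
  have hex : ∀ m, ∃ c : ℂ, 1 ≤ m → T m f = c • f := by
    intro m
    by_cases hm : 1 ≤ m
    · have : NeZero m := ⟨by omega⟩
      have hc : Commute (T 2) (T m) :=
        Pool.Agent.Lib.MP_06b9d2_tl2.hecke_comm (hT 2 (by norm_num)) (hT m hm)
      obtain ⟨c, hc'⟩ := hspan (T m f) (by
        have e1 : T 2 (T m f) = T m (T 2 f) := by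
          have := congrArg (fun S => S f) hc.eq
          simpa using this
        rw [e1, h2, map_smul])
      exact ⟨c, fun _ => hc'⟩
    · exact ⟨0, fun h => absurd h hm⟩
  choose a ha using hex
  refine ⟨a, ?_, ha⟩
  have h3 := ha 2 (by norm_num)
  rw [h2] at h3
  have h4 : (β - a 2) • f = 0 := by rw [sub_smul, h3, sub_self]
  rcases smul_eq_zero.1 h4 with h5 | h5
  · exact (sub_eq_zero.1 h5).symm
  · exact absurd h5 hf

/-- all Hecke operators, with a given one for the index `n` -/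
theorem hecke_all (k : ℤ) (n : ℕ) (T : CuspForm 𝒮ℒ k →ₗ[ℂ] CuspForm 𝒮ℒ k) (hT : IsHecke k n T) :
    ∃ U : ℕ → CuspForm 𝒮ℒ k →ₗ[ℂ] CuspForm 𝒮ℒ k, U n = T ∧ ∀ m, 1 ≤ m → IsHecke k m (U m) := by
  classical
  have hex : ∀ m : ℕ, ∃ S : CuspForm 𝒮ℒ k →ₗ[ℂ] CuspForm 𝒮ℒ k, 1 ≤ m → IsHecke k m S := by
    intro m
    by_cases hm : 1 ≤ m
    · obtain ⟨S, hS⟩ := Pool.Agent.Lib.MP_06b9d2_p2.hecke_ex k m (by omega)
      exact ⟨S, fun _ => hS⟩
    · exact ⟨0, fun h => absurd h hm⟩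
  choose S hS using hex
  refine ⟨fun m => if m = n then T else S m, if_pos rfl, ?_⟩
  intro m hm
  by_cases hmn : m = n
  · subst hmn
    simp only [if_true]
    exact hT
  · simp only [if_neg hmn]
    exact hS m hm

/-- eigenvalues are algebraic integers: they are integral over `ℚ` and roots of a rational form of the
characteristic polynomial -/
theorem eig_root (k : ℤ) {n : ℕ} (hn : 0 < n) [Module.Finite ℂ (CuspForm 𝒮ℒ k)]
    (T : CuspForm 𝒮ℒ k →ₗ[ℂ] CuspForm 𝒮ℒ k) (hT : IsHecke k n T) :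
    ∃ F : Polynomial ℚ, F.map (algebraMap ℚ ℂ) = LinearMap.charpoly T ∧
      ∀ (α : ℂ) (f : CuspForm 𝒮ℒ k), f ≠ 0 → T f = α • f → IsIntegral ℚ α ∧ minpoly ℚ α ∣ F := by
  obtain ⟨F, hF, hFT⟩ := Pool.Agent.Lib.MP_06b9d2_tls.int_charpoly hn k T hT
  have hPn : (F.map (Int.castRingHom ℚ)).map (algebraMap ℚ ℂ) = LinearMap.charpoly T := by
    rw [← hFT, Polynomial.map_map]
    congr 1
  refine ⟨F.map (Int.castRingHom ℚ), hPn, ?_⟩
  intro α f hf hTf
  have hroot : (LinearMap.charpoly T).IsRoot α := by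
    rw [← Module.End.hasEigenvalue_iff_isRoot_charpoly]
    exact Module.End.hasEigenvalue_of_hasEigenvector
      (Module.End.hasEigenvector_iff.2 ⟨Module.End.mem_eigenspace_iff.2 hTf, hf⟩)
  constructor
  · refine ⟨F.map (Int.castRingHom ℚ), hF.map _, ?_⟩
    rw [← Polynomial.eval_map, hPn]
    exact hroot
  · apply minpoly.dvd
    rw [Polynomial.aeval_def, ← Polynomial.eval_map, hPn]
    exact hroot

theorem bd_pos {n : ℕ} (h2 : 2 ≤ n) : 0 < bd n := by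
  unfold bd
  split_ifs
  · positivity
  · positivity

/-- the degree of `a_n` is at least the degree of `a_2` divided by `bd n` -/
theorem deg_ge {n : ℕ} (h2 : 2 ≤ n) (h6 : ¬ 6 ∣ n) (k : ℤ) (hk : Even k)
    (U : ℕ → CuspForm 𝒮ℒ k →ₗ[ℂ] CuspForm 𝒮ℒ k) (hU : ∀ m, 1 ≤ m → IsHecke k m (U m))
    (f : CuspForm 𝒮ℒ k) (hf : f ≠ 0) (a : ℕ → ℂ) (ha : ∀ m, 1 ≤ m → U m f = a m • f) (r : ℕ)
    (h : r * bd n ≤ (minpoly ℚ (a 2)).natDegree) : r ≤ (minpoly ℚ (a n)).natDegree := by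
  have := fin_cusp k
  obtain ⟨hfin, hle⟩ := fld_hecke (n := n) (by omega) (kerB_bd n h2 h6) k hk U hU f hf a ha
  obtain ⟨F2, -, hF2⟩ := eig_root k (n := 2) (by norm_num) (U 2) (hU 2 (by norm_num))
  obtain ⟨Fn, -, hFn⟩ := eig_root k (n := n) (by omega) (U n) (hU n (by omega))
  have hi2 := (hF2 (a 2) f hf (ha 2 (by norm_num))).1
  have hin := (hFn (a n) f hf (ha n (by omega))).1
  have hβK : ℚ⟮a 2⟯ ≤ IntermediateField.adjoin ℚ {x : ℂ | ∃ m, 1 ≤ m ∧ a m = x} := by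
    rw [IntermediateField.adjoin_simple_le_iff]
    exact IntermediateField.subset_adjoin _ _ ⟨2, by norm_num, rfl⟩
  have hle2 : Module.finrank ℚ ℚ⟮a 2⟯ ≤
      Module.finrank ℚ (IntermediateField.adjoin ℚ {x : ℂ | ∃ m, 1 ≤ m ∧ a m = x}) :=
    IntermediateField.finrank_le_of_le_right hβK
  rw [← IntermediateField.adjoin.finrank hin]
  rw [← IntermediateField.adjoin.finrank hi2] at h
  have h7 : bd n * r ≤ bd n * Module.finrank ℚ ℚ⟮a n⟯ := by
    rw [mul_comm (bd n) r]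
    exact h.trans (hle2.trans hle)
  exact Nat.le_of_mul_le_mul_left h7 (bd_pos h2)

theorem fc_all {n : ℕ} (h2 : 2 ≤ n) (h6 : ¬ 6 ∣ n) (k : ℤ) (hk : Even k) (r : ℕ)
    (h : ∀ [Module.Finite ℂ (CuspForm 𝒮ℒ k)] (T : CuspForm 𝒮ℒ k →ₗ[ℂ] CuspForm 𝒮ℒ k),
      IsHecke k 2 T → Fc T (r * bd n))
    [Module.Finite ℂ (CuspForm 𝒮ℒ k)] (T : CuspForm 𝒮ℒ k →ₗ[ℂ] CuspForm 𝒮ℒ k) (hT : IsHecke k n T) :
    Fc T r := by
  obtain ⟨U, hUn, hUT⟩ := hecke_all k n T hT
  obtain ⟨P', hP', g, hg, hgd, hgr⟩ := h (U 2) (hUT 2 (by norm_num))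
  -- a complex root of `g`
  obtain ⟨β, hβ⟩ := Complex.exists_root (f := g.map (algebraMap ℚ ℂ)) (by
    rw [Polynomial.degree_map]
    exact Polynomial.natDegree_pos_iff_degree_pos.1 hg.natDegree_pos)
  have hβg : Polynomial.aeval β g = 0 := by
    rw [Polynomial.aeval_def, ← Polynomial.eval_map]
    exact hβ
  have hβ' : (LinearMap.charpoly (U 2)).IsRoot β := by
    rw [← hP']
    exact hβ.dvd (Polynomial.map_dvd _ hgd)
  have hev : Module.End.HasEigenvalue (U 2) β := by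
    rw [Module.End.hasEigenvalue_iff_isRoot_charpoly]
    exact hβ'
  obtain ⟨f, hf⟩ := hev.exists_hasEigenvector
  obtain ⟨a, ha2, ha⟩ := eig_ex k hk U hUT β f hf.2 hf.apply_eq_smul
  have hβd : (minpoly ℚ β).natDegree = g.natDegree := by
    rw [← minpoly.eq_of_irreducible hg hβg,
      Polynomial.natDegree_mul_C (inv_ne_zero (Polynomial.leadingCoeff_ne_zero.2 hg.ne_zero))]
  have hd := deg_ge h2 h6 k hk U hUT f hf.2 a ha r (by rw [ha2, hβd]; exact hgr)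
  obtain ⟨F, hF, hFa⟩ := eig_root k (n := n) (by omega) T hT
  obtain ⟨h3, h4⟩ := hFa (a n) f hf.2 (by rw [← hUn]; exact ha n (by omega))
  exact ⟨F, hF, minpoly ℚ (a n), minpoly.irreducible h3, h4, hd⟩

end Pool.Agent.Lib.MP_06b9d2_bm
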