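import Pool.Agent.Lib.MP_06b9d2_bm.DefsG
import Pool.Agent.Lib.MP_06b9d2_bm.KerD
import Pool.Agent.Lib.MP_06b9d2_tls.Ker

/-!
Module BM-GKe. From the matrix to the space of cusp forms, for general operators.

`ker_gen`: copy of the proof of `ker_D` (`MP_06b9d2_bm/KerD.lean`): `TN n k` becomes `T'`, `q_TN` becomes `hT`, `InjD` becomes `InjAt` (only the eigenvalue `lam` is used).
`mult_two`: as `mult_D` there. `mult_three`: as `ker_le` (`MP_06b9d2_tls/Ker.lean`): `N = k / 3`, `ε = k % 3`, and the trivial bound for small `N` as in `mult_D` (`rep` gives `4 j ≤ N` for `1 ≤ j < dd k`).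
`q_word`, `q_sum`: induction on the list with `q_TN` (`MP_06b9d2_tln/KerN.lean`); `qExpansion 1` is additive and homogeneous on cusp forms (`Phi_ex`: `qExpansion 1 f = ∑ Φ f j • bas ℂ k (j + 1)`, as in the proof of `ker_D`), then induction over the finite set.
`kerW_scale`: `∑ (c z w) T_w = c ∑ z w T_w`, so the eigenspace of `∑ z w T_w` for `lam` is the one of `∑ (c z w) T_w` for `c lam`.
-/

namespace Pool.Agent.Lib.MP_06b9d2_bm

open PowerSeries Pool.Agent.L1 UpperHalfPlane Pool.Agent.Lib.MP_06b9d2_nt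
open Pool.Agent.Lib.MP_06b9d2_tln (TN Mt Rp Sy act)
open Pool.Agent.Lib.MP_06b9d2_tls (Lv2 mo2)
open Pool.Agent.Lib.MP_06b9d2_ssp (Lv mo)
open scoped MatrixGroups ModularForm

theorem ker_gen (k N D : ℕ) (mo : ℕ → ℂ⟦X⟧) (M : Mt N) (T' : ℂ⟦X⟧ →ₗ[ℂ] ℂ⟦X⟧) (hR : Rp mo T' M) (hS : Sy M)
    (lam : ℂ) (hI : InjAt N D M lam)
    (ind : ∀ x : ℕ → ℂ, ∑ s ∈ Finset.range (N + 1), x s • mo s = 0 → ∀ s ≤ N, x s = 0)
    (rep : ∀ j, 1 ≤ j → j < dd k → ∃ y : ℕ → ℂ,
      (∀ s, s < j → y s = 0) ∧ y j ≠ 0 ∧ (∀ s, N - 2 * j < s → y s = 0) ∧ 2 * j ≤ N ∧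
        bas ℂ k j = ∑ s ∈ Finset.range (N + 1), y s • mo s)
    (T : CuspForm 𝒮ℒ (k : ℤ) →ₗ[ℂ] CuspForm 𝒮ℒ (k : ℤ))
    (hT : ∀ f, qExpansion 1 (T f) = T' (qExpansion 1 f)) :
    Module.finrank ℂ (LinearMap.ker (T - lam • LinearMap.id)) ≤ D := by
  obtain ⟨Φ, hΦb, hΦ⟩ := Pool.Agent.Lib.MP_06b9d2_nt.MU.Phi_ex k
  have hrep : ∀ j : Fin (dd k - 1), ∃ y : ℕ → ℂ,
      (∀ s, s < (j : ℕ) + 1 → y s = 0) ∧ y ((j : ℕ) + 1) ≠ 0 ∧
      (∀ s, N - 2 * ((j : ℕ) + 1) < s → y s = 0) ∧ 2 * ((j : ℕ) + 1) ≤ N ∧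
      bas ℂ k ((j : ℕ) + 1) = ∑ s ∈ Finset.range (N + 1), y s • mo s := by
    intro j
    exact rep ((j : ℕ) + 1) (by omega) (by have := j.2; omega)
  choose y hy1 hy2 hy3 hy4 hy5 using hrep
  -- the coordinate map
  let X : CuspForm 𝒮ℒ (k : ℤ) →ₗ[ℂ] (ℕ → ℂ) :=
    ∑ j : Fin (dd k - 1), ((LinearMap.proj j : (Fin (dd k - 1) → ℂ) →ₗ[ℂ] ℂ) ∘ₗ Φ).smulRight (y j)
  have hXs : ∀ f s, X f s = ∑ j, Φ f j * y j s := by
    intro f s
    simp only [X, LinearMap.sum_apply, LinearMap.smulRight_apply, LinearMap.comp_apply,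
      LinearMap.proj_apply, Finset.sum_apply, Pi.smul_apply, smul_eq_mul]
  have hXq : ∀ f : CuspForm 𝒮ℒ (k : ℤ),
      qExpansion 1 f = ∑ s ∈ Finset.range (N + 1), X f s • mo s := by
    intro f
    rw [hΦ f]
    calc ∑ j, Φ f j • bas ℂ k ((j : ℕ) + 1)
        = ∑ j, ∑ s ∈ Finset.range (N + 1), (Φ f j * y j s) • mo s := by
          refine Finset.sum_congr rfl fun j _ => ?_
          rw [hy5 j, Finset.smul_sum]
          refine Finset.sum_congr rfl fun s _ => ?_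
          rw [smul_smul]
      _ = ∑ s ∈ Finset.range (N + 1), X f s • mo s := by
          rw [Finset.sum_comm]
          refine Finset.sum_congr rfl fun s _ => ?_
          rw [hXs, Finset.sum_smul]
  have lead : ∀ f, f ≠ 0 → ∃ p, 1 ≤ p ∧ 2 * p ≤ N ∧ (∀ s, s < p → X f s = 0) ∧ X f p ≠ 0 ∧
      ∀ s, N - 2 * p < s → X f s = 0 := by
    intro f hf
    have hne : Φ f ≠ 0 := by
      intro h0
      apply hf
      apply hΦb.1
      rw [h0, map_zero]
    have hS : (Finset.univ.filter fun j : Fin (dd k - 1) => Φ f j ≠ 0).Nonempty := by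
      by_contra hS
      rw [Finset.not_nonempty_iff_eq_empty] at hS
      apply hne
      funext j
      by_contra hj
      have : j ∈ (Finset.univ.filter fun j : Fin (dd k - 1) => Φ f j ≠ 0) := by
        simp only [Finset.mem_filter, Finset.mem_univ, true_and]
        exact hj
      rw [hS] at this
      simp at this
    obtain ⟨j0, hj0, hmin⟩ := Finset.exists_min_image _ (fun j : Fin (dd k - 1) => (j : ℕ)) hS
    have hj0' : Φ f j0 ≠ 0 := by simpa using hj0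
    have hlt : ∀ j : Fin (dd k - 1), (j : ℕ) < j0 → Φ f j = 0 := by
      intro j hj
      by_contra hj'
      have := hmin j (by simpa using hj')
      omega
    have h4 := hy4 j0
    refine ⟨(j0 : ℕ) + 1, by omega, by omega, ?_, ?_, ?_⟩
    · intro s hs
      rw [hXs]
      refine Finset.sum_eq_zero fun j _ => ?_
      rcases lt_or_ge (j : ℕ) (j0 : ℕ) with hj | hj
      · rw [hlt j hj, zero_mul]
      · rw [hy1 j s (by omega), mul_zero]
    · rw [hXs, Finset.sum_eq_single j0]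
      · exact mul_ne_zero hj0' (hy2 j0)
      · intro j _ hj
        rcases lt_or_ge (j : ℕ) (j0 : ℕ) with hj1 | hj1
        · rw [hlt j hj1, zero_mul]
        · have : (j : ℕ) ≠ j0 := fun hh => hj (Fin.ext hh)
          rw [hy1 j _ (by omega), mul_zero]
      · intro hj
        exact absurd (Finset.mem_univ _) hj
    · intro s hs
      rw [hXs]
      refine Finset.sum_eq_zero fun j _ => ?_
      rcases lt_or_ge (j : ℕ) (j0 : ℕ) with hj | hj
      · rw [hlt j hj, zero_mul]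
      · rw [hy3 j s (by omega), mul_zero]
  -- eigenvectors
  have hEg : ∀ f, T f = lam • f → ∀ j : Fin (N + 1),
      ∑ s : Fin (N + 1), M j s * X f (s : ℕ) = lam * X f (j : ℕ) := by
    intro f hf
    have h1 : T' (qExpansion 1 f) = lam • qExpansion 1 f := by
      rw [← hT f, hf, hΦ (lam • f), hΦ f, map_smul,
        Finset.smul_sum]
      refine Finset.sum_congr rfl fun j _ => ?_
      rw [Pi.smul_apply, smul_eq_mul, mul_smul]
    rw [hXq f, map_sum, Finset.sum_range (fun s => T' (X f s • mo s))] at h1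
    simp only [map_smul] at h1
    have h2 : ∑ s : Fin (N + 1), X f (s : ℕ) • T' (mo (s : ℕ)) =
        ∑ j : Fin (N + 1), (∑ s : Fin (N + 1), M j s * X f (s : ℕ)) • mo (j : ℕ) := by
      calc ∑ s : Fin (N + 1), X f (s : ℕ) • T' (mo (s : ℕ))
          = ∑ s : Fin (N + 1), ∑ j : Fin (N + 1), (M j s * X f (s : ℕ)) • mo (j : ℕ) := by
            refine Finset.sum_congr rfl fun s _ => ?_
            rw [hR s, Finset.smul_sum]
            refine Finset.sum_congr rfl fun j _ => ?_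
            rw [smul_smul, mul_comm]
        _ = _ := by
            rw [Finset.sum_comm]
            refine Finset.sum_congr rfl fun j _ => ?_
            rw [← Finset.sum_smul]
    rw [h2] at h1
    have h3 : ∑ j ∈ Finset.range (N + 1), ((∑ s : Fin (N + 1),
        (if h : j < N + 1 then M ⟨j, h⟩ s else 0) * X f (s : ℕ)) - lam * X f j) • mo j = 0 := by
      simp only [sub_smul]
      rw [Finset.sum_sub_distrib, sub_eq_zero]
      rw [Finset.sum_range (fun j => (∑ s : Fin (N + 1),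
        (if h : j < N + 1 then M ⟨j, h⟩ s else 0) * X f (s : ℕ)) • mo j)]
      have h4 : ∑ j : Fin (N + 1), (∑ s : Fin (N + 1),
          (if h : (j : ℕ) < N + 1 then M ⟨j, h⟩ s else 0) * X f (s : ℕ)) • mo (j : ℕ) =
          ∑ j : Fin (N + 1), (∑ s : Fin (N + 1), M j s * X f (s : ℕ)) • mo (j : ℕ) := by
        refine Finset.sum_congr rfl fun j _ => ?_
        congr 1
        refine Finset.sum_congr rfl fun s _ => ?_
        rw [dif_pos j.2]
      rw [h4, h1, Finset.smul_sum]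
      refine Finset.sum_congr rfl fun j _ => ?_
      rw [smul_smul]
    have h4 := ind _ h3
    intro j
    have h5 := sub_eq_zero.mp (h4 (j : ℕ) (Nat.lt_succ_iff.1 j.2))
    rw [← h5]
    refine Finset.sum_congr rfl fun s _ => ?_
    rw [dif_pos j.2]
  have hrev : ∀ s : Fin (N + 1), ((Fin.rev s : Fin (N + 1)) : ℕ) = N - (s : ℕ) := by
    intro s
    rw [Fin.val_rev]
    omega
  -- the moments
  let L : LinearMap.ker (T - lam • LinearMap.id) →ₗ[ℂ] (Fin D → ℂ) :=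
    { toFun := fun f i => ∑ s : Fin (N + 1), (X f.1 (s : ℕ) + X f.1 (N - (s : ℕ))) * qv N s ^ (i : ℕ)
      map_add' := by
        intro f g
        funext i
        show ∑ s : Fin (N + 1), (X (f.1 + g.1) (s : ℕ) + X (f.1 + g.1) (N - (s : ℕ))) * qv N s ^ (i : ℕ) =
          ∑ s : Fin (N + 1), (X f.1 (s : ℕ) + X f.1 (N - (s : ℕ))) * qv N s ^ (i : ℕ) +
          ∑ s : Fin (N + 1), (X g.1 (s : ℕ) + X g.1 (N - (s : ℕ))) * qv N s ^ (i : ℕ)
        rw [← Finset.sum_add_distrib]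
        refine Finset.sum_congr rfl fun s _ => ?_
        rw [map_add, Pi.add_apply, Pi.add_apply]
        ring
      map_smul' := by
        intro c f
        funext i
        show ∑ s : Fin (N + 1), (X (c • f.1) (s : ℕ) + X (c • f.1) (N - (s : ℕ))) * qv N s ^ (i : ℕ) =
          c * ∑ s : Fin (N + 1), (X f.1 (s : ℕ) + X f.1 (N - (s : ℕ))) * qv N s ^ (i : ℕ)
        rw [Finset.mul_sum]
        refine Finset.sum_congr rfl fun s _ => ?_
        rw [map_smul, Pi.smul_apply, Pi.smul_apply, smul_eq_mul, smul_eq_mul]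
        ring }
  have hL : ∀ f i, L f i =
      ∑ s : Fin (N + 1), (X f.1 (s : ℕ) + X f.1 (N - (s : ℕ))) * qv N s ^ (i : ℕ) := fun f i => rfl
  have hLinj : Function.Injective L := by
    rw [← LinearMap.ker_eq_bot, LinearMap.ker_eq_bot']
    intro f hf
    by_contra hne
    have hf0 : f.1 ≠ 0 := fun h => hne (Subtype.ext h)
    have hTf : T f.1 = lam • f.1 := by
      have h1 := LinearMap.mem_ker.1 f.2
      rw [LinearMap.sub_apply, LinearMap.smul_apply, LinearMap.id_apply, sub_eq_zero] at h1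
      exact h1
    obtain ⟨p, hp1, hp2, _, hp3, hp4⟩ := lead f.1 hf0
    have hE := hEg f.1 hTf
    have hz := hI (fun s => X f.1 (s : ℕ) + X f.1 (N - (s : ℕ))) (by
      intro s
      have hs : (s : ℕ) ≤ N := Nat.lt_succ_iff.1 s.2
      simp only [hrev]
      rw [Nat.sub_sub_self hs, add_comm]) (by
      funext j
      rw [Matrix.mulVec, dotProduct, Pi.smul_apply, smul_eq_mul]
      simp only [mul_add]
      rw [Finset.sum_add_distrib, hE j]
      congr 1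
      have h1 := hE (Fin.rev j)
      rw [hrev] at h1
      rw [← h1, ← Equiv.sum_comp Fin.revPerm]
      refine Finset.sum_congr rfl fun s _ => ?_
      have hs : (s : ℕ) ≤ N := Nat.lt_succ_iff.1 s.2
      rw [Fin.revPerm_apply, hrev, Nat.sub_sub_self hs]
      have h2 := hS (Fin.rev j) s
      rw [Fin.rev_rev] at h2
      rw [h2]) (by
      intro i hi
      have h1 := congrFun hf ⟨i, hi⟩
      rw [hL] at h1
      exact h1)
    have h1 := congrFun hz ⟨p, by omega⟩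
    have h2 : X f.1 p + X f.1 (N - p) = 0 := h1
    rw [hp4 (N - p) (by omega), add_zero] at h2
    exact hp3 h2
  have := fin_cusp (k : ℤ)
  have h1 := LinearMap.finrank_le_finrank_of_injective hLinj
  rwa [Module.finrank_fin_fun] at h1

theorem mult_two (D N₀ : ℕ) (hD : N₀ ≤ D) {a g : ℂ⟦X⟧} (h : Lv2 a g) (T' : ℕ → (ℂ⟦X⟧ →ₗ[ℂ] ℂ⟦X⟧))
    (hM : ∀ e N : ℕ, e ≤ 1 → N₀ ≤ N → ∃ M : Mt N, Rp (mo2 a g e N) (T' (4 * N + 2 * e)) M ∧ Sy M ∧
      ∀ lam, InjAt N D M lam)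
    (k : ℕ) (hk : Even k) (T : CuspForm 𝒮ℒ (k : ℤ) →ₗ[ℂ] CuspForm 𝒮ℒ (k : ℤ))
    (hT : ∀ f, qExpansion 1 (T f) = T' k (qExpansion 1 f)) (lam : ℂ) :
    Module.finrank ℂ (LinearMap.ker (T - lam • LinearMap.id)) ≤ D := by
  obtain ⟨Φ, hΦb, hΦ⟩ := Pool.Agent.Lib.MP_06b9d2_nt.MU.Phi_ex k
  by_cases hd : dd k = 0
  · have : Subsingleton (CuspForm 𝒮ℒ (k : ℤ)) := by
      have : IsEmpty (Fin (dd k - 1)) := by
        rw [hd]
        exact Fin.isEmpty'
      exact hΦb.1.subsingleton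
    rw [Module.finrank_zero_of_subsingleton]
    exact Nat.zero_le _
  have hj := ba_eq (Nat.pos_of_ne_zero hd)
  obtain ⟨N, hN⟩ : ∃ N, N = ba k 0 + bb k := ⟨_, rfl⟩
  have hk4 : 4 * N + 2 * bb k = k := by omega
  by_cases hN0 : N₀ ≤ N
  · obtain ⟨M, hR, hS, h2⟩ := hM (bb k) N (bb_le_one k) hN0
    rw [hk4] at hR
    refine ker_gen k N D (mo2 a g (bb k) N) M (T' k) hR hS lam (h2 lam)
      (fun x hx => Pool.Agent.Lib.MP_06b9d2_tls.ind2 h _ N x hx) ?_ T hT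
    intro j _ hj
    obtain ⟨y, y1, y2, y3, y4, y5⟩ := Pool.Agent.Lib.MP_06b9d2_tls.rep2 h k N j hk4 hj
    exact ⟨y, y1, y2, fun s hs => y3 s (by omega), by omega, y5⟩
  · -- few cusp forms
    have hdk : dd k - 1 ≤ N := by
      rcases Nat.lt_or_ge (dd k) 2 with h2 | h2
      · omega
      · obtain ⟨_, _, _, _, y4, _⟩ := Pool.Agent.Lib.MP_06b9d2_tls.rep2 h k N (dd k - 1) hk4 (by omega)
        omega
    have := fin_cusp (k : ℤ)
    have h1 : Module.finrank ℂ (CuspForm 𝒮ℒ (k : ℤ)) ≤ dd k - 1 := by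
      have h2 := LinearMap.finrank_le_finrank_of_injective hΦb.1
      rwa [Module.finrank_fin_fun] at h2
    have h3 := Submodule.finrank_le (LinearMap.ker (T - lam • LinearMap.id))
    omega

theorem mult_three (D N₀ : ℕ) (hD : N₀ ≤ D) {a c : ℂ⟦X⟧} (h : Lv a c) (T' : ℕ → (ℂ⟦X⟧ →ₗ[ℂ] ℂ⟦X⟧))
    (hM : ∀ ε N : ℕ, ε ≤ 2 → Even (N + ε) → N₀ ≤ N → ∃ M : Mt N, Rp (mo a c ε N) (T' (3 * N + ε)) M ∧ Sy M ∧
      ∀ lam, InjAt N D M lam)
    (k : ℕ) (hk : Even k) (T : CuspForm 𝒮ℒ (k : ℤ) →ₗ[ℂ] CuspForm 𝒮ℒ (k : ℤ))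
    (hT : ∀ f, qExpansion 1 (T f) = T' k (qExpansion 1 f)) (lam : ℂ) :
    Module.finrank ℂ (LinearMap.ker (T - lam • LinearMap.id)) ≤ D := by
  obtain ⟨Φ, hΦb, hΦ⟩ := Pool.Agent.Lib.MP_06b9d2_nt.MU.Phi_ex k
  obtain ⟨N, hN⟩ : ∃ N, N = k / 3 := ⟨_, rfl⟩
  obtain ⟨e, he⟩ : ∃ e, e = k % 3 := ⟨_, rfl⟩
  have hk3 : 3 * N + e = k := by omega
  have he2 : e ≤ 2 := by omega
  have hev : Even (N + e) := by
    rw [Nat.even_iff] at hk ⊢
    omega
  by_cases hN0 : N₀ ≤ N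
  · obtain ⟨M, hR, hS, h2⟩ := hM e N he2 hev hN0
    rw [hk3] at hR
    refine ker_gen k N D (mo a c e N) M (T' k) hR hS lam (h2 lam)
      (fun x hx => Pool.Agent.Lib.MP_06b9d2_ssp.ind h e N x hx) ?_ T hT
    intro j _ hj
    obtain ⟨y, y1, y2, y3, y4, y5⟩ := Pool.Agent.Lib.MP_06b9d2_ssp.rep h k j hj
    rw [← hN] at y3 y4 y5
    rw [← he] at y5
    exact ⟨y, y1, y2, fun s hs => y3 s (by omega), by omega, y5⟩
  · -- few cusp forms
    have hdk : dd k - 1 ≤ N := by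
      rcases Nat.lt_or_ge (dd k) 2 with h2 | h2
      · omega
      · obtain ⟨_, _, _, _, y4, _⟩ := Pool.Agent.Lib.MP_06b9d2_ssp.rep h k (dd k - 1) (by omega)
        omega
    have := fin_cusp (k : ℤ)
    have h1 : Module.finrank ℂ (CuspForm 𝒮ℒ (k : ℤ)) ≤ dd k - 1 := by
      have h2 := LinearMap.finrank_le_finrank_of_injective hΦb.1
      rwa [Module.finrank_fin_fun] at h2
    have h3 := Submodule.finrank_le (LinearMap.ker (T - lam • LinearMap.id))
    omega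

theorem q_word (k : ℕ) (T : ℕ → CuspForm 𝒮ℒ (k : ℤ) →ₗ[ℂ] CuspForm 𝒮ℒ (k : ℤ)) (w : List ℕ)
    (hw : ∀ n ∈ w, n ≠ 0 ∧ IsHecke (k : ℤ) n (T n)) (f : CuspForm 𝒮ℒ (k : ℤ)) :
    qExpansion 1 ((w.map fun n => (T n : Module.End ℂ (CuspForm 𝒮ℒ (k : ℤ)))).prod f) =
      WT k w (qExpansion 1 f) := by
  induction w with
  | nil => rfl
  | cons n w ih =>
    have h1 := ih (fun m hm => hw m (List.mem_cons_of_mem _ hm))
    have h2 := hw n List.mem_cons_self
    have e : WT k (n :: w) (qExpansion 1 f) = TN n k (WT k w (qExpansion 1 f)) := by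
      unfold WT
      rw [List.map_cons, List.prod_cons]
      rfl
    rw [List.map_cons, List.prod_cons, e, ← h1]
    exact Pool.Agent.Lib.MP_06b9d2_tln.q_TN k n h2.1 (T n) h2.2 _

theorem q_sum (k : ℕ) (T : ℕ → CuspForm 𝒮ℒ (k : ℤ) →ₗ[ℂ] CuspForm 𝒮ℒ (k : ℤ)) (s : Finset (List ℕ))
    (z : List ℕ → ℂ) (hw : ∀ w ∈ s, ∀ n ∈ w, n ≠ 0 ∧ IsHecke (k : ℤ) n (T n)) (f : CuspForm 𝒮ℒ (k : ℤ)) :
    qExpansion 1 ((∑ w ∈ s, z w • (w.map fun n =>
      (T n : Module.End ℂ (CuspForm 𝒮ℒ (k : ℤ)))).prod) f) = ST k s z (qExpansion 1 f) := by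
  obtain ⟨Φ, _, hΦ⟩ := Pool.Agent.Lib.MP_06b9d2_nt.MU.Phi_ex k
  let Q : CuspForm 𝒮ℒ (k : ℤ) →ₗ[ℂ] ℂ⟦X⟧ :=
    ∑ j : Fin (dd k - 1), ((LinearMap.proj j : (Fin (dd k - 1) → ℂ) →ₗ[ℂ] ℂ) ∘ₗ Φ).smulRight
      (bas ℂ k ((j : ℕ) + 1))
  have hQ : ∀ g : CuspForm 𝒮ℒ (k : ℤ), qExpansion 1 g = Q g := by
    intro g
    rw [hΦ g]
    simp only [Q, LinearMap.sum_apply, LinearMap.smulRight_apply, LinearMap.comp_apply,
      LinearMap.proj_apply]
  unfold ST
  rw [LinearMap.sum_apply, LinearMap.sum_apply, hQ, map_sum]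
  refine Finset.sum_congr rfl fun w hw' => ?_
  rw [LinearMap.smul_apply, LinearMap.smul_apply, map_smul, ← hQ, q_word k T w (hw w hw') f]

theorem kerW_scale {s : Finset (List ℕ)} {z : List ℕ → ℂ} {B : ℕ} (c : ℂ) (hc : c ≠ 0)
    (H : KerW s (fun w => c * z w) B) : KerW s z B := by
  intro k hk T hT lam
  have h1 := H k hk T hT (c * lam)
  have e : (∑ w ∈ s, (c * z w) • (w.map fun n =>
      (T n : Module.End ℂ (CuspForm 𝒮ℒ (k : ℤ)))).prod) - (c * lam) • LinearMap.id =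
      c • ((∑ w ∈ s, z w • (w.map fun n =>
      (T n : Module.End ℂ (CuspForm 𝒮ℒ (k : ℤ)))).prod) - lam • LinearMap.id) := by
    rw [smul_sub, Finset.smul_sum, smul_smul]
    congr 1
    refine Finset.sum_congr rfl fun w _ => ?_
    rw [smul_smul]
  have h2 : LinearMap.ker ((∑ w ∈ s, (c * z w) • (w.map fun n =>
      (T n : Module.End ℂ (CuspForm 𝒮ℒ (k : ℤ)))).prod) - (c * lam) • LinearMap.id) =
      LinearMap.ker ((∑ w ∈ s, z w • (w.map fun n =>
      (T n : Module.End ℂ (CuspForm 𝒮ℒ (k : ℤ)))).prod) - lam • LinearMap.id) := by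
    rw [e]
    exact LinearMap.ker_smul _ c hc
  rw [h2] at h1
  exact h1

end Pool.Agent.Lib.MP_06b9d2_bm
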