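import Pool.Agent.Lib.MP_06b9d2_bm.Defs

/-!
Module BM-Nt. The valuation of `∏_{j ≤ R, j ≠ j₀} (q(j₀) - q(j))`, `q(s) = s ^ 2 - N s`.

`p` is a prime number with `v(p) < 1`, so `v(m) = 1` for integers `m` prime to `p`, `v(m) > v(p ^ e)` for integers `m` with `p ^ e ∤ m`, and `v(m) ≥ v(p ^ a)` if `p ^ (a + 1) ∤ m`.
`v_fac`: `v(m!) ≥ v(p ^ m)` (`p ^ (m + 1) ∤ m!`: `Nat.Prime.emultiplicity_factorial` / `sub_one_mul_padicValNat_factorial`, or induction).
`v_run`: let `x₀ = x mod p ^ e` (`0 ≤ x₀ < p ^ e`, a natural number). `v(x - j) = v(x₀ - j)` for `j ≤ R` as `p ^ e ∤ x₀ - j`. `x₀ ≠ j` for `j ≤ R`, so `x₀ > R`, and `∏_{j ≤ R} (x₀ - j) = x₀.descFactorial (R + 1) = (R + 1)! x₀.choose (R + 1)`.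
`v(choose) ≥ v(p ^ e)`: `Nat.factorization_choose_le_log` and `log_p x₀ < e`; `v((R + 1)!) ≥ v(p ^ (R + 1))`.
`v_F`: `q(j₀) - q(j) = (j₀ - j) (j₀ + j - N)`; `∏_{j ≤ R, j ≠ j₀} (j₀ - j) = ± j₀! (R - j₀)!`, valuation `≥ v(p ^ j₀) v(p ^ (R - j₀))`; `∏_{j ≤ R, j ≠ j₀} (j₀ + j - N)` has valuation at least that of the product over all `j ≤ R` (the factor at `j₀` is an integer),
which is `v_run` with `x = N - j₀`.
-/

namespace Pool.Agent.Lib.MP_06b9d2_bm

variable {O : ValuationSubring ℂ} {p : ℕ}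

private theorem Nt_int (O : ValuationSubring ℂ) (n : ℤ) : O.valuation (n : ℂ) ≤ 1 :=
  (O.valuation_le_one_iff _).2 (intCast_mem O n)

private theorem Nt_p0 (hp : p.Prime) : O.valuation (p : ℂ) ≠ 0 := by
  rw [Valuation.ne_zero_iff]
  exact_mod_cast hp.ne_zero

private theorem Nt_unit (hp : p.Prime) (h : O.valuation (p : ℂ) < 1) (m : ℤ) (hm : ¬ ((p : ℤ) ∣ m)) :
    O.valuation (m : ℂ) = 1 := by
  refine le_antisymm (Nt_int O m) (not_lt.1 fun hlt => ?_)
  have hc : IsCoprime (p : ℤ) m := by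
    rw [Int.isCoprime_iff_gcd_eq_one]
    have hpp : Prime (p : ℤ) := Nat.prime_iff_prime_int.1 hp
    exact Int.isCoprime_iff_gcd_eq_one.1 ((Prime.coprime_iff_not_dvd hpp).2 hm)
  obtain ⟨a, b, hab⟩ := hc
  have h1 : ((a : ℂ) * (p : ℂ) + (b : ℂ) * (m : ℂ)) = 1 := by exact_mod_cast hab
  have h2 : O.valuation ((a : ℂ) * (p : ℂ) + (b : ℂ) * (m : ℂ)) < 1 := by
    refine Valuation.map_add_lt _ ?_ ?_
    · rw [map_mul]
      exact mul_lt_one_of_nonneg_of_lt_one_right (Nt_int O a) zero_le h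
    · rw [map_mul]
      exact mul_lt_one_of_nonneg_of_lt_one_right (Nt_int O b) zero_le hlt
  rw [h1, map_one] at h2
  exact lt_irrefl _ h2

private theorem Nt_lb (hp : p.Prime) (h : O.valuation (p : ℂ) < 1) (a : ℕ) :
    ∀ m : ℤ, ¬ ((p : ℤ) ^ (a + 1) ∣ m) → O.valuation ((p : ℂ) ^ a) ≤ O.valuation (m : ℂ) := by
  induction a with
  | zero =>
    intro m hm
    rw [Nt_unit hp h m (by simpa using hm)]
    simp
  | succ a ih =>
    intro m hm
    by_cases hd : (p : ℤ) ∣ m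
    · obtain ⟨m', rfl⟩ := hd
      have h1 : ¬ ((p : ℤ) ^ (a + 1) ∣ m') := fun hh => hm (by
        rw [pow_succ']
        exact mul_dvd_mul_left _ hh)
      have h2 := ih m' h1
      rw [pow_succ', map_mul]
      push_cast
      rw [map_mul]
      exact mul_le_mul' le_rfl h2
    · rw [Nt_unit hp h m hd, map_pow]
      exact pow_le_one' h.le _

theorem v_fac (hp : p.Prime) (h : O.valuation (p : ℂ) < 1) (m : ℕ) :
    O.valuation ((p : ℂ) ^ m) ≤ O.valuation ((m.factorial : ℕ) : ℂ) := by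
  have h1 : ¬ ((p : ℤ) ^ (m + 1) ∣ ((m.factorial : ℕ) : ℤ)) := by
    intro hd
    have hd' : p ^ (m + 1) ∣ m.factorial := by exact_mod_cast hd
    have : Fact p.Prime := ⟨hp⟩
    have h2 : m + 1 ≤ padicValNat p m.factorial :=
      (padicValNat_dvd_iff_le m.factorial_ne_zero).1 hd'
    have h3 : (p - 1) * padicValNat p m.factorial ≤ m := by
      rw [sub_one_mul_padicValNat_factorial]
      exact Nat.sub_le _ _
    have h4 : 1 ≤ p - 1 := by have := hp.two_le; omega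
    have h5 : padicValNat p m.factorial ≤ (p - 1) * padicValNat p m.factorial :=
      Nat.le_mul_of_pos_left _ h4
    omega
  have h2 := Nt_lb hp h m _ h1
  simpa using h2

private theorem Nt_lt (hp : p.Prime) (h : O.valuation (p : ℂ) < 1) (e : ℕ) (m : ℤ)
    (hm : ¬ ((p : ℤ) ^ e ∣ m)) : O.valuation ((p : ℂ) ^ e) < O.valuation (m : ℂ) := by
  obtain _ | e := e
  · exact absurd (by simp) hm
  · refine lt_of_lt_of_le ?_ (Nt_lb hp h e m hm)
    rw [pow_succ, map_mul]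
    have h1 : O.valuation ((p : ℂ) ^ e) ≠ 0 := by
      rw [map_pow]
      exact pow_ne_zero _ (Nt_p0 hp)
    calc O.valuation ((p : ℂ) ^ e) * O.valuation (p : ℂ) < O.valuation ((p : ℂ) ^ e) * 1 := by
          exact (mul_lt_mul_iff_right₀ (zero_lt_iff.2 h1)).2 h
      _ = _ := mul_one _

theorem v_run (hp : p.Prime) (h : O.valuation (p : ℂ) < 1) (e R : ℕ) (x : ℤ)
    (hx : ∀ j : ℕ, j ≤ R → ¬ ((p : ℤ) ^ e ∣ x - j)) :
    O.valuation ((p : ℂ) ^ (R + 1 + e)) ≤ O.valuation (∏ j ∈ Finset.range (R + 1), ((x : ℂ) - (j : ℂ))) := by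
  have hpe : (0 : ℤ) < (p : ℤ) ^ e := pow_pos (by exact_mod_cast hp.pos) _
  obtain ⟨y, hy⟩ : ∃ y : ℕ, (y : ℤ) = x % (p : ℤ) ^ e := ⟨(x % (p : ℤ) ^ e).toNat, by
    rw [Int.toNat_of_nonneg (Int.emod_nonneg _ hpe.ne')]⟩
  have hylt : y < p ^ e := by
    have := Int.emod_lt_of_pos x hpe
    rw [← hy] at this
    exact_mod_cast this
  obtain ⟨k, hk⟩ : ∃ k : ℤ, x = y + (p : ℤ) ^ e * k := ⟨x / (p : ℤ) ^ e, by
    rw [hy]; exact (Int.emod_add_mul_ediv x ((p : ℤ) ^ e)).symm⟩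
  have hyR : R < y := by
    by_contra hc
    exact hx y (not_lt.1 hc) ⟨k, by rw [hk]; ring⟩
  have hterm : ∀ j ∈ Finset.range (R + 1), O.valuation ((x : ℂ) - (j : ℂ)) = O.valuation ((y : ℂ) - (j : ℂ)) := by
    intro j hj
    have hj' : j ≤ R := Nat.lt_succ_iff.1 (Finset.mem_range.1 hj)
    have h1 : ¬ ((p : ℤ) ^ e ∣ (y : ℤ) - j) := by
      intro hd
      refine hx j hj' ?_
      have : x - j = (y - j) + (p : ℤ) ^ e * k := by rw [hk]; ring
      rw [this]
      exact dvd_add hd (dvd_mul_right _ _)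
    have h2 := Nt_lt (O := O) hp h e _ h1
    have h3 : O.valuation ((p : ℂ) ^ e * (k : ℂ)) < O.valuation ((y : ℂ) - (j : ℂ)) := by
      rw [map_mul]
      refine lt_of_le_of_lt (mul_le_of_le_one_right' (Nt_int O k)) ?_
      simpa using h2
    have h4 : (x : ℂ) - (j : ℂ) = ((y : ℂ) - (j : ℂ)) + (p : ℂ) ^ e * (k : ℂ) := by
      have : (x : ℂ) = (y : ℂ) + (p : ℂ) ^ e * (k : ℂ) := by exact_mod_cast congrArg (Int.cast : ℤ → ℂ) hk
      rw [this]; ring
    rw [h4]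
    exact Valuation.map_add_eq_of_lt_left _ h3
  have hprod : O.valuation (∏ j ∈ Finset.range (R + 1), ((x : ℂ) - (j : ℂ))) =
      O.valuation ((((R + 1).factorial * y.choose (R + 1) : ℕ)) : ℂ) := by
    rw [map_prod, Finset.prod_congr rfl hterm, ← map_prod, ← Nat.descFactorial_eq_factorial_mul_choose,
      Nat.descFactorial_eq_prod_range]
    congr 1
    rw [Nat.cast_prod]
    refine Finset.prod_congr rfl fun j hj => ?_
    have : j ≤ y := by
      have := Finset.mem_range.1 hj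
      omega
    rw [Nat.cast_sub this]
  rw [hprod, Nat.cast_mul, map_mul, pow_add, map_mul]
  refine mul_le_mul' (v_fac hp h (R + 1)) ?_
  have hnd : ¬ ((p : ℤ) ^ e ∣ ((y.choose (R + 1) : ℕ) : ℤ)) := by
    intro hd
    have hd' : p ^ e ∣ y.choose (R + 1) := by exact_mod_cast hd
    have h1 : y.choose (R + 1) ≠ 0 := (Nat.choose_pos (by omega)).ne'
    have h2 : e ≤ (y.choose (R + 1)).factorization p := (hp.pow_dvd_iff_le_factorization h1).1 hd'
    have h3 := Nat.factorization_choose_le_log (p := p) (n := y) (k := R + 1)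
    have h4 : Nat.log p y < e := Nat.log_lt_of_lt_pow (by omega) hylt
    omega
  have := (Nt_lt (O := O) hp h e _ hnd).le
  simpa using this

private theorem Nt_prod (R j₀ : ℕ) (hj : j₀ ≤ R) :
    ∏ j ∈ (Finset.range (R + 1)).erase j₀, ((j₀ : ℂ) - (j : ℂ)) =
      (-1) ^ (R - j₀) * ((j₀.factorial : ℕ) : ℂ) * (((R - j₀).factorial : ℕ) : ℂ) := by
  induction R, hj using Nat.le_induction with
  | base =>
    have : (Finset.range (j₀ + 1)).erase j₀ = Finset.range j₀ := by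
      ext j
      simp only [Finset.mem_erase, Finset.mem_range]
      omega
    rw [this, Nat.sub_self, pow_zero, one_mul, Nat.factorial_zero, Nat.cast_one, mul_one]
    rw [← Finset.prod_range_add_one_eq_factorial, Nat.cast_prod, ← Finset.prod_range_reflect]
    refine Finset.prod_congr rfl fun j hj => ?_
    have := Finset.mem_range.1 hj
    rw [Nat.sub_sub, Nat.cast_sub (by omega)]
    push_cast
    ring
  | succ R hR ih =>
    have h1 : (Finset.range (R + 1 + 1)).erase j₀ = insert (R + 1) ((Finset.range (R + 1)).erase j₀) := by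
      ext j
      simp only [Finset.mem_erase, Finset.mem_range, Finset.mem_insert]
      omega
    rw [h1, Finset.prod_insert (by simp), ih]
    have h2 : R + 1 - j₀ = (R - j₀) + 1 := by omega
    rw [h2, Nat.factorial_succ, pow_succ]
    have h3 : ((R - j₀ : ℕ) : ℂ) = (R : ℂ) - j₀ := Nat.cast_sub hR
    push_cast
    rw [h3]
    ring

theorem v_F (hp : p.Prime) (h : O.valuation (p : ℂ) < 1) (N e R j₀ : ℕ) (hj : j₀ ≤ R)
    (hx : ∀ j : ℕ, j ≤ R → ¬ ((p : ℤ) ^ e ∣ (N : ℤ) - j₀ - j)) :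
    O.valuation ((p : ℂ) ^ (2 * R + 1 + e)) ≤
      O.valuation (∏ j ∈ (Finset.range (R + 1)).erase j₀, (qv N j₀ - qv N j)) := by
  have h1 : ∏ j ∈ (Finset.range (R + 1)).erase j₀, (qv N j₀ - qv N j) =
      (∏ j ∈ (Finset.range (R + 1)).erase j₀, ((j₀ : ℂ) - (j : ℂ))) *
      ∏ j ∈ (Finset.range (R + 1)).erase j₀, ((j₀ : ℂ) + (j : ℂ) - N) := by
    rw [← Finset.prod_mul_distrib]
    refine Finset.prod_congr rfl fun j _ => ?_
    unfold qv
    ring
  have hA : O.valuation ((p : ℂ) ^ R) ≤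
      O.valuation (∏ j ∈ (Finset.range (R + 1)).erase j₀, ((j₀ : ℂ) - (j : ℂ))) := by
    have hs : O.valuation ((-1 : ℂ) ^ (R - j₀)) = 1 := by
      rw [map_pow, Valuation.map_neg, map_one, one_pow]
    rw [Nt_prod R j₀ hj, map_mul, map_mul, hs, one_mul]
    have : (p : ℂ) ^ R = (p : ℂ) ^ j₀ * (p : ℂ) ^ (R - j₀) := by
      rw [← pow_add]; congr 1; omega
    rw [this, map_mul]
    exact mul_le_mul' (v_fac hp h _) (v_fac hp h _)
  have hB : O.valuation ((p : ℂ) ^ (R + 1 + e)) ≤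
      O.valuation (∏ j ∈ (Finset.range (R + 1)).erase j₀, ((j₀ : ℂ) + (j : ℂ) - N)) := by
    have h2 := v_run (O := O) hp h e R ((N : ℤ) - j₀) (fun j hj => hx j hj)
    refine h2.trans ?_
    have h3 : O.valuation (∏ j ∈ Finset.range (R + 1), ((((N : ℤ) - j₀ : ℤ) : ℂ) - (j : ℂ))) =
        ∏ j ∈ Finset.range (R + 1), O.valuation ((j₀ : ℂ) + (j : ℂ) - N) := by
      rw [map_prod]
      refine Finset.prod_congr rfl fun j _ => ?_
      rw [← Valuation.map_neg]
      congr 1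
      push_cast
      ring
    rw [h3, map_prod, ← Finset.mul_prod_erase _ _ (Finset.mem_range.2 (Nat.lt_succ_iff.2 hj))]
    refine mul_le_of_le_one_left' ?_
    have := Nt_int O ((j₀ : ℤ) + j₀ - N)
    simpa using this
  rw [h1, map_mul]
  have : (p : ℂ) ^ (2 * R + 1 + e) = (p : ℂ) ^ R * (p : ℂ) ^ (R + 1 + e) := by
    rw [← pow_add]; congr 1; omega
  rw [this, map_mul]
  exact mul_le_mul' hA hB

end Pool.Agent.Lib.MP_06b9d2_bm
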