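import Pool.Agent.Lib.MP_06b9d2_bm.Ent
import Pool.Agent.Lib.MP_06b9d2_bm.Nt

/-!
Module BM-Low. The lower bound for `A = M.vecMulLinear`, `M` the matrix of an operator with `Lw O n T`, `Λ = p ^ t`.

`low_one`: `s₀ = n j₀`, `P = ∏_{j ≤ R, j ≠ j₀} (X - C q(j))`, `q(j) = j ^ 2 - N j ∈ ℤ ⊆ O`. `evF P s = 0` for `s ≤ R`, `s ≠ j₀`, in particular at `s₀` (`j₀ < s₀ ≤ R`). `A (evF P) s₀ = ∑ j, evF P j M j s₀` `= evF P j₀ M j₀ s₀ + ∑_{j > R} …`;
`M j₀ s₀ = Λ ^ (s₀ - j₀)` (`ent_eq`), `v(evF P j₀) ≥ v(p ^ (2 R + 1 + e))` (`v_F`); for `j > R`: `v(M j s₀) ≤ v(Λ ^ (R + 1 - s₀))` (`ent_ge`), `v(evF P j) ≤ 1`. By `hR` `t (R + 1 - s₀) > t (s₀ - j₀) + 2 R + 1 + e`, so the first term has a larger valuation than the rest.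
`low_two`: put `r = p ^ e`, `R₁ = K n + e`, `j₁ = R₁ + 2`, `R₂ = K n j₁ + e`. If `low_one` does not apply to `j₀ = 1`, `R = R₁`, then `p ^ e ∣ N - 1 - j` for some `j ≤ R₁`; if it does not apply to `j₀ = j₁`, `R = R₂`, then `p ^ e ∣ N - j₁ - j'`, `j' ≤ R₂`; the difference
`j₁ + j' - 1 - j` is between `1` and `R₁ + R₂ + 1 < p ^ e`: contradiction. The exponents `w` of both cases are at most the given one (`O.valuation (p ^ w)` decreases in `w`). With `t = 6`, `K = 3` and `t = 3`, `K = 6` the condition `hR` of `low_one` holds: `hK`: `t K n j + t e ≥ …`: with `R = K n j₀ + e`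
`t (R + 1 - n j₀) > t (n j₀ - j₀) + 2 R + 1 + e` follows from `(t - 2) K ≥ 2 t`, `t ≥ 3`: left minus right `= (t - 2) R + t + t j₀ - 2 t n j₀ - 1 - e ≥ (t - 2) e - e + t - 1 > 0`.
-/

namespace Pool.Agent.Lib.MP_06b9d2_bm

open PowerSeries
open Pool.Agent.Lib.MP_06b9d2_tln (TN Mt Rp Sy act)

variable {O : ValuationSubring ℂ} {N n p : ℕ} {mo b : ℕ → ℂ⟦X⟧} {T : ℂ⟦X⟧ →ₗ[ℂ] ℂ⟦X⟧} {M : Mt N}

/-- the integer `j ^ 2 - N j` as an element of `O` -/
private noncomputable def lowQ (O : ValuationSubring ℂ) (N j : ℕ) : O := (j : O) ^ 2 - (N : O) * (j : O)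

private theorem lowQ_coe (O : ValuationSubring ℂ) (N j : ℕ) : ((lowQ O N j : O) : ℂ) = qv N j := by
  unfold lowQ qv
  push_cast
  rfl

private theorem lowQ_aeval (O : ValuationSubring ℂ) (N s : ℕ) (P : Polynomial O) :
    Polynomial.aeval (qv N s) P = ((Polynomial.eval (lowQ O N s) P : O) : ℂ) := by
  rw [← lowQ_coe O N s]
  exact Polynomial.aeval_algebraMap_apply ℂ (lowQ O N s) P

private noncomputable def lowP (O : ValuationSubring ℂ) (N R j₀ : ℕ) : Polynomial O :=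
  ∏ j ∈ (Finset.range (R + 1)).erase j₀, (Polynomial.X - Polynomial.C (lowQ O N j))

private theorem low_evF (O : ValuationSubring ℂ) (N R j₀ : ℕ) (s : Fin (N + 1)) :
    evF O N (lowP O N R j₀) s = ∏ j ∈ (Finset.range (R + 1)).erase j₀, (qv N s - qv N j) := by
  unfold evF lowP
  rw [map_prod]
  refine Finset.prod_congr rfl fun j _ => ?_
  rw [map_sub, Polynomial.aeval_X, Polynomial.aeval_C, ← lowQ_coe O N j]
  rfl

private theorem low_evF_zero (O : ValuationSubring ℂ) (N R j₀ : ℕ) (s : Fin (N + 1)) (h1 : (s : ℕ) ≤ R)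
    (h2 : (s : ℕ) ≠ j₀) : evF O N (lowP O N R j₀) s = 0 := by
  rw [low_evF]
  refine Finset.prod_eq_zero (i := (s : ℕ)) ?_ (sub_self _)
  rw [Finset.mem_erase, Finset.mem_range]
  exact ⟨h2, by omega⟩

private theorem low_evF_int (O : ValuationSubring ℂ) (N : ℕ) (P : Polynomial O) (s : Fin (N + 1)) :
    O.valuation (evF O N P s) ≤ 1 := by
  unfold evF
  rw [lowQ_aeval]
  exact O.valuation_le_one _

private theorem low_pow_le {O : ValuationSubring ℂ} {p : ℕ} (h : O.valuation (p : ℂ) < 1) {a b : ℕ}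
    (hab : a ≤ b) : O.valuation ((p : ℂ) ^ b) ≤ O.valuation ((p : ℂ) ^ a) := by
  rw [map_pow, map_pow]
  exact pow_le_pow_right_of_le_one' h.le hab

private theorem low_pow_lt {O : ValuationSubring ℂ} {p : ℕ} (hp : p.Prime) (h : O.valuation (p : ℂ) < 1)
    {a b : ℕ} (hab : a < b) : O.valuation ((p : ℂ) ^ b) < O.valuation ((p : ℂ) ^ a) := by
  rw [map_pow, map_pow]
  have h0 : O.valuation (p : ℂ) ≠ 0 := by
    rw [Valuation.ne_zero_iff]
    exact_mod_cast hp.ne_zero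
  exact pow_lt_pow_right_of_lt_one₀ (zero_lt_iff.2 h0) h hab

private theorem low_mono {A : (Fin (N + 1) → ℂ) →ₗ[ℂ] (Fin (N + 1) → ℂ)} (h : O.valuation (p : ℂ) < 1)
    {w w' : ℕ} (hw : w ≤ w') (hA : Lowb O N p w A) : Lowb O N p w' A := by
  obtain ⟨P, s, h1, h2⟩ := hA
  exact ⟨P, s, h1, (low_pow_le h hw).trans h2⟩

private theorem low_arith {t K n j₀ e : ℕ} (ht : 3 ≤ t) (hK : 2 * t ≤ (t - 2) * K) (hn : 2 ≤ n)
    (hj : 1 ≤ j₀) : t * (n * j₀ - j₀) + 2 * (K * n * j₀ + e) + 1 + e <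
      t * (K * n * j₀ + e + 1 - n * j₀) := by
  obtain ⟨u, rfl⟩ : ∃ u, t = u + 3 := ⟨t - 3, by omega⟩
  obtain ⟨a, ha⟩ : ∃ a, a = n * j₀ := ⟨_, rfl⟩
  have hKa : K * n * j₀ = K * a := by rw [ha, mul_assoc]
  rw [← ha, hKa]
  have hja : j₀ ≤ a := by rw [ha]; nlinarith
  have h2 : u + 3 - 2 = u + 1 := by omega
  rw [h2] at hK
  have hK1 : 1 ≤ K := by
    rcases Nat.eq_zero_or_pos K with h | h
    · rw [h] at hK; omega
    · exact h
  have haK : a ≤ K * a := by nlinarith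
  obtain ⟨b, hb⟩ : ∃ b, a = j₀ + b := ⟨a - j₀, by omega⟩
  obtain ⟨c, hc⟩ : ∃ c, K * a = a + c := ⟨K * a - a, by omega⟩
  have e1 : a - j₀ = b := by omega
  have e2 : K * a + e + 1 - a = c + e + 1 := by omega
  rw [e1, e2]
  have h3 : 2 * (u + 3) * a ≤ (u + 1) * (K * a) := by
    calc 2 * (u + 3) * a ≤ (u + 1) * K * a := Nat.mul_le_mul_right _ hK
      _ = (u + 1) * (K * a) := by ring
  rw [hc] at h3 ⊢
  rw [hb] at h3 ⊢
  nlinarith [Nat.zero_le (u * e), Nat.zero_le (u * j₀), Nat.zero_le u]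

theorem low_one (hp : p.Prime) (h : O.valuation (p : ℂ) < 1) (t : ℕ) (hb : Tri O ((p : ℂ) ^ t) N mo b)
    (hT : Lw O n T) (hM : Rp mo T M) (hS : Sy M) (e R j₀ : ℕ) (hj : 1 ≤ j₀) (hn : 2 ≤ n) (hjR : n * j₀ ≤ R)
    (hRN : R ≤ N) (hR : t * (n * j₀ - j₀) + 2 * R + 1 + e < t * (R + 1 - n * j₀))
    (hx : ∀ j : ℕ, j ≤ R → ¬ ((p : ℤ) ^ e ∣ (N : ℤ) - j₀ - j)) :
    Lowb O N p (t * (n * j₀ - j₀) + 2 * R + 1 + e) M.vecMulLinear := by
  classical
  have hΛ : ((p : ℂ) ^ t) ≠ 0 := pow_ne_zero _ (by exact_mod_cast hp.ne_zero)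
  have hlt : j₀ < n * j₀ := by nlinarith
  let J : Fin (N + 1) := ⟨j₀, by omega⟩
  let S : Fin (N + 1) := ⟨n * j₀, by omega⟩
  refine ⟨lowP O N R j₀, S, low_evF_zero O N R j₀ S hjR hlt.ne', ?_⟩
  have hA : (M.vecMulLinear (evF O N (lowP O N R j₀))) S =
      ∑ j : Fin (N + 1), evF O N (lowP O N R j₀) j * M j S := rfl
  rw [hA, ← Finset.add_sum_erase _ _ (Finset.mem_univ J)]
  have h1 : O.valuation ((p : ℂ) ^ (t * (n * j₀ - j₀) + 2 * R + 1 + e)) ≤
      O.valuation (evF O N (lowP O N R j₀) J * M J S) := by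
    have hM1 : M J S = ((p : ℂ) ^ t) ^ (n * j₀ - j₀) := ent_eq hb hΛ hT hM J S hj rfl
    have hv := v_F (O := O) hp h N e R j₀ (by omega) hx
    have e1 : t * (n * j₀ - j₀) + 2 * R + 1 + e = (2 * R + 1 + e) + t * (n * j₀ - j₀) := by ring
    rw [hM1, low_evF, e1, pow_add, pow_mul, map_mul, map_mul]
    exact mul_le_mul_left hv _
  have h2 : O.valuation (∑ j ∈ Finset.univ.erase J, evF O N (lowP O N R j₀) j * M j S) ≤
      O.valuation ((p : ℂ) ^ (t * (R + 1 - n * j₀))) := by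
    refine Valuation.map_sum_le _ fun j hj' => ?_
    have hjJ : (j : ℕ) ≠ j₀ := fun h' => (Finset.mem_erase.1 hj').1 (Fin.ext h')
    by_cases hjR' : (j : ℕ) ≤ R
    · rw [low_evF_zero O N R j₀ j hjR' hjJ, zero_mul, map_zero]
      exact zero_le
    · have hge := ent_ge hb hΛ hT hM hS j S (by change n * j₀ ≤ (j : ℕ); omega)
      have hge' : O.valuation (M j S) ≤ O.valuation ((p : ℂ) ^ (t * ((j : ℕ) - n * j₀))) := by
        rw [pow_mul]
        exact hge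
      rw [map_mul]
      calc O.valuation (evF O N (lowP O N R j₀) j) * O.valuation (M j S)
          ≤ 1 * O.valuation (M j S) := mul_le_mul_left (low_evF_int O N _ j) _
        _ = O.valuation (M j S) := one_mul _
        _ ≤ O.valuation ((p : ℂ) ^ (t * ((j : ℕ) - n * j₀))) := hge'
        _ ≤ O.valuation ((p : ℂ) ^ (t * (R + 1 - n * j₀))) :=
            low_pow_le h (Nat.mul_le_mul_left _ (by omega))
  have h3 := low_pow_lt (O := O) hp h hR
  have h4 : O.valuation (∑ j ∈ Finset.univ.erase J, evF O N (lowP O N R j₀) j * M j S) <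
      O.valuation (evF O N (lowP O N R j₀) J * M J S) := lt_of_le_of_lt h2 (lt_of_lt_of_le h3 h1)
  rw [Valuation.map_add_eq_of_lt_left _ h4]
  exact h1

theorem low_two (hp : p.Prime) (h : O.valuation (p : ℂ) < 1) (t K : ℕ) (ht : 3 ≤ t) (hK : 2 * t ≤ (t - 2) * K)
    (hb : Tri O ((p : ℂ) ^ t) N mo b) (hT : Lw O n T) (hM : Rp mo T M) (hS : Sy M) (hn : 2 ≤ n) (e : ℕ)
    (he : (K * n + e) + (K * n * (K * n + e + 2) + e) + 1 < p ^ e)
    (hN : K * n * (K * n + e + 2) + e ≤ N) :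
    Lowb O N p (t * (n * (K * n + e + 2) - (K * n + e + 2)) + 2 * (K * n * (K * n + e + 2) + e) + 1 + e)
      M.vecMulLinear := by
  have hK1 : 1 ≤ K := by
    rcases Nat.eq_zero_or_pos K with h' | h'
    · rw [h'] at hK; omega
    · exact h'
  have hj1 : 1 ≤ K * n + e + 2 := by omega
  have hKn : 1 ≤ K * n := by nlinarith
  by_cases hc : ∀ j : ℕ, j ≤ K * n + e → ¬ ((p : ℤ) ^ e ∣ (N : ℤ) - (1 : ℕ) - j)
  · have hA := low_arith (t := t) (K := K) (n := n) (j₀ := 1) (e := e) ht hK hn le_rfl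
    rw [mul_one, mul_one] at hA
    have hle : K * n + e ≤ K * n * (K * n + e + 2) + e := by nlinarith
    have h1 := low_one hp h t hb hT hM hS e (K * n + e) 1 le_rfl hn (by nlinarith) (by omega)
      (by rw [mul_one]; exact hA) hc
    refine low_mono h ?_ h1
    rw [mul_one]
    have h2 : n - 1 ≤ n * (K * n + e + 2) - (K * n + e + 2) := by
      obtain ⟨m, rfl⟩ : ∃ m, n = m + 1 := ⟨n - 1, by omega⟩
      have e1 : (m + 1) * (K * (m + 1) + e + 2) - (K * (m + 1) + e + 2) =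
          m * (K * (m + 1) + e + 2) := by
        rw [add_mul, one_mul, Nat.add_sub_cancel]
      rw [e1, Nat.add_sub_cancel]
      exact Nat.le_mul_of_pos_right _ (by omega)
    have h3 := Nat.mul_le_mul_left t h2
    omega
  · push Not at hc
    obtain ⟨j, hj, hdj⟩ := hc
    have hx : ∀ j' : ℕ, j' ≤ K * n * (K * n + e + 2) + e →
        ¬ ((p : ℤ) ^ e ∣ (N : ℤ) - (K * n + e + 2 : ℕ) - j') := by
      intro j' hj' hd
      have hsub := dvd_sub hdj hd
      have e1 : (N : ℤ) - (1 : ℕ) - j - ((N : ℤ) - (K * n + e + 2 : ℕ) - j') =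
          ((K * n + e + 2 : ℕ) : ℤ) + j' - 1 - j := by
        push_cast
        ring
      rw [e1] at hsub
      have hpos : (0 : ℤ) < ((K * n + e + 2 : ℕ) : ℤ) + j' - 1 - j := by
        have h5 : (j : ℤ) ≤ ((K * n + e : ℕ) : ℤ) := by exact_mod_cast hj
        push_cast at h5 ⊢
        have h6 : (0 : ℤ) ≤ j' := Int.natCast_nonneg _
        linarith
      have hle := Int.le_of_dvd hpos hsub
      have h7 : (((K * n + e) + (K * n * (K * n + e + 2) + e) + 1 : ℕ) : ℤ) < ((p ^ e : ℕ) : ℤ) := by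
        exact_mod_cast he
      have h8 : (j' : ℤ) ≤ ((K * n * (K * n + e + 2) + e : ℕ) : ℤ) := by exact_mod_cast hj'
      have h9 : (0 : ℤ) ≤ j := Int.natCast_nonneg _
      push_cast at h7 h8 hle
      linarith
    have hnj : n * (K * n + e + 2) ≤ K * n * (K * n + e + 2) + e :=
      (Nat.mul_le_mul_right _ (Nat.le_mul_of_pos_left n hK1)).trans (Nat.le_add_right _ _)
    exact low_one hp h t hb hT hM hS e (K * n * (K * n + e + 2) + e) (K * n + e + 2) hj1 hn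
      hnj hN (low_arith ht hK hn hj1) hx

end Pool.Agent.Lib.MP_06b9d2_bm
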