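import Pool.Agent.Lib.MP_06b9d2_bm.GEn
import Pool.Agent.Lib.MP_06b9d2_bm.Low

/-!
Module BM-GLo. The lower bound `Lowb` for operators with `LwC O n c T`, `v(p ^ u) ≤ v(c)`.

Copy of `low_one` and `low_two` (`MP_06b9d2_bm/Low.lean`; copy the private lemmas) with `entC_eq`, `entC_ge`: the main term is `evF P j₀ M j₀ s₀` with `v(M j₀ s₀) = v(c Λ ^ (s₀ - j₀)) ≥ v(p ^ (u + t (s₀ - j₀)))`, so in `lowC_one` the exponent is `t (n j₀ - j₀) + 2 R + 1 + e + u`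
and the condition `hR` is `t (n j₀ - j₀) + 2 R + 1 + e + u < t (R + 1 - n j₀)`.
`low_gen`: put `K = 2 t` (`2 t ≤ (t - 2) K` as `t ≥ 3`), choose `e ≥ u` with `R₁ + R₂ + 1 < p ^ e`, where `R₁ = K n + 2 e`, `j₁ = R₁ + 2`, `R₂ = K n j₁ + 2 e` (`R₁ + R₂ + 1` is a polynomial in `e` of degree one, so such an `e` exists:
e.g. `p ^ e ≥ 2 ^ e` and `2 ^ e > C (e + 1)` for large `e`), `N₀ = R₂`, `w = t (n j₁ - j₁) + 2 R₂ + 1 + e + u`. As in `low_two` `lowC_one` applies to `j₀ = 1`, `R = R₁` or to `j₀ = j₁`, `R = R₂`. The condition `hR`: with `R = K n j₀ + 2 e`: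
`t (R + 1 - n j₀) - (t (n j₀ - j₀) + 2 R + 1 + e + u) = (t - 2) R + t + t j₀ - 2 t n j₀ - 1 - e - u ≥ (t - 2) 2 e - e - u + t - 1 > 0`.
-/

namespace Pool.Agent.Lib.MP_06b9d2_bm

open PowerSeries
open Pool.Agent.Lib.MP_06b9d2_tln (TN Mt Rp Sy act)

/-- the integer `j ^ 2 - N j` as an element of `O` -/
private noncomputable def gloQ (O : ValuationSubring ℂ) (N j : ℕ) : O := (j : O) ^ 2 - (N : O) * (j : O)

private theorem gloQ_coe (O : ValuationSubring ℂ) (N j : ℕ) : ((gloQ O N j : O) : ℂ) = qv N j := by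
  unfold gloQ qv
  push_cast
  rfl

private theorem gloQ_aeval (O : ValuationSubring ℂ) (N s : ℕ) (P : Polynomial O) :
    Polynomial.aeval (qv N s) P = ((Polynomial.eval (gloQ O N s) P : O) : ℂ) := by
  rw [← gloQ_coe O N s]
  exact Polynomial.aeval_algebraMap_apply ℂ (gloQ O N s) P

private noncomputable def gloP (O : ValuationSubring ℂ) (N R j₀ : ℕ) : Polynomial O :=
  ∏ j ∈ (Finset.range (R + 1)).erase j₀, (Polynomial.X - Polynomial.C (gloQ O N j))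

private theorem glo_evF (O : ValuationSubring ℂ) (N R j₀ : ℕ) (s : Fin (N + 1)) :
    evF O N (gloP O N R j₀) s = ∏ j ∈ (Finset.range (R + 1)).erase j₀, (qv N s - qv N j) := by
  unfold evF gloP
  rw [map_prod]
  refine Finset.prod_congr rfl fun j _ => ?_
  rw [map_sub, Polynomial.aeval_X, Polynomial.aeval_C, ← gloQ_coe O N j]
  rfl

private theorem glo_evF_zero (O : ValuationSubring ℂ) (N R j₀ : ℕ) (s : Fin (N + 1)) (h1 : (s : ℕ) ≤ R)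
    (h2 : (s : ℕ) ≠ j₀) : evF O N (gloP O N R j₀) s = 0 := by
  rw [glo_evF]
  refine Finset.prod_eq_zero (i := (s : ℕ)) ?_ (sub_self _)
  rw [Finset.mem_erase, Finset.mem_range]
  exact ⟨h2, by omega⟩

private theorem glo_evF_int (O : ValuationSubring ℂ) (N : ℕ) (P : Polynomial O) (s : Fin (N + 1)) :
    O.valuation (evF O N P s) ≤ 1 := by
  unfold evF
  rw [gloQ_aeval]
  exact O.valuation_le_one _

private theorem glo_pow_le {O : ValuationSubring ℂ} {p : ℕ} (h : O.valuation (p : ℂ) < 1) {a b : ℕ}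
    (hab : a ≤ b) : O.valuation ((p : ℂ) ^ b) ≤ O.valuation ((p : ℂ) ^ a) := by
  rw [map_pow, map_pow]
  exact pow_le_pow_right_of_le_one' h.le hab

private theorem glo_pow_lt {O : ValuationSubring ℂ} {p : ℕ} (hp : p.Prime) (h : O.valuation (p : ℂ) < 1)
    {a b : ℕ} (hab : a < b) : O.valuation ((p : ℂ) ^ b) < O.valuation ((p : ℂ) ^ a) := by
  rw [map_pow, map_pow]
  have h0 : O.valuation (p : ℂ) ≠ 0 := by
    rw [Valuation.ne_zero_iff]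
    exact_mod_cast hp.ne_zero
  exact pow_lt_pow_right_of_lt_one₀ (zero_lt_iff.2 h0) h hab

private theorem glo_mono {O : ValuationSubring ℂ} {N p : ℕ} {A : (Fin (N + 1) → ℂ) →ₗ[ℂ] (Fin (N + 1) → ℂ)} (h : O.valuation (p : ℂ) < 1)
    {w w' : ℕ} (hw : w ≤ w') (hA : Lowb O N p w A) : Lowb O N p w' A := by
  obtain ⟨P, s, h1, h2⟩ := hA
  exact ⟨P, s, h1, (glo_pow_le h hw).trans h2⟩

private theorem glo_arith {t n j₀ e u : ℕ} (ht : 3 ≤ t) (hn : 2 ≤ n) (hj : 1 ≤ j₀) (hu : u ≤ e) :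
    t * (n * j₀ - j₀) + 2 * (2 * t * n * j₀ + 2 * e) + 1 + e + u <
      t * (2 * t * n * j₀ + 2 * e + 1 - n * j₀) := by
  obtain ⟨v, rfl⟩ : ∃ v, t = v + 3 := ⟨t - 3, by omega⟩
  obtain ⟨a, ha⟩ : ∃ a, a = n * j₀ := ⟨_, rfl⟩
  have hKa : 2 * (v + 3) * n * j₀ = 2 * (v + 3) * a := by rw [ha, mul_assoc]
  rw [← ha, hKa]
  have hja : j₀ ≤ a := by rw [ha]; nlinarith
  obtain ⟨b, hb⟩ : ∃ b, a = j₀ + b := ⟨a - j₀, by omega⟩
  have e1 : a - j₀ = b := by omega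
  have e2 : 2 * (v + 3) * a + 2 * e + 1 - a = (2 * v + 5) * a + 2 * e + 1 := by
    have : 2 * (v + 3) * a = (2 * v + 5) * a + a := by ring
    omega
  rw [e1, e2, hb]
  nlinarith [Nat.zero_le (v * e), Nat.zero_le (v * j₀), Nat.zero_le (v * b), Nat.zero_le (v * v * j₀),
    Nat.zero_le (v * v * b), Nat.zero_le v]

theorem lowC_one {O : ValuationSubring ℂ} {N n p : ℕ} {c : ℂ} {mo b : ℕ → ℂ⟦X⟧} {T : ℂ⟦X⟧ →ₗ[ℂ] ℂ⟦X⟧} {M : Mt N}
    (hp : p.Prime) (h : O.valuation (p : ℂ) < 1) (t u : ℕ) (hb : Tri O ((p : ℂ) ^ t) N mo b)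
    (hT : LwC O n c T) (hc : O.valuation ((p : ℂ) ^ u) ≤ O.valuation c) (hM : Rp mo T M) (hS : Sy M)
    (e R j₀ : ℕ) (hj : 1 ≤ j₀) (hn : 2 ≤ n) (hjR : n * j₀ ≤ R)
    (hRN : R ≤ N) (hR : t * (n * j₀ - j₀) + 2 * R + 1 + e + u < t * (R + 1 - n * j₀))
    (hx : ∀ j : ℕ, j ≤ R → ¬ ((p : ℤ) ^ e ∣ (N : ℤ) - j₀ - j)) :
    Lowb O N p (t * (n * j₀ - j₀) + 2 * R + 1 + e + u) M.vecMulLinear := by
  classical
  have hΛ : ((p : ℂ) ^ t) ≠ 0 := pow_ne_zero _ (by exact_mod_cast hp.ne_zero)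
  have hlt : j₀ < n * j₀ := by nlinarith
  let J : Fin (N + 1) := ⟨j₀, by omega⟩
  let S : Fin (N + 1) := ⟨n * j₀, by omega⟩
  refine ⟨gloP O N R j₀, S, glo_evF_zero O N R j₀ S hjR hlt.ne', ?_⟩
  have hA : (M.vecMulLinear (evF O N (gloP O N R j₀))) S =
      ∑ j : Fin (N + 1), evF O N (gloP O N R j₀) j * M j S := rfl
  rw [hA, ← Finset.add_sum_erase _ _ (Finset.mem_univ J)]
  have h1 : O.valuation ((p : ℂ) ^ (t * (n * j₀ - j₀) + 2 * R + 1 + e + u)) ≤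
      O.valuation (evF O N (gloP O N R j₀) J * M J S) := by
    have hM1 : M J S = c * ((p : ℂ) ^ t) ^ (n * j₀ - j₀) :=
      entC_eq hb hΛ (by omega) hT hM J S hj rfl
    have hv := v_F (O := O) hp h N e R j₀ (by omega) hx
    have e1 : t * (n * j₀ - j₀) + 2 * R + 1 + e + u = (2 * R + 1 + e) + (u + t * (n * j₀ - j₀)) := by ring
    rw [hM1, glo_evF, e1, pow_add, pow_add _ u, pow_mul, map_mul, map_mul, map_mul, map_mul]
    exact mul_le_mul' hv (mul_le_mul_left hc _)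
  have h2 : O.valuation (∑ j ∈ Finset.univ.erase J, evF O N (gloP O N R j₀) j * M j S) ≤
      O.valuation ((p : ℂ) ^ (t * (R + 1 - n * j₀))) := by
    refine Valuation.map_sum_le _ fun j hj' => ?_
    have hjJ : (j : ℕ) ≠ j₀ := fun h' => (Finset.mem_erase.1 hj').1 (Fin.ext h')
    by_cases hjR' : (j : ℕ) ≤ R
    · rw [glo_evF_zero O N R j₀ j hjR' hjJ, zero_mul, map_zero]
      exact zero_le
    · have hge := entC_ge hb hΛ hT hM hS j S (by change n * j₀ ≤ (j : ℕ); omega)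
      have hge' : O.valuation (M j S) ≤ O.valuation ((p : ℂ) ^ (t * ((j : ℕ) - n * j₀))) := by
        rw [pow_mul]
        exact hge
      rw [map_mul]
      calc O.valuation (evF O N (gloP O N R j₀) j) * O.valuation (M j S)
          ≤ 1 * O.valuation (M j S) := mul_le_mul_left (glo_evF_int O N _ j) _
        _ = O.valuation (M j S) := one_mul _
        _ ≤ O.valuation ((p : ℂ) ^ (t * ((j : ℕ) - n * j₀))) := hge'
        _ ≤ O.valuation ((p : ℂ) ^ (t * (R + 1 - n * j₀))) :=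
            glo_pow_le h (Nat.mul_le_mul_left _ (by omega))
  have h3 := glo_pow_lt (O := O) hp h hR
  have h4 : O.valuation (∑ j ∈ Finset.univ.erase J, evF O N (gloP O N R j₀) j * M j S) <
      O.valuation (evF O N (gloP O N R j₀) J * M J S) := lt_of_le_of_lt h2 (lt_of_lt_of_le h3 h1)
  rw [Valuation.map_add_eq_of_lt_left _ h4]
  exact h1

private theorem glo_two {O : ValuationSubring ℂ} {N n p : ℕ} {c : ℂ} {mo b : ℕ → ℂ⟦X⟧}
    {T : ℂ⟦X⟧ →ₗ[ℂ] ℂ⟦X⟧} {M : Mt N} (hp : p.Prime) (h : O.valuation (p : ℂ) < 1) (t u : ℕ) (ht : 3 ≤ t)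
    (hb : Tri O ((p : ℂ) ^ t) N mo b) (hT : LwC O n c T) (hc : O.valuation ((p : ℂ) ^ u) ≤ O.valuation c)
    (hM : Rp mo T M) (hS : Sy M) (hn : 2 ≤ n) (e R₁ j₁ R₂ : ℕ) (hu : u ≤ e)
    (hR₁ : R₁ = 2 * t * n + 2 * e) (hj₁ : j₁ = R₁ + 2) (hR₂ : R₂ = 2 * t * n * j₁ + 2 * e)
    (he : R₁ + R₂ + 1 < p ^ e) (hN : R₂ ≤ N) :
    Lowb O N p (t * (n * j₁ - j₁) + 2 * R₂ + 1 + e + u) M.vecMulLinear := by
  have hj1 : 1 ≤ j₁ := by omega
  have h2t : 1 ≤ 2 * t := by omega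
  by_cases hcs : ∀ j : ℕ, j ≤ R₁ → ¬ ((p : ℤ) ^ e ∣ (N : ℤ) - (1 : ℕ) - j)
  · have hA := glo_arith (t := t) (n := n) (j₀ := 1) (e := e) (u := u) ht hn le_rfl hu
    have hle : R₁ ≤ R₂ := by
      rw [hR₁, hR₂]
      exact Nat.add_le_add_right (Nat.le_mul_of_pos_right _ (by omega)) _
    have hnR : n * 1 ≤ R₁ := by
      rw [hR₁, mul_one]
      exact (Nat.le_mul_of_pos_left n h2t).trans (Nat.le_add_right _ _)
    have h1 := lowC_one hp h t u hb hT hc hM hS e R₁ 1 le_rfl hn hnR (by omega)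
      (by rw [hR₁, ← mul_one (2 * t * n)]; exact hA) hcs
    refine glo_mono h ?_ h1
    have h2 : n * 1 - 1 ≤ n * j₁ - j₁ := by
      obtain ⟨m, rfl⟩ : ∃ m, n = m + 1 := ⟨n - 1, by omega⟩
      have e1 : (m + 1) * j₁ - j₁ = m * j₁ := by
        rw [add_mul, one_mul, Nat.add_sub_cancel]
      rw [e1, mul_one, Nat.add_sub_cancel]
      exact Nat.le_mul_of_pos_right _ (by omega)
    have h3 := Nat.mul_le_mul_left t h2
    omega
  · push Not at hcs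
    obtain ⟨j, hj, hdj⟩ := hcs
    have hx : ∀ j' : ℕ, j' ≤ R₂ → ¬ ((p : ℤ) ^ e ∣ (N : ℤ) - (j₁ : ℕ) - j') := by
      intro j' hj' hd
      have hsub := dvd_sub hdj hd
      have e1 : (N : ℤ) - (1 : ℕ) - j - ((N : ℤ) - (j₁ : ℕ) - j') = (j₁ : ℤ) + j' - 1 - j := by
        push_cast
        ring
      rw [e1] at hsub
      have hpos : (0 : ℤ) < (j₁ : ℤ) + j' - 1 - j := by omega
      have hle := Int.le_of_dvd hpos hsub
      have h7 : ((R₁ + R₂ + 1 : ℕ) : ℤ) < ((p ^ e : ℕ) : ℤ) := by exact_mod_cast he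
      push_cast at h7
      omega
    have hnj : n * j₁ ≤ R₂ := by
      rw [hR₂]
      refine le_trans ?_ (Nat.le_add_right _ _)
      exact Nat.mul_le_mul_right _ (Nat.le_mul_of_pos_left n h2t)
    exact lowC_one hp h t u hb hT hc hM hS e R₂ j₁ hj1 hn hnj hN
      (by rw [hR₂]; exact glo_arith ht hn hj1 hu) hx

private theorem glo_exp (C : ℕ) : C * (2 * C + 3) < 2 ^ (2 * C + 2) := by
  have h1 : C + 1 ≤ 2 ^ C := Nat.lt_two_pow_self
  have h2 : 2 ^ (2 * C + 2) = 4 * (2 ^ C * 2 ^ C) := by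
    rw [pow_add, two_mul, pow_add]
    ring
  rw [h2]
  have h3 := Nat.mul_le_mul h1 h1
  nlinarith

theorem low_gen (p t n u : ℕ) (hp : p.Prime) (ht : 3 ≤ t) (hn : 2 ≤ n) : ∃ w N₀ : ℕ,
    ∀ (O : ValuationSubring ℂ) (_ : O.valuation (p : ℂ) < 1) (N : ℕ) (_ : N₀ ≤ N) (mo b : ℕ → ℂ⟦X⟧)
      (_ : Tri O ((p : ℂ) ^ t) N mo b) (T : ℂ⟦X⟧ →ₗ[ℂ] ℂ⟦X⟧) (c : ℂ) (_ : LwC O n c T)
      (_ : O.valuation ((p : ℂ) ^ u) ≤ O.valuation c) (M : Mt N) (_ : Rp mo T M) (_ : Sy M),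
      Lowb O N p w M.vecMulLinear := by
  obtain ⟨a, ha⟩ : ∃ a, a = 2 * t * n := ⟨_, rfl⟩
  obtain ⟨C, hC⟩ : ∃ C, C = a + a * (a + 2) + 1 + (4 + 2 * a) + u := ⟨_, rfl⟩
  obtain ⟨e, he⟩ : ∃ e, e = 2 * C + 2 := ⟨_, rfl⟩
  obtain ⟨R₁, hR₁⟩ : ∃ R₁, R₁ = 2 * t * n + 2 * e := ⟨_, rfl⟩
  obtain ⟨j₁, hj₁⟩ : ∃ j₁, j₁ = R₁ + 2 := ⟨_, rfl⟩
  obtain ⟨R₂, hR₂⟩ : ∃ R₂, R₂ = 2 * t * n * j₁ + 2 * e := ⟨_, rfl⟩
  have h1 : R₁ + R₂ + 1 < p ^ e := by
    have h2 : R₁ + R₂ + 1 ≤ C * (2 * C + 3) := by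
      have h3 : R₁ + R₂ + 1 = (a + a * (a + 2) + 1) + (4 + 2 * a) * e := by
        rw [hR₂, hj₁, hR₁, ← ha]
        ring
      have h4 : (a + a * (a + 2) + 1) + (4 + 2 * a) * e ≤ C * (1 + e) := by
        have h5 : a + a * (a + 2) + 1 ≤ C := by omega
        have h6 : 4 + 2 * a ≤ C := by omega
        have h7 := Nat.mul_le_mul_right e h6
        have h8 : C * (1 + e) = C + C * e := by ring
        rw [h8]
        exact Nat.add_le_add h5 h7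
      rw [h3]
      refine h4.trans (le_of_eq ?_)
      rw [he]
      ring
    calc R₁ + R₂ + 1 ≤ C * (2 * C + 3) := h2
      _ < 2 ^ (2 * C + 2) := glo_exp C
      _ = 2 ^ e := by rw [he]
      _ ≤ p ^ e := Nat.pow_le_pow_left hp.two_le e
  have hu : u ≤ e := by omega
  exact ⟨t * (n * j₁ - j₁) + 2 * R₂ + 1 + e + u, R₂, fun O h N hN mo b hb T c hT hc M hM hS =>
    glo_two hp h t u ht hb hT hc hM hS hn e R₁ j₁ R₂ hu hR₁ hj₁ hR₂ h1 hN⟩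

end Pool.Agent.Lib.MP_06b9d2_bm
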