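import Pool.Agent.Lib.MP_06b9d2_bm.DefsG
import Pool.Agent.Lib.MP_06b9d2_bm.Ent

/-!
Module BM-GLw. The property `LwC` of sums of products of the `T_n` (formal operators on power series).

`lwC_TN`: `lw_TN` (module Ent) has the same fields with `c = 1`. `lwC_id`: trivial (`n = 1`). `lwC_mono`: `m < n`: coefficients vanish below `n j ≥ m j`; for `1 ≤ j` `m j < n j`, so `coeff j (T f) = c coeff (m j) f = 0`.
`lwC_add`, `lwC_smul`: termwise. `lwC_comp`: as `lw_comp` (module Ent). `lwC_word`: induction on the list `w` (`List.prod_cons`, `Module.End.mul_eq_comp`; the product of the letters is not `0`); the empty word is the identity.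
`lwC_sum`: all words `w ≠ w₀` of `s` satisfy `LwC O w₀.prod 0 (WT k w)` (`lwC_word`, `lwC_mono`); induction over the finite set (`Finset.sum_ite_eq`): the coefficient is `∑ w ∈ s, z w * (if w = w₀ then 1 else 0)`. The empty sum: `T = 0` is `LwC O n 0`.
-/

namespace Pool.Agent.Lib.MP_06b9d2_bm

open PowerSeries
open Pool.Agent.Lib.MP_06b9d2_tln (TN Mt Rp Sy act)

variable {O : ValuationSubring ℂ} {n m k : ℕ} {c c' : ℂ} {T T' : ℂ⟦X⟧ →ₗ[ℂ] ℂ⟦X⟧}

theorem lwC_TN (k : ℕ) (hn : n ≠ 0) (hd : ∀ d : ℕ, d ∣ n → O.valuation (d : ℂ) = 1) : LwC O n 1 (TN n k) where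
  int := (lw_TN k hn hd).int
  zero := (lw_TN k hn hd).zero
  lead f j hj hf := by
    rw [one_mul]
    exact (lw_TN k hn hd).lead f j hj hf

theorem lwC_id (z : ℂ) (hz : O.valuation z ≤ 1) : LwC O 1 z (z • (LinearMap.id : ℂ⟦X⟧ →ₗ[ℂ] ℂ⟦X⟧)) where
  int f hf i := by
    rw [LinearMap.smul_apply, LinearMap.id_apply, coeff_smul, smul_eq_mul, map_mul]
    exact mul_le_one' hz (hf i)
  zero f j hf i hi := by
    rw [LinearMap.smul_apply, LinearMap.id_apply, coeff_smul, smul_eq_mul, hf i (by omega), mul_zero]
  lead f j hj hf := by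
    rw [LinearMap.smul_apply, LinearMap.id_apply, coeff_smul, smul_eq_mul, one_mul]

theorem lwC_mono (h : LwC O m c T) (hm : m < n) : LwC O n 0 T where
  int := h.int
  zero f j hf i hi := h.zero f j (fun r hr => hf r (hr.trans_le (Nat.mul_le_mul_right j hm.le))) i hi
  lead f j hj hf := by
    have h1 : m * j < n * j := Nat.mul_lt_mul_of_pos_right hm hj
    rw [h.lead f j hj (fun r hr => hf r (hr.trans h1)), hf _ h1, mul_zero, zero_mul]

theorem lwC_add (h : LwC O n c T) (h' : LwC O n c' T') : LwC O n (c + c') (T + T') where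
  int f hf i := by
    rw [LinearMap.add_apply, map_add, ValuationSubring.valuation_le_one_iff]
    exact add_mem ((ValuationSubring.valuation_le_one_iff _ _).1 (h.int f hf i))
      ((ValuationSubring.valuation_le_one_iff _ _).1 (h'.int f hf i))
  zero f j hf i hi := by
    rw [LinearMap.add_apply, map_add, h.zero f j hf i hi, h'.zero f j hf i hi, add_zero]
  lead f j hj hf := by
    rw [LinearMap.add_apply, map_add, h.lead f j hj hf, h'.lead f j hj hf, add_mul]

theorem lwC_smul (z : ℂ) (hz : O.valuation z ≤ 1) (h : LwC O n c T) : LwC O n (z * c) (z • T) where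
  int f hf i := by
    rw [LinearMap.smul_apply, coeff_smul, smul_eq_mul, map_mul]
    exact mul_le_one' hz (h.int f hf i)
  zero f j hf i hi := by
    rw [LinearMap.smul_apply, coeff_smul, smul_eq_mul, h.zero f j hf i hi, mul_zero]
  lead f j hj hf := by
    rw [LinearMap.smul_apply, coeff_smul, smul_eq_mul, h.lead f j hj hf, mul_assoc]

theorem lwC_comp (hn : n ≠ 0) (hm : m ≠ 0) (h : LwC O n c T) (h' : LwC O m c' T') :
    LwC O (n * m) (c * c') (T ∘ₗ T') where
  int f hf i := by
    rw [LinearMap.comp_apply]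
    exact h.int _ (h'.int f hf) i
  zero f j hf i hi := by
    rw [LinearMap.comp_apply]
    refine h.zero _ j (h'.zero f (n * j) fun r hr => hf r ?_) i hi
    calc r < m * (n * j) := hr
      _ = n * m * j := by ring
  lead f j hj hf := by
    have hf' : ∀ r < m * (n * j), coeff r f = 0 := by
      intro r hr
      refine hf r ?_
      calc r < m * (n * j) := hr
        _ = n * m * j := by ring
    have h1 : 1 ≤ n * j := Nat.mul_pos (Nat.pos_of_ne_zero hn) hj
    have h9 : m * (n * j) = n * m * j := by ring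
    rw [LinearMap.comp_apply, h.lead _ j hj (h'.zero f (n * j) hf'), h'.lead f (n * j) h1 hf', mul_assoc, h9]

theorem lwC_word (k : ℕ) (w : List ℕ) (hw : ∀ n ∈ w, n ≠ 0 ∧ ∀ d : ℕ, d ∣ n → O.valuation (d : ℂ) = 1) :
    LwC O w.prod 1 (WT k w) := by
  induction w with
  | nil =>
    have h := lwC_id (O := O) 1 (by rw [map_one])
    rw [one_smul] at h
    exact h
  | cons n w ih =>
    have h1 := ih fun m hm => hw m (List.mem_cons_of_mem n hm)
    obtain ⟨h2, h3⟩ := hw n List.mem_cons_self
    have h4 : w.prod ≠ 0 := by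
      intro h5
      exact (hw 0 (List.mem_cons_of_mem n (List.prod_eq_zero_iff.1 h5))).1 rfl
    have h6 := lwC_comp h2 h4 (lwC_TN k h2 h3) h1
    rw [one_mul] at h6
    rw [List.prod_cons]
    have h7 : WT k (n :: w) = TN n k ∘ₗ WT k w := by
      unfold WT
      rw [List.map_cons, List.prod_cons, Module.End.mul_eq_comp]
    rw [h7]
    exact h6

theorem lwC_sum (k : ℕ) (s : Finset (List ℕ)) (z : List ℕ → ℂ) (hz : ∀ w ∈ s, O.valuation (z w) ≤ 1)
    (hw : ∀ w ∈ s, ∀ n ∈ w, n ≠ 0 ∧ ∀ d : ℕ, d ∣ n → O.valuation (d : ℂ) = 1) (w₀ : List ℕ)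
    (hmax : ∀ w ∈ s, w ≠ w₀ → w.prod < w₀.prod) :
    LwC O w₀.prod (if w₀ ∈ s then z w₀ else 0) (ST k s z) := by
  classical
  induction s using Finset.induction_on with
  | empty =>
    rw [if_neg (Finset.notMem_empty _)]
    unfold ST
    rw [Finset.sum_empty]
    exact {
      int := fun f _ i => by rw [LinearMap.zero_apply, map_zero, map_zero]; exact zero_le
      zero := fun f j _ i _ => by rw [LinearMap.zero_apply, map_zero]
      lead := fun f j _ _ => by rw [LinearMap.zero_apply, map_zero, zero_mul] }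
  | insert w s hws ih =>
    have h1 := ih (fun w' h => hz w' (Finset.mem_insert_of_mem h))
      (fun w' h => hw w' (Finset.mem_insert_of_mem h)) (fun w' h => hmax w' (Finset.mem_insert_of_mem h))
    have h2 : ST k (insert w s) z = z w • WT k w + ST k s z := by
      unfold ST
      rw [Finset.sum_insert hws]
    rw [h2]
    have h3 := lwC_word (O := O) k w (hw w (Finset.mem_insert_self _ _))
    by_cases hww : w = w₀
    · subst hww
      rw [if_neg hws] at h1
      rw [if_pos (Finset.mem_insert_self _ _)]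
      have h4 := lwC_add (lwC_smul (z w) (hz w (Finset.mem_insert_self _ _)) h3) h1
      rw [mul_one, add_zero] at h4
      exact h4
    · have h5 := lwC_mono h3 (hmax w (Finset.mem_insert_self _ _) hww)
      have h4 := lwC_add (lwC_smul (z w) (hz w (Finset.mem_insert_self _ _)) h5) h1
      rw [mul_zero, zero_add] at h4
      have h6 : (w₀ ∈ insert w s) ↔ w₀ ∈ s := by
        rw [Finset.mem_insert]
        constructor
        · rintro (h | h)
          · exact absurd h.symm hww
          · exact h
        · exact Or.inr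
      rw [if_congr h6 rfl rfl]
      exact h4

end Pool.Agent.Lib.MP_06b9d2_bm
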