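import Pool.Agent.Lib.MP_06b9d2_bm.DefsG

/-!
Module BM-GPo. Linear combinations of the `T_n` and polynomials in the `T_l`, from sums of words.

`lin_of`: `n₁` = the largest `n ∈ s` with `c n ≠ 0` (`n₁ ≥ n₀ ≥ 2`), the words `[n]` for `n ∈ s` with `c n ≠ 0`, `z w = c w.prod`. `(w.map T).prod = T n` for `w = [n]`; the terms with `c n = 0` vanish.
`poly_of`: for `m ∈ P.support` let `wd m = (Finsupp.toMultiset m).sort (· ≤ ·)`, `z w = P.coeff (Multiset.toFinsupp ↑w)`, `s = P.support.image wd`; the multiset of `wd m` is `Finsupp.toMultiset m` (`Multiset.sort_eq`), so `wd` is injective and `z (wd m) = P.coeff m`; the letters of `wd m` are in `P.vars` (`MvPolynomial.mem_vars`).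
The product `(wd m).prod = (Finsupp.toMultiset m).prod` is injective in `m` for multisets of primes (unique factorization, e.g. `Nat.primeFactorsList_unique` or `UniqueFactorizationMonoid`). Let `m₀` be the element of `P.support` with the largest product; it is `≥ 2` as some monomial contains a variable (`hv`). `w₀ = wd m₀`: `Wds Q s z w₀`.
`(∑ z w T_w) (f i) = (∑ z w (w.map (a i)).prod) f i = eval (a i) P f i = lam f i` (`MvPolynomial.eval_eq'`, `Finset.sum_image`; induction on the word). So the `f i` are linearly independent vectors of the eigenspace, which has dimension `≤ B` (`fin_cusp` gives `Module.Finite`; `LinearIndependent.fintype_card_le_finrank`).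
-/

namespace Pool.Agent.Lib.MP_06b9d2_bm

open UpperHalfPlane Pool.Agent.L1 Pool.Agent.Lib.MP_06b9d2_nt
open scoped MatrixGroups ModularForm

/-- a list with the multiset of the monomial -/
private noncomputable def gpoW (m : ℕ →₀ ℕ) : List ℕ := (Finsupp.toMultiset m).toList

private theorem gpo_coe (m : ℕ →₀ ℕ) : (gpoW m : Multiset ℕ) = Finsupp.toMultiset m :=
  Multiset.coe_toList _

private theorem gpo_inj (m m' : ℕ →₀ ℕ) (h : (gpoW m : Multiset ℕ) = gpoW m') : m = m' := by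
  rw [gpo_coe, gpo_coe] at h
  rw [← Finsupp.toMultiset_toFinsupp m, h, Finsupp.toMultiset_toFinsupp]

private theorem gpo_mem (m : ℕ →₀ ℕ) (n : ℕ) : n ∈ gpoW m ↔ n ∈ m.support := by
  rw [← Multiset.mem_coe, gpo_coe, Finsupp.mem_toMultiset]

private theorem gpo_coeff (P : MvPolynomial ℕ ℂ) (m : ℕ →₀ ℕ) :
    P.coeff (Multiset.toFinsupp (gpoW m : Multiset ℕ)) = P.coeff m := by
  rw [gpo_coe, Finsupp.toMultiset_toFinsupp]

private theorem gpo_map (m : ℕ →₀ ℕ) (a : ℕ → ℂ) :
    ((gpoW m).map a).prod = m.prod fun j e => a j ^ e := by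
  rw [← Multiset.prod_coe, ← Multiset.map_coe, gpo_coe, Finsupp.toMultiset_map, Finsupp.prod_toMultiset]
  rw [Finsupp.prod_mapDomain_index (fun b => pow_zero b) (fun b m n => pow_add b m n)]

private theorem gpo_word {V : Type*} [AddCommGroup V] [Module ℂ V] (T : ℕ → V →ₗ[ℂ] V) (a : ℕ → ℂ) (v : V)
    (w : List ℕ) (hw : ∀ n ∈ w, T n v = a n • v) :
    (w.map fun n => (T n : Module.End ℂ V)).prod v = (w.map a).prod • v := by
  induction w with
  | nil => simp
  | cons n w ih =>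
    have h1 := ih fun m hm => hw m (List.mem_cons_of_mem _ hm)
    have h2 := hw n List.mem_cons_self
    rw [List.map_cons, List.prod_cons, List.map_cons, List.prod_cons, Module.End.mul_apply, h1, map_smul, h2,
      smul_smul, mul_comm]

theorem lin_of {Q : ℕ → Prop} (H : ∀ s z w₀, Wds Q s z w₀ → ∃ B, KerW s z B) (s : Finset ℕ) (c : ℕ → ℂ)
    (hs : ∀ n ∈ s, Q n) (n₀ : ℕ) (hn₀ : n₀ ∈ s) (h2 : 2 ≤ n₀) (hc : c n₀ ≠ 0) :
    ∃ B, ∀ (k : ℕ) (_ : Even k) (T : ℕ → CuspForm 𝒮ℒ (k : ℤ) →ₗ[ℂ] CuspForm 𝒮ℒ (k : ℤ))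
      (_ : ∀ n ∈ s, IsHecke (k : ℤ) n (T n)) (lam : ℂ),
      Module.finrank ℂ (LinearMap.ker ((∑ n ∈ s, c n • T n) - lam • LinearMap.id)) ≤ B := by
  classical
  obtain ⟨s', hs'⟩ : ∃ s', s' = s.filter fun n => c n ≠ 0 := ⟨_, rfl⟩
  have hm : ∀ n, n ∈ s' ↔ n ∈ s ∧ c n ≠ 0 := fun n => by rw [hs', Finset.mem_filter]
  obtain ⟨n₁, h1, hmax⟩ := Finset.exists_max_image s' (fun n => n) ⟨n₀, (hm n₀).2 ⟨hn₀, hc⟩⟩
  have hinj : Set.InjOn (fun n : ℕ => [n]) s' := fun a _ b _ hab => List.singleton_injective hab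
  obtain ⟨B, hB⟩ := H (s'.image fun n => [n]) (fun w => c w.prod) [n₁]
    { letter := by
        intro w hw n hn
        obtain ⟨m, hm', rfl⟩ := Finset.mem_image.1 hw
        rw [List.mem_singleton.1 hn]
        exact hs m ((hm m).1 hm').1
      mem := Finset.mem_image_of_mem _ h1
      ne := by
        rw [List.prod_singleton]
        exact ((hm n₁).1 h1).2
      two := by
        rw [List.prod_singleton]
        exact h2.trans (hmax n₀ ((hm n₀).2 ⟨hn₀, hc⟩))
      max := by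
        intro w hw hne
        obtain ⟨m, hm', rfl⟩ := Finset.mem_image.1 hw
        rw [List.prod_singleton, List.prod_singleton]
        refine lt_of_le_of_ne (hmax m hm') fun h' => hne ?_
        rw [h'] }
  refine ⟨B, fun k hk T hT lam => ?_⟩
  have h3 := hB k hk T (by
    intro w hw n hn
    obtain ⟨m, hm', rfl⟩ := Finset.mem_image.1 hw
    rw [List.mem_singleton.1 hn]
    exact hT m ((hm m).1 hm').1) lam
  have h4 : (∑ w ∈ s'.image fun n => [n], c w.prod • (w.map fun n =>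
      (T n : Module.End ℂ (CuspForm 𝒮ℒ (k : ℤ)))).prod) = ∑ n ∈ s, c n • T n := by
    rw [Finset.sum_image hinj, hs', Finset.sum_filter]
    refine Finset.sum_congr rfl fun n _ => ?_
    by_cases h5 : c n = 0
    · rw [if_neg (not_not.2 h5), h5, zero_smul]
    · rw [if_pos h5, List.prod_singleton, List.map_singleton, List.prod_singleton]
  rw [h4] at h3
  exact h3

theorem poly_of {Q : ℕ → Prop} (H : ∀ s z w₀, Wds Q s z w₀ → ∃ B, KerW s z B) (P : MvPolynomial ℕ ℂ)
    (hP : ∀ l ∈ P.vars, l.Prime ∧ Q l) (hv : P.vars.Nonempty) :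
    ∃ B, ∀ (k : ℕ) (_ : Even k) (T : ℕ → CuspForm 𝒮ℒ (k : ℤ) →ₗ[ℂ] CuspForm 𝒮ℒ (k : ℤ))
      (_ : ∀ l ∈ P.vars, IsHecke (k : ℤ) l (T l)) (lam : ℂ) (r : ℕ) (f : Fin r → CuspForm 𝒮ℒ (k : ℤ))
      (_ : LinearIndependent ℂ f) (a : Fin r → ℕ → ℂ) (_ : ∀ i, ∀ l ∈ P.vars, T l (f i) = a i l • f i)
      (_ : ∀ i, MvPolynomial.eval (a i) P = lam), r ≤ B := by
  classical
  have hvar : ∀ m ∈ P.support, ∀ n ∈ gpoW m, n ∈ P.vars := fun m hm n hn =>
    (MvPolynomial.mem_vars_iff_mem_support n).2 ⟨m, hm, (gpo_mem m n).1 hn⟩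
  have hprime : ∀ m ∈ P.support, ∀ n ∈ gpoW m, n.Prime := fun m hm n hn => (hP n (hvar m hm n hn)).1
  have hprod : ∀ m ∈ P.support, ∀ m' ∈ P.support, (gpoW m).prod = (gpoW m').prod → m = m' := by
    intro m hm m' hm' h
    have h1 := Nat.primeFactorsList_unique h (hprime m hm)
    have h2 := Nat.primeFactorsList_unique (rfl : (gpoW m').prod = _) (hprime m' hm')
    exact gpo_inj m m' (Multiset.coe_eq_coe.2 (h1.trans h2.symm))
  obtain ⟨v, hv'⟩ := hv
  obtain ⟨m₁, hm₁, hvm⟩ := (MvPolynomial.mem_vars_iff_mem_support v).1 hv'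
  obtain ⟨m₀, hm₀, hmax⟩ := Finset.exists_max_image P.support (fun m => (gpoW m).prod) ⟨m₁, hm₁⟩
  have hinj : Set.InjOn gpoW P.support := fun m _ m' _ h => gpo_inj m m' (by rw [h])
  have h2 : 2 ≤ (gpoW m₁).prod := by
    have h3 : v ∣ (gpoW m₁).prod := List.dvd_prod ((gpo_mem m₁ v).2 hvm)
    have h4 : (gpoW m₁).prod ≠ 0 := by
      intro h0
      rw [List.prod_eq_zero_iff] at h0
      exact (hprime m₁ hm₁ 0 h0).ne_zero rfl
    exact (hP v hv').1.two_le.trans (Nat.le_of_dvd (Nat.pos_of_ne_zero h4) h3)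
  obtain ⟨B, hB⟩ := H (P.support.image gpoW) (fun w => P.coeff (Multiset.toFinsupp (w : Multiset ℕ))) (gpoW m₀)
    { letter := by
        intro w hw n hn
        obtain ⟨m, hm', rfl⟩ := Finset.mem_image.1 hw
        exact (hP n (hvar m hm' n hn)).2
      mem := Finset.mem_image_of_mem _ hm₀
      ne := by
        rw [gpo_coeff]
        exact MvPolynomial.mem_support_iff.1 hm₀
      two := h2.trans (hmax m₁ hm₁)
      max := by
        intro w hw hne
        obtain ⟨m, hm', rfl⟩ := Finset.mem_image.1 hw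
        refine lt_of_le_of_ne (hmax m hm') fun h' => hne ?_
        rw [hprod m hm' m₀ hm₀ h'] }
  refine ⟨B, fun k hk T hT lam r f hf a ha hl => ?_⟩
  have h3 := hB k hk T (by
    intro w hw n hn
    obtain ⟨m, hm', rfl⟩ := Finset.mem_image.1 hw
    exact hT n (hvar m hm' n hn)) lam
  rw [Finset.sum_image hinj] at h3
  have hfin := fin_cusp (k : ℤ)
  have hker : ∀ i, f i ∈ LinearMap.ker ((∑ m ∈ P.support, P.coeff (Multiset.toFinsupp (gpoW m : Multiset ℕ)) •
      ((gpoW m).map fun n => (T n : Module.End ℂ (CuspForm 𝒮ℒ (k : ℤ)))).prod) - lam • LinearMap.id) := by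
    intro i
    rw [LinearMap.mem_ker, LinearMap.sub_apply, LinearMap.smul_apply, LinearMap.id_apply, sub_eq_zero,
      LinearMap.sum_apply, ← hl i, MvPolynomial.eval_eq, Finset.sum_smul]
    refine Finset.sum_congr rfl fun m hm => ?_
    rw [LinearMap.smul_apply, gpo_coeff, gpo_word T (a i) (f i) (gpoW m) fun n hn => ha i n (hvar m hm n hn),
      smul_smul, gpo_map]
    rfl
  have hli : LinearIndependent ℂ fun i => (⟨f i, hker i⟩ : LinearMap.ker ((∑ m ∈ P.support,
      P.coeff (Multiset.toFinsupp (gpoW m : Multiset ℕ)) •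
      ((gpoW m).map fun n => (T n : Module.End ℂ (CuspForm 𝒮ℒ (k : ℤ)))).prod) - lam • LinearMap.id)) :=
    LinearIndependent.of_comp (Submodule.subtype _) hf
  have h5 := hli.fintype_card_le_finrank
  rw [Fintype.card_fin] at h5
  exact h5.trans h3

end Pool.Agent.Lib.MP_06b9d2_bm
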