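import Pool.Agent.Lib.MP_06b9d2_bm.DefsT
import Pool.Agent.Lib.MP_06b9d2_tln.Rpa
import Pool.Agent.Lib.MP_06b9d2_tln.TNa
import Pool.Agent.Lib.MP_06b9d2_tln.TNb
import Pool.Agent.Lib.MP_06b9d2_tln.Luc

/-!
Module BM-TPr. The matrices of the `T_n` (prime `3`). Model: module Prd.

`prT_mod`: `(-1) ^ ((σ + ε) s)` depends on `ε` modulo `2` only. `prT_mul`: `act_mul`: `act (M₁ M₂) f = act M₂ (act M₁ f)`: apply `h₂` with `σ + ε₁`. `prT_add`, `prT_smul`: as `prD_add`, `prD_smul` (`act_add`, `act_smul`).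
`prT_lu`: two-step induction on `e` with `lu_step`; `ε (e + 2) ≡ ε e` modulo `2`. `prD_of`: `σ = 0`, `ε` even. `gt_pp`, `gt_mul`: as `gc_pp`, `gc_mul` (`TN_lu`, `rp_aeval`, `sy_aeval`; `TN_mul`, `rp_mul`, `sy_mul`).
`gt_n`: `Nat.recOnPosPrimePosCoprime` with the statement: `n % 3 ≠ 0`, all prime factors good `→ GT … n (if n % 3 = 1 then 0 else 1)` (`l ^ e ≡ 1` modulo `3` iff `l ≡ 1` or `e` even; `m n ≡ 1` iff `m ≡ n`); `prT_mod`.
-/

namespace Pool.Agent.Lib.MP_06b9d2_bm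

open PowerSeries
open Pool.Agent.Lib.MP_06b9d2_tln (TN Mt Rp Sy act lu)

variable {O : ValuationSubring ℂ} {ρ : ℂ} {N ε ε₁ ε₂ : ℕ} {M M₁ M₂ : Mt N}

private theorem TPr_sgn {a b : ℕ} (h : a % 2 = b % 2) : (-1 : ℂ) ^ a = (-1 : ℂ) ^ b := by
  rw [neg_one_pow_eq_pow_mod_two a, neg_one_pow_eq_pow_mod_two b, h]

private theorem TPr_dp_add {f g : ℤ → ℂ} (hf : DP O ρ f) (hg : DP O ρ g) : DP O ρ fun s => f s + g s := by
  obtain ⟨P, hP⟩ := hf
  obtain ⟨Q, hQ⟩ := hg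
  refine ⟨P + Q, fun s => ?_⟩
  rw [map_add, ← hP s, ← hQ s]

private theorem TPr_dp_smul (z : ℂ) (hz : O.valuation z ≤ 1) {f : ℤ → ℂ} (hf : DP O ρ f) :
    DP O ρ fun s => z * f s := by
  obtain ⟨P, hP⟩ := hf
  refine ⟨Polynomial.C ⟨z, (O.valuation_le_one_iff z).1 hz⟩ * P, fun s => ?_⟩
  rw [map_mul, ← hP s, Polynomial.aeval_C]
  rfl

theorem prT_mod (h : PrT O ρ ε M) (ε' : ℕ) (hε : ε % 2 = ε' % 2) : PrT O ρ ε' M := by
  intro σ f hf
  obtain ⟨g, hg, e1⟩ := h σ f hf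
  refine ⟨g, hg, fun s => ?_⟩
  rw [e1 s]
  congr 1
  refine TPr_sgn ?_
  rw [Nat.mul_mod, Nat.add_mod, hε, ← Nat.add_mod, ← Nat.mul_mod]

theorem prT_one : PrT O ρ 0 (1 : Mt N) := by
  intro σ f hf
  refine ⟨f, hf, fun s => ?_⟩
  rw [Pool.Agent.Lib.MP_06b9d2_tln.act_one, Int.natAbs_natCast, add_zero]

theorem prT_mul (h₁ : PrT O ρ ε₁ M₁) (h₂ : PrT O ρ ε₂ M₂) : PrT O ρ (ε₁ + ε₂) (M₁ * M₂) := by
  intro σ f hf
  obtain ⟨g, hg, e1⟩ := h₁ σ f hf
  obtain ⟨g2, hg2, e2⟩ := h₂ (σ + ε₁) g hg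
  refine ⟨g2, hg2, fun s => ?_⟩
  rw [Pool.Agent.Lib.MP_06b9d2_tln.act_mul M₁ M₂ _
    (fun t => (-1 : ℂ) ^ ((σ + ε₁) * t.natAbs) * g t) (fun i => by rw [e1 i, Int.natAbs_natCast]) s,
    e2 s, ← add_assoc]

theorem prT_add (h₁ : PrT O ρ ε M₁) (h₂ : PrT O ρ ε M₂) : PrT O ρ ε (M₁ + M₂) := by
  intro σ f hf
  obtain ⟨g, hg, e1⟩ := h₁ σ f hf
  obtain ⟨g2, hg2, e2⟩ := h₂ σ f hf
  refine ⟨fun s => g s + g2 s, TPr_dp_add hg hg2, fun s => ?_⟩
  rw [Pool.Agent.Lib.MP_06b9d2_tln.act_add, e1 s, e2 s, mul_add]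

theorem prT_smul (z : ℂ) (hz : O.valuation z ≤ 1) (h : PrT O ρ ε M) : PrT O ρ ε (z • M) := by
  intro σ f hf
  obtain ⟨g, hg, e1⟩ := h σ f hf
  refine ⟨fun s => z * g s, TPr_dp_smul z hz hg, fun s => ?_⟩
  rw [Pool.Agent.Lib.MP_06b9d2_tln.act_smul, e1 s]
  ring

theorem prT_lu (L : ℂ) (hL : O.valuation L ≤ 1) (h : PrT O ρ ε M) (e : ℕ) :
    PrT O ρ (ε * e) (Polynomial.aeval M (lu L e)) := by
  induction e using Nat.twoStepInduction with
  | zero =>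
    rw [lu, map_one, mul_zero]
    exact prT_one
  | one =>
    rw [lu, Polynomial.aeval_X, mul_one]
    exact h
  | more e ih1 ih2 =>
    have e1 : Polynomial.aeval M (lu L (e + 2)) =
        M * Polynomial.aeval M (lu L (e + 1)) + (-L) • Polynomial.aeval M (lu L e) := by
      rw [lu, map_sub, map_mul, map_mul, Polynomial.aeval_X, Polynomial.aeval_C, ← Algebra.smul_def, neg_smul,
        sub_eq_add_neg]
    rw [e1]
    refine prT_add (prT_mod (prT_mul h ih2) _ ?_) (prT_smul _ ?_ (prT_mod ih1 _ ?_))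
    · rw [show ε + ε * (e + 1) = ε * (e + 2) by ring]
    · rw [Valuation.map_neg]
      exact hL
    · rw [show ε * (e + 2) = ε * e + 2 * ε by ring, Nat.add_mul_mod_self_left]

theorem prD_of (h : PrT O ρ ε M) (hε : ε % 2 = 0) : PrD O ρ M := by
  intro f hf
  obtain ⟨g, hg, e1⟩ := h 0 f hf
  refine ⟨g, hg, fun s => ?_⟩
  have e2 := e1 s
  have e3 : (fun t : ℤ => (-1 : ℂ) ^ (0 * t.natAbs) * f t) = f := by
    funext t
    rw [zero_mul, pow_zero, one_mul]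
  rw [e3] at e2
  have e4 : (-1 : ℂ) ^ ((0 + ε) * (s : ℕ)) = (-1 : ℂ) ^ 0 := by
    refine TPr_sgn ?_
    rw [zero_add, Nat.mul_mod, hε, zero_mul]
  rw [e2, e4, pow_zero, one_mul]

variable {k : ℕ} {mo : ℕ → ℂ⟦X⟧} {M₀ : Mt N}

private theorem TPr_comm (h : Commute M M₀) (q : Polynomial ℂ) : Commute (Polynomial.aeval M q) M₀ := by
  induction q using Polynomial.induction_on' with
  | add a b ha hb =>
    rw [map_add]
    exact ha.add_left hb
  | monomial n a =>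
    rw [Polynomial.aeval_monomial, ← Algebra.smul_def]
    exact (h.pow_left n).smul_left a

private theorem TPr_one : GT O ρ N k mo M₀ 1 0 := by
  refine ⟨1, ?_, Pool.Agent.Lib.MP_06b9d2_tln.sy_one, Commute.one_left _, prT_one, prT_one⟩
  rw [Pool.Agent.Lib.MP_06b9d2_tln.TN_one]
  exact Pool.Agent.Lib.MP_06b9d2_tln.rp_one mo

private theorem TPr_gmod {n : ℕ} (h : GT O ρ N k mo M₀ n ε) (ε' : ℕ) (hε : ε % 2 = ε' % 2) :
    GT O ρ N k mo M₀ n ε' := by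
  obtain ⟨M, hR, hS, hC, h1, h2⟩ := h
  exact ⟨M, hR, hS, hC, prT_mod h1 ε' hε, prT_mod h2 ε' hε⟩

theorem gt_pp (l e : ℕ) (hl : l.Prime) (hL : O.valuation ((l : ℂ) ^ k / l) ≤ 1) (h : GT O ρ N k mo M₀ l ε) :
    GT O ρ N k mo M₀ (l ^ e) (ε * e) := by
  obtain ⟨M, hR, hS, hC, h1, h2⟩ := h
  refine ⟨Polynomial.aeval M (lu ((l : ℂ) ^ k / l) e), ?_, Pool.Agent.Lib.MP_06b9d2_tln.sy_aeval hS _,
    TPr_comm hC _, prT_lu _ hL h1 e, prT_lu _ hL h2 e⟩
  rw [Pool.Agent.Lib.MP_06b9d2_tln.TN_lu l k e hl]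
  exact Pool.Agent.Lib.MP_06b9d2_tln.rp_aeval hR _

theorem gt_mul (m n : ℕ) (hm : m ≠ 0) (hn : n ≠ 0) (hc : m.Coprime n) (h₁ : GT O ρ N k mo M₀ m ε₁)
    (h₂ : GT O ρ N k mo M₀ n ε₂) : GT O ρ N k mo M₀ (m * n) (ε₁ + ε₂) := by
  obtain ⟨M₁, hR, hS, hC, a1, a2⟩ := h₁
  obtain ⟨M₂, hR', hS', hC', b1, b2⟩ := h₂
  refine ⟨M₁ * M₂, ?_, Pool.Agent.Lib.MP_06b9d2_tln.sy_mul hS hS', hC.mul_left hC', prT_mul a1 b1,
    prT_mul a2 b2⟩
  rw [Pool.Agent.Lib.MP_06b9d2_tln.TN_mul m n k hm hn hc]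
  exact Pool.Agent.Lib.MP_06b9d2_tln.rp_mul hR hR'

private theorem TPr_pow {l : ℕ} (h : l % 3 = 2) (e : ℕ) : l ^ e % 3 = if e % 2 = 0 then 1 else 2 := by
  induction e with
  | zero => rfl
  | succ e ih =>
    rw [pow_succ, Nat.mul_mod, ih, h]
    by_cases he : e % 2 = 0
    · rw [if_pos he, if_neg (by omega)]
    · rw [if_neg he, if_pos (by omega)]

theorem gt_n (n : ℕ) (hn : n % 3 ≠ 0) (hL : ∀ l ∈ n.primeFactors, O.valuation ((l : ℂ) ^ k / l) ≤ 1)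
    (h : ∀ l ∈ n.primeFactors, GT O ρ N k mo M₀ l (if l % 3 = 1 then 0 else 1)) :
    GT O ρ N k mo M₀ n (if n % 3 = 1 then 0 else 1) := by
  have hn0 : n ≠ 0 := by
    rintro rfl
    exact hn rfl
  have h3 : ∀ p ∈ n.primeFactors, p % 3 ≠ 0 := by
    intro p hp h0
    have h1 : 3 ∣ n := (Nat.dvd_of_mod_eq_zero h0).trans (Nat.dvd_of_mem_primeFactors hp)
    exact hn (Nat.mod_eq_zero_of_dvd h1)
  have hpow : ∀ p ∈ n.primeFactors, ∀ e : ℕ, p ^ e % 3 ≠ 0 ∧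
      GT O ρ N k mo M₀ (p ^ e) (if p ^ e % 3 = 1 then 0 else 1) := by
    intro p hp e
    have hpp : p.Prime := Nat.prime_of_mem_primeFactors hp
    have h4 := gt_pp p e hpp (hL p hp) (h p hp)
    have h5 := h3 p hp
    by_cases h1 : p % 3 = 1
    · have h6 : p ^ e % 3 = 1 := by
        rw [Nat.pow_mod, h1, one_pow]
        rfl
      rw [if_pos h1, zero_mul] at h4
      rw [h6, if_pos rfl]
      exact ⟨by norm_num, h4⟩
    · have h2 : p % 3 = 2 := by omega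
      have h6 := TPr_pow h2 e
      rw [if_neg h1, one_mul] at h4
      rw [h6]
      by_cases he : e % 2 = 0
      · rw [if_pos he, if_pos rfl]
        exact ⟨by norm_num, TPr_gmod h4 0 he⟩
      · rw [if_neg he, if_neg (by norm_num)]
        exact ⟨by norm_num, TPr_gmod h4 1 (by omega)⟩
  have key : ∀ S : Finset ℕ, S ⊆ n.primeFactors → (∏ p ∈ S, p ^ n.factorization p) % 3 ≠ 0 ∧
      GT O ρ N k mo M₀ (∏ p ∈ S, p ^ n.factorization p)
        (if (∏ p ∈ S, p ^ n.factorization p) % 3 = 1 then 0 else 1) := by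
    intro S
    induction S using Finset.induction_on with
    | empty =>
      intro _
      rw [Finset.prod_empty]
      exact ⟨by norm_num, by rw [if_pos (by norm_num)]; exact TPr_one⟩
    | insert p S hp ih =>
      intro hS
      have hpS : p ∈ n.primeFactors := hS (Finset.mem_insert_self p S)
      have hSS : S ⊆ n.primeFactors := fun q hq => hS (Finset.mem_insert_of_mem hq)
      have hpp : p.Prime := Nat.prime_of_mem_primeFactors hpS
      have h0 : ∀ q ∈ S, q.Prime := fun q hq => Nat.prime_of_mem_primeFactors (hSS hq)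
      have hne : (∏ q ∈ S, q ^ n.factorization q) ≠ 0 :=
        Finset.prod_ne_zero_iff.mpr fun q hq => pow_ne_zero _ (h0 q hq).ne_zero
      have hco : (p ^ n.factorization p).Coprime (∏ q ∈ S, q ^ n.factorization q) := by
        apply Nat.Coprime.prod_right
        intro q hq
        apply Nat.Coprime.pow
        rw [Nat.coprime_primes hpp (h0 q hq)]
        rintro rfl
        exact hp hq
      rw [Finset.prod_insert hp]
      obtain ⟨a1, a2⟩ := hpow p hpS (n.factorization p)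
      obtain ⟨b1, b2⟩ := ih hSS
      have h7 := gt_mul _ _ (pow_ne_zero _ hpp.ne_zero) hne hco a2 b2
      generalize p ^ n.factorization p = A at *
      generalize (∏ q ∈ S, q ^ n.factorization q) = B at *
      have hA : A % 3 = 1 ∨ A % 3 = 2 := by omega
      have hB : B % 3 = 1 ∨ B % 3 = 2 := by omega
      have hAB : A * B % 3 = (A % 3) * (B % 3) % 3 := Nat.mul_mod A B 3
      rcases hA with hA | hA <;> rcases hB with hB | hB <;> rw [hA, hB] at hAB h7 <;>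
        norm_num at hAB h7 <;> rw [hAB] <;> refine ⟨by norm_num, ?_⟩ <;> norm_num
      · exact h7
      · exact h7
      · exact h7
      · exact TPr_gmod h7 0 (by norm_num)
  have h1 := (key n.primeFactors (Finset.Subset.refl _)).2
  have h2 : (∏ p ∈ n.primeFactors, p ^ n.factorization p) = n := by
    rw [← Nat.prod_factorization_eq_prod_primeFactors]
    exact Nat.prod_factorization_pow_eq_self hn0
  rwa [h2] at h1

end Pool.Agent.Lib.MP_06b9d2_bm
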