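import Pool.Agent.Lib.MP_06b9d2_bm.DefsG
import Pool.Agent.Lib.MP_06b9d2_bm.TPr

/-!
Module BM-GPt. Closure properties of `GGT` (prime `3`).

As module GPr, with `prT_mod`, `prT_one`, `prT_mul`, `prT_add`, `prT_smul` (module TPr). `ggt_word`: induction on the list: `GT … n (if n % 3 = 1 then 0 else 1)` is `GGT … (TN n k)`; the parity of the product: for `m, n` prime to `3` `m n ≡ 1` iff `m ≡ n` modulo `3`; use `ggt_mod`.
`ggt_sum`: all words of `s` have products in the same class modulo `3`; the empty sum has the matrix `0` (the operator `0` maps every function to `0`, which is `DP`: `PrT` for every `ε`).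
-/

namespace Pool.Agent.Lib.MP_06b9d2_bm

open PowerSeries
open Pool.Agent.Lib.MP_06b9d2_tln (TN Mt Rp Sy act)

variable {O : ValuationSubring ℂ} {ρ : ℂ} {N k ε ε' : ℕ} {mo : ℕ → ℂ⟦X⟧} {M₀ : Mt N} {T T' : ℂ⟦X⟧ →ₗ[ℂ] ℂ⟦X⟧}

theorem ggt_mod (h : GGT O ρ N mo M₀ ε T) (hε : ε % 2 = ε' % 2) : GGT O ρ N mo M₀ ε' T := by
  obtain ⟨M, hR, hS, hC, h1, h2⟩ := h
  exact ⟨M, hR, hS, hC, prT_mod h1 ε' hε, prT_mod h2 ε' hε⟩

theorem ggt_id : GGT O ρ N mo M₀ 0 LinearMap.id :=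
  ⟨1, Pool.Agent.Lib.MP_06b9d2_tln.rp_one mo, Pool.Agent.Lib.MP_06b9d2_tln.sy_one, Commute.one_left _,
    prT_one, prT_one⟩

private theorem GPt_zero (ρ : ℂ) : PrT O ρ ε (0 : Mt N) := by
  intro σ f _
  refine ⟨fun _ => 0, ⟨0, fun s => ?_⟩, fun s => ?_⟩
  · rw [map_zero]
  · simp [act]

theorem ggt_zero : GGT O ρ N mo M₀ ε 0 := by
  refine ⟨0, ?_, ?_, Commute.zero_left _, GPt_zero 1, GPt_zero ρ⟩
  · intro s
    simp
  · intro j s
    rfl

theorem ggt_add (h : GGT O ρ N mo M₀ ε T) (h' : GGT O ρ N mo M₀ ε T') : GGT O ρ N mo M₀ ε (T + T') := by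
  obtain ⟨M, hR, hS, hC, h1, h2⟩ := h
  obtain ⟨M', hR', hS', hC', h1', h2'⟩ := h'
  exact ⟨M + M', Pool.Agent.Lib.MP_06b9d2_tln.rp_add hR hR', Pool.Agent.Lib.MP_06b9d2_tln.sy_add hS hS',
    hC.add_left hC', prT_add h1 h1', prT_add h2 h2'⟩

theorem ggt_smul (z : ℂ) (hz : O.valuation z ≤ 1) (h : GGT O ρ N mo M₀ ε T) : GGT O ρ N mo M₀ ε (z • T) := by
  obtain ⟨M, hR, hS, hC, h1, h2⟩ := h
  exact ⟨z • M, Pool.Agent.Lib.MP_06b9d2_tln.rp_smul z hR, Pool.Agent.Lib.MP_06b9d2_tln.sy_smul z hS,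
    hC.smul_left z, prT_smul z hz h1, prT_smul z hz h2⟩

theorem ggt_comp (h : GGT O ρ N mo M₀ ε T) (h' : GGT O ρ N mo M₀ ε' T') :
    GGT O ρ N mo M₀ (ε + ε') (T ∘ₗ T') := by
  obtain ⟨M, hR, hS, hC, h1, h2⟩ := h
  obtain ⟨M', hR', hS', hC', h1', h2'⟩ := h'
  exact ⟨M * M', Pool.Agent.Lib.MP_06b9d2_tln.rp_mul hR hR', Pool.Agent.Lib.MP_06b9d2_tln.sy_mul hS hS',
    hC.mul_left hC', prT_mul h1 h1', prT_mul h2 h2'⟩

private theorem GPt_prod (w : List ℕ) (hw : ∀ n ∈ w, n % 3 ≠ 0) : w.prod % 3 ≠ 0 := by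
  induction w with
  | nil => simp
  | cons n w ih =>
    have h1 := hw n (List.mem_cons_self ..)
    have h2 := ih fun m hm => hw m (List.mem_cons_of_mem _ hm)
    rw [List.prod_cons, Nat.mul_mod]
    have h3 : n % 3 = 1 ∨ n % 3 = 2 := by omega
    have h4 : w.prod % 3 = 1 ∨ w.prod % 3 = 2 := by omega
    rcases h3 with h3 | h3 <;> rcases h4 with h4 | h4 <;> rw [h3, h4] <;> norm_num

theorem ggt_word (w : List ℕ) (hw : ∀ n ∈ w, n % 3 ≠ 0)
    (h : ∀ n ∈ w, GT O ρ N k mo M₀ n (if n % 3 = 1 then 0 else 1)) :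
    GGT O ρ N mo M₀ (if w.prod % 3 = 1 then 0 else 1) (WT k w) := by
  induction w with
  | nil =>
    have e1 : (if ([] : List ℕ).prod % 3 = 1 then 0 else 1) = 0 := by simp
    rw [e1]
    exact ggt_id
  | cons n w ih =>
    have h1 := hw n (List.mem_cons_self ..)
    have h2 := GPt_prod w fun m hm => hw m (List.mem_cons_of_mem _ hm)
    have h3 := ih (fun m hm => hw m (List.mem_cons_of_mem _ hm)) (fun m hm => h m (List.mem_cons_of_mem _ hm))
    have h4 : GGT O ρ N mo M₀ (if n % 3 = 1 then 0 else 1) (TN n k) := h n (List.mem_cons_self ..)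
    have h5 := ggt_comp h4 h3
    have e2 : WT k (n :: w) = (TN n k) ∘ₗ (WT k w) := rfl
    rw [e2]
    refine ggt_mod h5 ?_
    rw [List.prod_cons, Nat.mul_mod]
    have h6 : n % 3 = 1 ∨ n % 3 = 2 := by omega
    have h7 : w.prod % 3 = 1 ∨ w.prod % 3 = 2 := by omega
    rcases h6 with h6 | h6 <;> rcases h7 with h7 | h7 <;> rw [h6, h7] <;> norm_num

theorem ggt_sum (s : Finset (List ℕ)) (z : List ℕ → ℂ) (hz : ∀ w ∈ s, O.valuation (z w) ≤ 1)
    (hw : ∀ w ∈ s, ∀ n ∈ w, n % 3 ≠ 0)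
    (h : ∀ w ∈ s, ∀ n ∈ w, GT O ρ N k mo M₀ n (if n % 3 = 1 then 0 else 1))
    (hε : ∀ w ∈ s, (if w.prod % 3 = 1 then 0 else 1) = ε) : GGT O ρ N mo M₀ ε (ST k s z) := by
  classical
  induction s using Finset.induction_on with
  | empty =>
    rw [ST, Finset.sum_empty]
    exact ggt_zero
  | insert w s hws ih =>
    have h1 := ih (fun v hv => hz v (Finset.mem_insert_of_mem hv)) (fun v hv => hw v (Finset.mem_insert_of_mem hv))
      (fun v hv => h v (Finset.mem_insert_of_mem hv)) (fun v hv => hε v (Finset.mem_insert_of_mem hv))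
    have h2 := ggt_word (O := O) (ρ := ρ) (N := N) (k := k) (mo := mo) (M₀ := M₀) w
      (hw w (Finset.mem_insert_self _ _)) (h w (Finset.mem_insert_self _ _))
    rw [hε w (Finset.mem_insert_self _ _)] at h2
    rw [ST, Finset.sum_insert hws]
    exact ggt_add (ggt_smul _ (hz w (Finset.mem_insert_self _ _)) h2) h1

end Pool.Agent.Lib.MP_06b9d2_bm
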