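import Mathlib

/-!
Module BM-GVa. A valuation ring of `ℂ` over the prime `p` whose valuation has rank one on the powers of `p`.

`exists_O1`: `ℂ` and `PadicAlgCl p` (`Mathlib.NumberTheory.Padics.Complex`: the algebraic closure of `ℚ_[p]` with its norm) are algebraically closed fields of characteristic `0` of cardinality continuum, hence isomorphic
(`IsAlgClosed.ringEquiv_of_equiv_of_charZero` or a similar name in `Mathlib/FieldTheory/IsAlgClosed/Classification.lean`). Cardinality: `Algebra.IsAlgebraic.cardinalMk_le_max`, `continuum_le_cardinal_of_nontriviallyNormedField` for `ℚ_[p]` (complete);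
`#ℚ_[p] ≤ 𝔠`: `ℚ_[p]` is a quotient of a set of sequences of rational numbers (or: separable metric space). Let `φ` be the isomorphism and `O` the preimage of `{x | ‖x‖ ≤ 1}` (`ValuationSubring.comap` of the valuation subring of `Valued.v`, or the definition by hand with the norm, which is nonarchimedean and multiplicative).
`O.valuation x ≤ O.valuation y ↔ ‖φ x‖ ≤ ‖φ y‖` (`ValuationSubring.valuation_le_iff`, or for `y ≠ 0`: `x / y ∈ O`). `‖φ p‖ = ‖p‖ = 1 / p < 1`; for `c ≠ 0` choose `u` with `p⁻¹ ^ u ≤ ‖φ c‖`.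
`scale_ex`: take `w₁ ∈ s` with `v(z w₁)` maximal (`Finset.exists_max_image`), it is not `0` as `v(z w₀) ≠ 0`; `c = (z w₁)⁻¹`.
-/

namespace Pool.Agent.Lib.MP_06b9d2_bm

open Cardinal in
private theorem GVa_card_padic (p : ℕ) [Fact p.Prime] : #ℚ_[p] ≤ 𝔠 := by
  have h1 : #ℚ_[p] ≤ #(CauSeq ℚ (padicNorm p)) := Cardinal.mk_quotient_le
  have h2 : #(CauSeq ℚ (padicNorm p)) ≤ #(ℕ → ℚ) := Cardinal.mk_subtype_le _
  refine h1.trans (h2.trans ?_)
  rw [← Cardinal.power_def, Cardinal.mk_nat, Cardinal.mkRat, Cardinal.aleph0_power_aleph0]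

open Cardinal in
private theorem GVa_card (p : ℕ) [Fact p.Prime] : #(PadicAlgCl p) = 𝔠 := by
  apply le_antisymm
  · refine (Algebra.IsAlgebraic.cardinalMk_le_max ℚ_[p] (PadicAlgCl p)).trans ?_
    exact max_le (GVa_card_padic p) Cardinal.aleph0_le_continuum
  · exact (continuum_le_cardinal_of_nontriviallyNormedField ℚ_[p]).trans
      (Cardinal.mk_le_of_injective (algebraMap ℚ_[p] (PadicAlgCl p)).injective)

open Cardinal in
private theorem GVa_iso (p : ℕ) [Fact p.Prime] : Nonempty (ℂ ≃+* PadicAlgCl p) := by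
  apply IsAlgClosed.ringEquiv_of_equiv_of_charZero
  · rw [Cardinal.mk_complex]
    exact Cardinal.aleph0_lt_continuum
  · rw [← Cardinal.eq, GVa_card, Cardinal.mk_complex]

theorem exists_O1 (p : ℕ) (hp : p.Prime) : ∃ O : ValuationSubring ℂ, O.valuation (p : ℂ) < 1 ∧
    ∀ c : ℂ, c ≠ 0 → ∃ u : ℕ, O.valuation ((p : ℂ) ^ u) ≤ O.valuation c := by
  haveI : Fact p.Prime := ⟨hp⟩
  obtain ⟨φ⟩ := GVa_iso p
  have hmem : ∀ x : ℂ, x ∈ ((Valued.v : Valuation (PadicAlgCl p) NNReal).valuationSubring).comap (φ : ℂ →+* PadicAlgCl p) ↔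
      ‖φ x‖ ≤ 1 := by
    intro x
    rw [ValuationSubring.mem_comap, Valuation.mem_valuationSubring_iff, PadicAlgCl.valuation_def]
    norm_cast
  obtain ⟨O, hO⟩ : ∃ O : ValuationSubring ℂ, ∀ x : ℂ, x ∈ O ↔ ‖φ x‖ ≤ 1 := ⟨_, hmem⟩
  have hle : ∀ x y : ℂ, y ≠ 0 → ‖φ x‖ ≤ ‖φ y‖ → O.valuation x ≤ O.valuation y := by
    intro x y hy h
    have h1 : x / y ∈ O := by
      rw [hO, map_div₀, norm_div]
      exact div_le_one_of_le₀ h (norm_nonneg _)
    have h2 : O.valuation (x / y) ≤ 1 := (O.valuation_le_one_iff _).2 h1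
    have h3 : x = x / y * y := by field_simp
    calc O.valuation x = O.valuation (x / y) * O.valuation y := by rw [← map_mul, ← h3]
      _ ≤ 1 * O.valuation y := by gcongr
      _ = O.valuation y := one_mul _
  have hpn : ‖φ (p : ℂ)‖ = (p : ℝ)⁻¹ := by
    rw [map_natCast]
    have h1 : ‖(p : PadicAlgCl p)‖ = ‖((p : ℚ_[p]) : PadicAlgCl p)‖ := by
      rw [map_natCast]
    rw [h1, PadicAlgCl.norm_extends, Padic.norm_p]
  have hp1 : (p : ℝ)⁻¹ < 1 := inv_lt_one_of_one_lt₀ (by exact_mod_cast hp.one_lt)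
  have hpC : (p : ℂ) ≠ 0 := by exact_mod_cast hp.ne_zero
  refine ⟨O, ?_, fun c hc => ?_⟩
  · rw [← not_le]
    intro h
    have h1 : O.valuation (p : ℂ)⁻¹ ≤ 1 := by
      rw [map_inv₀]
      exact inv_le_one_of_one_le₀ h
    have h2 : (p : ℂ)⁻¹ ∈ O := (O.valuation_le_one_iff _).1 h1
    rw [hO, map_inv₀, norm_inv, hpn, inv_inv] at h2
    have h3 : (1 : ℝ) < p := by exact_mod_cast hp.one_lt
    linarith
  · have hc' : 0 < ‖φ c‖ := by
      rw [norm_pos_iff]
      exact (map_ne_zero_iff _ φ.injective).2 hc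
    obtain ⟨u, hu⟩ := exists_pow_lt_of_lt_one hc' hp1
    refine ⟨u, hle _ _ hc ?_⟩
    rw [map_pow, norm_pow, hpn]
    exact hu.le

theorem scale_ex {ι : Type} (O : ValuationSubring ℂ) (s : Finset ι) (z : ι → ℂ) (w₀ : ι) (hw : w₀ ∈ s)
    (hz : z w₀ ≠ 0) : ∃ c : ℂ, c ≠ 0 ∧ ∀ w ∈ s, O.valuation (c * z w) ≤ 1 := by
  obtain ⟨w₁, hw₁, hmax⟩ := Finset.exists_max_image s (fun w => O.valuation (z w)) ⟨w₀, hw⟩
  have h0 : O.valuation (z w₁) ≠ 0 := by
    intro h
    have h1 : O.valuation (z w₀) ≤ 0 := h ▸ hmax w₀ hw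
    have h2 : O.valuation (z w₀) = 0 := le_antisymm h1 zero_le
    exact hz ((map_eq_zero _).1 h2)
  have h1 : z w₁ ≠ 0 := fun h => h0 (by rw [h, map_zero])
  refine ⟨(z w₁)⁻¹, inv_ne_zero h1, fun w hw => ?_⟩
  rw [map_mul, map_inv₀]
  calc (O.valuation (z w₁))⁻¹ * O.valuation (z w) ≤ (O.valuation (z w₁))⁻¹ * O.valuation (z w₁) := by
        gcongr
        exact hmax w hw
    _ = 1 := inv_mul_cancel₀ h0

end Pool.Agent.Lib.MP_06b9d2_bm
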