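import Pool.Agent.Lib.MP_06b9d2_bm.TLa
import Pool.Agent.Lib.MP_06b9d2_tls.DatB
import Pool.Agent.Lib.MP_06b9d2_ssp.POa
import Pool.Agent.Lib.MP_06b9d2_tln.OpB

/-!
Module BM-TBs. `T_7` acts on the polynomial functions over `O` as `c₀ + W (q + 3 (..))`, `q = s ^ 2 - N s`, `W ≠ 0` (3-adic).

`d : DatP O c κ`, `κ m n r = pc 1 c M ε m n r`, `c = cl 7 1` (`datP`, `7 % 9 = 7`). By `act3` (`e = 1`): `act M f s = c ^ N / 7 op κ' N f s`, `κ' m n r = (3 / c) ^ (m + n) κ m n r`. The sum `op κ' N f s` splits: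
`m + n = 0`: `κ 0 0 0 f`. `m + n = 1`: `h101`, `h010`, `h011`: `(3 / c) κ 1 0 0 N f`. `m + n = 2`: `C(N - s, 2) + C(s, 2) = (N ^ 2 - N) / 2 + q`, `(N - s) s = - q`, with `h202`, `h020`, `h022`, `h110`, `h112`: `(9 / c ^ 2) (κ 2 0 0 (N ^ 2 - N) / 2 + (κ 2 0 0 - κ 1 1 1) q) f`
plus the terms with `κ 2 0 1`, `κ 0 2 1`, which are `243 (..)` (`h201`, `h021`; `dm` has the denominator `2`, a unit). `W = c ^ N / 7 (9 / c ^ 2) (κ 2 0 0 - κ 1 1 1)`, `v(W) = v(81)` (`ht`).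
All other terms are `243 g`, `PO O g`: `m + n = 3`: `h30`, `h03` (`27 * 27 / 3!`), `int` for `(2, 1)`, `(1, 2)`: `27 * 9 / 2!`. `m + n ≥ 4`: `v(κ') ≤ v(3) ^ (m + n + (m + n + 1) / 2)` and `2 v_3(m! n!) ≤ m + n`: `(m + n) + (m + n + 1) / 2 - (m + n) / 2 ≥ 5` for `m + n ≥ 5`, and `v_3(m! n!) ≤ 1` for `m + n = 4`.
So with `κ₁` = `κ'` with the explicit terms removed: `v(κ₁ m n r) ≤ v(243 (m! n!))` and `op_err` (`MP_06b9d2_tln/OpB.lean`, with `B = 243`; its hypothesis is the valuation bound) applies; the explicit terms are computed with `op_lin` or by hand (compare `op_one` there).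
(`N ≤ 1`: the indices `m, n` are `≤ N`: for `s ≤ N` the missing terms vanish anyway as `dm N m n s = C(N - s, m) C(s, n) = 0` for `m > N - s` or `n > s`.)
-/

namespace Pool.Agent.Lib.MP_06b9d2_bm

open PowerSeries
open Pool.Agent.Lib.MP_06b9d2_ssp (PO)
open Pool.Agent.Lib.MP_06b9d2_tln (Mt act Rq)
open Pool.Agent.Lib.MP_06b9d2_tls (Core MatD PL DatP)

private theorem TBs_dm0 {N : ℕ} (a b s : ℕ) (hs : s ≤ N) (h : ¬ (a ≤ N ∧ b ≤ N)) :
    Pool.Agent.Lib.MP_06b9d2_tln.dm N a b ((s : ℕ) : ℤ) = 0 := by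
  unfold Pool.Agent.Lib.MP_06b9d2_tln.dm
  by_cases ha : a ≤ N
  · have hb : N < b := by omega
    have h1 : ∏ i ∈ Finset.range b, ((((s : ℕ) : ℤ) : ℂ) - (i : ℂ)) = 0 := by
      apply Finset.prod_eq_zero (i := s) (Finset.mem_range.2 (by omega))
      push_cast
      ring
    rw [h1, mul_zero, zero_div]
  · have h1 : ∏ i ∈ Finset.range a, ((N : ℂ) - (((s : ℕ) : ℤ) : ℂ) - (i : ℂ)) = 0 := by
      apply Finset.prod_eq_zero (i := N - s) (Finset.mem_range.2 (by omega))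
      rw [Nat.cast_sub hs]
      push_cast
      ring
    rw [h1, zero_mul, zero_div]

private theorem TBs_delta {N : ℕ} (a b t : ℕ) (ht : t ≤ a + b) (y : ℂ) (f : ℤ → ℂ) (s : ℕ) (hs : s ≤ N) :
    Pool.Agent.Lib.MP_06b9d2_tln.op (fun m n r => if m = a ∧ n = b ∧ r = t then y else 0) N f ((s : ℕ) : ℤ) =
      y * (Pool.Agent.Lib.MP_06b9d2_tln.dm N a b ((s : ℕ) : ℤ) * f (((s : ℕ) : ℤ) - (b : ℤ) + (t : ℤ))) := by
  by_cases hab : a ≤ N ∧ b ≤ N
  · unfold Pool.Agent.Lib.MP_06b9d2_tln.op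
    rw [Finset.sum_eq_single a, Finset.sum_eq_single b, Finset.sum_eq_single t]
    · dsimp only
      rw [if_pos ⟨rfl, rfl, rfl⟩]
    · intro r _ hr
      dsimp only
      rw [if_neg (fun h => hr h.2.2), zero_mul]
    · intro h
      exact absurd (Finset.mem_range.2 (by omega)) h
    · intro n _ hn
      refine Finset.sum_eq_zero fun r _ => ?_
      dsimp only
      rw [if_neg (fun h => hn h.2.1), zero_mul]
    · intro h
      exact absurd (Finset.mem_range.2 (by omega)) h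
    · intro m _ hm
      refine Finset.sum_eq_zero fun n _ => Finset.sum_eq_zero fun r _ => ?_
      dsimp only
      rw [if_neg (fun h => hm h.1), zero_mul]
    · intro h
      exact absurd (Finset.mem_range.2 (by omega)) h
  · rw [TBs_dm0 a b s hs hab, zero_mul, mul_zero]
    unfold Pool.Agent.Lib.MP_06b9d2_tln.op
    refine Finset.sum_eq_zero fun m hm => Finset.sum_eq_zero fun n hn => Finset.sum_eq_zero fun r _ => ?_
    rw [Finset.mem_range] at hm hn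
    dsimp only
    rw [if_neg (fun h => hab ⟨by omega, by omega⟩), zero_mul]

private theorem TBs_fact (m : ℕ) : 2 * padicValNat 3 m.factorial ≤ m - 1 := by
  have : Fact (Nat.Prime 3) := ⟨Nat.prime_three⟩
  have h := sub_one_mul_padicValNat_factorial (p := 3) m
  rcases Nat.eq_zero_or_pos m with h0 | h0
  · subst h0; simp
  · have h1 : 1 ≤ (Nat.digits 3 m).sum := by
      by_contra hc
      have h2 : (Nat.digits 3 m).sum = 0 := by omega
      have h4 : m ≠ 0 := by omega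
      have h5 := Nat.getLast_digit_ne_zero 3 h4
      have h6 := List.getLast_mem (l := Nat.digits 3 m) (Nat.digits_ne_nil_iff_ne_zero.2 h4)
      exact h5 (List.sum_eq_zero_iff.1 h2 _ h6)
    omega

private theorem TBs_pow {O : ValuationSubring ℂ} (h3 : O.valuation 3 < 1) {i j : ℕ} (h : i ≤ j) :
    O.valuation 3 ^ j ≤ O.valuation 3 ^ i := by
  obtain ⟨t, rfl⟩ : ∃ t, j = i + t := ⟨j - i, by omega⟩
  rw [pow_add]
  exact mul_le_of_le_one_right' (pow_le_one' h3.le t)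

private theorem TBs_v243 {O : ValuationSubring ℂ} (h3 : O.valuation 3 < 1) (m n k : ℕ)
    (h : 5 + padicValNat 3 (m.factorial * n.factorial) ≤ k) :
    O.valuation 3 ^ k ≤ O.valuation ((243 : ℂ) * ((m.factorial * n.factorial : ℕ) : ℂ)) := by
  have : Fact (Nat.Prime 3) := ⟨Nat.prime_three⟩
  obtain ⟨e, he⟩ : ∃ e, e = padicValNat 3 (m.factorial * n.factorial) := ⟨_, rfl⟩
  rw [← he] at h
  have hne : m.factorial * n.factorial ≠ 0 :=
    mul_ne_zero (Nat.factorial_ne_zero m) (Nat.factorial_ne_zero n)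
  obtain ⟨b, hb⟩ : 3 ^ e ∣ m.factorial * n.factorial := by rw [he]; exact pow_padicValNat_dvd
  have hb3 : ¬ 3 ∣ b := by
    intro hd
    have h1 : 3 ^ (e + 1) ∣ m.factorial * n.factorial := by
      rw [hb, pow_succ]
      exact mul_dvd_mul_left _ hd
    rw [he] at h1
    exact pow_succ_padicValNat_not_dvd hne h1
  have hvb : O.valuation ((b : ℕ) : ℂ) = 1 := by
    have h1 := MP_06b9d2_ssp.val_int h3 (b : ℤ) (by exact_mod_cast hb3)
    simpa using h1
  have e1 : (243 : ℂ) * ((m.factorial * n.factorial : ℕ) : ℂ) = 3 ^ (5 + e) * ((b : ℕ) : ℂ) := by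
    rw [hb, pow_add]
    push_cast
    norm_num
    ring
  rw [e1, map_mul, map_pow, hvb, mul_one]
  exact TBs_pow h3 h

theorem base7 {A Y : ℂ⟦X⟧} (h : Core A Y) {O : ValuationSubring ℂ} (h3 : O.valuation 3 < 1)
    {M : ℕ → ℕ → ℕ → ℕ → ℂ} (hM : MatD 7 1 A Y M) (ε N : ℕ) (hε : ε ≤ 2) :
    ∃ c₀ W : ℂ, W ≠ 0 ∧ ∀ f : ℤ → ℂ, PO O f → ∃ g : ℤ → ℂ, PO O g ∧ ∀ s : Fin (N + 1),
      act (mt3 7 M ε N) f s = c₀ * f ((s : ℕ) : ℤ) + W * (Rq N f ((s : ℕ) : ℤ) + 3 * g ((s : ℕ) : ℤ)) := by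
  have hl : PL 7 1 Pool.Agent.Lib.MP_06b9d2_tls.om :=
    ⟨by norm_num, Or.inl ⟨by norm_num, rfl, rfl⟩⟩
  have d := Pool.Agent.Lib.MP_06b9d2_tls.datP h h3 hl (Or.inr (by norm_num)) hM ε hε
  have hact := fun (f : ℤ → ℂ) (s : Fin (N + 1)) => act3 h hl hM ε N hε f s
  obtain ⟨c, hc⟩ : ∃ c, c = Pool.Agent.Lib.MP_06b9d2_tls.cl 7 1 := ⟨_, rfl⟩
  rw [← hc] at d
  have hvc : O.valuation c = 1 := d.hc
  have hc0 : c ≠ 0 := by
    rintro h0
    rw [h0, map_zero] at hvc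
    exact zero_ne_one hvc
  obtain ⟨κ, hκ⟩ : ∃ κ : ℕ → ℕ → ℕ → ℂ, κ = fun m n r => Pool.Agent.Lib.MP_06b9d2_tls.pc 1 c M ε m n r :=
    ⟨_, rfl⟩
  rw [← hκ] at d
  obtain ⟨K, hK⟩ : ∃ K : ℕ → ℕ → ℕ → ℂ, K = fun m n r => (3 / c) ^ (m + n) * κ m n r := ⟨_, rfl⟩
  have hk3 : k3 1 c M ε = K := by
    funext m n r
    rw [hK, hκ]
    unfold k3
    simp only [mul_one, pow_add]
  have hv : ∀ m n r, O.valuation (K m n r) = O.valuation 3 ^ (m + n) * O.valuation (κ m n r) := by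
    intro m n r
    rw [hK]
    simp only [map_mul, map_pow, map_div₀, hvc, div_one]
  have hKz : ∀ m n r, κ m n r = 0 → K m n r = 0 := by
    intro m n r h0
    rw [hK]
    simp only [h0, mul_zero]
  -- the explicit part
  obtain ⟨E, hE⟩ : ∃ E : ℕ → ℕ → ℕ → Prop, E = fun m n r =>
      (m = 0 ∧ n = 0 ∧ r = 0) ∨ (m = 1 ∧ n = 0 ∧ r = 0) ∨ (m = 0 ∧ n = 1 ∧ r = 1) ∨
      (m = 2 ∧ n = 0 ∧ r = 0) ∨ (m = 0 ∧ n = 2 ∧ r = 2) ∨ (m = 1 ∧ n = 1 ∧ r = 1) := ⟨_, rfl⟩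
  classical
  obtain ⟨K1, hK1⟩ : ∃ K1 : ℕ → ℕ → ℕ → ℂ, K1 = fun m n r => if E m n r then 0 else K m n r := ⟨_, rfl⟩
  have v27 : O.valuation (27 : ℂ) = O.valuation 3 ^ 3 := by
    rw [← map_pow]
    norm_num
  have v9 : O.valuation (9 : ℂ) = O.valuation 3 ^ 2 := by
    rw [← map_pow]
    norm_num
  have hbd : ∀ m n r, O.valuation (K1 m n r) ≤
      O.valuation ((243 : ℂ) * ((m.factorial * n.factorial : ℕ) : ℂ)) := by
    intro m n r
    have : Fact (Nat.Prime 3) := ⟨Nat.prime_three⟩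
    have hfac : padicValNat 3 (m.factorial * n.factorial) =
        padicValNat 3 m.factorial + padicValNat 3 n.factorial :=
      padicValNat.mul (Nat.factorial_ne_zero m) (Nat.factorial_ne_zero n)
    have hf1 := TBs_fact m
    have hf2 := TBs_fact n
    have hz : K1 m n r = 0 → O.valuation (K1 m n r) ≤
        O.valuation ((243 : ℂ) * ((m.factorial * n.factorial : ℕ) : ℂ)) := by
      intro h0
      rw [h0, map_zero]
      exact zero_le
    by_cases hEE : E m n r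
    · apply hz
      rw [hK1]
      simp only [if_pos hEE]
    have hKK : K1 m n r = K m n r := by
      rw [hK1]
      simp only [if_neg hEE]
    by_cases hdeg : m + n < r
    · apply hz
      rw [hKK]
      exact hKz _ _ _ (d.deg m n r hdeg)
    have key : ∀ j : ℕ, O.valuation (κ m n r) ≤ O.valuation 3 ^ j →
        5 + padicValNat 3 (m.factorial * n.factorial) ≤ m + n + j →
        O.valuation (K1 m n r) ≤ O.valuation ((243 : ℂ) * ((m.factorial * n.factorial : ℕ) : ℂ)) := by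
      intro j h1 h2
      rw [hKK, hv]
      refine le_trans ?_ (TBs_v243 h3 m n (m + n + j) h2)
      rw [pow_add (O.valuation 3) (m + n) j]
      exact mul_le_mul_right h1 _
    by_cases hbig : 4 ≤ m + n
    · refine key ((m + n + 1) / 2) (d.int m n r) ?_
      omega
    rw [hE] at hEE
    by_cases h4 : m + n = 3
    · rcases Nat.lt_or_ge 0 m with hm | hm
      · rcases Nat.lt_or_ge 0 n with hn | hn
        · refine key ((m + n + 1) / 2) (d.int m n r) ?_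
          omega
        · obtain rfl : n = 0 := by omega
          obtain rfl : m = 3 := by omega
          refine key 3 (by rw [← v27]; exact d.h30 r) ?_
          omega
      · obtain rfl : m = 0 := by omega
        obtain rfl : n = 3 := by omega
        refine key 3 (by rw [← v27]; exact d.h03 r) ?_
        omega
    have hsmall : m + n ≤ 2 := by omega
    have hr : r ≤ m + n := by omega
    have hm2 : m ≤ 2 := by omega
    have hn2 : n ≤ 2 := by omega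
    have hr2 : r ≤ 2 := by omega
    interval_cases m <;> interval_cases n <;> interval_cases r <;>
      first
      | exact absurd (by decide) hEE
      | (exfalso; omega)
      | exact hz (by rw [hKK]; exact hKz _ _ _ d.h101)
      | exact hz (by rw [hKK]; exact hKz _ _ _ d.h010)
      | exact hz (by rw [hKK]; exact hKz _ _ _ d.h202)
      | exact hz (by rw [hKK]; exact hKz _ _ _ d.h020)
      | exact hz (by rw [hKK]; exact hKz _ _ _ d.h110)
      | exact hz (by rw [hKK]; exact hKz _ _ _ d.h112)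
      | exact key 3 (by rw [← v27]; exact d.h201) (by omega)
      | exact key 3 (by rw [← v27]; exact d.h021) (by omega)
  have hsplit : K = fun m n r => K1 m n r + 1 * ((if m = 0 ∧ n = 0 ∧ r = 0 then K 0 0 0 else 0) +
      1 * ((if m = 1 ∧ n = 0 ∧ r = 0 then K 1 0 0 else 0) +
      1 * ((if m = 0 ∧ n = 1 ∧ r = 1 then K 0 1 1 else 0) +
      1 * ((if m = 2 ∧ n = 0 ∧ r = 0 then K 2 0 0 else 0) +
      1 * ((if m = 0 ∧ n = 2 ∧ r = 2 then K 0 2 2 else 0) +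
      1 * (if m = 1 ∧ n = 1 ∧ r = 1 then K 1 1 1 else 0)))))) := by
    funext m n r
    rw [hK1]
    by_cases hEE : E m n r
    · simp only [if_pos hEE]
      rw [hE] at hEE
      rcases hEE with h0 | h0 | h0 | h0 | h0 | h0 <;>
      · obtain ⟨rfl, rfl, rfl⟩ := h0
        simp
    · simp only [if_neg hEE]
      rw [hE] at hEE
      push Not at hEE
      obtain ⟨g1, g2, g3, g4, g5, g6⟩ := hEE
      rw [if_neg (fun h => g1 h.1 h.2.1 h.2.2), if_neg (fun h => g2 h.1 h.2.1 h.2.2),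
        if_neg (fun h => g3 h.1 h.2.1 h.2.2), if_neg (fun h => g4 h.1 h.2.1 h.2.2),
        if_neg (fun h => g5 h.1 h.2.1 h.2.2), if_neg (fun h => g6 h.1 h.2.1 h.2.2)]
      ring
  have h011 : K 0 1 1 = K 1 0 0 := by rw [hK]; simp only [d.h011]
  have h022 : K 0 2 2 = K 2 0 0 := by rw [hK]; simp only [d.h022]
  have hop : ∀ (f : ℤ → ℂ) (s : ℕ), s ≤ N → Pool.Agent.Lib.MP_06b9d2_tln.op K N f ((s : ℕ) : ℤ) =
      Pool.Agent.Lib.MP_06b9d2_tln.op K1 N f ((s : ℕ) : ℤ) +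
      (K 0 0 0 + K 1 0 0 * N + K 2 0 0 * (((N : ℂ) ^ 2 - N) / 2)) * f ((s : ℕ) : ℤ) +
      (K 2 0 0 - K 1 1 1) * Rq N f ((s : ℕ) : ℤ) := by
    intro f s hs
    rw [show Pool.Agent.Lib.MP_06b9d2_tln.op K N f ((s : ℕ) : ℤ) =
      Pool.Agent.Lib.MP_06b9d2_tln.op (fun m n r => K1 m n r + 1 * ((if m = 0 ∧ n = 0 ∧ r = 0 then K 0 0 0 else 0) +
      1 * ((if m = 1 ∧ n = 0 ∧ r = 0 then K 1 0 0 else 0) +
      1 * ((if m = 0 ∧ n = 1 ∧ r = 1 then K 0 1 1 else 0) +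
      1 * ((if m = 2 ∧ n = 0 ∧ r = 0 then K 2 0 0 else 0) +
      1 * ((if m = 0 ∧ n = 2 ∧ r = 2 then K 0 2 2 else 0) +
      1 * (if m = 1 ∧ n = 1 ∧ r = 1 then K 1 1 1 else 0))))))) N f ((s : ℕ) : ℤ) from
      congrArg (fun k => Pool.Agent.Lib.MP_06b9d2_tln.op k N f ((s : ℕ) : ℤ)) hsplit]
    rw [Pool.Agent.Lib.MP_06b9d2_tln.op_lin, Pool.Agent.Lib.MP_06b9d2_tln.op_lin,
      Pool.Agent.Lib.MP_06b9d2_tln.op_lin, Pool.Agent.Lib.MP_06b9d2_tln.op_lin,
      Pool.Agent.Lib.MP_06b9d2_tln.op_lin, Pool.Agent.Lib.MP_06b9d2_tln.op_lin,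
      TBs_delta 0 0 0 (by omega) _ f s hs, TBs_delta 1 0 0 (by omega) _ f s hs,
      TBs_delta 0 1 1 (by omega) _ f s hs, TBs_delta 2 0 0 (by omega) _ f s hs,
      TBs_delta 0 2 2 (by omega) _ f s hs, TBs_delta 1 1 1 (by omega) _ f s hs, h011, h022]
    have e0 : ((s : ℕ) : ℤ) - ((0 : ℕ) : ℤ) + ((0 : ℕ) : ℤ) = ((s : ℕ) : ℤ) := by simp
    have e1 : ((s : ℕ) : ℤ) - ((1 : ℕ) : ℤ) + ((1 : ℕ) : ℤ) = ((s : ℕ) : ℤ) := by ring
    have e2 : ((s : ℕ) : ℤ) - ((2 : ℕ) : ℤ) + ((2 : ℕ) : ℤ) = ((s : ℕ) : ℤ) := by ring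
    rw [e0, e1, e2]
    unfold Pool.Agent.Lib.MP_06b9d2_tln.dm Rq
    simp only [Finset.prod_range_succ, Finset.prod_range_zero, Nat.factorial]
    push_cast
    ring
  -- the unit
  have hval : O.valuation (K 2 0 0 - K 1 1 1) = O.valuation 81 := by
    have e1 : K 2 0 0 - K 1 1 1 = (3 / c) ^ 2 * (κ 2 0 0 - κ 1 1 1) := by
      rw [hK]
      ring
    rw [e1, map_mul, map_pow, map_div₀, hvc, div_one, d.ht, v9, ← pow_add, ← map_pow]
    norm_num
  have h81 : O.valuation (81 : ℂ) ≠ 0 := (map_ne_zero _).mpr (by norm_num)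
  have hne : K 2 0 0 - K 1 1 1 ≠ 0 := by
    intro h0
    rw [h0, map_zero] at hval
    exact h81 hval.symm
  have hcN : c ^ N / 7 ≠ 0 := div_ne_zero (pow_ne_zero _ hc0) (by norm_num)
  refine ⟨c ^ N / 7 * (K 0 0 0 + K 1 0 0 * N + K 2 0 0 * (((N : ℂ) ^ 2 - N) / 2)),
    c ^ N / 7 * (K 2 0 0 - K 1 1 1), mul_ne_zero hcN hne, ?_⟩
  intro f hf
  obtain ⟨g₁, hg₁, hgs⟩ := Pool.Agent.Lib.MP_06b9d2_tln.op_err (O := O) (N := N) 243 (by norm_num) K1 hbd f hf
  refine ⟨fun s => (81 / (K 2 0 0 - K 1 1 1)) * g₁ s,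
    MP_06b9d2_ssp.PO_mul (MP_06b9d2_ssp.PO_const _ ?_) hg₁, fun s => ?_⟩
  · rw [map_div₀, hval, div_self h81]
  · have h1 := hact f s
    rw [← hc, hk3, one_mul, one_pow, one_mul, hop f s (by omega), hgs] at h1
    rw [h1]
    push_cast
    field_simp
    ring

end Pool.Agent.Lib.MP_06b9d2_bm
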