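import Pool.Agent.Lib.MP_06b9d2_bm.TLa
import Pool.Agent.Lib.MP_06b9d2_bm.Dp
import Pool.Agent.Lib.MP_06b9d2_bm.Nt
import Pool.Agent.Lib.MP_06b9d2_tls.PcI
import Pool.Agent.Lib.MP_06b9d2_tls.PcJ
import Pool.Agent.Lib.MP_06b9d2_ssp.Ind

/-!
Module BM-TLb. The matrices of the `T_l`, `l ≠ 3` a prime, have the properties `GT`.

`cl_unit`: `e = 1`: `c = l (l ^ 2 + 1) / (l + 1)`, `l ≡ 1`: numerator and denominator are prime to `3`; `e = -1`: `c = l (l - 1)`, `l ≡ 2`. `r3_sq`: `v(r3) ^ 2 = v(3)`.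
`fac3`: `v(m!) ^ 2 ≥ v(3) ^ m` (`2 v_3(m!) ≤ m`: `sub_one_mul_padicValNat_factorial`: `2 v_3(m!) = m - (digit sum)`).
`kb3`: `v(k3 …) ≤ v(3) ^ (m + n)` (`pcP`, `pcM`, `cl_unit`, `v(e) = 1`); compare the squares: `v(3) ^ (2 (m + n)) ≤ v(r3 ^ (m + n)) ^ 2 v(m! n!) ^ 2` as `2 t ≥ t + t`. The same bound with `ρ = 1`.
`prT_l`: `act3`; for `f₀(t) = (-1) ^ (σ |t|) f(t)`: `op κ N f₀ s = (-1) ^ (σ s) op κ'' N f s` for `0 ≤ s ≤ N`, `κ'' m n r = (-1) ^ (σ (n + r)) κ m n r`: termwise, `dm N m n s = 0` if `n > s` (`Finset.prod_eq_zero`), and for `n ≤ s`: `|s - n + r| = s - n + r ≡ s + n + r` modulo `2`. `dp_op` for `κ''`.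
`e ^ s = (-1) ^ (ε' s)`, `ε' = 0` for `e = 1`, `1` for `e = -1`; `v((e c) ^ N / l) = 1`. `rp_uni3`: `ind`. `cm3`: as `cm_l` in module AsB with `7` for `3`. `gt_l`: for every prime `l ≠ 3` there are `e`, `s0` with `PL l e s0` (`l % 3 = 1, 2`), and `matD_ex`.
-/

namespace Pool.Agent.Lib.MP_06b9d2_bm

open PowerSeries Pool.Agent.L1
open Pool.Agent.Lib.MP_06b9d2_tln (TN Mt Rp Sy act op)
open Pool.Agent.Lib.MP_06b9d2_tls (Core Qd MatD PL cl)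
open Pool.Agent.Lib.MP_06b9d2_ssp (Lv mo)

variable {A Y : ℂ⟦X⟧} {a k c : ℤ⟦X⟧} {l : ℕ} {e s0 : ℂ} {M M7 : ℕ → ℕ → ℕ → ℕ → ℂ} {O : ValuationSubring ℂ}

theorem cl_unit (h3 : O.valuation 3 < 1) (hl : PL l e s0) : O.valuation (cl l e) = 1 := by
  have vp : ∀ n : ℕ, ¬ 3 ∣ n → O.valuation (n : ℂ) = 1 := fun n hn =>
    Pool.Agent.Lib.MP_06b9d2_tls.v_prime h3 n hn
  have hl1 : (l : ℂ) + 1 ≠ 0 := by exact_mod_cast Nat.succ_ne_zero l
  rcases hl.2 with ⟨h1, he, -⟩ | ⟨h1, he, -⟩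
  · have e1 : cl l e = ((l : ℕ) : ℂ) * ((l ^ 2 + 1 : ℕ) : ℂ) / ((l + 1 : ℕ) : ℂ) := by
      rw [he]
      unfold cl
      push_cast
      ring
    have m2 : (l ^ 2 + 1) % 3 = 2 := by
      have : l ^ 2 % 3 = 1 := by rw [Nat.pow_mod, h1]
      omega
    rw [e1, map_div₀, map_mul, vp l (by omega), vp (l ^ 2 + 1) (by omega), vp (l + 1) (by omega)]
    simp
  · obtain ⟨t, ht⟩ : ∃ t, l = t + 1 := ⟨l - 1, by have := hl.1.two_le; omega⟩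
    have e1 : cl l e = ((l : ℕ) : ℂ) * ((t : ℕ) : ℂ) := by
      rw [he]
      unfold cl
      rw [ht]
      rw [ht] at hl1
      push_cast at hl1 ⊢
      rw [div_eq_iff hl1]
      ring
    rw [e1, map_mul, vp l (by omega), vp t (by omega), one_mul]

theorem r3_sq (h3 : O.valuation 3 < 1) : O.valuation r3 ^ 2 = O.valuation 3 ∧ O.valuation r3 < 1 ∧ r3 ≠ 0 := by
  have e1 : r3 ^ 2 = 3 := by
    unfold r3
    rw [← Complex.ofReal_pow, Real.sq_sqrt (by norm_num)]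
    norm_num
  have e2 : O.valuation r3 ^ 2 = O.valuation 3 := by rw [← map_pow, e1]
  refine ⟨e2, ?_, ?_⟩
  · by_contra hc
    have h2 : 1 ≤ O.valuation r3 ^ 2 := one_le_pow₀ (not_lt.1 hc)
    rw [e2] at h2
    exact absurd h3 (not_lt.2 h2)
  · intro h0
    rw [h0] at e1
    norm_num at e1

private theorem TLb_v3 : O.valuation (3 : ℂ) ≠ 0 := (Valuation.ne_zero_iff _).2 (by norm_num)

private theorem TLb_fac (h3 : O.valuation 3 < 1) (m : ℕ) :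
    O.valuation 3 ^ m ≤ O.valuation ((m.factorial : ℕ) : ℂ) ^ 2 := by
  have hf : Fact (Nat.Prime 3) := ⟨Nat.prime_three⟩
  have h2 : (3 - 1) * padicValNat 3 m.factorial ≤ m := by
    rw [sub_one_mul_padicValNat_factorial]
    exact Nat.sub_le _ _
  obtain ⟨t, ht⟩ : ∃ t, t = padicValNat 3 m.factorial := ⟨_, rfl⟩
  obtain ⟨u, hu⟩ : 3 ^ t ∣ m.factorial := by
    rw [ht]
    exact pow_padicValNat_dvd
  have hu3 : ¬ 3 ∣ u := by
    rintro ⟨w, rfl⟩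
    have h4 : 3 ^ (t + 1) ∣ m.factorial := ⟨w, by rw [hu]; ring⟩
    have h5 := (padicValNat_dvd_iff_le m.factorial_ne_zero).1 h4
    omega
  have h6 : O.valuation ((m.factorial : ℕ) : ℂ) = O.valuation 3 ^ t := by
    rw [hu, Nat.cast_mul, map_mul, Pool.Agent.Lib.MP_06b9d2_tls.v_prime h3 u hu3, mul_one,
      Nat.cast_pow, map_pow]
    norm_num
  rw [h6, ← pow_mul]
  exact pow_le_pow_of_le_one zero_le h3.le (by omega)

private theorem TLb_e (hl : PL l e s0) : O.valuation e = 1 := by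
  rcases hl.2 with ⟨_, he, _⟩ | ⟨_, he, _⟩ <;> rw [he] <;> simp [Valuation.map_neg]

private theorem TLb_pc (h : Core A Y) (h3 : O.valuation 3 < 1) (hl : PL l e s0) (hM : MatD l e A Y M)
    (ε m n r : ℕ) (hε : ε ≤ 2) :
    O.valuation (Pool.Agent.Lib.MP_06b9d2_tls.pc e (cl l e) M ε m n r) ≤ 1 := by
  have hF : Fact (ε < 3) := ⟨by omega⟩
  rcases hl.2 with ⟨h1, he, _⟩ | ⟨h1, he, _⟩
  · subst he
    exact (Pool.Agent.Lib.MP_06b9d2_tls.pcP h h3 hl hM ε m n r).trans (pow_le_one₀ zero_le h3.le)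
  · subst he
    exact (Pool.Agent.Lib.MP_06b9d2_tls.pcM h h3 hl hM ε m n r).trans h3.le

private theorem TLb_k (h : Core A Y) (h3 : O.valuation 3 < 1) (hl : PL l e s0) (hM : MatD l e A Y M)
    (ε m n r : ℕ) (hε : ε ≤ 2) :
    O.valuation (k3 e (cl l e) M ε m n r) ≤ O.valuation 3 ^ (m + n) := by
  unfold k3
  rw [map_mul, map_mul, map_pow, map_pow, map_div₀, map_div₀, map_mul, cl_unit h3 hl, TLb_e hl, mul_one,
    div_one, ← pow_add]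
  exact mul_le_of_le_one_right' (TLb_pc h h3 hl hM ε m n r hε)

theorem kb3 (h : Core A Y) (h3 : O.valuation 3 < 1) (hl : PL l e s0) (hM : MatD l e A Y M) (ε m n r : ℕ) (hε : ε ≤ 2) :
    O.valuation (k3 e (cl l e) M ε m n r) ≤ O.valuation (r3 ^ (m + n) * ((m.factorial * n.factorial : ℕ) : ℂ)) := by
  refine (TLb_k h h3 hl hM ε m n r hε).trans ?_
  refine (pow_le_pow_iff_left₀ zero_le zero_le two_ne_zero).1 ?_
  have e1 : O.valuation (r3 ^ (m + n) * ((m.factorial * n.factorial : ℕ) : ℂ)) ^ 2 =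
      O.valuation 3 ^ (m + n) *
        (O.valuation ((m.factorial : ℕ) : ℂ) ^ 2 * O.valuation ((n.factorial : ℕ) : ℂ) ^ 2) := by
    rw [← (r3_sq h3).1, Nat.cast_mul, map_mul, map_mul, map_pow, mul_pow, mul_pow, ← pow_mul,
      ← pow_mul, mul_comm 2 (m + n)]
  rw [e1, pow_two]
  refine mul_le_mul' le_rfl ?_
  rw [pow_add]
  exact mul_le_mul' (TLb_fac h3 m) (TLb_fac h3 n)

theorem kb31 (h : Core A Y) (h3 : O.valuation 3 < 1) (hl : PL l e s0) (hM : MatD l e A Y M) (ε m n r : ℕ) (hε : ε ≤ 2) :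
    O.valuation (k3 e (cl l e) M ε m n r) ≤
      O.valuation ((1 : ℂ) ^ (m + n) * ((m.factorial * n.factorial : ℕ) : ℂ)) := by
  refine (TLb_k h h3 hl hM ε m n r hε).trans ?_
  refine (pow_le_pow_iff_left₀ zero_le zero_le two_ne_zero).1 ?_
  rw [one_pow, one_mul, Nat.cast_mul, map_mul, mul_pow]
  have h4 : (O.valuation (3 : ℂ) ^ (m + n)) ^ 2 ≤ O.valuation 3 ^ m * O.valuation 3 ^ n := by
    rw [← pow_mul, ← pow_add]
    exact pow_le_pow_of_le_one zero_le h3.le (by omega)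
  exact h4.trans (mul_le_mul' (TLb_fac h3 m) (TLb_fac h3 n))

private theorem TLb_sgn (a b : ℕ) (h : a % 2 = b % 2) : (-1 : ℂ) ^ a = (-1) ^ b := by
  rcases Nat.even_or_odd a with ha | ha
  · have hb : Even b := by
      rw [Nat.even_iff] at ha ⊢
      omega
    rw [ha.neg_one_pow, hb.neg_one_pow]
  · have hb : Odd b := by
      rw [Nat.odd_iff] at ha ⊢
      omega
    rw [ha.neg_one_pow, hb.neg_one_pow]

private theorem TLb_op (κ : ℕ → ℕ → ℕ → ℂ) (N σ : ℕ) (f : ℤ → ℂ) (s : ℕ) (hs : s ≤ N) :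
    op κ N (fun t => (-1 : ℂ) ^ (σ * t.natAbs) * f t) (s : ℤ) =
      (-1 : ℂ) ^ (σ * s) * op (fun m n r => (-1 : ℂ) ^ (σ * (n + r)) * κ m n r) N f (s : ℤ) := by
  unfold op
  rw [Finset.mul_sum]
  refine Finset.sum_congr rfl fun m _ => ?_
  rw [Finset.mul_sum]
  refine Finset.sum_congr rfl fun n _ => ?_
  rw [Finset.mul_sum]
  refine Finset.sum_congr rfl fun r _ => ?_
  rcases Nat.lt_or_ge s n with hn | hn
  · rw [Pool.Agent.Lib.MP_06b9d2_tln.dm_nat N m n s hs, Nat.choose_eq_zero_of_lt hn]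
    simp
  · have e1 : ((s : ℤ) - n + r).natAbs = s - n + r := by omega
    have e2 : (-1 : ℂ) ^ (σ * (s - n + r)) = (-1 : ℂ) ^ (σ * s) * (-1 : ℂ) ^ (σ * (n + r)) := by
      rw [← pow_add, ← mul_add]
      apply TLb_sgn
      rw [Nat.mul_mod, Nat.mul_mod σ (s + (n + r))]
      congr 2
      omega
    show κ m n r * (Pool.Agent.Lib.MP_06b9d2_tln.dm N m n (s : ℤ) *
      ((-1 : ℂ) ^ (σ * ((s : ℤ) - n + r).natAbs) * f ((s : ℤ) - n + r))) = (-1 : ℂ) ^ (σ * s) *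
      (((-1 : ℂ) ^ (σ * (n + r)) * κ m n r) *
        (Pool.Agent.Lib.MP_06b9d2_tln.dm N m n (s : ℤ) * f ((s : ℤ) - n + r)))
    rw [e1, e2]
    ring

private theorem TLb_pr (h : Core A Y) (h3 : O.valuation 3 < 1) (hl : PL l e s0) (hM : MatD l e A Y M)
    (ε N : ℕ) (hε : ε ≤ 2) (ρ : ℂ) (hρ0 : ρ ≠ 0) (hρ : O.valuation ρ ≤ 1)
    (hk : ∀ m n r, O.valuation (k3 e (cl l e) M ε m n r) ≤
      O.valuation (ρ ^ (m + n) * ((m.factorial * n.factorial : ℕ) : ℂ))) :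
    PrT O ρ (if l % 3 = 1 then 0 else 1) (mt3 l M ε N) := by
  intro σ f hf
  have hl3 : ¬ 3 ∣ l := by
    rcases hl.2 with ⟨h1, -⟩ | ⟨h1, -⟩ <;> omega
  have hv : O.valuation ((e * cl l e) ^ N / l) ≤ 1 := by
    rw [map_div₀, map_pow, map_mul, TLb_e hl, cl_unit h3 hl,
      Pool.Agent.Lib.MP_06b9d2_tls.v_prime h3 l hl3]
    simp
  have hk2 : ∀ m n r, O.valuation ((-1 : ℂ) ^ (σ * (n + r)) * k3 e (cl l e) M ε m n r) ≤
      O.valuation (ρ ^ (m + n) * ((m.factorial * n.factorial : ℕ) : ℂ)) := by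
    intro m n r
    rw [map_mul, map_pow, Valuation.map_neg, map_one, one_pow, one_mul]
    exact hk m n r
  refine ⟨fun s => ((e * cl l e) ^ N / l) *
    op (fun m n r => (-1 : ℂ) ^ (σ * (n + r)) * k3 e (cl l e) M ε m n r) N f s,
    dp_smul _ hv (dp_op hρ0 hρ _ hk2 N hf), fun s => ?_⟩
  have hs : (s : ℕ) ≤ N := Nat.lt_succ_iff.1 s.2
  have he : e ^ (s : ℕ) = (-1 : ℂ) ^ ((if l % 3 = 1 then 0 else 1) * (s : ℕ)) := by
    rcases hl.2 with ⟨h1, he, _⟩ | ⟨h1, he, _⟩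
    · rw [he, if_pos h1, one_pow, zero_mul, pow_zero]
    · rw [he, if_neg (by omega), one_mul]
  rw [act3 h hl hM ε N hε, TLb_op _ N σ f s hs, he, add_mul, pow_add]
  ring

theorem prT_l (h : Core A Y) (h3 : O.valuation 3 < 1) (hl : PL l e s0) (hM : MatD l e A Y M) (ε N : ℕ) (hε : ε ≤ 2) :
    PrT O 1 (if l % 3 = 1 then 0 else 1) (mt3 l M ε N) ∧ PrT O r3 (if l % 3 = 1 then 0 else 1) (mt3 l M ε N) := by
  obtain ⟨-, hlt, hne⟩ := r3_sq h3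
  exact ⟨TLb_pr h h3 hl hM ε N hε 1 one_ne_zero (by rw [map_one])
      (fun m n r => kb31 h h3 hl hM ε m n r hε),
    TLb_pr h h3 hl hM ε N hε r3 hne hlt.le (fun m n r => kb3 h h3 hl hM ε m n r hε)⟩

theorem rp_uni3 {a c : ℂ⟦X⟧} (h : Lv a c) (ε N : ℕ) {T : ℂ⟦X⟧ →ₗ[ℂ] ℂ⟦X⟧} {M₁ M₂ : Mt N}
    (h₁ : Rp (mo a c ε N) T M₁) (h₂ : Rp (mo a c ε N) T M₂) : M₁ = M₂ := by
  ext i s
  obtain ⟨y, hy⟩ : ∃ y : ℕ → ℂ, y = fun j => if hj : j < N + 1 then M₁ ⟨j, hj⟩ s - M₂ ⟨j, hj⟩ s else 0 :=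
    ⟨_, rfl⟩
  have h3 : ∑ j ∈ Finset.range (N + 1), y j • mo a c ε N j = 0 := by
    rw [← Fin.sum_univ_eq_sum_range (fun j => y j • mo a c ε N j)]
    have h4 : ∀ j : Fin (N + 1), y (j : ℕ) • mo a c ε N (j : ℕ) =
        M₁ j s • mo a c ε N (j : ℕ) - M₂ j s • mo a c ε N (j : ℕ) := by
      intro j
      rw [hy]
      simp only [j.2, dif_pos, Fin.eta, sub_smul]
    rw [Finset.sum_congr rfl fun j _ => h4 j, Finset.sum_sub_distrib, ← h₁ s, ← h₂ s, sub_self]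
  have h5 := Pool.Agent.Lib.MP_06b9d2_ssp.ind h ε N y h3 (i : ℕ) (Nat.lt_succ_iff.1 i.2)
  rw [hy] at h5
  simp only [i.2, dif_pos, Fin.eta] at h5
  exact sub_eq_zero.1 h5

private theorem TLb_pl7 : PL 7 1 Pool.Agent.Lib.MP_06b9d2_tls.om :=
  ⟨by norm_num, Or.inl ⟨by norm_num, rfl, rfl⟩⟩

theorem cm3 (q : Qd A Y a k c) (hl : PL l e s0) (hM : MatD l e A Y M) (hM7 : MatD 7 1 A Y M7)
    (ε N : ℕ) (hε : ε ≤ 2) (hN : Even (N + ε)) : Commute (mt3 l M ε N) (mt3 7 M7 ε N) := by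
  have h7p : Nat.Prime 7 := by norm_num
  have r1 := rp3 q hl hM ε N hε hN
  have r2 := rp3 q TLb_pl7 hM7 ε N hε hN
  by_cases h7 : l = 7
  · subst h7
    rw [rp_uni3 (lv3 q) ε N r1 r2]
  · have hc : l.Coprime 7 := (Nat.coprime_primes hl.1 h7p).2 h7
    have t1 := Pool.Agent.Lib.MP_06b9d2_tln.rp_mul r1 r2
    have t2 := Pool.Agent.Lib.MP_06b9d2_tln.rp_mul r2 r1
    rw [← Pool.Agent.Lib.MP_06b9d2_tln.TN_mul l 7 _ hl.1.ne_zero h7p.ne_zero hc] at t1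
    rw [← Pool.Agent.Lib.MP_06b9d2_tln.TN_mul 7 l _ h7p.ne_zero hl.1.ne_zero hc.symm, mul_comm 7 l] at t2
    exact rp_uni3 (lv3 q) ε N t1 t2

private theorem TLb_gt (h : Core A Y) (h3 : O.valuation 3 < 1) (q : Qd A Y a k c) (hl : PL l e s0)
    (hM7 : MatD 7 1 A Y M7) (ε N : ℕ) (hε : ε ≤ 2) (hN : Even (N + ε)) :
    GT O r3 N (3 * N + ε)
      (mo (PowerSeries.map (Int.castRingHom ℂ) a) (PowerSeries.map (Int.castRingHom ℂ) c) ε N)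
      (mt3 7 M7 ε N) l (if l % 3 = 1 then 0 else 1) := by
  obtain ⟨M, hM⟩ := Pool.Agent.Lib.MP_06b9d2_tls.matD_ex h hl
  have hP := prT_l h h3 hl hM ε N hε
  exact ⟨mt3 l M ε N, rp3 q hl hM ε N hε hN, sy3 hl hM ε N hε hN, cm3 q hl hM hM7 ε N hε hN, hP.1, hP.2⟩

theorem gt_l (h : Core A Y) (h3 : O.valuation 3 < 1) (q : Qd A Y a k c) (hl : l.Prime) (hl3 : l ≠ 3)
    (hM7 : MatD 7 1 A Y M7) (ε N : ℕ) (hε : ε ≤ 2) (hN : Even (N + ε)) :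
    GT O r3 N (3 * N + ε)
      (mo (PowerSeries.map (Int.castRingHom ℂ) a) (PowerSeries.map (Int.castRingHom ℂ) c) ε N)
      (mt3 7 M7 ε N) l (if l % 3 = 1 then 0 else 1) := by
  have hd : ¬ 3 ∣ l := fun hd => hl3 ((Nat.prime_dvd_prime_iff_eq Nat.prime_three hl).1 hd).symm
  have hm : l % 3 = 1 ∨ l % 3 = 2 := by omega
  rcases hm with hm | hm
  · exact TLb_gt h h3 q (e := 1) (s0 := Pool.Agent.Lib.MP_06b9d2_tls.om) ⟨hl, Or.inl ⟨hm, rfl, rfl⟩⟩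
      hM7 ε N hε hN
  · exact TLb_gt h h3 q (e := -1) (s0 := Pool.Agent.Lib.MP_06b9d2_tls.om ^ 2)
      ⟨hl, Or.inr ⟨hm, rfl, rfl⟩⟩ hM7 ε N hε hN

end Pool.Agent.Lib.MP_06b9d2_bm
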