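import Pool.Agent.Lib.MP_06b9d2_bm.Defs
import Pool.Agent.Lib.MP_06b9d2_tls.DefsC

/-!
Module BM-TTr. The basis `mo a c ε N` of level three is triangular with `Λ = 3 ^ 3`.

`mo s = a ^ ε (a ^ 3 - 27 c) ^ (N - s) (27 c) ^ s = 27 ^ s b s`, `b s = a ^ ε (a ^ 3 - 27 c) ^ (N - s) c ^ s`, the image of the integral series with `constantCoeff a = 1` (`q.a0`), and `c = k (..)` by `q.r2` with `coeff 0 k = 0` (`q.gr 0`), `coeff 1 k = 1`, so `coeff 0 c = 0`, `coeff 1 c = 1`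
(the bracket has constant coefficient `1`): `c = X c'`, `c'` with constant coefficient `1`. Coefficients in `O`: `Pool.Agent.Lib.MP_06b9d2_ssp.int_mem`.
`v3_dvd`: a divisor `d` of `n` is prime to `3`: `1 = u d + 3 v`.
-/

namespace Pool.Agent.Lib.MP_06b9d2_bm

open PowerSeries
open Pool.Agent.Lib.MP_06b9d2_tls (Qd)
open Pool.Agent.Lib.MP_06b9d2_ssp (mo)

private theorem ttr_int (O : ValuationSubring ℂ) (n : ℤ) : O.valuation (n : ℂ) ≤ 1 :=
  (ValuationSubring.valuation_le_one_iff O _).2 (intCast_mem O n)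

private theorem ttr_c {A Y : ℂ⟦X⟧} {a k c : ℤ⟦X⟧} (q : Qd A Y a k c) :
    ∃ c' : ℤ⟦X⟧, c = X * c' ∧ constantCoeff c' = 1 := by
  have hk0 : constantCoeff k = 0 := by
    rw [← coeff_zero_eq_constantCoeff_apply]
    exact q.gr 0 (by norm_num)
  obtain ⟨k', hk'⟩ := X_dvd_iff.2 hk0
  have hk1 : constantCoeff k' = 1 := by
    have h := q.k1
    rw [hk', ← zero_add 1, coeff_succ_X_mul, coeff_zero_eq_constantCoeff_apply] at h
    exact h
  have he : constantCoeff (PowerSeries.expand 3 three_ne_zero a) = 1 := by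
    rw [← coeff_zero_eq_constantCoeff_apply]
    have h := PowerSeries.coeff_expand_mul 3 three_ne_zero a 0
    rw [mul_zero] at h
    rw [h, coeff_zero_eq_constantCoeff_apply, q.a0]
  refine ⟨k' * (PowerSeries.expand 3 three_ne_zero a ^ 2 +
    3 * PowerSeries.expand 3 three_ne_zero a * k + 9 * k ^ 2), ?_, ?_⟩
  · rw [← mul_assoc, ← hk']
    exact q.r2
  · rw [map_mul, map_add, map_add, map_mul, map_mul, map_mul, map_pow, map_pow, hk1, he, hk0]
    ring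

theorem tri_mo3 {A Y : ℂ⟦X⟧} {a k c : ℤ⟦X⟧} (q : Qd A Y a k c) (O : ValuationSubring ℂ) (ε N : ℕ) :
    ∃ b : ℕ → ℂ⟦X⟧, Tri O (((3 : ℕ) : ℂ) ^ 3) N
      (mo (PowerSeries.map (Int.castRingHom ℂ) a) (PowerSeries.map (Int.castRingHom ℂ) c) ε N) b := by
  obtain ⟨c', hc, hc1⟩ := ttr_c q
  refine ⟨fun s => PowerSeries.map (Int.castRingHom ℂ) (a ^ ε * (a ^ 3 - 27 * c) ^ (N - s) * c ^ s),
    ?_, ?_, ?_, ?_⟩
  · intro s _
    have h27 : PowerSeries.map (Int.castRingHom ℂ) (27 : ℤ⟦X⟧) = 27 := map_ofNat _ 27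
    have hC : (((3 : ℕ) : ℂ) ^ 3) ^ s • (PowerSeries.map (Int.castRingHom ℂ) (a ^ ε * (a ^ 3 - 27 * c) ^ (N - s) * c ^ s)) =
        (27 : ℂ⟦X⟧) ^ s * PowerSeries.map (Int.castRingHom ℂ) (a ^ ε * (a ^ 3 - 27 * c) ^ (N - s) * c ^ s) := by
      rw [smul_eq_C_mul]
      congr 1
      rw [map_pow]
      congr 1
      rw [show (((3 : ℕ) : ℂ) ^ 3) = 27 by norm_num]
      exact map_ofNat _ 27
    rw [hC]
    unfold mo
    simp only [map_mul, map_pow, map_sub, h27, mul_pow]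
    ring
  · intro s _ i
    rw [PowerSeries.coeff_map]
    exact ttr_int O _
  · intro s _ i hi
    have h1 : a ^ ε * (a ^ 3 - 27 * c) ^ (N - s) * c ^ s =
        X ^ s * (a ^ ε * (a ^ 3 - 27 * c) ^ (N - s) * c' ^ s) := by
      conv_lhs => rw [show c ^ s = X ^ s * c' ^ s by rw [hc, mul_pow]]
      ring
    show coeff i (PowerSeries.map (Int.castRingHom ℂ) (a ^ ε * (a ^ 3 - 27 * c) ^ (N - s) * c ^ s)) = 0
    rw [PowerSeries.coeff_map, h1, coeff_X_pow_mul', if_neg (not_le.2 hi), map_zero]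
  · intro s _
    have h1 : a ^ ε * (a ^ 3 - 27 * c) ^ (N - s) * c ^ s =
        X ^ s * (a ^ ε * (a ^ 3 - 27 * c) ^ (N - s) * c' ^ s) := by
      conv_lhs => rw [show c ^ s = X ^ s * c' ^ s by rw [hc, mul_pow]]
      ring
    have hc0 : constantCoeff c = 0 := by rw [hc, map_mul, constantCoeff_X, zero_mul]
    show coeff s (PowerSeries.map (Int.castRingHom ℂ) (a ^ ε * (a ^ 3 - 27 * c) ^ (N - s) * c ^ s)) = 1
    rw [PowerSeries.coeff_map, h1, coeff_X_pow_mul', if_pos le_rfl, Nat.sub_self,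
      coeff_zero_eq_constantCoeff_apply]
    simp only [map_mul, map_pow, map_sub, q.a0, hc0, hc1, one_pow, mul_zero, sub_zero, mul_one, map_one]

theorem v3_unit {O : ValuationSubring ℂ} (h3 : O.valuation 3 < 1) (n : ℕ) (hn : n % 3 ≠ 0) :
    O.valuation (n : ℂ) = 1 := by
  have h0 : O.valuation (n : ℂ) ≤ 1 := by
    have h := ttr_int O (n : ℤ)
    rwa [Int.cast_natCast] at h
  refine le_antisymm h0 (not_lt.1 fun hlt => ?_)
  have hc : IsCoprime (3 : ℤ) (n : ℤ) :=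
    (Int.prime_three.coprime_iff_not_dvd).2 (by omega)
  obtain ⟨u, v, huv⟩ := hc
  have h1 : (u : ℂ) * 3 + (v : ℂ) * (n : ℂ) = 1 := by exact_mod_cast huv
  have h2 : O.valuation ((u : ℂ) * 3 + (v : ℂ) * (n : ℂ)) < 1 := by
    refine lt_of_le_of_lt (Valuation.map_add O.valuation _ _) (max_lt ?_ ?_)
    · rw [map_mul]
      exact lt_of_le_of_lt (mul_le_of_le_one_left' (ttr_int O u)) h3
    · rw [map_mul]
      exact lt_of_le_of_lt (mul_le_of_le_one_left' (ttr_int O v)) hlt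
  rw [h1, map_one] at h2
  exact lt_irrefl _ h2

theorem v3_dvd {O : ValuationSubring ℂ} (h3 : O.valuation 3 < 1) (n : ℕ) (hn : n % 3 ≠ 0) (d : ℕ) (hd : d ∣ n) :
    O.valuation (d : ℂ) = 1 := by
  refine v3_unit h3 d fun h => hn ?_
  exact Nat.mod_eq_zero_of_dvd ((Nat.dvd_of_mod_eq_zero h).trans hd)

end Pool.Agent.Lib.MP_06b9d2_bm
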