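import Pool.Agent.Lib.MP_06b9d2_bm.AbsB
import Pool.Agent.Lib.MP_06b9d2_bm.AbsC
import Pool.Agent.Lib.MP_06b9d2_bm.Low
import Pool.Agent.Lib.MP_06b9d2_bm.Sym
import Pool.Agent.Lib.MP_06b9d2_bm.AsC
import Pool.Agent.Lib.MP_06b9d2_bm.TPr
import Pool.Agent.Lib.MP_06b9d2_bm.TLb
import Pool.Agent.Lib.MP_06b9d2_bm.TBs
import Pool.Agent.Lib.MP_06b9d2_bm.TTr
import Pool.Agent.Lib.MP_06b9d2_tls.CoreS

/-!
Module BM-TIn. The matrix of `T_n`, `n ≥ 2` prime to `3`.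

`bas3`: as `bas_ex` in module AsC, with `base7`, `p = 3`, `δ = r3 ^ 2`: `base`: for `P` the function `f s = P(s ^ 2 - N s)` is `PO` and symmetric; `base7` gives `g`, symmetric on `0, …, N` as `act M₀ f` (`act_sym`), `f`, `Rq N f` are and `W ≠ 0`; `dp_sym` with `ρ = 1`.
`inj3`: `core_ex`, `qd_ex`, `exists_O` (`MP_06b9d2_ssp/POa.lean`), `matD_ex` for `l = 7` (`PL 7 1 om`), `gt_l`, `gt_n` (`v3_unit`) give `M` with `PrT O 1 ε' M`, `PrT O r3 ε' M`. Let `(M', n', T') = (M, n, T_n)` for `n ≡ 1`, `(M * M, n ^ 2, T_n ∘ T_n)` for `n ≡ 2` modulo `3` (`rp_mul`, `sy_mul`, `lw_comp`, `prT_mul`, `prD_of`): `PrD O 1 M'`, `PrD O r3 M'`, `Commute M' M₀`.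
`bas3`; `low_two` with `p = 3`, `t = 3`, `K = 6`, `e = n' + 6`, `tri_mo3`, `lw_TN` with `v3_dvd`: `6 n' + e + 2 = 7 n' + 8`, `he`: `42 n' ^ 2 + 56 n' + 13 < 3 ^ (n' + 6)` (`3 ^ n' ≥ n' ^ 2 + n' + 1` for `n' ≥ 1`), `hN`: `42 n' ^ 2 + 49 n' + 6 ≤ N`.
`mul_of` with `w = 105 n' ^ 2 + 102 n' - 5` and `D = 105 n' ^ 2 + 102 n'`: `v((r3 ^ 2) ^ i) = v(3) ^ i < v(3 ^ w)` for `i > D ≥ w`. `inj_of`: `InjD N D M'`. For `n ≡ 2`: an eigenvector of `M` for `lam` is one of `M * M` for `lam ^ 2`.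
`n' ≤ n ^ 2`.
-/

namespace Pool.Agent.Lib.MP_06b9d2_bm

open PowerSeries
open Pool.Agent.Lib.MP_06b9d2_tln (TN Mt Rp Sy act)
open Pool.Agent.Lib.MP_06b9d2_tls (Core Qd MatD)
open Pool.Agent.Lib.MP_06b9d2_ssp (Lv mo)

/-- `M.vecMulLinear` on the restriction of a function -/
private theorem TIn_vm {N : ℕ} (M : Mt N) (f : ℤ → ℂ) (v : Fin (N + 1) → ℂ)
    (hv : ∀ j : Fin (N + 1), v j = f ((j : ℕ) : ℤ)) (s : Fin (N + 1)) :
    M.vecMulLinear v s = act M f s := by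
  have h1 : M.vecMulLinear v s = ∑ j, v j * M j s := rfl
  rw [h1]
  unfold act
  refine Finset.sum_congr rfl fun j _ => ?_
  rw [hv j, mul_comm]

/-- the function `s ↦ P(s ^ 2 - N s)` on the integers -/
private noncomputable def TIn_f (O : ValuationSubring ℂ) (N : ℕ) (P : Polynomial O) (s : ℤ) : ℂ :=
  Polynomial.aeval ((s : ℂ) ^ 2 - N * s) P

private theorem TIn_ev (O : ValuationSubring ℂ) (N : ℕ) (P : Polynomial O) (j : Fin (N + 1)) :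
    evF O N P j = TIn_f O N P ((j : ℕ) : ℤ) := by
  unfold evF TIn_f qv
  rw [Int.cast_natCast]

private theorem TIn_dp (O : ValuationSubring ℂ) (N : ℕ) (P : Polynomial O) : DP O 1 (TIn_f O N P) := by
  refine ⟨P.comp (Polynomial.X ^ 2 - (N : Polynomial O) * Polynomial.X), fun s => ?_⟩
  unfold TIn_f
  rw [Polynomial.aeval_comp]
  simp

private theorem TIn_sym (O : ValuationSubring ℂ) (N : ℕ) (P : Polynomial O) (s : ℕ) (hs : s ≤ N) :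
    TIn_f O N P ((N - s : ℕ) : ℤ) = TIn_f O N P (s : ℤ) := by
  unfold TIn_f
  rw [Int.cast_natCast, Int.cast_natCast, Nat.cast_sub hs]
  have h1 : ((N : ℂ) - (s : ℂ)) ^ 2 - (N : ℂ) * ((N : ℂ) - (s : ℂ)) = (s : ℂ) ^ 2 - (N : ℂ) * (s : ℂ) := by ring
  rw [h1]

private theorem TIn_rev {N : ℕ} (g : ℤ → ℂ) (M : Mt N) (hS : Sy M) (f : ℤ → ℂ)
    (hf : ∀ s : ℕ, s ≤ N → f ((N - s : ℕ) : ℤ) = f (s : ℤ))
    (hg : ∀ s : Fin (N + 1), act M f s = g ((s : ℕ) : ℤ)) (s : ℕ) (hs : s ≤ N) :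
    g ((N - s : ℕ) : ℤ) = g (s : ℤ) := by
  have h1 := act_sym hS f hf ⟨s, Nat.lt_succ_of_le hs⟩
  rw [hg, hg, Fin.val_rev] at h1
  simpa using h1

private theorem TIn_PL : Pool.Agent.Lib.MP_06b9d2_tls.PL 7 1 Pool.Agent.Lib.MP_06b9d2_tls.om :=
  ⟨by norm_num, Or.inl ⟨by norm_num, rfl, rfl⟩⟩

theorem bas3 {A Y : ℂ⟦X⟧} (h : Core A Y) {O : ValuationSubring ℂ} (h3 : O.valuation 3 < 1)
    {M7 : ℕ → ℕ → ℕ → ℕ → ℂ} (hM7 : MatD 7 1 A Y M7) (ε N : ℕ) (hε : ε ≤ 2) (hN : Even (N + ε)) (M : Mt N)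
    (hS : Sy M) (hC : Commute M (mt3 7 M7 ε N)) (h1 : PrD O 1 M) (hρ : PrD O r3 M) :
    ∃ c₀ W : ℂ, Bas O N 3 (r3 ^ 2) c₀ W (mt3 7 M7 ε N).vecMulLinear M.vecMulLinear := by
  obtain ⟨hr1, hr2, hr3⟩ := r3_sq h3
  have hS0 : Sy (mt3 7 M7 ε N) := by
    first
    | exact sy3 TIn_PL hM7 ε N hN
    | exact sy3 TIn_PL hM7 ε N hε hN
  obtain ⟨c, W, hW, hcl⟩ := base7 h h3 hM7 ε N hε
  refine ⟨c, W, ?_⟩
  refine { hp := h3, p0 := three_ne_zero, hδ := ?_, hW := hW, base := ?_, comm := ?_,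
           one := ?_, pres := ?_ }
  · rw [map_pow]
    exact pow_le_one' hr2.le 2
  · intro P
    have hfD := TIn_dp O N P
    obtain ⟨g, hg, hgs⟩ := hcl (TIn_f O N P) ((po_iff _).2 hfD)
    have hfs : ∀ s : ℕ, s ≤ N → TIn_f O N P ((N - s : ℕ) : ℤ) = TIn_f O N P (s : ℤ) := TIn_sym O N P
    have hRs : ∀ s : ℕ, s ≤ N →
        Pool.Agent.Lib.MP_06b9d2_tln.Rq N (TIn_f O N P) ((N - s : ℕ) : ℤ) =
          Pool.Agent.Lib.MP_06b9d2_tln.Rq N (TIn_f O N P) (s : ℤ) := by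
      intro s hs
      unfold Pool.Agent.Lib.MP_06b9d2_tln.Rq
      rw [hfs s hs, Int.cast_natCast, Int.cast_natCast, Nat.cast_sub hs]
      ring
    have hgsym : ∀ s : ℕ, s ≤ N → g ((N - s : ℕ) : ℤ) = g (s : ℤ) := by
      intro s hs
      have h3 := TIn_rev (fun s => c * TIn_f O N P s + W * (Pool.Agent.Lib.MP_06b9d2_tln.Rq N (TIn_f O N P) s + 3 * g s))
        (mt3 7 M7 ε N) hS0 (TIn_f O N P) hfs hgs s hs
      rw [hfs s hs, hRs s hs] at h3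
      have h5 := mul_left_cancel₀ hW (add_left_cancel h3)
      exact mul_left_cancel₀ (by norm_num : (3 : ℂ) ≠ 0) (add_left_cancel h5)
    obtain ⟨G, hG⟩ := dp_sym (ρ := 1) (by rw [map_one]) N g ((po_iff _).1 hg) hgsym
    refine ⟨G, ?_⟩
    funext s
    rw [TIn_vm (mt3 7 M7 ε N) (TIn_f O N P) (evF O N P) (TIn_ev O N P) s, hgs s]
    have hGs := hG s (Nat.lt_succ_iff.1 s.2)
    rw [one_pow, one_mul] at hGs
    have hX : evF O N (Polynomial.X * P) s = qv N s * evF O N P s := by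
      unfold evF
      rw [map_mul, Polynomial.aeval_X]
    have hR : Pool.Agent.Lib.MP_06b9d2_tln.Rq N (TIn_f O N P) ((s : ℕ) : ℤ) = qv N s * evF O N P s := by
      rw [TIn_ev]
      unfold Pool.Agent.Lib.MP_06b9d2_tln.Rq qv
      rw [Int.cast_natCast]
    simp only [Pi.add_apply, Pi.smul_apply, smul_eq_mul]
    rw [hX, hR, ← TIn_ev, hGs]
    unfold evF
    ring
  · intro v
    have e1 : M.vecMulLinear ((mt3 7 M7 ε N).vecMulLinear v) =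
      Matrix.vecMul (Matrix.vecMul v (mt3 7 M7 ε N)) M := rfl
    have e2 : (mt3 7 M7 ε N).vecMulLinear (M.vecMulLinear v) =
      Matrix.vecMul (Matrix.vecMul v M) (mt3 7 M7 ε N) := rfl
    rw [e1, e2, Matrix.vecMul_vecMul, Matrix.vecMul_vecMul, hC.eq]
  · obtain ⟨g, hg, hgs⟩ := hρ (fun _ => 1) (dp_const 1 (by rw [map_one]))
    have hgsym := TIn_rev g M hS (fun _ => 1) (fun s _ => rfl) hgs
    obtain ⟨H, hH⟩ := dp_sym hr2.le N g hg hgsym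
    refine ⟨H, ?_⟩
    funext s
    rw [TIn_vm M (fun _ => 1) (evF O N 1) (fun j => by unfold evF; rw [map_one]) s, hgs s,
      hH s (Nat.lt_succ_iff.1 s.2)]
  · intro P
    obtain ⟨g, hg, hgs⟩ := h1 (TIn_f O N P) (TIn_dp O N P)
    have hgsym := TIn_rev g M hS (TIn_f O N P) (TIn_sym O N P) hgs
    obtain ⟨G, hG⟩ := dp_sym (ρ := 1) (by rw [map_one]) N g hg hgsym
    refine ⟨G, ?_⟩
    funext s
    rw [TIn_vm M (TIn_f O N P) (evF O N P) (TIn_ev O N P) s, hgs s, hG s (Nat.lt_succ_iff.1 s.2), one_pow, one_mul]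
    rfl

private theorem TIn_pow (m : ℕ) (hm : 1 ≤ m) : m ^ 2 + m + 1 ≤ 3 ^ m := by
  induction m, hm using Nat.le_induction with
  | base => norm_num
  | succ m _ ih =>
    rw [pow_succ 3 m]
    nlinarith

private theorem TIn_he (m : ℕ) (hm : 1 ≤ m) :
    (6 * m + (m + 6)) + (6 * m * (6 * m + (m + 6) + 2) + (m + 6)) + 1 < 3 ^ (m + 6) := by
  have h1 := TIn_pow m hm
  rw [pow_add]
  norm_num
  nlinarith

private theorem TIn_w (m : ℕ) (hm : 1 ≤ m) :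
    3 * (m * (6 * m + (m + 6) + 2) - (6 * m + (m + 6) + 2)) +
      2 * (6 * m * (6 * m + (m + 6) + 2) + (m + 6)) + 1 + (m + 6) ≤ 105 * m ^ 2 + 102 * m := by
  have h1 : 6 * m + (m + 6) + 2 ≤ m * (6 * m + (m + 6) + 2) :=
    Nat.le_mul_of_pos_left _ (by omega)
  obtain ⟨u, hu⟩ := Nat.exists_eq_add_of_le h1
  rw [hu, Nat.add_sub_cancel_left]
  nlinarith

/-- the common part of the two cases -/
private theorem TIn_core {A Y : ℂ⟦X⟧} (h : Core A Y) {a k c : ℤ⟦X⟧} (q : Qd A Y a k c)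
    {O : ValuationSubring ℂ} (h3 : O.valuation 3 < 1)
    {M7 : ℕ → ℕ → ℕ → ℕ → ℂ} (hM7 : MatD 7 1 A Y M7) (ε N : ℕ) (hε : ε ≤ 2) (hN : Even (N + ε))
    {T : ℂ⟦X⟧ →ₗ[ℂ] ℂ⟦X⟧} {m : ℕ} (hm : 2 ≤ m) (hT : Lw O m T) (M : Mt N)
    (hR : Rp (mo (PowerSeries.map (Int.castRingHom ℂ) a) (PowerSeries.map (Int.castRingHom ℂ) c) ε N) T M)
    (hS : Sy M) (hC : Commute M (mt3 7 M7 ε N)) (h1 : PrD O 1 M) (hρ : PrD O r3 M)
    (hNm : 42 * m ^ 2 + 49 * m + 6 ≤ N) : InjD N (105 * m ^ 2 + 102 * m) M := by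
  obtain ⟨c₀, W, hB⟩ := bas3 h h3 hM7 ε N hε hN M hS hC h1 hρ
  obtain ⟨b, hb⟩ := tri_mo3 q O ε N
  have h3' : O.valuation ((3 : ℕ) : ℂ) < 1 := by
    rw [Nat.cast_ofNat]
    exact h3
  have hl := low_two (T := T) (n := m) (M := M) Nat.prime_three h3' 3 6 (by norm_num)
    (by norm_num) hb hT hR hS hm (m + 6) (TIn_he m (by omega)) (by nlinarith)
  rw [Nat.cast_ofNat] at hl
  apply inj_of O
  refine mul_of hB _ _ hl ?_
  intro i hi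
  have hw := TIn_w m (by omega)
  have hv0 : O.valuation (3 : ℂ) ≠ 0 := (Valuation.ne_zero_iff _).2 (by norm_num)
  have e1 : O.valuation ((r3 ^ 2) ^ i) = O.valuation (3 : ℂ) ^ i := by
    rw [map_pow, map_pow, (r3_sq h3).1]
  rw [e1, map_pow]
  exact pow_lt_pow_right_of_lt_one₀ (zero_lt_iff.2 hv0) h3 (by omega)

theorem inj3 (n : ℕ) (hn : n % 3 ≠ 0) (h2 : 2 ≤ n) : ∃ a c : ℂ⟦X⟧, Lv a c ∧
    ∀ ε N : ℕ, ε ≤ 2 → Even (N + ε) → 42 * n ^ 4 + 49 * n ^ 2 + 6 ≤ N → ∃ M : Mt N,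
      Rp (mo a c ε N) (TN n (3 * N + ε)) M ∧ Sy M ∧ InjD N (105 * n ^ 4 + 102 * n ^ 2) M := by
  obtain ⟨A, Y, h⟩ := Pool.Agent.Lib.MP_06b9d2_tls.core_ex
  obtain ⟨a, k, c, q⟩ := Pool.Agent.Lib.MP_06b9d2_tls.qd_ex h
  obtain ⟨O, h3⟩ := Pool.Agent.Lib.MP_06b9d2_ssp.exists_O
  refine ⟨_, _, lv3 q, fun ε N hε hN hle => ?_⟩
  obtain ⟨M7, hM7⟩ := Pool.Agent.Lib.MP_06b9d2_tls.matD_ex h TIn_PL
  have hn0 : n ≠ 0 := by omega
  have hn2 : n ^ 2 ≤ n ^ 4 := Nat.pow_le_pow_right (by omega) (by norm_num)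
  have hn1 : n ≤ n ^ 2 := by nlinarith
  have hdv : ∀ d : ℕ, d ∣ n → O.valuation (d : ℂ) = 1 := v3_dvd h3 n hn
  have hG := gt_n (O := O) (ρ := r3) (N := N) (k := 3 * N + ε)
    (mo := mo (PowerSeries.map (Int.castRingHom ℂ) a) (PowerSeries.map (Int.castRingHom ℂ) c) ε N)
    (M₀ := mt3 7 M7 ε N) n hn (by
      intro l hl
      rw [map_div₀, map_pow, hdv l (Nat.dvd_of_mem_primeFactors hl)]
      simp) (by
      intro l hl
      have hlp := Nat.prime_of_mem_primeFactors hl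
      have hl3 : l ≠ 3 := by
        rintro rfl
        have := Nat.dvd_of_mem_primeFactors hl
        omega
      first
      | exact gt_l h h3 q hlp hl3 hM7 ε N hN
      | exact gt_l h h3 q hlp hl3 hM7 ε N hε hN)
  obtain ⟨M, hRp, hSy, hC, h1, hρ⟩ := hG
  refine ⟨M, hRp, hSy, ?_⟩
  by_cases hn3 : n % 3 = 1
  · rw [if_pos hn3] at h1 hρ
    have hI := TIn_core h q h3 hM7 ε N hε hN h2 (lw_TN (3 * N + ε) hn0 hdv) M hRp hSy hC
      (prD_of h1 rfl) (prD_of hρ rfl) (by nlinarith)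
    intro lam x e1 e2 e3
    exact hI lam x e1 e2 fun i hi => e3 i (lt_of_lt_of_le hi (by nlinarith))
  · rw [if_neg hn3] at h1 hρ
    have hI := TIn_core h q h3 hM7 ε N hε hN (m := n * n) (by nlinarith)
      (lw_comp (lw_TN (3 * N + ε) hn0 hdv) (lw_TN (3 * N + ε) hn0 hdv) hn0) (M * M)
      (Pool.Agent.Lib.MP_06b9d2_tln.rp_mul hRp hRp) (Pool.Agent.Lib.MP_06b9d2_tln.sy_mul hSy hSy)
      (hC.mul_left hC) (prD_of (prT_mul h1 h1) rfl) (prD_of (prT_mul hρ hρ) rfl) (by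
        have e1 : (n * n) ^ 2 = n ^ 4 := by ring
        have e2 : n * n = n ^ 2 := by ring
        rw [e1, e2]
        exact hle)
    intro lam x e1 e2 e3
    refine hI (lam * lam) x e1 ?_ fun i hi => e3 i (lt_of_lt_of_le hi ?_)
    · rw [← Matrix.mulVec_mulVec, e2, Matrix.mulVec_smul, e2, smul_smul]
    · have e1 : (n * n) ^ 2 = n ^ 4 := by ring
      have e2 : n * n = n ^ 2 := by ring
      rw [e1, e2]

end Pool.Agent.Lib.MP_06b9d2_bm
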