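import Pool.Agent.Lib.MP_06b9d2_bm.GLw
import Pool.Agent.Lib.MP_06b9d2_bm.GLo
import Pool.Agent.Lib.MP_06b9d2_bm.GPt
import Pool.Agent.Lib.MP_06b9d2_bm.GCo
import Pool.Agent.Lib.MP_06b9d2_bm.GKe
import Pool.Agent.Lib.MP_06b9d2_bm.GVa
import Pool.Agent.Lib.MP_06b9d2_bm.TIn

/-!
Module BM-GTh. The bound for sums of products of `T_n`, `n` prime to `3`.

As module GTw with `p = 3`, `t = 3` (`inj3` in module TIn is the model). Let `s₁`, `s₂` be the words of `s` with product `≡ 1`, `≡ 2` modulo `3` (all products are prime to `3`), `T₁ = ST k s₁ z`, `T₂ = ST k s₂ z`, `ST k s z = T₁ + T₂`. `ggt_sum` gives matrices `M₁` (`ε = 0`), `M₂` (`ε = 1`); `M = M₁ + M₂`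
(`rp_add`, `sy_add`). `lwC_sum`: `T₁`, `T₂` are `LwC O n c₁`, `LwC O n c₂`, `n = w₀.prod`, `(c₁, c₂) = (z w₀, 0)` or `(0, z w₀)`. `ST_comm`, `rp_comm`: `M₁`, `M₂` commute.
For `lam` with `v(lam) ≤ 1` put `A = (M₁ - lam) ^ 2 - M₂ ^ 2`, the matrix of `(T₁ - lam) ^ 2 - T₂ ^ 2`, which is `LwC O (n ^ 2) (c₁ ^ 2 - c₂ ^ 2)` (`lwC_id`, `lwC_mono`, `lwC_add`, `lwC_comp`), `v(c₁ ^ 2 - c₂ ^ 2) = v(z w₀) ^ 2 ≥ v(3 ^ (2 u))`; `A` is symmetric, commutes with `M₀` and is `PrD` (`prT_mul`, `prD_of`).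
`low_gen 3 3 (n ^ 2) (2 u)` gives `w, N₀` (independent of `lam`); `bas3`, `mul_of`, `inj_of` : `InjD N D A`, `D = max w N₀` (`v((r3 ^ 2) ^ i) = v(3) ^ i`).
`InjAt N D M lam` for all `lam`: let `x ≠ 0` be symmetric with `M x = lam x` and vanishing moments; `v(lam) ≤ 1` by `entC_int`, `eig_int`; `A x = (M₁ - lam - M₂) (M₁ - lam + M₂) x = 0` as `M₁`, `M₂` commute, so `x = 0` by `InjD N D A` for the eigenvalue `0`. `mult_three`, `q_sum`.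
-/

namespace Pool.Agent.Lib.MP_06b9d2_bm

open PowerSeries
open Pool.Agent.Lib.MP_06b9d2_tln (TN Mt Rp Sy act)
open Pool.Agent.Lib.MP_06b9d2_tls (Core Qd MatD)
open Pool.Agent.Lib.MP_06b9d2_ssp (Lv mo)

private theorem GTh_PL : Pool.Agent.Lib.MP_06b9d2_tls.PL 7 1 Pool.Agent.Lib.MP_06b9d2_tls.om :=
  ⟨by norm_num, Or.inl ⟨by norm_num, rfl, rfl⟩⟩

/-- the square of `T₁ - lam` minus the square of `T₂` -/
private theorem GTh_rp {N : ℕ} {mo : ℕ → ℂ⟦X⟧} {T₁ T₂ : ℂ⟦X⟧ →ₗ[ℂ] ℂ⟦X⟧} {M₁ M₂ : Mt N} (lam : ℂ)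
    (h₁ : Rp mo T₁ M₁) (h₂ : Rp mo T₂ M₂) :
    Rp mo ((T₁ + (-lam) • LinearMap.id) ∘ₗ (T₁ + (-lam) • LinearMap.id) + (-1 : ℂ) • (T₂ ∘ₗ T₂))
      ((M₁ + (-lam) • 1) * (M₁ + (-lam) • 1) + (-1 : ℂ) • (M₂ * M₂)) := by
  have a1 := Pool.Agent.Lib.MP_06b9d2_tln.rp_add h₁
    (Pool.Agent.Lib.MP_06b9d2_tln.rp_smul (-lam) (Pool.Agent.Lib.MP_06b9d2_tln.rp_one (N := N) mo))
  exact Pool.Agent.Lib.MP_06b9d2_tln.rp_add (Pool.Agent.Lib.MP_06b9d2_tln.rp_mul a1 a1)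
    (Pool.Agent.Lib.MP_06b9d2_tln.rp_smul (-1) (Pool.Agent.Lib.MP_06b9d2_tln.rp_mul h₂ h₂))

private theorem GTh_sy {N : ℕ} {M₁ M₂ : Mt N} (lam : ℂ) (h₁ : Sy M₁) (h₂ : Sy M₂) :
    Sy ((M₁ + (-lam) • 1) * (M₁ + (-lam) • 1) + (-1 : ℂ) • (M₂ * M₂)) := by
  have a1 := Pool.Agent.Lib.MP_06b9d2_tln.sy_add h₁
    (Pool.Agent.Lib.MP_06b9d2_tln.sy_smul (-lam) (Pool.Agent.Lib.MP_06b9d2_tln.sy_one (N := N)))
  exact Pool.Agent.Lib.MP_06b9d2_tln.sy_add (Pool.Agent.Lib.MP_06b9d2_tln.sy_mul a1 a1)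
    (Pool.Agent.Lib.MP_06b9d2_tln.sy_smul (-1) (Pool.Agent.Lib.MP_06b9d2_tln.sy_mul h₂ h₂))

private theorem GTh_comm {N : ℕ} {M₁ M₂ M₀ : Mt N} (lam : ℂ) (h₁ : Commute M₁ M₀) (h₂ : Commute M₂ M₀) :
    Commute ((M₁ + (-lam) • 1) * (M₁ + (-lam) • 1) + (-1 : ℂ) • (M₂ * M₂)) M₀ := by
  have a1 : Commute (M₁ + (-lam) • (1 : Mt N)) M₀ :=
    h₁.add_left ((Commute.one_left M₀).smul_left (-lam))
  exact (a1.mul_left a1).add_left ((h₂.mul_left h₂).smul_left (-1 : ℂ))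

private theorem GTh_prD {O : ValuationSubring ℂ} {ρ : ℂ} {N : ℕ} {M₁ M₂ : Mt N} (lam : ℂ)
    (hl : O.valuation lam ≤ 1) (h₁ : PrT O ρ 0 M₁) (h₂ : PrT O ρ 1 M₂) :
    PrD O ρ ((M₁ + (-lam) • 1) * (M₁ + (-lam) • 1) + (-1 : ℂ) • (M₂ * M₂)) := by
  have hl' : O.valuation (-lam) ≤ 1 := by rwa [Valuation.map_neg]
  have h1' : O.valuation (-1 : ℂ) ≤ 1 := by rw [Valuation.map_neg, map_one]
  have a1 : PrT O ρ 0 (M₁ + (-lam) • (1 : Mt N)) := prT_add h₁ (prT_smul (-lam) hl' prT_one)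
  have a2 : PrT O ρ 0 (M₂ * M₂) := prT_mod (prT_mul h₂ h₂) 0 rfl
  exact prD_of (prT_add (prT_mul a1 a1) (prT_smul (-1) h1' a2)) rfl

private theorem GTh_lw {O : ValuationSubring ℂ} {n : ℕ} {c₁ c₂ : ℂ} {T₁ T₂ : ℂ⟦X⟧ →ₗ[ℂ] ℂ⟦X⟧} (lam : ℂ)
    (hl : O.valuation lam ≤ 1) (hn : 2 ≤ n) (h₁ : LwC O n c₁ T₁) (h₂ : LwC O n c₂ T₂) :
    LwC O (n * n) ((c₁ + 0) * (c₁ + 0) + -1 * (c₂ * c₂))
      ((T₁ + (-lam) • LinearMap.id) ∘ₗ (T₁ + (-lam) • LinearMap.id) + (-1 : ℂ) • (T₂ ∘ₗ T₂)) := by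
  have hl' : O.valuation (-lam) ≤ 1 := by rwa [Valuation.map_neg]
  have h1' : O.valuation (-1 : ℂ) ≤ 1 := by rw [Valuation.map_neg, map_one]
  have a1 := lwC_add h₁ (lwC_mono (n := n) (lwC_id (O := O) (-lam) hl') (by omega))
  exact lwC_add (lwC_comp (by omega) (by omega) a1 a1)
    (lwC_smul (-1) h1' (lwC_comp (by omega) (by omega) h₂ h₂))

/-- the eigenvectors of `M₁ + M₂` are in the kernel of `(M₁ - lam) ^ 2 - M₂ ^ 2` -/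
private theorem GTh_ker {N : ℕ} {M₁ M₂ : Mt N} (lam : ℂ) (hc : Commute M₁ M₂) (x : Fin (N + 1) → ℂ)
    (hx : (M₁ + M₂).mulVec x = lam • x) :
    ((M₁ + (-lam) • 1) * (M₁ + (-lam) • 1) + (-1 : ℂ) • (M₂ * M₂)).mulVec x = (0 : ℂ) • x := by
  have e1 : (M₁ + (-lam) • 1) * (M₁ + (-lam) • 1) + (-1 : ℂ) • (M₂ * M₂) =
      (M₁ + (-lam) • (1 : Mt N) - M₂) * (M₁ + (-lam) • (1 : Mt N) + M₂) := by
    have h1 : Commute (M₁ + (-lam) • (1 : Mt N)) M₂ :=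
      hc.add_left ((Commute.one_left M₂).smul_left (-lam))
    generalize M₁ + (-lam) • (1 : Mt N) = X at h1 ⊢
    rw [neg_one_smul, sub_mul, mul_add, mul_add, h1.eq]
    abel
  have e2 : (M₁ + (-lam) • (1 : Mt N) + M₂).mulVec x = 0 := by
    have h1 : M₁ + (-lam) • (1 : Mt N) + M₂ = (M₁ + M₂) + (-lam) • (1 : Mt N) := by abel
    rw [h1, Matrix.add_mulVec, hx, Matrix.smul_mulVec, Matrix.one_mulVec, ← add_smul, add_neg_cancel,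
      zero_smul]
  rw [e1, ← Matrix.mulVec_mulVec, e2, Matrix.mulVec_zero, zero_smul]

/-- everything for one operator -/
private theorem GTh_one {O : ValuationSubring ℂ} (h3 : O.valuation 3 < 1) {A Y : ℂ⟦X⟧} (h : Core A Y)
    {M7 : ℕ → ℕ → ℕ → ℕ → ℂ} (hM7 : MatD 7 1 A Y M7) (ε N : ℕ) (hε : ε ≤ 2)
    (hN : Even (N + ε)) {M : Mt N} {w D : ℕ}
    (hS : Sy M) (hC : Commute M (mt3 7 M7 ε N)) (h1 : PrD O 1 M) (hρ : PrD O r3 M) (hw : w ≤ D)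
    (hl : Lowb O N ((3 : ℕ) : ℂ) w M.vecMulLinear) : InjD N D M := by
  obtain ⟨c₀, W, hB⟩ := bas3 h h3 hM7 ε N hε hN M hS hC h1 hρ
  rw [Nat.cast_ofNat] at hl
  apply inj_of O
  refine mul_of hB _ _ hl ?_
  intro i hi
  have hv0 : O.valuation (3 : ℂ) ≠ 0 := (Valuation.ne_zero_iff _).2 (by norm_num)
  have e1 : O.valuation ((r3 ^ 2) ^ i) = O.valuation (3 : ℂ) ^ i := by
    rw [map_pow, map_pow, (r3_sq h3).1]
  rw [e1, map_pow]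
  exact pow_lt_pow_right_of_lt_one₀ (zero_lt_iff.2 hv0) h3 (by omega)

theorem gen_three {s : Finset (List ℕ)} {z : List ℕ → ℂ} {w₀ : List ℕ} (h : Wds (fun n => n % 3 ≠ 0) s z w₀) :
    ∃ B, KerW s z B := by
  classical
  obtain ⟨O, h3', hu⟩ := exists_O1 3 Nat.prime_three
  have h3 : O.valuation (3 : ℂ) < 1 := by rwa [Nat.cast_ofNat] at h3'
  obtain ⟨cs, hcs, hzs⟩ := scale_ex O s z w₀ h.mem h.ne
  obtain ⟨z', hz'⟩ : ∃ z' : List ℕ → ℂ, z' = fun w => cs * z w := ⟨_, rfl⟩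
  have hz1 : ∀ w ∈ s, O.valuation (z' w) ≤ 1 := by
    intro w hw
    rw [hz']
    exact hzs w hw
  have hz0 : z' w₀ ≠ 0 := by
    rw [hz']
    exact mul_ne_zero hcs h.ne
  obtain ⟨u, hu⟩ := hu (z' w₀) hz0
  obtain ⟨n, hn⟩ : ∃ n, n = w₀.prod := ⟨_, rfl⟩
  have hn2 : 2 ≤ n := by rw [hn]; exact h.two
  obtain ⟨w, N₀, hlow⟩ := low_gen 3 3 (n * n) (2 * u) Nat.prime_three le_rfl (by nlinarith)
  obtain ⟨A, Y, hAY⟩ := Pool.Agent.Lib.MP_06b9d2_tls.core_ex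
  obtain ⟨a, k0, c, q⟩ := Pool.Agent.Lib.MP_06b9d2_tls.qd_ex hAY
  have hne : ∀ w ∈ s, ∀ n ∈ w, n ≠ 0 := by
    intro w hw n hn h0
    have := h.letter w hw n hn
    rw [h0] at this
    exact this rfl
  have hword : ∀ w ∈ s, ∀ n ∈ w, n ≠ 0 ∧ ∀ d : ℕ, d ∣ n → O.valuation (d : ℂ) = 1 := fun w hw n hn =>
    ⟨hne w hw n hn, v3_dvd h3 n (h.letter w hw n hn)⟩
  refine ⟨max w N₀, kerW_scale cs hcs ?_⟩
  rw [← hz']
  intro k hk T hT lam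
  refine mult_three (max w N₀) N₀ (le_max_right _ _) (lv3 q) (fun k => ST k s z') ?_ k hk _
    (fun f => q_sum k T s z' (fun w hw n hn => ⟨hne w hw n hn, hT w hw n hn⟩) f) lam
  intro ε N hε hN hle
  obtain ⟨M7, hM7⟩ := Pool.Agent.Lib.MP_06b9d2_tls.matD_ex hAY GTh_PL
  obtain ⟨b, hb⟩ := tri_mo3 q O ε N
  -- the letters
  have hG : ∀ w ∈ s, ∀ n ∈ w, GT O r3 N (3 * N + ε)
      (mo (PowerSeries.map (Int.castRingHom ℂ) a) (PowerSeries.map (Int.castRingHom ℂ) c) ε N)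
      (mt3 7 M7 ε N) n (if n % 3 = 1 then 0 else 1) := by
    intro w hw n hn
    have hn3 := h.letter w hw n hn
    refine gt_n (O := O) (ρ := r3) (N := N) (k := 3 * N + ε) n hn3 ?_ ?_
    · intro l hl
      rw [map_div₀, map_pow, v3_dvd h3 n hn3 l (Nat.dvd_of_mem_primeFactors hl)]
      simp
    · intro l hl
      have hlp := Nat.prime_of_mem_primeFactors hl
      have hl3 : l ≠ 3 := by
        rintro rfl
        have := Nat.dvd_of_mem_primeFactors hl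
        omega
      first
      | exact gt_l hAY h3 q hlp hl3 hM7 ε N hN
      | exact gt_l hAY h3 q hlp hl3 hM7 ε N hε hN
  obtain ⟨s₁, hs₁⟩ : ∃ s₁, s₁ = s.filter (fun w => w.prod % 3 = 1) := ⟨_, rfl⟩
  obtain ⟨s₂, hs₂⟩ : ∃ s₂, s₂ = s.filter (fun w => ¬ (w.prod % 3 = 1)) := ⟨_, rfl⟩
  have hs1 : ∀ w ∈ s₁, w ∈ s ∧ w.prod % 3 = 1 := by
    intro w hw
    rw [hs₁, Finset.mem_filter] at hw
    exact hw
  have hs2 : ∀ w ∈ s₂, w ∈ s ∧ ¬ (w.prod % 3 = 1) := by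
    intro w hw
    rw [hs₂, Finset.mem_filter] at hw
    exact hw
  obtain ⟨M₁, hR1, hS1, hC1, hP1, hQ1⟩ := ggt_sum (O := O) (ρ := r3) (N := N) (k := 3 * N + ε)
    (mo := mo (PowerSeries.map (Int.castRingHom ℂ) a) (PowerSeries.map (Int.castRingHom ℂ) c) ε N)
    (M₀ := mt3 7 M7 ε N) (ε := 0) s₁ z' (fun w hw => hz1 w (hs1 w hw).1)
    (fun w hw => h.letter w (hs1 w hw).1) (fun w hw => hG w (hs1 w hw).1)
    (fun w hw => if_pos (hs1 w hw).2)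
  obtain ⟨M₂, hR2, hS2, hC2, hP2, hQ2⟩ := ggt_sum (O := O) (ρ := r3) (N := N) (k := 3 * N + ε)
    (mo := mo (PowerSeries.map (Int.castRingHom ℂ) a) (PowerSeries.map (Int.castRingHom ℂ) c) ε N)
    (M₀ := mt3 7 M7 ε N) (ε := 1) s₂ z' (fun w hw => hz1 w (hs2 w hw).1)
    (fun w hw => h.letter w (hs2 w hw).1) (fun w hw => hG w (hs2 w hw).1)
    (fun w hw => if_neg (hs2 w hw).2)
  have hST : ST (3 * N + ε) s z' = ST (3 * N + ε) s₁ z' + ST (3 * N + ε) s₂ z' := by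
    unfold ST
    rw [hs₁, hs₂, Finset.sum_filter_add_sum_filter_not]
  have hl1 := lwC_sum (O := O) (3 * N + ε) s₁ z' (fun w hw => hz1 w (hs1 w hw).1)
    (fun w hw => hword w (hs1 w hw).1) w₀ (fun w hw => h.max w (hs1 w hw).1)
  have hl2 := lwC_sum (O := O) (3 * N + ε) s₂ z' (fun w hw => hz1 w (hs2 w hw).1)
    (fun w hw => hword w (hs2 w hw).1) w₀ (fun w hw => h.max w (hs2 w hw).1)
  rw [← hn] at hl1 hl2
  obtain ⟨c₁, hc₁⟩ : ∃ c₁, c₁ = (if w₀ ∈ s₁ then z' w₀ else 0) := ⟨_, rfl⟩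
  obtain ⟨c₂, hc₂⟩ : ∃ c₂, c₂ = (if w₀ ∈ s₂ then z' w₀ else 0) := ⟨_, rfl⟩
  rw [← hc₁] at hl1
  rw [← hc₂] at hl2
  have hcv : O.valuation (((3 : ℕ) : ℂ) ^ (2 * u)) ≤
      O.valuation ((c₁ + 0) * (c₁ + 0) + -1 * (c₂ * c₂)) := by
    have e1 : O.valuation ((c₁ + 0) * (c₁ + 0) + -1 * (c₂ * c₂)) = O.valuation (z' w₀) ^ 2 := by
      by_cases h1 : w₀.prod % 3 = 1
      · have g1 : w₀ ∈ s₁ := by rw [hs₁, Finset.mem_filter]; exact ⟨h.mem, h1⟩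
        have g2 : w₀ ∉ s₂ := fun hh => (hs2 _ hh).2 h1
        rw [hc₁, hc₂, if_pos g1, if_neg g2]
        have e2 : (z' w₀ + 0) * (z' w₀ + 0) + -1 * (0 * 0) = z' w₀ ^ 2 := by ring
        rw [e2, map_pow]
      · have g2 : w₀ ∈ s₂ := by rw [hs₂, Finset.mem_filter]; exact ⟨h.mem, h1⟩
        have g1 : w₀ ∉ s₁ := fun hh => h1 (hs1 _ hh).2
        rw [hc₁, hc₂, if_neg g1, if_pos g2]
        have e2 : ((0 : ℂ) + 0) * (0 + 0) + -1 * (z' w₀ * z' w₀) = -(z' w₀ ^ 2) := by ring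
        rw [e2, Valuation.map_neg, map_pow]
    rw [e1, mul_comm 2 u, pow_mul, map_pow]
    exact pow_le_pow_left' hu 2
  have hcomm : Commute M₁ M₂ := rp_comm (fun x hx => Pool.Agent.Lib.MP_06b9d2_ssp.ind (lv3 q) ε N x hx) hR1 hR2
    (ST_comm (3 * N + ε) s₁ s₂ z' z' (fun w hw => hne w (hs1 w hw).1) (fun w hw => hne w (hs2 w hw).1))
  have hRM := Pool.Agent.Lib.MP_06b9d2_tln.rp_add hR1 hR2
  have hSM := Pool.Agent.Lib.MP_06b9d2_tln.sy_add hS1 hS2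
  rw [← hST] at hRM
  refine ⟨M₁ + M₂, hRM, hSM, ?_⟩
  intro lam x hsym heig hmom
  by_contra hx
  -- the eigenvalue is integral
  have hΛ : ((3 : ℕ) : ℂ) ^ 3 ≠ 0 := by norm_num
  have hΛ1 : O.valuation (((3 : ℕ) : ℂ) ^ 3) ≤ 1 := by
    rw [map_pow]
    exact pow_le_one' h3'.le 3
  have hlam : O.valuation lam ≤ 1 :=
    eig_int (fun j s => entC_int hb hΛ hΛ1 (lwC_add hl1 hl2) (by rw [← hST]; exact hRM) hSM j s) x hx lam heig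
  have hI : InjD N (max w N₀) ((M₁ + (-lam) • 1) * (M₁ + (-lam) • 1) + (-1 : ℂ) • (M₂ * M₂)) := by
    refine GTh_one h3 hAY hM7 ε N hε hN (w := w) (GTh_sy lam hS1 hS2) (GTh_comm lam hC1 hC2)
      (GTh_prD lam hlam hP1 hP2) (GTh_prD lam hlam hQ1 hQ2) (le_max_left _ _) ?_
    exact hlow O h3' N hle _ b hb _ _ (GTh_lw lam hlam hn2 hl1 hl2) hcv _ (GTh_rp lam hR1 hR2)
      (GTh_sy lam hS1 hS2)
  exact hx (hI 0 x hsym (GTh_ker lam hcomm x heig) hmom)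

end Pool.Agent.Lib.MP_06b9d2_bm
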