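import Pool.Agent.Lib.MP_06b9d2_bm.DefsG
import Pool.Agent.Lib.MP_06b9d2_bm.Prd

/-!
Module BM-GPr. Closure properties of `GG` (prime `2`).

`gg_id`, `gg_add`, `gg_smul`, `gg_comp`: the matrices `1`, `M + M'`, `z • M`, `M * M'`: `rp_one`, `rp_add`, `rp_smul`, `rp_mul`, `sy_one`, … (`MP_06b9d2_tln/Rpa.lean`), `prD_one`, `prD_add`, `prD_smul`, `prD_mul` (module Prd), `Commute.one_left`, `Commute.add_left`, `Commute.smul_left`, `Commute.mul_left`.
`gg_word`: induction on the list (`GC … n` is `GG … (TN n k)`). `gg_sum`: induction over the finite set; the empty sum has the matrix `0` (`0 • 1`).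
-/

namespace Pool.Agent.Lib.MP_06b9d2_bm

open PowerSeries
open Pool.Agent.Lib.MP_06b9d2_tln (TN Mt Rp Sy act)

variable {O : ValuationSubring ℂ} {ρ : ℂ} {N k : ℕ} {mo : ℕ → ℂ⟦X⟧} {M₀ : Mt N} {T T' : ℂ⟦X⟧ →ₗ[ℂ] ℂ⟦X⟧}

theorem gg_id : GG O ρ N mo M₀ LinearMap.id :=
  ⟨1, Pool.Agent.Lib.MP_06b9d2_tln.rp_one mo, Pool.Agent.Lib.MP_06b9d2_tln.sy_one, Commute.one_left M₀,
    prD_one, prD_one⟩

theorem gg_add (h : GG O ρ N mo M₀ T) (h' : GG O ρ N mo M₀ T') : GG O ρ N mo M₀ (T + T') := by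
  obtain ⟨M, h1, h2, h3, h4, h5⟩ := h
  obtain ⟨M', h1', h2', h3', h4', h5'⟩ := h'
  exact ⟨M + M', Pool.Agent.Lib.MP_06b9d2_tln.rp_add h1 h1', Pool.Agent.Lib.MP_06b9d2_tln.sy_add h2 h2',
    h3.add_left h3', prD_add h4 h4', prD_add h5 h5'⟩

theorem gg_smul (z : ℂ) (hz : O.valuation z ≤ 1) (h : GG O ρ N mo M₀ T) : GG O ρ N mo M₀ (z • T) := by
  obtain ⟨M, h1, h2, h3, h4, h5⟩ := h
  exact ⟨z • M, Pool.Agent.Lib.MP_06b9d2_tln.rp_smul z h1, Pool.Agent.Lib.MP_06b9d2_tln.sy_smul z h2,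
    h3.smul_left z, prD_smul z hz h4, prD_smul z hz h5⟩

theorem gg_comp (h : GG O ρ N mo M₀ T) (h' : GG O ρ N mo M₀ T') : GG O ρ N mo M₀ (T ∘ₗ T') := by
  obtain ⟨M, h1, h2, h3, h4, h5⟩ := h
  obtain ⟨M', h1', h2', h3', h4', h5'⟩ := h'
  exact ⟨M * M', Pool.Agent.Lib.MP_06b9d2_tln.rp_mul h1 h1', Pool.Agent.Lib.MP_06b9d2_tln.sy_mul h2 h2',
    h3.mul_left h3', prD_mul h4 h4', prD_mul h5 h5'⟩

theorem gg_word (w : List ℕ) (h : ∀ n ∈ w, GC O ρ N k mo M₀ n) : GG O ρ N mo M₀ (WT k w) := by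
  induction w with
  | nil =>
    have e1 : WT k [] = LinearMap.id := by
      rw [WT, List.map_nil, List.prod_nil]
      rfl
    rw [e1]
    exact gg_id
  | cons n w ih =>
    have e1 : WT k (n :: w) = TN n k ∘ₗ WT k w := by
      rw [WT, List.map_cons, List.prod_cons]
      rfl
    rw [e1]
    exact gg_comp (h n List.mem_cons_self) (ih fun m hm => h m (List.mem_cons_of_mem n hm))

theorem gg_sum (s : Finset (List ℕ)) (z : List ℕ → ℂ) (hz : ∀ w ∈ s, O.valuation (z w) ≤ 1)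
    (h : ∀ w ∈ s, ∀ n ∈ w, GC O ρ N k mo M₀ n) : GG O ρ N mo M₀ (ST k s z) := by
  classical
  induction s using Finset.induction_on with
  | empty =>
    have e1 : ST k ∅ z = (0 : ℂ) • (LinearMap.id : ℂ⟦X⟧ →ₗ[ℂ] ℂ⟦X⟧) := by
      rw [ST, Finset.sum_empty, zero_smul]
    rw [e1]
    exact gg_smul 0 (by rw [map_zero]; exact zero_le') gg_id
  | insert w s hw ih =>
    have e1 : ST k (insert w s) z = z w • WT k w + ST k s z := by
      rw [ST, Finset.sum_insert hw]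
      rfl
    rw [e1]
    refine gg_add (gg_smul (z w) (hz w (Finset.mem_insert_self w s))
      (gg_word w (h w (Finset.mem_insert_self w s)))) (ih (fun v hv => hz v (Finset.mem_insert_of_mem hv))
      fun v hv => h v (Finset.mem_insert_of_mem hv))

end Pool.Agent.Lib.MP_06b9d2_bm
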