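import Pool.Agent.Lib.MP_06b9d2_bm.AbsB
import Pool.Agent.Lib.MP_06b9d2_bm.AbsC
import Pool.Agent.Lib.MP_06b9d2_bm.Low
import Pool.Agent.Lib.MP_06b9d2_bm.AsB
import Pool.Agent.Lib.MP_06b9d2_bm.AsC
import Pool.Agent.Lib.MP_06b9d2_tl2.CoreS
import Pool.Agent.Lib.MP_06b9d2_tl2.Mat2
import Pool.Agent.Lib.MP_06b9d2_tl2.TwoL
import Pool.Agent.Lib.MP_06b9d2_tl2.Row

/-!
Module BM-Inj. The matrix of `T_n`, `n ≥ 3` odd: symmetric eigenvectors are determined by `44 n ^ 2 + 58 n` moments.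

`inj_mono`: trivial. `inj_odd`: `core_ex`, `qd_ex`, `exists_O2`, `matD_ex` (`l = 3`, `e`), `kap_l` (`l = 3`, `matD_ex` with `e = 1`); `lv2'`; `gc_l` for all primes `l ∣ n` (odd), `gc_n` (`v(l ^ k / l) ≤ 1`: `v(l) = 1`, `v_odd`) give `M`; `bas_ex`;
`low_two` with `p = 2`, `t = 6`, `K = 3`, `e = 8 n + 16` (`lw_TN` with `v_dvd`, `tri_mo`): `3 n + e + 2 = 11 n + 18`, `he`: `33 n ^ 2 + 73 n + 33 < 2 ^ (8 n + 16)` (`m < 2 ^ m` for `m = 4 n`, squared). `mul_of` with this `w` and `D = 44 n ^ 2 + 58 n`: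
`v((pr ^ 3) ^ 2) = v(2) ^ 3` and `w = 132 n ^ 2 + 174 n - 59 < 3 (D + 1)`. `inj_of`. The casts: `((2 : ℕ) : ℂ)` in `Low`, `2` in `Bas`.
-/

namespace Pool.Agent.Lib.MP_06b9d2_bm

open PowerSeries
open Pool.Agent.Lib.MP_06b9d2_tln (TN Mt Rp Sy act)
open Pool.Agent.Lib.MP_06b9d2_tls (Lv2 mo2)

theorem inj_mono {N D D' : ℕ} {M : Mt N} (h : InjD N D M) (hD : D ≤ D') : InjD N D' M := by
  intro lam x h1 h2 h3
  exact h lam x h1 h2 fun i hi => h3 i (lt_of_lt_of_le hi hD)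

private theorem Inj_pow (n : ℕ) (h3 : 3 ≤ n) :
    (3 * n + (8 * n + 16)) + (3 * n * (3 * n + (8 * n + 16) + 2) + (8 * n + 16)) + 1 < 2 ^ (8 * n + 16) := by
  have h1 : 4 * n < 2 ^ (4 * n) := Nat.lt_two_pow_self
  have h2 : 2 ^ (8 * n + 16) = 65536 * (2 ^ (4 * n) * 2 ^ (4 * n)) := by
    rw [← pow_add 2 (4 * n) (4 * n), show 4 * n + 4 * n = 8 * n by ring, pow_add 2 (8 * n) 16,
      mul_comm, show (2 : ℕ) ^ 16 = 65536 by norm_num]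
  rw [h2]
  have h4 : (4 * n) * (4 * n) ≤ 2 ^ (4 * n) * 2 ^ (4 * n) := Nat.mul_le_mul h1.le h1.le
  nlinarith

private theorem Inj_w (n : ℕ) (h3 : 3 ≤ n) :
    6 * (n * (3 * n + (8 * n + 16) + 2) - (3 * n + (8 * n + 16) + 2)) +
      2 * (3 * n * (3 * n + (8 * n + 16) + 2) + (8 * n + 16)) + 1 + (8 * n + 16) <
    3 * (44 * n ^ 2 + 58 * n + 1) := by
  have h1 : 3 * n + (8 * n + 16) + 2 ≤ n * (3 * n + (8 * n + 16) + 2) :=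
    Nat.le_mul_of_pos_left _ (by omega)
  obtain ⟨m, hm⟩ := Nat.exists_eq_add_of_le h1
  rw [hm, Nat.add_sub_cancel_left]
  nlinarith

theorem inj_odd (n : ℕ) (hn : n % 2 = 1) (h3 : 3 ≤ n) : ∃ a g : ℂ⟦X⟧, Lv2 a g ∧
    ∀ e N : ℕ, e ≤ 1 → 33 * n ^ 2 + 62 * n + 16 ≤ N → ∃ M : Mt N,
      Rp (mo2 a g e N) (TN n (4 * N + 2 * e)) M ∧ Sy M ∧ InjD N (44 * n ^ 2 + 58 * n) M := by
  obtain ⟨A, Y, h⟩ := Pool.Agent.Lib.MP_06b9d2_tl2.core_ex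
  obtain ⟨a, k, q⟩ := Pool.Agent.Lib.MP_06b9d2_tl2.qd_ex h
  obtain ⟨O, h2⟩ := Pool.Agent.Lib.MP_06b9d2_tl2.exists_O2
  refine ⟨A + 3 * Y, 8 * (Y * (A + Y)), Pool.Agent.Lib.MP_06b9d2_tln.lv2' h, fun e N he hN => ?_⟩
  obtain ⟨M3, hM3⟩ := Pool.Agent.Lib.MP_06b9d2_tl2.matD_ex h Nat.prime_three (by norm_num) e he
  obtain ⟨M3', hM3'⟩ := Pool.Agent.Lib.MP_06b9d2_tl2.matD_ex h Nat.prime_three (by norm_num) 1 le_rfl
  have hk := Pool.Agent.Lib.MP_06b9d2_tl2.kap_l h q Nat.prime_three (by norm_num) hM3'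
  have hn0 : n ≠ 0 := by omega
  have hdv : ∀ d : ℕ, d ∣ n → O.valuation (d : ℂ) = 1 := v_dvd h2 n hn
  have hG := gc_n (O := O) (ρ := Pool.Agent.Lib.MP_06b9d2_tl2.pr ^ 3) (N := N) (k := 4 * N + 2 * e)
    (mo := mo2 (A + 3 * Y) (8 * (Y * (A + Y))) e N)
    (M₀ := Pool.Agent.Lib.MP_06b9d2_tln.mtx 3 M3 N) n hn0 (by
      intro l hl
      rw [map_div₀, map_pow, hdv l (Nat.dvd_of_mem_primeFactors hl)]
      simp) (by
      intro l hl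
      have hlp := Nat.prime_of_mem_primeFactors hl
      have hl2 : l ≠ 2 := by
        rintro rfl
        have := Nat.dvd_of_mem_primeFactors hl
        omega
      exact gc_l h h2 hlp hl2 he hM3 N)
  obtain ⟨M, hRp, hSy, hC, h1, hρ⟩ := hG
  obtain ⟨c₀, W, hB⟩ := bas_ex h h2 q he hM3 hk N M hSy hC h1 hρ
  obtain ⟨b, hb⟩ := tri_mo h O e N
  have h2' : O.valuation ((2 : ℕ) : ℂ) < 1 := by
    rw [Nat.cast_ofNat]
    exact h2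
  have hl := low_two (T := TN n (4 * N + 2 * e)) (n := n) (M := M) Nat.prime_two h2' 6 3 (by norm_num)
    (by norm_num) hb (lw_TN (4 * N + 2 * e) hn0 hdv) hRp hSy (by omega) (8 * n + 16) (Inj_pow n h3)
    (by nlinarith)
  rw [Nat.cast_ofNat] at hl
  refine ⟨M, hRp, hSy, ?_⟩
  apply inj_of O
  refine mul_of hB _ _ hl ?_
  intro i hi
  have hv := Pool.Agent.Lib.MP_06b9d2_tl2.v_pr h2
  have hv0 : O.valuation (2 : ℂ) ≠ 0 := (Valuation.ne_zero_iff _).2 (by norm_num)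
  have e1 : O.valuation (((Pool.Agent.Lib.MP_06b9d2_tl2.pr ^ 3) ^ 2) ^ i) = O.valuation (2 : ℂ) ^ (3 * i) := by
    have e2 : ((Pool.Agent.Lib.MP_06b9d2_tl2.pr ^ 3) ^ 2) ^ i = (2 : ℂ) ^ (3 * i) := by
      rw [← Pool.Agent.Lib.MP_06b9d2_tl2.pr_sq]
      ring
    rw [e2, map_pow]
  rw [e1, map_pow]
  have hw := Inj_w n h3
  exact pow_lt_pow_right_of_lt_one₀ (zero_lt_iff.2 hv0) h2 (by omega)

end Pool.Agent.Lib.MP_06b9d2_bm
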