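import Pool.Agent.Lib.MP_06b9d2_bm.GLw
import Pool.Agent.Lib.MP_06b9d2_bm.GLo
import Pool.Agent.Lib.MP_06b9d2_bm.GPr
import Pool.Agent.Lib.MP_06b9d2_bm.GKe
import Pool.Agent.Lib.MP_06b9d2_bm.GVa
import Pool.Agent.Lib.MP_06b9d2_bm.Inj

/-!
Module BM-GTw. The bound for sums of products of `T_n`, `n` odd.
-/

namespace Pool.Agent.Lib.MP_06b9d2_bm

open PowerSeries
open Pool.Agent.Lib.MP_06b9d2_tln (TN Mt Rp Sy act)
open Pool.Agent.Lib.MP_06b9d2_tls (Lv2 mo2)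

theorem gen_two {s : Finset (List ℕ)} {z : List ℕ → ℂ} {w₀ : List ℕ} (h : Wds (fun n => n % 2 = 1) s z w₀) :
    ∃ B, KerW s z B := by
  classical
  obtain ⟨O, h2', hu⟩ := exists_O1 2 Nat.prime_two
  have h2 : O.valuation (2 : ℂ) < 1 := by rwa [Nat.cast_ofNat] at h2'
  obtain ⟨cs, hcs, hzs⟩ := scale_ex O s z w₀ h.mem h.ne
  obtain ⟨z', hz'⟩ : ∃ z' : List ℕ → ℂ, z' = fun w => cs * z w := ⟨_, rfl⟩
  have hz1 : ∀ w ∈ s, O.valuation (z' w) ≤ 1 := by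
    intro w hw
    rw [hz']
    exact hzs w hw
  have hz0 : z' w₀ ≠ 0 := by
    rw [hz']
    exact mul_ne_zero hcs h.ne
  obtain ⟨u, hu⟩ := hu (z' w₀) hz0
  obtain ⟨w, N₀, hlow⟩ := low_gen 2 6 w₀.prod u Nat.prime_two (by norm_num) h.two
  obtain ⟨A, Y, hAY⟩ := Pool.Agent.Lib.MP_06b9d2_tl2.core_ex
  obtain ⟨a, k0, q⟩ := Pool.Agent.Lib.MP_06b9d2_tl2.qd_ex hAY
  have hne : ∀ w ∈ s, ∀ n ∈ w, n ≠ 0 := by
    intro w hw n hn h0
    have := h.letter w hw n hn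
    omega
  have hword : ∀ w ∈ s, ∀ n ∈ w, n ≠ 0 ∧ ∀ d : ℕ, d ∣ n → O.valuation (d : ℂ) = 1 := fun w hw n hn =>
    ⟨hne w hw n hn, v_dvd h2 n (h.letter w hw n hn)⟩
  refine ⟨max w N₀, kerW_scale cs hcs ?_⟩
  rw [← hz']
  intro k hk T hT lam
  refine mult_two (max w N₀) N₀ (le_max_right _ _) (Pool.Agent.Lib.MP_06b9d2_tln.lv2' hAY)
    (fun k => ST k s z') ?_ k hk _
    (fun f => q_sum k T s z' (fun w hw n hn => ⟨hne w hw n hn, hT w hw n hn⟩) f) lam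
  intro e N he hle
  obtain ⟨M3, hM3⟩ := Pool.Agent.Lib.MP_06b9d2_tl2.matD_ex hAY Nat.prime_three (by norm_num) e he
  obtain ⟨M3', hM3'⟩ := Pool.Agent.Lib.MP_06b9d2_tl2.matD_ex hAY Nat.prime_three (by norm_num) 1 le_rfl
  have hk3 := Pool.Agent.Lib.MP_06b9d2_tl2.kap_l hAY q Nat.prime_three (by norm_num) hM3'
  obtain ⟨b, hb⟩ := tri_mo hAY O e N
  have hG : ∀ w ∈ s, ∀ n ∈ w, GC O (Pool.Agent.Lib.MP_06b9d2_tl2.pr ^ 3) N (4 * N + 2 * e)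
      (mo2 (A + 3 * Y) (8 * (Y * (A + Y))) e N) (Pool.Agent.Lib.MP_06b9d2_tln.mtx 3 M3 N) n := by
    intro w hw n hn
    have hn1 : n % 2 = 1 := h.letter w hw n hn
    refine gc_n n (hne w hw n hn) ?_ ?_
    · intro l hl
      rw [map_div₀, map_pow, v_dvd h2 n hn1 l (Nat.dvd_of_mem_primeFactors hl)]
      simp
    · intro l hl
      have hlp := Nat.prime_of_mem_primeFactors hl
      have hl2 : l ≠ 2 := by
        rintro rfl
        have := Nat.dvd_of_mem_primeFactors hl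
        omega
      exact gc_l hAY h2 hlp hl2 he hM3 N
  obtain ⟨M, hRp, hSy, hC, h1, hρ⟩ := gg_sum s z' hz1 hG
  obtain ⟨c₀, W, hB⟩ := bas_ex hAY h2 q he hM3 hk3 N M hSy hC h1 hρ
  have hl := lwC_sum (O := O) (4 * N + 2 * e) s z' hz1 hword w₀ h.max
  rw [if_pos h.mem] at hl
  have hlo := hlow O h2' N hle _ b hb _ _ hl hu M hRp hSy
  rw [Nat.cast_ofNat] at hlo
  refine ⟨M, hRp, hSy, ?_⟩
  have hI : InjD N (max w N₀) M := by
    apply inj_of O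
    refine mul_of hB _ _ hlo ?_
    intro i hi
    have hv0 : O.valuation (2 : ℂ) ≠ 0 := (Valuation.ne_zero_iff _).2 (by norm_num)
    have e1 : O.valuation (((Pool.Agent.Lib.MP_06b9d2_tl2.pr ^ 3) ^ 2) ^ i) =
        O.valuation (2 : ℂ) ^ (3 * i) := by
      have e2 : ((Pool.Agent.Lib.MP_06b9d2_tl2.pr ^ 3) ^ 2) ^ i = (2 : ℂ) ^ (3 * i) := by
        rw [← Pool.Agent.Lib.MP_06b9d2_tl2.pr_sq]
        ring
      rw [e2, map_pow]
    rw [e1, map_pow]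
    have hi' : w < i := lt_of_le_of_lt (le_max_left _ _) hi
    exact pow_lt_pow_right_of_lt_one₀ (zero_lt_iff.2 hv0) h2 (by omega)
  exact fun lam x h1 h2 h3 => hI lam x h1 h2 h3

end Pool.Agent.Lib.MP_06b9d2_bm
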