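import Pool.Agent.Lib.MP_06b9d2_bm.TIn
import Pool.Agent.Lib.MP_06b9d2_bm.KerD
import Pool.Agent.Lib.MP_06b9d2_bm.Mlt
import Pool.Agent.Lib.MP_06b9d2_tls.Ker

/-!
Module BM-TFn. The bound `131 n ^ 4` for `n ≥ 2` prime to `3`.

As `mult_D` (module KerD) and `ker_le` (`MP_06b9d2_tls/Ker.lean`): `N = k / 3`, `ε = k % 3`. If `N < 42 n ^ 4 + 49 n ^ 2 + 6` the dimension of the space is at most `N` (see `KerD`; `rep` gives `4 j ≤ N` for `1 ≤ j < dd k`), and `42 n ^ 4 + 49 n ^ 2 + 6 ≤ 131 n ^ 4`. Otherwise `inj3`, `ker_D` with `D = 131 n ^ 4` (`105 n ^ 4 + 102 n ^ 2 ≤ 131 n ^ 4` for `n ≥ 2`; the moments of order `< D`), `ind`, `rep`.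
-/

namespace Pool.Agent.Lib.MP_06b9d2_bm

open PowerSeries Pool.Agent.L1 UpperHalfPlane Pool.Agent.Lib.MP_06b9d2_nt
open scoped MatrixGroups ModularForm

theorem kerB_three (n : ℕ) (hn : n % 3 ≠ 0) (h2 : 2 ≤ n) : KerB n (131 * n ^ 4) := by
  intro k hk T hT lam
  obtain ⟨a, c, h, hM⟩ := inj3 n hn h2
  have hn0 : n ≠ 0 := by omega
  have hsq : 4 ≤ n ^ 2 := by nlinarith
  have hq : n ^ 4 = n ^ 2 * n ^ 2 := by ring
  obtain ⟨N, hN⟩ : ∃ N, N = k / 3 := ⟨_, rfl⟩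
  obtain ⟨e, he⟩ : ∃ e, e = k % 3 := ⟨_, rfl⟩
  have hk3 : 3 * N + e = k := by omega
  have he2 : e ≤ 2 := by omega
  have hev : Even (N + e) := by
    rw [Nat.even_iff] at hk ⊢
    omega
  by_cases hN0 : 42 * n ^ 4 + 49 * n ^ 2 + 6 ≤ N
  · obtain ⟨M, hR, hS, hI⟩ := hM e N he2 hev hN0
    rw [hk3] at hR
    have h1 : Module.finrank ℂ (LinearMap.ker (T - lam • LinearMap.id)) ≤ 105 * n ^ 4 + 102 * n ^ 2 := by
      refine ker_D n hn0 k N _ (Pool.Agent.Lib.MP_06b9d2_ssp.mo a c e N) M hR hS hI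
        (fun x hx => Pool.Agent.Lib.MP_06b9d2_ssp.ind h e N x hx) ?_ T hT lam
      intro j _ hj
      obtain ⟨y, y1, y2, y3, y4, y5⟩ := Pool.Agent.Lib.MP_06b9d2_ssp.rep h k j hj
      rw [← hN] at y3 y4 y5
      rw [← he] at y5
      exact ⟨y, y1, y2, fun s hs => y3 s (by omega), by omega, y5⟩
    nlinarith
  · obtain ⟨Φ, hΦb, hΦ⟩ := Pool.Agent.Lib.MP_06b9d2_nt.MU.Phi_ex k
    have hdk : dd k - 1 ≤ N := by
      rcases Nat.lt_or_ge (dd k) 2 with h2 | h2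
      · omega
      · obtain ⟨_, _, _, _, y4, _⟩ := Pool.Agent.Lib.MP_06b9d2_ssp.rep h k (dd k - 1) (by omega)
        omega
    have := fin_cusp (k : ℤ)
    have h1 : Module.finrank ℂ (CuspForm 𝒮ℒ (k : ℤ)) ≤ dd k - 1 := by
      have h2 := LinearMap.finrank_le_finrank_of_injective hΦb.1
      rwa [Module.finrank_fin_fun] at h2
    have h3 := Submodule.finrank_le (LinearMap.ker (T - lam • LinearMap.id))
    have h4 : N ≤ 131 * n ^ 4 := by nlinarith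
    omega

end Pool.Agent.Lib.MP_06b9d2_bm
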