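import Pool.Agent.Lib.MP_06b9d2_bm.Fin
import Pool.Agent.Lib.MP_06b9d2_bm.TFn
import Pool.Agent.Lib.MP_06b9d2_bm.GTw
import Pool.Agent.Lib.MP_06b9d2_bm.GTh
import Pool.Agent.Lib.MP_06b9d2_bm.GPo
import Pool.Agent.Lib.MP_06b9d2_bm.GFb
import Pool.Agent.Lib.MP_06b9d2_nt.ME.Main

/-!
MP_06b9d2_nt, board BM: the parts of the final theorem.
-/

namespace Pool.Agent.Lib.MP_06b9d2_bm

open UpperHalfPlane Pool.Agent.L1 Pool.Agent.Lib.MP_06b9d2_nt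
open IntermediateField
open scoped MatrixGroups ModularForm

/-- the bound -/
def bd (n : ℕ) : ℕ := if n % 2 = 1 then 64 * n ^ 2 else 131 * n ^ 4

theorem kerB_bd (n : ℕ) (h2 : 2 ≤ n) (h6 : ¬ 6 ∣ n) : KerB n (bd n) := by
  unfold bd
  split_ifs with h
  · exact kerB_odd n h (by omega)
  · exact kerB_three n (by omega) h2

/-- there are no cusp forms of negative weight -/
theorem neg_zero' (k : ℤ) (hk : k < 0) : Subsingleton (CuspForm 𝒮ℒ k) := by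
  have := fin_cusp k
  have h1 : Module.finrank ℂ (CuspForm 𝒮ℒ k) = 0 := by
    rw [Module.finrank, CuspForm.rank_eq_zero_of_weight_lt_twelve (by omega)]
    exact Cardinal.zero_toNat
  exact Module.finrank_zero_iff.1 h1

/-- the letters: all odd or all prime to `3` -/
theorem gen_all (Q : ℕ → Prop) (hQ : (∀ n, Q n → n % 2 = 1) ∨ ∀ n, Q n → n % 3 ≠ 0) (s : Finset (List ℕ))
    (z : List ℕ → ℂ) (w₀ : List ℕ) (h : Wds Q s z w₀) : ∃ B, KerW s z B := by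
  rcases hQ with hQ | hQ
  · exact gen_two ⟨fun w hw n hn => hQ n (h.letter w hw n hn), h.mem, h.ne, h.two, h.max⟩
  · exact gen_three ⟨fun w hw n hn => hQ n (h.letter w hw n hn), h.mem, h.ne, h.two, h.max⟩

theorem poly_all (P : MvPolynomial ℕ ℂ) (hv : P.vars.Nonempty) (hP : ∀ l ∈ P.vars, l.Prime)
    (h23 : 2 ∉ P.vars ∨ 3 ∉ P.vars) :
    ∃ B : ℕ, ∀ (k : ℤ) (_ : Even k) (T : ℕ → CuspForm 𝒮ℒ k →ₗ[ℂ] CuspForm 𝒮ℒ k)
      (_ : ∀ l ∈ P.vars, IsHecke k l (T l)) (lam : ℂ) (r : ℕ) (f : Fin r → CuspForm 𝒮ℒ k)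
      (_ : LinearIndependent ℂ f) (a : Fin r → ℕ → ℂ) (_ : ∀ i, ∀ l ∈ P.vars, T l (f i) = a i l • f i)
      (_ : ∀ i, MvPolynomial.eval (a i) P = lam), r ≤ B := by
  have hQ : ∃ Q : ℕ → Prop, ((∀ n, Q n → n % 2 = 1) ∨ ∀ n, Q n → n % 3 ≠ 0) ∧ ∀ l ∈ P.vars, Q l := by
    rcases h23 with h | h
    · refine ⟨fun n => n % 2 = 1, Or.inl fun n hn => hn, fun l hl => ?_⟩
      rcases (hP l hl).eq_two_or_odd with h2 | h2
      · exact absurd (h2 ▸ hl) h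
      · exact h2
    · refine ⟨fun n => n % 3 ≠ 0, Or.inr fun n hn => hn, fun l hl h3 => ?_⟩
      have h4 : 3 = l := (Nat.prime_dvd_prime_iff_eq Nat.prime_three (hP l hl)).1 (Nat.dvd_of_mod_eq_zero h3)
      exact h (h4 ▸ hl)
  obtain ⟨Q, hQ1, hQ2⟩ := hQ
  obtain ⟨B, hB⟩ := poly_of (gen_all Q hQ1) P (fun l hl => ⟨hP l hl, hQ2 l hl⟩) hv
  refine ⟨B, ?_⟩
  intro k hk T hT lam r f hf a ha he
  rcases lt_or_ge k 0 with hneg | hpos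
  · have := neg_zero' k hneg
    rcases Nat.eq_zero_or_pos r with h0 | h0
    · omega
    · exact absurd (Subsingleton.elim (f ⟨0, h0⟩) 0) (hf.ne_zero _)
  · obtain ⟨m, rfl⟩ := Int.eq_ofNat_of_zero_le hpos
    exact hB m (by exact_mod_cast hk) T hT lam r f hf a ha he

theorem lin_all (s : Finset ℕ) (c : ℕ → ℂ) (hs : (∀ n ∈ s, n % 2 = 1) ∨ ∀ n ∈ s, n % 3 ≠ 0) (n₀ : ℕ)
    (hn₀ : n₀ ∈ s) (h2 : 2 ≤ n₀) (hc : c n₀ ≠ 0) :
    ∃ B : ℕ, ∀ (k : ℤ) (_ : Even k) (T : ℕ → CuspForm 𝒮ℒ k →ₗ[ℂ] CuspForm 𝒮ℒ k)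
      (_ : ∀ n ∈ s, IsHecke k n (T n)) (lam : ℂ),
      Module.finrank ℂ (LinearMap.ker ((∑ n ∈ s, c n • T n) - lam • LinearMap.id)) ≤ B := by
  have hQ : ((∀ n, n ∈ s → n % 2 = 1) ∨ ∀ n, n ∈ s → n % 3 ≠ 0) := hs
  obtain ⟨B, hB⟩ := lin_of (gen_all (fun n => n ∈ s) hQ) s c (fun n hn => hn) n₀ hn₀ h2 hc
  refine ⟨B, ?_⟩
  intro k hk T hT lam
  rcases lt_or_ge k 0 with hneg | hpos
  · have := neg_zero' k hneg
    rw [Module.finrank_zero_of_subsingleton]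
    exact Nat.zero_le _
  · obtain ⟨m, rfl⟩ := Int.eq_ofNat_of_zero_le hpos
    exact hB m (by exact_mod_cast hk) T hT lam

end Pool.Agent.Lib.MP_06b9d2_bm
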