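import Pool.Agent.Lib.MP_06b9d2_bm.DefsT
import Pool.Agent.Lib.MP_06b9d2_tln.Rpa
import Pool.Agent.Lib.MP_06b9d2_tln.TNa
import Pool.Agent.Lib.MP_06b9d2_tln.OpA
import Pool.Agent.Lib.MP_06b9d2_tls.PcMat
import Pool.Agent.Lib.MP_06b9d2_tls.Mat2
import Pool.Agent.Lib.MP_06b9d2_tls.Qd
import Pool.Agent.Lib.MP_06b9d2_tls.Vb

/-!
Module BM-TLa. The matrix of `T_l`, level three, `l ≠ 3` prime.

`lv3`: `Lv` from `q.a0`, `q.h4`, `q.h6` (see the proof of `two_l` in `MP_06b9d2_tls/TwoL.lean`). `rp3`: the first part of the proof of `two_l` (`TT_V3`, `V_inj`, `TT_Tl`, `V_mo`; copy the private lemmas), `TN_prime`; `Even (N + ε)` makes `3 N + ε` even. `sy3`: `hM.sym`, `e ^ (ε + N) = 1`.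
`act3`: `M ε N j s = (e c) ^ N MG e c (pc e c M ε) N j s` (`pc_mat`), and `MG e c κ N j s = e ^ s MG2 κ' N j s` with `κ' = k3 …` (the definitions; `MG2` is in `MP_06b9d2_tl2/Defs.lean`), so with `M' j s = MG2 κ' N j s`: `act M f s = (e c) ^ N / l e ^ s act M' f s`, and `act_op` (`MP_06b9d2_tln/OpA.lean`), `pc_deg`.
-/

namespace Pool.Agent.Lib.MP_06b9d2_bm

open PowerSeries Pool.Agent.L1
open Pool.Agent.Lib.MP_06b9d2_tln (TN Mt Rp Sy act op)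
open Pool.Agent.Lib.MP_06b9d2_tls (Core Qd MatD PL cl)
open Pool.Agent.Lib.MP_06b9d2_ssp (Lv mo)

variable {A Y : ℂ⟦X⟧} {a k c : ℤ⟦X⟧} {l : ℕ} {e s0 : ℂ} {M : ℕ → ℕ → ℕ → ℕ → ℂ}

private theorem TLa_e4 : PowerSeries.map (Int.castRingHom ℂ) (e4 ℤ) = e4 ℂ := by
  unfold e4
  ext n
  simp

private theorem TLa_e6 : PowerSeries.map (Int.castRingHom ℂ) (e6 ℤ) = e6 ℂ := by
  unfold e6
  ext n
  simp

theorem lv3 (q : Qd A Y a k c) :
    Lv (PowerSeries.map (Int.castRingHom ℂ) a) (PowerSeries.map (Int.castRingHom ℂ) c) := by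
  refine ⟨?_, ?_, ?_⟩
  · rw [← PowerSeries.coeff_zero_eq_constantCoeff_apply, PowerSeries.coeff_map,
      PowerSeries.coeff_zero_eq_constantCoeff_apply, q.a0]
    simp
  · rw [← TLa_e4, q.h4]
    simp only [map_mul, map_add, map_pow, map_ofNat]
  · rw [← TLa_e6, q.h6]
    simp only [map_mul, map_sub, map_pow, map_ofNat]

open Pool.Agent.Lib.MP_06b9d2_tls in
private theorem TLa_Vmo (q : Qd A Y a k c) (ε N s : ℕ) :
    V 3 (mo (PowerSeries.map (Int.castRingHom ℂ) a) (PowerSeries.map (Int.castRingHom ℂ) c) ε N s) =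
      moX A Y ε N s := by
  have h3 : (3 : ℕ) ≠ 0 := three_ne_zero
  unfold mo moX
  rw [V_mul h3, V_mul h3, V_pow h3, V_pow h3, V_pow h3, V_sub h3, V_pow h3, ← q.hA, ← q.hY3]

open Pool.Agent.Lib.MP_06b9d2_tls in
private theorem TLa_TT {l : ℕ} (hl : l ≠ 0) {e : ℂ} (he : e ^ 2 = 1) {w : ℕ} (hw : Even w) (f : ℂ⟦X⟧) :
    TT l e w f = (l : ℂ) • Tl l w f := by
  obtain ⟨v, rfl⟩ := hw
  have h1 : (e * l) ^ (v + v) = (l : ℂ) ^ (v + v) := by
    rw [mul_pow, ← two_mul, pow_mul, he, one_pow, one_mul]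
  have h2 : (l : ℂ) ≠ 0 := by exact_mod_cast hl
  rw [TT, Tl, h1, smul_add, smul_smul, mul_div_cancel₀ _ h2]

private theorem TLa_l3 (hl : PL l e s0) : l ≠ 3 := by
  rintro rfl
  rcases hl.2 with ⟨h1, -⟩ | ⟨h1, -⟩ <;> norm_num at h1

open Pool.Agent.Lib.MP_06b9d2_tls in
theorem rp3 (q : Qd A Y a k c) (hl : PL l e s0) (hM : MatD l e A Y M) (ε N : ℕ) (hε : ε ≤ 2)
    (hN : Even (N + ε)) :
    Rp (mo (PowerSeries.map (Int.castRingHom ℂ) a) (PowerSeries.map (Int.castRingHom ℂ) c) ε N)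
      (TN l (3 * N + ε)) (mt3 l M ε N) := by
  have : Fact (ε < 3) := ⟨by omega⟩
  have hk : Even (3 * N + ε) := by
    rw [Nat.even_iff] at hN ⊢
    omega
  have hl0 : (l : ℂ) ≠ 0 := by exact_mod_cast hl.1.ne_zero
  have he := e_sq hl
  intro s
  have hs : (s : ℕ) ≤ N := Nat.lt_succ_iff.1 s.2
  have h1 : V 3 (TT l e (3 * N + ε) (mo (PowerSeries.map (Int.castRingHom ℂ) a)
      (PowerSeries.map (Int.castRingHom ℂ) c) ε N s)) =
      V 3 (∑ j ∈ Finset.range (N + 1), M ε N j s • mo (PowerSeries.map (Int.castRingHom ℂ) a)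
      (PowerSeries.map (Int.castRingHom ℂ) c) ε N j) := by
    rw [← TT_V3 hl.1 (TLa_l3 hl), TLa_Vmo q, hM.eq ε N s hs, V_sum three_ne_zero]
    refine Finset.sum_congr rfl fun j _ => ?_
    rw [V_smul three_ne_zero, TLa_Vmo q]
  have h2 := V_inj three_ne_zero h1
  rw [TLa_TT hl.1.ne_zero he hk] at h2
  have h3 := congrArg (fun f => (l : ℂ)⁻¹ • f) h2
  simp only [smul_smul, inv_mul_cancel₀ hl0, one_smul, Finset.smul_sum] at h3
  rw [Pool.Agent.Lib.MP_06b9d2_tln.TN_prime l _ hl.1, h3, ← Fin.sum_univ_eq_sum_range (fun j : ℕ =>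
    ((l : ℂ)⁻¹ * M ε N j s) • mo (PowerSeries.map (Int.castRingHom ℂ) a)
      (PowerSeries.map (Int.castRingHom ℂ) c) ε N j) (N + 1)]
  refine Finset.sum_congr rfl fun j _ => ?_
  rw [mt3, Matrix.of_apply, div_eq_inv_mul]

open Pool.Agent.Lib.MP_06b9d2_tls in
theorem sy3 (hl : PL l e s0) (hM : MatD l e A Y M) (ε N : ℕ) (hε : ε ≤ 2) (hN : Even (N + ε)) :
    Sy (mt3 l M ε N) := by
  have : Fact (ε < 3) := ⟨by omega⟩
  have he := e_sq hl
  intro j s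
  have h1 : e ^ (ε + N) = 1 := by
    obtain ⟨v, hv⟩ := hN
    rw [show ε + N = 2 * v by omega, pow_mul, he, one_pow]
  have hj : (j : ℕ) ≤ N := Nat.lt_succ_iff.1 j.2
  have hs : (s : ℕ) ≤ N := Nat.lt_succ_iff.1 s.2
  have e1 : ((Fin.rev j : Fin (N + 1)) : ℕ) = N - j := by
    rw [Fin.val_rev]
    omega
  have e2 : ((Fin.rev s : Fin (N + 1)) : ℕ) = N - s := by
    rw [Fin.val_rev]
    omega
  rw [mt3, Matrix.of_apply, Matrix.of_apply, e1, e2, hM.sym ε N j s hj hs, h1, one_mul]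

open Pool.Agent.Lib.MP_06b9d2_tls in
private theorem TLa_MG (e c : ℂ) (κ : ℕ → ℕ → ℕ → ℂ) (N j s : ℕ) :
    MG e c κ N j s = e ^ s * Pool.Agent.Lib.MP_06b9d2_tl2.MG2
      (fun m n r => (3 * e / c) ^ m * (3 / c) ^ n * κ m n r) N j s := by
  unfold MG Pool.Agent.Lib.MP_06b9d2_tl2.MG2
  rw [Finset.mul_sum]
  refine Finset.sum_congr rfl fun m _ => ?_
  rw [Finset.mul_sum]
  refine Finset.sum_congr rfl fun n _ => ?_
  split_ifs
  · ring
  · ring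

open Pool.Agent.Lib.MP_06b9d2_tls in
theorem act3 (h : Core A Y) (hl : PL l e s0) (hM : MatD l e A Y M) (ε N : ℕ) (hε : ε ≤ 2) (f : ℤ → ℂ)
    (s : Fin (N + 1)) :
    act (mt3 l M ε N) f s =
      (e * cl l e) ^ N / l * (e ^ (s : ℕ) * op (k3 e (cl l e) M ε) N f ((s : ℕ) : ℤ)) := by
  have : Fact (ε < 3) := ⟨by omega⟩
  have hs : (s : ℕ) ≤ N := Nat.lt_succ_iff.1 s.2
  have hdeg : ∀ m n r, m + n < r → k3 e (cl l e) M ε m n r = 0 := by
    intro m n r hr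
    rw [k3, pc_deg (cl l e) hM ε m n r hr, mul_zero]
  have h1 := Pool.Agent.Lib.MP_06b9d2_tln.act_op (k3 e (cl l e) M ε) hdeg
    (Matrix.of fun j s : Fin (N + 1) =>
      Pool.Agent.Lib.MP_06b9d2_tl2.MG2 (k3 e (cl l e) M ε) N (j : ℕ) (s : ℕ)) (fun j s => rfl) f s
  rw [← h1]
  unfold act
  rw [Finset.mul_sum, Finset.mul_sum]
  refine Finset.sum_congr rfl fun j _ => ?_
  have hj : (j : ℕ) ≤ N := Nat.lt_succ_iff.1 j.2
  rw [mt3, Matrix.of_apply, Matrix.of_apply, pc_mat h hl hM ε N j s hj hs, TLa_MG]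
  have h2 : (fun m n r => (3 * e / cl l e) ^ m * (3 / cl l e) ^ n * pc e (cl l e) M ε m n r) =
      k3 e (cl l e) M ε := by
    funext m n r
    rw [k3]
  rw [h2]
  ring

end Pool.Agent.Lib.MP_06b9d2_bm
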